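import Pool.Agent.Lib_MP_f70651_al.Full.Sft

/-!
# MP_f70651_al, full version : Ann
-/

namespace MPf70651.Full

open MPf70651 MvPolynomial

theorem ann_det_mem (A : Subalgebra ℂ RR) (k : ℕ) (M : Matrix (Fin k) (Fin k) RR)
    (h : ∀ a b, M a b ∈ A) : M.det ∈ A := by
  rw [Matrix.det_apply]
  apply Subalgebra.sum_mem
  intro σ _
  have h1 : ∏ i, M (σ i) i ∈ A := Subalgebra.prod_mem _ fun i _ => h _ _
  rcases Int.units_eq_one_or (Equiv.Perm.sign σ) with h2 | h2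
  · rw [h2, one_smul]
    exact h1
  · rw [h2]
    have : ((-1 : ℤˣ) • ∏ i, M (σ i) i) = - ∏ i, M (σ i) i := by
      rw [Units.smul_def]
      simp
    rw [this]
    exact Subalgebra.neg_mem _ h1

/-- The region: pairs `(a, b)` off the diagonal, `a ∈ I ∪ F`, `b ∈ J ∪ F`, not both in `F`. -/
def annL (F I J : Set ℕ) : Set {p : ℕ × ℕ // p.1 ≠ p.2} :=
  {c | (c.1.1 ∈ F ∨ c.1.1 ∈ I) ∧ (c.1.2 ∈ F ∨ c.1.2 ∈ J) ∧ ¬ (c.1.1 ∈ F ∧ c.1.2 ∈ F)}

theorem ann_yR_mem (F I J : Set ℕ) {a b : ℕ} (h1 : a ∈ F ∨ a ∈ I) (h2 : b ∈ F ∨ b ∈ J)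
    (h3 : ¬ (a ∈ F ∧ b ∈ F)) : yR a b ∈ supported ℂ (annL F I J) := by
  unfold yR
  by_cases h : a = b
  · rw [dif_neg (by simpa using h)]
    exact Subalgebra.zero_mem _
  · rw [dif_pos h]
    have h4 : (⟨(a, b), h⟩ : {p : ℕ × ℕ // p.1 ≠ p.2}) ∈ annL F I J := ⟨h1, h2, h3⟩
    rw [MvPolynomial.X_mem_supported]
    exact h4

/-- The bordered minor. -/
theorem ann_one (ρ : ℕ) (F I J : Set ℕ) (p : Fin ρ ⊕ Fin ρ → ℕ) (hp : Vld ρ p)
    (hF : ∀ x, p x ∉ F) (hI : ∀ a, p (Sum.inl a) ∈ I) (hJ : ∀ a, p (Sum.inr a) ∈ J)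
    (c : {p : ℕ × ℕ // p.1 ≠ p.2}) (h1 : c.1.1 ∈ F) (h2 : c.1.2 ∈ F) :
    ∃ g ∈ supported ℂ (annL F I J), minor ρ yR p * X c - g ∈ IR (ρ + 1) := by
  obtain ⟨⟨j, k⟩, hjk⟩ := c
  simp only at h1 h2 hjk
  set p' : Fin (ρ + 1) ⊕ Fin (ρ + 1) → ℕ := Sum.elim
    (Fin.cons j (fun a => p (Sum.inl a)) : Fin (ρ + 1) → ℕ)
    (Fin.cons k (fun a => p (Sum.inr a)) : Fin (ρ + 1) → ℕ) with hp'
  have hV : Vld (ρ + 1) p' := by
    intro a b
    refine Fin.cases ?_ (fun a => ?_) a <;> refine Fin.cases ?_ (fun b => ?_) b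
    · exact hjk
    · intro h
      have h' : j = p (Sum.inr b) := h
      exact hF _ (h' ▸ h1)
    · intro h
      have h' : p (Sum.inl a) = k := h
      exact hF _ (h' ▸ h2)
    · exact hp a b
  have hmem : minor (ρ + 1) yR p' ∈ IR (ρ + 1) := Ideal.subset_span ⟨p', hV, rfl⟩
  have hexp : minor (ρ + 1) yR p' = X ⟨(j, k), hjk⟩ * minor ρ yR p +
      ∑ b : Fin ρ, (-1) ^ ((b.succ : Fin (ρ + 1)) : ℕ) * yR j (p (Sum.inr b)) *
        ((Matrix.of fun a b : Fin (ρ + 1) => yR (p' (Sum.inl a)) (p' (Sum.inr b))).submatrix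
          Fin.succ (b.succ).succAbove).det := by
    unfold minor
    rw [Matrix.det_succ_row_zero, Fin.sum_univ_succ]
    congr 1
    rw [Fin.val_zero, pow_zero, one_mul]
    congr 1
    show yR j k = _
    unfold yR
    rw [dif_pos hjk]
  refine ⟨- ∑ b : Fin ρ, (-1) ^ ((b.succ : Fin (ρ + 1)) : ℕ) * yR j (p (Sum.inr b)) *
        ((Matrix.of fun a b : Fin (ρ + 1) => yR (p' (Sum.inl a)) (p' (Sum.inr b))).submatrix
          Fin.succ (b.succ).succAbove).det, ?_, ?_⟩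
  · apply Subalgebra.neg_mem
    apply Subalgebra.sum_mem
    intro b _
    apply Subalgebra.mul_mem
    · apply Subalgebra.mul_mem
      · exact Subalgebra.pow_mem _ (Subalgebra.neg_mem _ (Subalgebra.one_mem _)) _
      · exact ann_yR_mem F I J (Or.inl h1) (Or.inr (hJ b)) (fun h => hF _ h.2)
    · apply ann_det_mem
      intro a b'
      rw [Matrix.submatrix_apply, Matrix.of_apply]
      show yR (p (Sum.inl a)) (p' (Sum.inr _)) ∈ _
      apply ann_yR_mem F I J (Or.inr (hI a))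
      · refine Fin.cases ?_ (fun b => ?_) ((b.succ).succAbove b')
        · left; exact h2
        · right; exact hJ b
      · intro h
        exact hF _ h.1
  · rw [sub_neg_eq_add, mul_comm (minor ρ yR p), ← hexp]
    exact hmem

theorem ann_multi (ρ q : ℕ) (F I J : Set ℕ) (p : Fin q → Fin ρ ⊕ Fin ρ → ℕ)
    (hp : ∀ l, Vld ρ (p l)) (hF : ∀ l x, p l x ∉ F) (hI : ∀ l a, p l (Sum.inl a) ∈ I)
    (hJ : ∀ l a, p l (Sum.inr a) ∈ J) (s : Multiset {p : ℕ × ℕ // p.1 ≠ p.2}) :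
    (∀ c ∈ s, c.1.1 ∈ F ∧ c.1.2 ∈ F) → ∀ T : Finset (Fin q), Multiset.card s ≤ T.card →
    ∃ g ∈ supported ℂ (annL F I J),
      (∏ l ∈ T, minor ρ yR (p l)) * (s.map X).prod - g ∈ IR (ρ + 1) := by
  induction s using Multiset.induction_on with
  | empty =>
    intro _ T _
    refine ⟨∏ l ∈ T, minor ρ yR (p l), ?_, ?_⟩
    · apply Subalgebra.prod_mem
      intro l _
      apply ann_det_mem
      intro a b
      exact ann_yR_mem F I J (Or.inr (hI l a)) (Or.inr (hJ l b)) (fun h => hF _ _ h.1)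
    · rw [Multiset.map_zero, Multiset.prod_zero, mul_one, sub_self]
      exact Ideal.zero_mem _
  | cons c s ih =>
    intro hs T hT
    rw [Multiset.card_cons] at hT
    have hne : T.Nonempty := by
      rw [← Finset.card_pos]; omega
    obtain ⟨l0, hl0⟩ := hne
    obtain ⟨g', hg', h'⟩ := ih (fun c hc => hs c (Multiset.mem_cons_of_mem hc)) (T.erase l0) (by
      rw [Finset.card_erase_of_mem hl0]; omega)
    obtain ⟨g, hg, h⟩ := ann_one ρ F I J (p l0) (hp l0) (hF l0) (hI l0) (hJ l0) c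
      (hs c (Multiset.mem_cons_self c s)).1 (hs c (Multiset.mem_cons_self c s)).2
    refine ⟨g * g', Subalgebra.mul_mem _ hg hg', ?_⟩
    have e : (∏ l ∈ T, minor ρ yR (p l)) * (Multiset.map X (c ::ₘ s)).prod - g * g' =
        (minor ρ yR (p l0) * X c - g) * ((∏ l ∈ T.erase l0, minor ρ yR (p l)) *
          (Multiset.map X s).prod) + g * ((∏ l ∈ T.erase l0, minor ρ yR (p l)) *
          (Multiset.map X s).prod - g') := by
      rw [← Finset.mul_prod_erase T _ hl0, Multiset.map_cons, Multiset.prod_cons]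
      ring
    rw [e]
    exact Ideal.add_mem _ (Ideal.mul_mem_right _ _ h) (Ideal.mul_mem_left _ _ h')

theorem ann_poly (ρ q : ℕ) (F I J : Set ℕ) (p : Fin q → Fin ρ ⊕ Fin ρ → ℕ)
    (hp : ∀ l, Vld ρ (p l)) (hF : ∀ l x, p l x ∉ F) (hI : ∀ l a, p l (Sum.inl a) ∈ I)
    (hJ : ∀ l a, p l (Sum.inr a) ∈ J) (κ : RR) (hκ : ∀ c ∈ κ.vars, c.1.1 ∈ F ∧ c.1.2 ∈ F)
    (hq : κ.totalDegree ≤ q) :
    ∃ g ∈ supported ℂ (annL F I J), κ * (∏ l, minor ρ yR (p l)) - g ∈ IR (ρ + 1) := by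
  have key : ∀ m ∈ κ.support, ∃ g ∈ supported ℂ (annL F I J),
      monomial m (coeff m κ) * (∏ l, minor ρ yR (p l)) - g ∈ IR (ρ + 1) := by
    intro m hm
    obtain ⟨g, hg, h⟩ := ann_multi ρ q F I J p hp hF hI hJ (Finsupp.toMultiset m) (by
      intro c hc
      apply hκ
      rw [MvPolynomial.mem_vars_iff_mem_support]
      exact ⟨m, hm, by rwa [Finsupp.mem_toMultiset] at hc⟩) Finset.univ (by
      rw [Finset.card_univ, Fintype.card_fin, Finsupp.card_toMultiset]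
      refine le_trans ?_ hq
      exact MvPolynomial.le_totalDegree hm)
    refine ⟨C (coeff m κ) * g, Subalgebra.mul_mem _ (Subalgebra.algebraMap_mem _ _) hg, ?_⟩
    have e : monomial m (coeff m κ) * (∏ l, minor ρ yR (p l)) - C (coeff m κ) * g =
        C (coeff m κ) * ((∏ l, minor ρ yR (p l)) * (Multiset.map X (Finsupp.toMultiset m)).prod
          - g) := by
      have e1 : (monomial m (coeff m κ) : RR) =
          C (coeff m κ) * (Multiset.map X (Finsupp.toMultiset m)).prod := by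
        rw [Finsupp.toMultiset_map, Finsupp.prod_toMultiset, MvPolynomial.monomial_eq,
          Finsupp.prod_mapDomain_index (fun _ => pow_zero _) (fun _ _ _ => pow_add _ _ _)]
      rw [e1]
      ring
    rw [e]
    exact Ideal.mul_mem_left _ _ h
  choose g hg h using key
  refine ⟨∑ m ∈ κ.support.attach, g m.1 m.2, Subalgebra.sum_mem _ fun m _ => hg m.1 m.2, ?_⟩
  have e : κ * (∏ l, minor ρ yR (p l)) - ∑ m ∈ κ.support.attach, g m.1 m.2 =
      ∑ m ∈ κ.support.attach, (monomial m.1 (coeff m.1 κ) * (∏ l, minor ρ yR (p l))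
        - g m.1 m.2) := by
    rw [Finset.sum_sub_distrib, ← Finset.sum_mul]
    congr 2
    conv_lhs => rw [κ.as_sum]
    rw [Finset.sum_attach κ.support (fun m => monomial m (coeff m κ))]
  rw [e]
  exact Ideal.sum_mem _ fun m _ => h m.1 m.2

theorem ann_pure (ρ q : ℕ) (κ : RR) (h : PhiR ρ κ = 0) (hq : κ.totalDegree ≤ q)
    (F : Finset ℕ) (hF : IdxIn F κ) (p : Fin q → Fin ρ ⊕ Fin ρ → ℕ) (hp : ∀ l, Vld ρ (p l))
    (hp1 : ∀ l x, p l x ∉ F) (hp2 : ∀ l l', l ≠ l' → ∀ x x', p l x ≠ p l' x') :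
    κ * ∏ l, minor ρ yR (p l) ∈ IR (ρ + 1) := by
  classical
  set I : Set ℕ := {i | ∃ l a, i = p l (Sum.inl a)} with hI
  set J : Set ℕ := {i | ∃ l a, i = p l (Sum.inr a)} with hJ
  obtain ⟨g, hg, hgI⟩ := ann_poly ρ q (F : Set ℕ) I J p hp (fun l x => by simpa using hp1 l x)
    (fun l a => ⟨l, a, rfl⟩) (fun l a => ⟨l, a, rfl⟩) κ (fun c hc => by simpa using hF c hc) hq
  -- the bound
  obtain ⟨N, hN1, hN2⟩ : ∃ N : ℕ, (∀ x ∈ F, x < N) ∧ ∀ l x, p l x < N := by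
    refine ⟨max (F.sup id + 1) (Finset.univ.sup (fun l => Finset.univ.sup (fun x => p l x)) + 1),
      fun x hx => ?_, fun l x => ?_⟩
    · have h1 : x ≤ F.sup id := Finset.le_sup (f := id) hx
      omega
    · have h1 : p l x ≤ Finset.univ.sup (fun x => p l x) :=
        Finset.le_sup (f := fun x => p l x) (Finset.mem_univ x)
      have h2 : Finset.univ.sup (fun x => p l x) ≤
          Finset.univ.sup (fun l => Finset.univ.sup (fun x => p l x)) :=
        Finset.le_sup (f := fun l => Finset.univ.sup (fun x => p l x)) (Finset.mem_univ l)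
      omega
  set row : ℕ → ℕ := fun i => if i ∈ F then 2 * (i + N) + 1 else 2 * i with hrow
  set col : ℕ → ℕ := fun i => if i ∈ F then 2 * i + 1 else 2 * (i + N) with hcol
  have hrow' : Function.Injective row := by
    intro a b hab
    simp only [hrow] at hab
    split at hab <;> split at hab <;> omega
  have hcol' : Function.Injective col := by
    intro a b hab
    simp only [hcol] at hab
    split at hab <;> split at hab <;> omega
  have hIb : ∀ i ∈ I, i < N ∧ i ∉ F := by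
    rintro _ ⟨l, a, rfl⟩
    exact ⟨hN2 _ _, hp1 _ _⟩
  have hJb : ∀ i ∈ J, i < N ∧ i ∉ F := by
    rintro _ ⟨l, a, rfl⟩
    exact ⟨hN2 _ _, hp1 _ _⟩
  have hIJ : ∀ i ∈ I, ∀ j ∈ J, i ≠ j := by
    rintro _ ⟨l, a, rfl⟩ _ ⟨l', b, rfl⟩
    by_cases hl : l = l'
    · subst hl; exact hp l a b
    · exact hp2 l l' hl _ _
  have hcl : Closed row col (annL (F : Set ℕ) I J) := by
    rintro ⟨⟨r1, c1⟩, hne1⟩ ⟨hr1, hc1, hn1⟩ ⟨⟨r2, c2⟩, hne2⟩ ⟨hr2, hc2, hn2⟩ hr hc
    simp only [Finset.mem_coe] at hr1 hc1 hn1 hr2 hc2 hn2 hr hc hne1 hne2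
    -- r1 ∈ F → r2 ∈ F
    have k1 : r1 ∈ F → r2 ∈ F := by
      intro h1
      rcases hr2 with h2 | h2
      · exact h2
      · exfalso
        have h3 := hIb r2 h2
        simp only [hrow] at hr
        rw [if_pos h1, if_neg h3.2] at hr
        omega
    have k2 : c1 ∈ F → c2 ∈ F := by
      intro h1
      rcases hc2 with h2 | h2
      · exact h2
      · exfalso
        have h3 := hJb c2 h2
        have h4 := hN1 c1 h1
        simp only [hcol] at hc
        rw [if_pos h1, if_neg h3.2] at hc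
        omega
    have m1 : ¬ (r1 ∈ F ∧ c2 ∈ F) := fun h => hn2 ⟨k1 h.1, h.2⟩
    have m2 : ¬ (r2 ∈ F ∧ c1 ∈ F) := fun h => hn2 ⟨h.1, k2 h.2⟩
    have ne : ∀ r c, (r ∈ F ∨ r ∈ I) → (c ∈ F ∨ c ∈ J) → ¬ (r ∈ F ∧ c ∈ F) → r ≠ c := by
      intro r c hr hc hn
      rcases hr with hr | hr
      · rcases hc with hc | hc
        · exact absurd ⟨hr, hc⟩ hn
        · rintro rfl
          exact (hJb _ hc).2 hr
      · rcases hc with hc | hc
        · rintro rfl
          exact (hIb _ hr).2 hc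
        · exact hIJ _ hr _ hc
    exact ⟨⟨ne r1 c2 hr1 hc2 m1, hr1, hc2, m1⟩, ⟨ne r2 c1 hr2 hc1 m2, hr2, hc1, m2⟩⟩
  have hzero : PhiR ρ g = 0 := by
    have h4 := IR_le_ker ρ _ hgI
    rw [map_sub, map_mul, h, zero_mul, zero_sub, neg_eq_zero] at h4
    exact h4
  have hfin := sft row col hrow' hcol' (annL (F : Set ℕ) I J) hcl ρ g (fun c hc => by
    rw [MvPolynomial.mem_supported] at hg
    exact hg hc) hzero
  have := Ideal.add_mem _ hgI hfin
  rwa [sub_add_cancel] at this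

end MPf70651.Full
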