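import Pool.Agent.Lib_MP_f70651_al.Full.Mzero

/-!
# MP_f70651_al, full version : Pure
-/

namespace MPf70651.Full

open MPf70651 MvPolynomial

namespace PureD

/-- the `y` part of an exponent -/
noncomputable def yp {β : Type} (m : IF β →₀ ℕ) : {p : ℕ × ℕ // p.1 ≠ p.2} →₀ ℕ :=
  m.comapDomain (fun p => (some (Sum.inl p) : IF β))
    (fun _ _ _ _ h => Sum.inl_injective (Option.some_injective _ h))

/-- the embedding of the other variables -/
def rg (β : Type) : Option (ℕ × β) → IF β := Option.map Sum.inr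

theorem rg_inj (β : Type) : Function.Injective (rg β) :=
  Option.map_injective Sum.inr_injective

/-- the other part of an exponent -/
noncomputable def rs {β : Type} (m : IF β →₀ ℕ) : Option (ℕ × β) →₀ ℕ :=
  m.comapDomain (rg β) (fun _ _ _ _ h => rg_inj β h)

theorem yg_inj (β : Type) :
    Function.Injective (fun p : {p : ℕ × ℕ // p.1 ≠ p.2} => (some (Sum.inl p) : IF β)) :=
  fun _ _ h => Sum.inl_injective (Option.some_injective _ h)

theorem split {β : Type} (m : IF β →₀ ℕ) :
    (yp m).mapDomain (fun p => (some (Sum.inl p) : IF β)) + (rs m).mapDomain (rg β) = m := by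
  ext v
  rw [Finsupp.add_apply]
  rcases v with _ | (p | q)
  · rw [Finsupp.mapDomain_of_notMem_range, zero_add]
    · have h : (none : IF β) = rg β none := rfl
      rw [h, Finsupp.mapDomain_apply (rg_inj β)]
      rfl
    · rintro ⟨p, hp⟩
      cases hp
  · rw [Finsupp.mapDomain_of_notMem_range (rs m), add_zero]
    · have := Finsupp.mapDomain_apply (yg_inj β) (yp m) p
      rw [this]
      rfl
    · rintro ⟨o, ho⟩
      cases o with
      | none => cases ho
      | some q => cases ho
  · rw [Finsupp.mapDomain_of_notMem_range, zero_add]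
    · have h : (some (Sum.inr q) : IF β) = rg β (some q) := rfl
      rw [h, Finsupp.mapDomain_apply (rg_inj β)]
      rfl
    · rintro ⟨p, hp⟩
      cases hp

/-- `u`, `v` variables only. -/
noncomputable def MM' (ρ : ℕ) (i j : ℕ) : MvPolynomial (ℕ × (Fin ρ × Bool)) ℂ :=
  ∑ a : Fin ρ, X (i, (a, true)) * X (j, (a, false))

noncomputable def PhiR' (ρ : ℕ) : RR →ₐ[ℂ] MvPolynomial (ℕ × (Fin ρ × Bool)) ℂ :=
  aeval (fun p : {p : ℕ × ℕ // p.1 ≠ p.2} => MM' ρ p.1.1 p.1.2)

theorem PhiR_eq (ρ : ℕ) (κ : RR) :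
    PhiR ρ κ = rename (fun q : ℕ × (Fin ρ × Bool) => (some (q.1, Sum.inl q.2) :
      Option (ℕ × KK ρ Empty))) (PhiR' ρ κ) := by
  have h : PhiR ρ = (rename (fun q : ℕ × (Fin ρ × Bool) => (some (q.1, Sum.inl q.2) :
      Option (ℕ × KK ρ Empty)))).comp (PhiR' ρ) := by
    apply MvPolynomial.algHom_ext
    intro p
    simp only [PhiR, PhiR', AlgHom.comp_apply, aeval_X, MM, MM', map_sum, map_mul, rename_X]
  rw [h]
  rfl

/-- the separation of the variables -/
noncomputable def Psi (ρ : ℕ) (β : Type) : QQ (KK ρ β) →ₐ[ℂ]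
    MvPolynomial (Option (ℕ × β)) (MvPolynomial (ℕ × (Fin ρ × Bool)) ℂ) :=
  aeval (fun v : Option (ℕ × KK ρ β) => match v with
    | none => X none
    | some (i, Sum.inl q) => C (X (i, q))
    | some (i, Sum.inr b) => X (some (i, b)))

theorem Psi_inc (ρ : ℕ) (β : Type) (κ : RR) :
    Psi ρ β (PhiF ρ β (incR β κ)) = C (PhiR' ρ κ) := by
  have h : ((Psi ρ β).comp ((PhiF ρ β).comp (incR β))) =
      (IsScalarTower.toAlgHom ℂ (MvPolynomial (ℕ × (Fin ρ × Bool)) ℂ)
        (MvPolynomial (Option (ℕ × β)) (MvPolynomial (ℕ × (Fin ρ × Bool)) ℂ))).comp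
        (PhiR' ρ) := by
    apply MvPolynomial.algHom_ext
    intro p
    simp only [AlgHom.comp_apply, incR, rename_X, PhiF, aeval_X, MM, PhiR', MM', map_sum, map_mul,
      Psi, IsScalarTower.coe_toAlgHom', MvPolynomial.algebraMap_eq]
  have h2 := congrArg (fun f => f κ) h
  exact h2

theorem Psi_mon (ρ : ℕ) (β : Type) (μ : Option (ℕ × β) →₀ ℕ) :
    Psi ρ β (PhiF ρ β (monomial (μ.mapDomain (rg β)) 1)) = monomial μ 1 := by
  have h0 : (monomial (μ.mapDomain (rg β)) (1 : ℂ)) = rename (rg β) (monomial μ (1 : ℂ)) := by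
    rw [rename_monomial]
  rw [h0, monomial_eq, monomial_eq, C_1, C_1, one_mul, one_mul]
  rw [Finsupp.prod, Finsupp.prod, map_prod, map_prod, map_prod]
  apply Finset.prod_congr rfl
  intro v _
  rw [map_pow, map_pow, map_pow, rename_X]
  congr 1
  rcases v with _ | q
  · simp only [rg, Option.map_none, PhiF, aeval_X, Psi]
  · simp only [rg, Option.map_some, PhiF, aeval_X, Psi, TT]

end PureD

open PureD in
theorem pure_decomp (ρ : ℕ) (β : Type) (x : FF β) (hx : PhiF ρ β x = 0) :
    x ∈ Ideal.span {q : FF β | ∃ κ : RR, PhiR ρ κ = 0 ∧ κ.totalDegree ≤ x.totalDegree ∧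
      (∀ p ∈ κ.vars, (some (Sum.inl p) : IF β) ∈ x.vars) ∧ q = incR β κ} := by
  classical
  set κ : (Option (ℕ × β) →₀ ℕ) → RR := fun μ =>
    ∑ m ∈ x.support.filter (fun m => rs m = μ), monomial (yp m) (x.coeff m) with hκ
  have hterm : ∀ m : IF β →₀ ℕ, ∀ c : ℂ, (monomial m c : FF β) =
      incR β (monomial (yp m) c) * monomial ((rs m).mapDomain (rg β)) 1 := by
    intro m c
    unfold incR
    rw [rename_monomial, monomial_mul, mul_one, split]
  have hsum : x = ∑ μ ∈ x.support.image rs,
      incR β (κ μ) * monomial (μ.mapDomain (rg β)) 1 := by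
    have h1 : ∀ μ ∈ x.support.image rs, incR β (κ μ) * monomial (μ.mapDomain (rg β)) 1 =
        ∑ m ∈ x.support.filter (fun m => rs m = μ), monomial m (x.coeff m) := by
      intro μ _
      rw [hκ]
      simp only
      rw [map_sum, Finset.sum_mul]
      apply Finset.sum_congr rfl
      intro m hm
      rw [hterm m (x.coeff m), (Finset.mem_filter.mp hm).2]
    rw [Finset.sum_congr rfl h1]
    rw [Finset.sum_fiberwise_of_maps_to (fun m hm => Finset.mem_image_of_mem rs hm)]
    exact x.as_sum
  have hzero : ∀ μ ∈ x.support.image rs, PhiR ρ (κ μ) = 0 := by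
    intro μ0 hμ0
    have h1 : (0 : MvPolynomial (Option (ℕ × β)) (MvPolynomial (ℕ × (Fin ρ × Bool)) ℂ)) =
        ∑ μ ∈ x.support.image rs, monomial μ (PhiR' ρ (κ μ)) := by
      have h2 : Psi ρ β (PhiF ρ β x) = 0 := by rw [hx, map_zero]
      rw [← h2]
      conv_lhs => rw [hsum]
      rw [map_sum, map_sum]
      apply Finset.sum_congr rfl
      intro μ _
      rw [map_mul, map_mul, Psi_inc, Psi_mon, C_mul_monomial, mul_one]
    have h3 := congrArg (coeff μ0) h1
    rw [coeff_zero, coeff_sum] at h3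
    rw [Finset.sum_eq_single μ0] at h3
    · rw [coeff_monomial, if_pos rfl] at h3
      rw [PhiR_eq, ← h3, map_zero]
    · intro μ _ hne
      rw [coeff_monomial, if_neg hne]
    · intro h
      exact absurd hμ0 h
  have hmem : ∀ μ ∈ x.support.image rs, incR β (κ μ) * monomial (μ.mapDomain (rg β)) 1 ∈
      Ideal.span {q : FF β | ∃ κ : RR, PhiR ρ κ = 0 ∧ κ.totalDegree ≤ x.totalDegree ∧
      (∀ p ∈ κ.vars, (some (Sum.inl p) : IF β) ∈ x.vars) ∧ q = incR β κ} := by
    intro μ hμ
    apply Ideal.mul_mem_right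
    apply Ideal.subset_span
    refine ⟨κ μ, hzero μ hμ, ?_, ?_, rfl⟩
    · apply (totalDegree_finsetSum _ _).trans
      apply Finset.sup_le
      intro m hm
      have hm1 := (Finset.mem_filter.mp hm).1
      apply (totalDegree_monomial_le _ _).trans
      refine le_trans ?_ (le_totalDegree hm1)
      have h4 : (m.sum fun _ e => e) = ((yp m).mapDomain (fun p => (some (Sum.inl p) : IF β)) +
          (rs m).mapDomain (rg β)).sum fun _ e => e := by rw [split]
      rw [h4, Finsupp.sum_add_index' (fun _ => rfl) (fun _ _ _ => rfl),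
        Finsupp.sum_mapDomain_index (fun _ => rfl) (fun _ _ _ => rfl)]
      exact Nat.le_add_right _ _
    · intro p hp
      rw [mem_vars_iff_mem_support] at hp
      obtain ⟨d, hd, hpd⟩ := hp
      have h5 : d ∈ (κ μ).support := hd
      have h6 : ∃ m ∈ x.support.filter (fun m => rs m = μ), yp m = d := by
        by_contra hcon
        push Not at hcon
        rw [mem_support_iff] at h5
        apply h5
        rw [hκ]
        simp only
        rw [coeff_sum]
        apply Finset.sum_eq_zero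
        intro m hm
        rw [coeff_monomial, if_neg (hcon m hm)]
      obtain ⟨m, hm, rfl⟩ := h6
      rw [mem_vars_iff_mem_support]
      refine ⟨m, (Finset.mem_filter.mp hm).1, ?_⟩
      rw [Finsupp.mem_support_iff] at hpd ⊢
      exact hpd
  have hfin := Ideal.sum_mem _ hmem
  rw [← hsum] at hfin
  exact hfin

end MPf70651.Full
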