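import Pool.Agent.Lib_MP_f70651_al.Full.Ann
import Pool.Agent.Lib_MP_f70651_al.Full.Pure

/-!
# MP_f70651_al, full version : Annf
-/

namespace MPf70651.Full

open MPf70651 MvPolynomial

/-- The action of an increasing map on the off diagonal cells. -/
def annfShift (τ : ℕ ↪o ℕ) (p : {p : ℕ × ℕ // p.1 ≠ p.2}) : {p : ℕ × ℕ // p.1 ≠ p.2} :=
  ⟨(τ p.1.1, τ p.1.2), fun h => p.2 (τ.injective h)⟩

theorem annf_act_incR (β : Type) (τ : ℕ ↪o ℕ) (κ : RR) :
    (actF β).act τ (incR β κ) = incR β (rename (annfShift τ) κ) := by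
  show rename (actI β τ) (rename _ κ) = rename _ (rename _ κ)
  rw [rename_rename, rename_rename]
  rfl

theorem annf_PhiR (ρ : ℕ) (τ : ℕ ↪o ℕ) (κ : RR) :
    PhiR ρ (rename (annfShift τ) κ) = (actQ (KK ρ Empty)).act τ (PhiR ρ κ) := by
  have h : (PhiR ρ).comp (rename (annfShift τ) : RR →ₐ[ℂ] RR) =
      (rename (actV (KK ρ Empty) τ) : QQ (KK ρ Empty) →ₐ[ℂ] QQ (KK ρ Empty)).comp (PhiR ρ) := by
    apply MvPolynomial.algHom_ext
    intro p
    rw [AlgHom.comp_apply, AlgHom.comp_apply, rename_X]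
    unfold PhiR
    rw [aeval_X, aeval_X]
    exact (actQ_MM ρ Empty τ p.1.1 p.1.2).symm
  exact congrArg (fun g => g κ) h

theorem ann_F (ρ : ℕ) (β : Type) (q n : ℕ) (x : FF β) (h : PhiF ρ β x = 0)
    (hq : x.totalDegree ≤ q) (hx : ∀ v ∈ x.vars, bdI v ≤ n) (ψ : Pos n)
    (p : Fin q → Fin ρ ⊕ Fin ρ → ℕ) (hp : ∀ l, Vld ρ (p l)) (hp1 : ∀ l y j, p l y ≠ ψ j)
    (hp2 : ∀ l l', l ≠ l' → ∀ x x', p l x ≠ p l' x') :
    (∏ l, minor ρ (yF β) (p l)) * (actF β).act (ext ψ) x ∈ II β (ρ + 1) := by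
  classical
  have hdec := pure_decomp ρ β x h
  refine Submodule.span_induction (p := fun y _ =>
    (∏ l, minor ρ (yF β) (p l)) * (actF β).act (ext ψ) y ∈ II β (ρ + 1)) ?_ ?_ ?_ ?_ hdec
  · rintro _ ⟨κ, hκ0, hκd, hκv, rfl⟩
    rw [annf_act_incR]
    have h1 : PhiR ρ (rename (annfShift (ext ψ)) κ) = 0 := by
      rw [annf_PhiR, hκ0, map_zero]
    have h2 : (rename (annfShift (ext ψ)) κ).totalDegree ≤ q :=
      (totalDegree_rename_le _ _).trans (hκd.trans hq)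
    have h3 : IdxIn (Finset.univ.image ψ) (rename (annfShift (ext ψ)) κ) := by
      intro c hc
      obtain ⟨c', hc', rfl⟩ := Finset.mem_image.1 (vars_rename _ _ hc)
      have h4 := hx _ (hκv c' hc')
      have h5 : max c'.1.1 c'.1.2 + 1 ≤ n := h4
      have h6 : c'.1.1 < n := by omega
      have h7 : c'.1.2 < n := by omega
      refine ⟨Finset.mem_image.2 ⟨⟨c'.1.1, h6⟩, Finset.mem_univ _, ?_⟩,
        Finset.mem_image.2 ⟨⟨c'.1.2, h7⟩, Finset.mem_univ _, ?_⟩⟩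
      · exact (ext_apply ψ _ h6).symm
      · exact (ext_apply ψ _ h7).symm
    have h8 := ann_pure ρ q (rename (annfShift (ext ψ)) κ) h1 h2 (Finset.univ.image ψ) h3 p hp
      (by
        intro l y hy
        obtain ⟨j, -, hj⟩ := Finset.mem_image.1 hy
        exact hp1 l y j hj.symm) hp2
    have h9 := incR_IR β (ρ + 1) _ h8
    rw [map_mul, map_prod] at h9
    simp only [incR_minor] at h9
    rw [mul_comm]
    exact h9
  · rw [map_zero, mul_zero]; exact Ideal.zero_mem _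
  · intro a b _ _ ha hb
    rw [map_add, mul_add]; exact Ideal.add_mem _ ha hb
  · intro a b _ hb
    rw [smul_eq_mul, map_mul, mul_left_comm]
    exact Ideal.mul_mem_left _ _ hb

end MPf70651.Full
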