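import Pool.Agent.Lib_MP_f70651_al.Full.Pull
import Pool.Agent.Lib_MP_f70651_al.Grob

/-!
# MP_f70651_al, full version : Base
-/

namespace MPf70651.Full

open MPf70651 MvPolynomial

/-- The polynomial ring is noetherian up to increasing maps. -/
theorem base_noeth (κ : Type) [Fintype κ] (w : ℕ) :
    Noeth (actQ κ) ⊤ (cst w ⊥) (cst w (⊤ : Subring (QQ κ)).toAddSubgroup) := by
  intro N hN _ _
  obtain ⟨G, hGf, hG1, hG2⟩ := noeth_QQ w κ (fun φ =>
    ({ carrier := N φ
       add_mem' := fun {a b} ha hb => AddSubgroup.add_mem _ ha hb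
       zero_mem' := AddSubgroup.zero_mem _
       smul_mem' := fun c x hx => by
        rw [smul_eq_mul]
        exact hN.smul φ c x (Subring.mem_top _) hx } : Ideal (QQ κ)))
    (fun φ τ p hp => hN.act φ τ p hp)
  refine ⟨G, hGf, hG1, ?_⟩
  intro φ x hx
  apply AddSubgroup.mem_sup_right
  have hgen : IsFam (actQ κ) (⊤ : Subring (QQ κ)) (gen (actQ κ) ⊤ G) :=
    isFam_gen stab_top G
  refine Submodule.span_induction (p := fun x _ => x ∈ gen (actQ κ) ⊤ G φ) ?_ ?_ ?_ ?_
    (hG2 φ hx)
  · rintro _ ⟨g, hg, τ, hτ, rfl⟩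
    have h := mem_gen (S := actQ κ) (B := ⊤) hg τ 1 (Subring.mem_top _)
    rw [one_mul, hτ] at h
    exact h
  · exact AddSubgroup.zero_mem _
  · intro x y _ _ hx hy
    exact AddSubgroup.add_mem _ hx hy
  · intro a x _ hx
    exact hgen.smul φ a x (Subring.mem_top _) hx

/-- `ℂ[e, t] → F`. -/
noncomputable def baseTh (β : Type) : QQ β →ₐ[ℂ] FF β :=
  aeval (fun v : Option (ℕ × β) => match v with
    | none => X none
    | some q => X (some (Sum.inr q)))

theorem baseTh_act (β : Type) (τ : ℕ ↪o ℕ) (x : QQ β) :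
    (actF β).act τ (baseTh β x) = baseTh β ((actQ β).act τ x) := by
  have h : ((rename (actI β τ) : FF β →ₐ[ℂ] FF β).comp (baseTh β)) =
      (baseTh β).comp (rename (actV β τ) : QQ β →ₐ[ℂ] QQ β) := by
    apply MvPolynomial.algHom_ext
    intro o
    rw [AlgHom.comp_apply, AlgHom.comp_apply, rename_X]
    unfold baseTh
    rw [aeval_X, aeval_X]
    rcases o with _ | ⟨i, b⟩
    · show rename (actI β τ) (X none) = X none
      rw [rename_X]
      rfl
    · show rename (actI β τ) (X (some (Sum.inr (i, b)))) = X (some (Sum.inr (τ i, b)))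
      rw [rename_X]
      rfl
  exact congrArg (fun g => g x) h

theorem base_X_mem (β : Type) (p : {p : ℕ × ℕ // p.1 ≠ p.2}) :
    (X (some (Sum.inl p)) : FF β) ∈ II β 1 := by
  refine Ideal.subset_span ⟨Sum.elim (fun _ => p.1.1) (fun _ => p.1.2), ?_, ?_⟩
  · intro a b
    exact p.2
  · unfold minor
    rw [Matrix.det_fin_one]
    show _ = yF β p.1.1 p.1.2
    unfold yF
    rw [dif_pos p.2]

theorem base_surj (β : Type) (y : FF β) : ∃ x : QQ β, y - baseTh β x ∈ II β 1 := by
  induction y using MvPolynomial.induction_on with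
  | C c =>
    refine ⟨C c, ?_⟩
    have h : baseTh β (C c) = C c := by
      unfold baseTh
      rw [aeval_C]
      rfl
    rw [h, sub_self]
    exact Ideal.zero_mem _
  | add p q hp hq =>
    obtain ⟨x, hx⟩ := hp
    obtain ⟨y, hy⟩ := hq
    refine ⟨x + y, ?_⟩
    rw [map_add, add_sub_add_comm]
    exact Ideal.add_mem _ hx hy
  | mul_X p v hp =>
    obtain ⟨x, hx⟩ := hp
    rcases v with _ | (q | q)
    · refine ⟨x * X none, ?_⟩
      have h : baseTh β (X none) = X none := by
        unfold baseTh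
        rw [aeval_X]
      rw [map_mul, h, ← sub_mul]
      exact Ideal.mul_mem_right _ _ hx
    · refine ⟨0, ?_⟩
      rw [map_zero, sub_zero]
      exact Ideal.mul_mem_left _ _ (base_X_mem β q)
    · refine ⟨x * X (some q), ?_⟩
      have h : baseTh β (X (some q)) = X (some (Sum.inr q)) := by
        unfold baseTh
        rw [aeval_X]
      rw [map_mul, h, ← sub_mul]
      exact Ideal.mul_mem_right _ _ hx

theorem p_zero : PN 0 := by
  intro β _ w
  have h := pull (S := actF β) (S1 := actQ β) (B1 := ⊤) stab_top (B := ⊤) (w := w)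
    (b1 := cst w ⊥) (b := cst w (II β (0 + 1)).toAddSubgroup)
    (fun _ => (baseTh β : QQ β →+* FF β))
    (fun φ τ x _ => baseTh_act β τ x) (fun _ _ _ => Subring.mem_top _)
    (fun _ => bot_le)
    (fun φ x hx => by
      have hx0 : x = 0 := by simpa [cst] using hx
      rw [hx0, map_zero]
      exact AddSubgroup.zero_mem _)
    (fun φ y _ => by
      obtain ⟨x, hx⟩ := base_surj β y
      exact ⟨x, Subring.mem_top _, hx⟩)
    (base_noeth β w)
  exact h.mono le_rfl (fun φ x _ => Subring.mem_top x)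

theorem base_Rr (β : Type) : Rr 0 β = ⊤ := by
  rw [eq_top_iff]
  intro x _
  induction x using MvPolynomial.induction_on with
  | C c => exact (Rr 0 β).algebraMap_mem c
  | add p q hp hq => exact (Rr 0 β).add_mem (hp trivial) (hq trivial)
  | mul_X p v hp =>
    refine (Rr 0 β).mul_mem (hp trivial) ?_
    rcases v with _ | ⟨i, (⟨a, _⟩ | b)⟩
    · exact X_mem_Rr 0 β
    · exact a.elim0
    · exact TT_mem_Rr 0 β b i

theorem r_zero : RN 0 := by
  intro β _ w
  rw [base_Rr]
  exact base_noeth (KK 0 β) w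

end MPf70651.Full
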