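import Pool.Agent.Lib_MP_f70651_al.Full.Defs

/-!
# MP_f70651_al, full version : basic lemmas on families
-/

namespace MPf70651.Full

open MPf70651 MvPolynomial

variable {P : Type} [CommRing P] {S : IncAct P}

theorem SuppN.mono {n m : ℕ} {p : P} (h : SuppN S n p) (hnm : n ≤ m) : SuppN S m p :=
  fun σ τ hst => h σ τ (fun i hi => hst i (lt_of_lt_of_le hi hnm))

theorem exists_suppN (p : P) : ∃ n, SuppN S n p := S.supp p

theorem act_act (τ σ : ℕ ↪o ℕ) (p : P) : S.act σ (S.act τ p) = S.act (τ.trans σ) p :=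
  (S.act_trans τ σ p).symm

theorem pos_refl {w : ℕ} (φ : Pos w) : φ.trans (RelEmbedding.refl (· ≤ ·) : ℕ ↪o ℕ) = φ := rfl

theorem pos_trans {w : ℕ} (φ : Pos w) (τ σ : ℕ ↪o ℕ) :
    (φ.trans τ).trans σ = φ.trans (τ.trans σ) := rfl

/-- action of `ext (ψ τ)` on an element supported on `[0, n)` -/
theorem act_ext_trans {n : ℕ} {x : P} (hsupp : SuppN S n x) (ψ : Pos n) (τ : ℕ ↪o ℕ) :
    S.act (ext (ψ.trans τ)) x = S.act τ (S.act (ext ψ) x) := by
  rw [act_act]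
  apply hsupp
  intro i hi
  show ext (ψ.trans τ) i = τ (ext ψ i)
  rw [ext_apply _ _ hi, ext_apply _ _ hi]
  rfl

theorem pos_ext_trans {w n : ℕ} (φ0 : Pos w) (hφ : ∀ k, φ0 k < n) (ψ : Pos n) (τ : ℕ ↪o ℕ) :
    φ0.trans (ext (ψ.trans τ)) = (φ0.trans (ext ψ)).trans τ := by
  ext k
  show ext (ψ.trans τ) (φ0 k) = τ (ext ψ (φ0 k))
  rw [ext_apply _ _ (hφ k), ext_apply _ _ (hφ k)]
  rfl

theorem IsFam.sup {B : Subring P} {w : ℕ} {M N : Pos w → AddSubgroup P} (hM : IsFam S B M)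
    (hN : IsFam S B N) : IsFam S B (M ⊔ N) where
  smul := fun φ a x ha hx => by
    obtain ⟨y, hy, z, hz, rfl⟩ := AddSubgroup.mem_sup.mp hx
    rw [mul_add]
    exact AddSubgroup.mem_sup.mpr ⟨_, hM.smul φ a y ha hy, _, hN.smul φ a z ha hz, rfl⟩
  act := fun φ τ x hx => by
    obtain ⟨y, hy, z, hz, rfl⟩ := AddSubgroup.mem_sup.mp hx
    rw [map_add]
    exact AddSubgroup.mem_sup.mpr ⟨_, hM.act φ τ y hy, _, hN.act φ τ z hz, rfl⟩

theorem IsFam.inf {B : Subring P} {w : ℕ} {M N : Pos w → AddSubgroup P} (hM : IsFam S B M)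
    (hN : IsFam S B N) : IsFam S B (M ⊓ N) where
  smul := fun φ a x ha hx => AddSubgroup.mem_inf.mpr
    ⟨hM.smul φ a x ha (AddSubgroup.mem_inf.mp hx).1, hN.smul φ a x ha (AddSubgroup.mem_inf.mp hx).2⟩
  act := fun φ τ x hx => AddSubgroup.mem_inf.mpr
    ⟨hM.act φ τ x (AddSubgroup.mem_inf.mp hx).1, hN.act φ τ x (AddSubgroup.mem_inf.mp hx).2⟩

theorem isFam_cst {B : Subring P} (w : ℕ) (I : AddSubgroup P) (h1 : ∀ a ∈ B, ∀ x ∈ I, a * x ∈ I)
    (h2 : ∀ (τ : ℕ ↪o ℕ), ∀ x ∈ I, S.act τ x ∈ I) : IsFam S B (cst w I) where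
  smul := fun _ a x ha hx => h1 a ha x hx
  act := fun _ τ x hx => h2 τ x hx

theorem isFam_bot (B : Subring P) (w : ℕ) : IsFam S B (cst w (⊥ : AddSubgroup P)) :=
  isFam_cst w _ (fun a _ x hx => by
    rw [AddSubgroup.mem_bot] at hx ⊢
    rw [hx, mul_zero]) (fun τ x hx => by
    rw [AddSubgroup.mem_bot] at hx ⊢
    rw [hx, map_zero])

theorem isFam_self {B : Subring P} (hB : SStab S B) (w : ℕ) :
    IsFam S B (cst w B.toAddSubgroup) :=
  isFam_cst w _ (fun _ ha _ hx => B.mul_mem ha hx) (fun τ x hx => hB τ x hx)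

theorem isFam_gen {B : Subring P} (hB : SStab S B) {w : ℕ} (G : Set (Pos w × P)) :
    IsFam S B (gen S B G) where
  smul := fun φ a x ha hx => by
    unfold gen at hx ⊢
    induction hx using AddSubgroup.closure_induction with
    | mem x hx =>
      obtain ⟨g, hg, τ, hτ, c, hc, rfl⟩ := hx
      apply AddSubgroup.subset_closure
      exact ⟨g, hg, τ, hτ, a * c, B.mul_mem ha hc, by ring⟩
    | zero => rw [mul_zero]; exact AddSubgroup.zero_mem _
    | add x y _ _ hx hy => rw [mul_add]; exact AddSubgroup.add_mem _ hx hy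
    | neg x _ hx => rw [mul_neg]; exact AddSubgroup.neg_mem _ hx
  act := fun φ σ x hx => by
    unfold gen at hx ⊢
    induction hx using AddSubgroup.closure_induction with
    | mem x hx =>
      obtain ⟨g, hg, τ, hτ, c, hc, rfl⟩ := hx
      apply AddSubgroup.subset_closure
      refine ⟨g, hg, τ.trans σ, ?_, S.act σ c, hB σ c hc, ?_⟩
      · rw [← hτ]
        rfl
      · rw [map_mul, act_act]
    | zero => rw [map_zero]; exact AddSubgroup.zero_mem _
    | add x y _ _ hx hy => rw [map_add]; exact AddSubgroup.add_mem _ hx hy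
    | neg x _ hx => rw [map_neg]; exact AddSubgroup.neg_mem _ hx

theorem mem_gen {B : Subring P} {w : ℕ} {G : Set (Pos w × P)} {g : Pos w × P} (hg : g ∈ G)
    (τ : ℕ ↪o ℕ) (a : P) (ha : a ∈ B) : a * S.act τ g.2 ∈ gen S B G (g.1.trans τ) :=
  AddSubgroup.subset_closure ⟨g, hg, τ, rfl, a, ha, rfl⟩

theorem mem_gen_self {B : Subring P} {w : ℕ} {G : Set (Pos w × P)} {g : Pos w × P} (hg : g ∈ G) :
    g.2 ∈ gen S B G g.1 := by
  have h := mem_gen (S := S) (B := B) hg (RelEmbedding.refl _) 1 B.one_mem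
  rw [one_mul, S.act_refl] at h
  exact h

theorem gen_le {B : Subring P} {w : ℕ} {G : Set (Pos w × P)} {N : Pos w → AddSubgroup P}
    (hN : IsFam S B N) (hG : ∀ g ∈ G, g.2 ∈ N g.1) : gen S B G ≤ N := by
  intro φ
  unfold gen
  rw [AddSubgroup.closure_le]
  rintro _ ⟨g, hg, τ, hτ, a, ha, rfl⟩
  rw [← hτ]
  exact hN.smul _ a _ ha (hN.act _ τ _ (hG g hg))

theorem gen_mono {B : Subring P} {w : ℕ} {G H : Set (Pos w × P)} (h : G ⊆ H) :
    gen S B G ≤ gen S B H := by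
  intro φ
  unfold gen
  apply AddSubgroup.closure_mono
  rintro _ ⟨g, hg, τ, hτ, a, ha, rfl⟩
  exact ⟨g, h hg, τ, hτ, a, ha, rfl⟩

theorem FG.mono {B : Subring P} {w : ℕ} {b c N : Pos w → AddSubgroup P} (h : FG S B b N)
    (hbc : b ≤ c) : FG S B c N := by
  obtain ⟨G, hG, h1, h2⟩ := h
  exact ⟨G, hG, h1, fun φ => (h2 φ).trans (sup_le_sup_right (hbc φ) _)⟩

/-- Extension: if `J` is f.g. modulo `b` and `N` is f.g. modulo `J`, then `N` is f.g. modulo `b`. -/
theorem FG.trans {B : Subring P} {w : ℕ} {b J N : Pos w → AddSubgroup P} (h1 : FG S B b J)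
    (h2 : FG S B J N) (hJN : J ≤ N) : FG S B b N := by
  obtain ⟨G, hG, hG1, hG2⟩ := h1
  obtain ⟨H, hH, hH1, hH2⟩ := h2
  refine ⟨G ∪ H, hG.union hH, ?_, fun φ => ?_⟩
  · rintro g (hg | hg)
    · exact hJN _ (hG1 g hg)
    · exact hH1 g hg
  · refine (hH2 φ).trans (sup_le ((hG2 φ).trans (sup_le_sup_left ?_ _)) ?_)
    · exact gen_mono Set.subset_union_left φ
    · exact le_sup_of_le_right (gen_mono Set.subset_union_right φ)

theorem FG.of_le {B : Subring P} {w : ℕ} {b N : Pos w → AddSubgroup P} (h : N ≤ b) :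
    FG S B b N :=
  ⟨∅, Set.finite_empty, fun g hg => absurd hg (Set.notMem_empty g),
    fun φ => (h φ).trans le_sup_left⟩

theorem Noeth.mono {B : Subring P} {w : ℕ} {b b' D D' : Pos w → AddSubgroup P}
    (h : Noeth S B b D) (hb : b ≤ b') (hD : D' ≤ D) : Noeth S B b' D' := by
  intro N hN h1 h2
  exact (h N hN (hb.trans h1) (h2.trans hD)).mono hb

theorem Noeth.of_le {B : Subring P} {w : ℕ} {b D : Pos w → AddSubgroup P} (h : D ≤ b) :
    Noeth S B b D := fun _ _ _ h2 => FG.of_le (h2.trans h)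

/-- Extension of noetherian intervals. -/
theorem Noeth.ext {B : Subring P} (hB : SStab S B) {w : ℕ} {b c D : Pos w → AddSubgroup P}
    (hc : IsFam S B c) (hbc : b ≤ c) (hcD : c ≤ D) (h1 : Noeth S B b c) (h2 : Noeth S B c D) :
    Noeth S B b D := by
  intro N hN hbN hND
  obtain ⟨G, hGf, hGN, hGgen⟩ := h2 (N ⊔ c) (hN.sup hc) le_sup_right (sup_le hND hcD)
  have hlift : ∀ g : Pos w × P, ∃ m : P, g ∈ G → m ∈ N g.1 ∧ g.2 - m ∈ c g.1 := by
    intro g
    by_cases hg : g ∈ G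
    · obtain ⟨m, hm, j, hj, he⟩ := AddSubgroup.mem_sup.mp (hGN g hg)
      refine ⟨m, fun _ => ⟨hm, ?_⟩⟩
      rw [← he, add_sub_cancel_left]
      exact hj
    · exact ⟨0, fun h => absurd h hg⟩
  choose m hm using hlift
  set G1 : Set (Pos w × P) := (fun g : Pos w × P => (g.1, m g)) '' G with hG1
  have hG1N : ∀ g ∈ G1, g.2 ∈ N g.1 := by
    rintro _ ⟨g, hg, rfl⟩
    exact (hm g hg).1
  have hgenN : gen S B G1 ≤ N := gen_le hN hG1N
  have hGle : gen S B G ≤ c ⊔ gen S B G1 := by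
    apply gen_le (hc.sup (isFam_gen hB G1))
    intro g hg
    have h3 : m g ∈ gen S B G1 g.1 := mem_gen_self (g := (g.1, m g)) ⟨g, hg, rfl⟩
    exact AddSubgroup.mem_sup.mpr ⟨_, (hm g hg).2, _, h3, by ring⟩
  have hFG1 : FG S B b (N ⊓ c) := h1 (N ⊓ c) (hN.inf hc) (le_inf hbN hbc) inf_le_right
  have hFG2 : FG S B (N ⊓ c) N := by
    refine ⟨G1, hGf.image _, hG1N, fun φ y hy => ?_⟩
    have h3 : y ∈ c φ ⊔ gen S B G φ := hGgen φ (AddSubgroup.mem_sup_left hy)
    obtain ⟨j, hj, γ, hγ, rfl⟩ := AddSubgroup.mem_sup.mp h3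
    obtain ⟨j', hj', γ', hγ', rfl⟩ := AddSubgroup.mem_sup.mp (hGle φ hγ)
    refine AddSubgroup.mem_sup.mpr ⟨j + j', ⟨?_, AddSubgroup.add_mem _ hj hj'⟩, γ', hγ', by ring⟩
    have h4 := AddSubgroup.sub_mem _ hy (hgenN _ hγ')
    have h5 : j + (j' + γ') - γ' = j + j' := by ring
    rw [h5] at h4
    exact h4
  exact hFG1.trans hFG2 inf_le_left

/-! ### the submodules `RD` and `JD` -/

theorem RD_zero {R : Subring P} {h : ℕ → P} : RD R h 0 = R.toAddSubgroup := by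
  apply le_antisymm
  · unfold RD
    rw [AddSubgroup.closure_le]
    rintro _ ⟨c, hc, l, hl, rfl⟩
    have : l = [] := List.eq_nil_of_length_eq_zero (Nat.le_zero.mp hl)
    subst this
    simpa using hc
  · intro x hx
    exact mem_RD_of_mem hx

theorem h_mem_RD {R : Subring P} {h : ℕ → P} (j : ℕ) : h j ∈ RD R h 1 :=
  AddSubgroup.subset_closure ⟨1, R.one_mem, [j], by simp, by simp⟩

theorem h_pow_mem_RD {R : Subring P} {h : ℕ → P} (j k : ℕ) : h j ^ k ∈ RD R h k :=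
  AddSubgroup.subset_closure ⟨1, R.one_mem, List.replicate k j, by simp, by simp⟩

theorem RD_act {R : Subring P} {h : ℕ → P} (hR : SStab S R)
    (hact : ∀ (τ : ℕ ↪o ℕ) j, S.act τ (h j) = h (τ j)) {D : ℕ} (τ : ℕ ↪o ℕ) {x : P}
    (hx : x ∈ RD R h D) : S.act τ x ∈ RD R h D := by
  unfold RD at hx ⊢
  induction hx using AddSubgroup.closure_induction with
  | mem x hx =>
    obtain ⟨c, hc, l, hl, rfl⟩ := hx
    apply AddSubgroup.subset_closure
    refine ⟨S.act τ c, hR τ c hc, l.map τ, by simpa using hl, ?_⟩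
    rw [map_mul, map_list_prod, List.map_map, List.map_map]
    congr 2
    apply List.map_congr_left
    intro a _
    exact hact τ a
  | zero => rw [map_zero]; exact AddSubgroup.zero_mem _
  | add x y _ _ hx hy => rw [map_add]; exact AddSubgroup.add_mem _ hx hy
  | neg x _ hx => rw [map_neg]; exact AddSubgroup.neg_mem _ hx

theorem RD_le {R R' : Subring P} {h : ℕ → P} (hR : R ≤ R') (hh : ∀ j, h j ∈ R') (D : ℕ) :
    RD R h D ≤ R'.toAddSubgroup := by
  unfold RD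
  rw [AddSubgroup.closure_le]
  rintro _ ⟨c, hc, l, _, rfl⟩
  apply R'.mul_mem (hR hc)
  apply R'.list_prod_mem
  intro z hz
  obtain ⟨j, _, rfl⟩ := List.mem_map.mp hz
  exact hh j

theorem exists_RD' {R : Subring P} {h : ℕ → P} {x : P}
    (hx : x ∈ Subring.closure ((R : Set P) ∪ Set.range h)) : ∃ D, x ∈ RD R h D := by
  induction hx using Subring.closure_induction with
  | mem x hx1 =>
    rcases hx1 with hx1 | ⟨j, rfl⟩
    · exact ⟨0, mem_RD_of_mem hx1⟩
    · exact ⟨1, h_mem_RD j⟩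
  | zero => exact ⟨0, AddSubgroup.zero_mem _⟩
  | one => exact ⟨0, mem_RD_of_mem R.one_mem⟩
  | add x y _ _ hx hy =>
    obtain ⟨D, hD⟩ := hx
    obtain ⟨E, hE⟩ := hy
    exact ⟨max D E, AddSubgroup.add_mem _ (RD_mono (le_max_left _ _) hD)
      (RD_mono (le_max_right _ _) hE)⟩
  | neg x _ hx =>
    obtain ⟨D, hD⟩ := hx
    exact ⟨D, AddSubgroup.neg_mem _ hD⟩
  | mul x y _ _ hx hy =>
    obtain ⟨D, hD⟩ := hx
    obtain ⟨E, hE⟩ := hy
    exact ⟨D + E, RD_mul hD hE⟩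

theorem exists_RD {R R' : Subring P} {h : ℕ → P}
    (hgen : R' ≤ Subring.closure ((R : Set P) ∪ Set.range h)) {x : P} (hx : x ∈ R') :
    ∃ D, x ∈ RD R h D := exists_RD' (hgen hx)

theorem JD_mono {R : Subring P} {h : ℕ → P} {w : ℕ} {G : Set (Pos w × P)} {D E : ℕ}
    (hDE : D ≤ E) : JD S R h G D ≤ JD S R h G E := by
  intro φ
  unfold JD
  apply AddSubgroup.closure_mono
  rintro _ ⟨g, hg, τ, hτ, a, ha, rfl⟩
  exact ⟨g, hg, τ, hτ, a, RD_mono hDE ha, rfl⟩

theorem JD_smul {R : Subring P} {h : ℕ → P} {w : ℕ} {G : Set (Pos w × P)} {D E : ℕ}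
    {φ : Pos w} {a x : P} (ha : a ∈ RD R h D) (hx : x ∈ JD S R h G E φ) :
    a * x ∈ JD S R h G (D + E) φ := by
  unfold JD at hx ⊢
  induction hx using AddSubgroup.closure_induction with
  | mem x hx =>
    obtain ⟨g, hg, τ, hτ, c, hc, rfl⟩ := hx
    apply AddSubgroup.subset_closure
    exact ⟨g, hg, τ, hτ, a * c, RD_mul ha hc, by ring⟩
  | zero => rw [mul_zero]; exact AddSubgroup.zero_mem _
  | add x y _ _ hx hy => rw [mul_add]; exact AddSubgroup.add_mem _ hx hy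
  | neg x _ hx => rw [mul_neg]; exact AddSubgroup.neg_mem _ hx

theorem JD_act {R : Subring P} {h : ℕ → P} (hR : SStab S R)
    (hact : ∀ (τ : ℕ ↪o ℕ) j, S.act τ (h j) = h (τ j)) {w : ℕ} {G : Set (Pos w × P)} {D : ℕ}
    {φ : Pos w} (σ : ℕ ↪o ℕ) {x : P} (hx : x ∈ JD S R h G D φ) :
    S.act σ x ∈ JD S R h G D (φ.trans σ) := by
  unfold JD at hx ⊢
  induction hx using AddSubgroup.closure_induction with
  | mem x hx =>
    obtain ⟨g, hg, τ, hτ, c, hc, rfl⟩ := hx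
    apply AddSubgroup.subset_closure
    refine ⟨g, hg, τ.trans σ, ?_, S.act σ c, RD_act hR hact σ hc, ?_⟩
    · rw [← hτ]
      rfl
    · rw [map_mul, act_act]
  | zero => rw [map_zero]; exact AddSubgroup.zero_mem _
  | add x y _ _ hx hy => rw [map_add]; exact AddSubgroup.add_mem _ hx hy
  | neg x _ hx => rw [map_neg]; exact AddSubgroup.neg_mem _ hx

theorem JD_zero {R : Subring P} {h : ℕ → P} {w : ℕ} {G : Set (Pos w × P)} :
    JD S R h G 0 = gen S R G := by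
  funext φ
  unfold JD gen
  rw [RD_zero]
  rfl

theorem isFam_JD {R : Subring P} {h : ℕ → P} (hR : SStab S R)
    (hact : ∀ (τ : ℕ ↪o ℕ) j, S.act τ (h j) = h (τ j)) {w : ℕ} {G : Set (Pos w × P)} (D : ℕ) :
    IsFam S R (JD S R h G D) where
  smul := fun φ a x ha hx => by
    have h1 := JD_smul (S := S) (mem_RD_of_mem (D := 0) (h := h) ha) hx
    rwa [zero_add] at h1
  act := fun φ τ x hx => JD_act hR hact τ hx

theorem exists_JD {R R' : Subring P} {h : ℕ → P}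
    (hgen : R' ≤ Subring.closure ((R : Set P) ∪ Set.range h)) {w : ℕ} {G : Set (Pos w × P)}
    {φ : Pos w} {x : P} (hx : x ∈ gen S R' G φ) : ∃ D, x ∈ JD S R h G D φ := by
  unfold gen at hx
  induction hx using AddSubgroup.closure_induction with
  | mem x hx =>
    obtain ⟨g, hg, τ, hτ, c, hc, rfl⟩ := hx
    obtain ⟨D, hD⟩ := exists_RD hgen hc
    exact ⟨D, AddSubgroup.subset_closure ⟨g, hg, τ, hτ, c, hD, rfl⟩⟩
  | zero => exact ⟨0, AddSubgroup.zero_mem _⟩
  | add x y _ _ hx hy =>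
    obtain ⟨D, hD⟩ := hx
    obtain ⟨E, hE⟩ := hy
    exact ⟨max D E, AddSubgroup.add_mem _ (JD_mono (le_max_left _ _) _ hD)
      (JD_mono (le_max_right _ _) _ hE)⟩
  | neg x _ hx =>
    obtain ⟨D, hD⟩ := hx
    exact ⟨D, AddSubgroup.neg_mem _ hD⟩

theorem JD_le_gen {R R' : Subring P} {h : ℕ → P} (hR : R ≤ R') (hh : ∀ j, h j ∈ R') {w : ℕ}
    {G : Set (Pos w × P)} (D : ℕ) : JD S R h G D ≤ gen S R' G := by
  intro φ
  unfold JD gen
  apply AddSubgroup.closure_mono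
  rintro _ ⟨g, hg, τ, hτ, a, ha, rfl⟩
  exact ⟨g, hg, τ, hτ, a, RD_le hR hh D ha, rfl⟩

/-! ### the Rees ring -/

theorem mem_RT {R : Subring P} {h : ℕ → P} {p : Polynomial P} :
    p ∈ RT R h ↔ ∀ D, p.coeff D ∈ RD R h D := Iff.rfl

theorem stab_RT {R : Subring P} {h : ℕ → P} (hR : SStab S R)
    (hact : ∀ (τ : ℕ ↪o ℕ) j, S.act τ (h j) = h (τ j)) : SStab (polyAct S) (RT R h) := by
  intro τ p hp D
  show (Polynomial.mapRingHom (S.act τ) p).coeff D ∈ _
  rw [Polynomial.coe_mapRingHom, Polynomial.coeff_map]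
  exact RD_act hR hact τ (hp D)

theorem C_mem_RT {R : Subring P} {h : ℕ → P} {a : P} (ha : a ∈ R) :
    Polynomial.C a ∈ RT R h := by
  intro D
  rw [Polynomial.coeff_C]
  split
  · exact mem_RD_of_mem ha
  · exact AddSubgroup.zero_mem _

theorem X_mem_RT {R : Subring P} {h : ℕ → P} : (Polynomial.X : Polynomial P) ∈ RT R h := by
  intro D
  rw [Polynomial.coeff_X]
  split
  · exact mem_RD_of_mem R.one_mem
  · exact AddSubgroup.zero_mem _

theorem monomial_mem_RT {R : Subring P} {h : ℕ → P} {D : ℕ} {a : P} (ha : a ∈ RD R h D) :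
    Polynomial.monomial D a ∈ RT R h := by
  intro E
  rw [Polynomial.coeff_monomial]
  split
  · next hE => rw [← hE]; exact ha
  · exact AddSubgroup.zero_mem _

end MPf70651.Full
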