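import Pool.Agent.Lib_MP_f70651_al.Full.Conc

/-!
# MP_f70651_al, full version : Chart
-/

namespace MPf70651.Full

open MPf70651 MvPolynomial

variable {P : Type} [CommRing P] {S : IncAct P}

/-- Position of the marks and of one further index among `w + 1` marks. -/
theorem chart_pos {w : ℕ} (φ : Pos w) (i : ℕ) :
    ∃ (ψ : Pos (w + 1)) (j : Fin w ↪o Fin (w + 1)) (k : Fin (w + 1)),
      (∀ l, ψ (j l) = φ l) ∧ ψ k = i := by
  classical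
  have hU : (Finset.univ.image φ ∪ {i}).card ≤ w + 1 := by
    refine (Finset.card_union_le _ _).trans (add_le_add ?_ (by simp))
    exact Finset.card_image_le.trans (by simp)
  obtain ⟨V, hUV, hV⟩ := Infinite.exists_superset_card_eq _ _ hU
  have hmem : ∀ u ∈ V, ∃ l : Fin (w + 1), V.orderEmbOfFin hV l = u := by
    intro u hu
    have : u ∈ Set.range (V.orderEmbOfFin hV) := by
      rw [Finset.range_orderEmbOfFin]
      exact_mod_cast hu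
    exact this
  have h1 : ∀ l : Fin w, ∃ l' : Fin (w + 1), V.orderEmbOfFin hV l' = φ l := fun l =>
    hmem _ (hUV (Finset.mem_union_left _ (Finset.mem_image_of_mem _ (Finset.mem_univ l))))
  choose j hj using h1
  obtain ⟨k, hk⟩ := hmem i (hUV (Finset.mem_union_right _ (Finset.mem_singleton_self i)))
  refine ⟨V.orderEmbOfFin hV, OrderEmbedding.ofStrictMono j ?_, k, hj, hk⟩
  intro a b hab
  apply (V.orderEmbOfFin hV).lt_iff_lt.mp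
  rw [hj, hj]
  exact φ.strictMono hab

section

variable {d : RData S} {P1 : Type} [CommRing P1] {S1 : IncAct P1} {B1 : Subring P1}
  {L : Type} [CommRing L]

/-- The family of the chart. -/
def chartN (S1 : IncAct P1) (B1 : Subring P1) (ι : P →+* L) (Θ : ℕ → P1 →+* L)
    {w : ℕ} (G : Set (Pos w × P)) (j : Fin w ↪o Fin (w + 1)) (k₀ : Fin (w + 1)) :
    Pos (w + 1) → AddSubgroup P1 := fun ψ =>
  { carrier := {x | x ∈ B1 ∧ ∃ k D, ∃ a ∈ JD S d.R d.h G D (j.trans ψ),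
      ι (d.h (ψ k₀)) ^ k * Θ (ψ k₀) x = ι a}
    zero_mem' := ⟨B1.zero_mem, 0, 0, 0, AddSubgroup.zero_mem _, by simp⟩
    add_mem' := by
      rintro x y ⟨hx, k, D, a, ha, he⟩ ⟨hy, k', D', a', ha', he'⟩
      refine ⟨B1.add_mem hx hy, k + k', max (k' + D) (k + D'),
        d.h (ψ k₀) ^ k' * a + d.h (ψ k₀) ^ k * a', ?_, ?_⟩
      · refine AddSubgroup.add_mem _ ?_ ?_
        · exact JD_mono (le_max_left _ _) _ (JD_smul (h_pow_mem_RD _ _) ha)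
        · exact JD_mono (le_max_right _ _) _ (JD_smul (h_pow_mem_RD _ _) ha')
      · rw [map_add ι, map_mul ι, map_mul ι, map_pow, map_pow, ← he, ← he', map_add, pow_add]
        ring
    neg_mem' := by
      rintro x ⟨hx, k, D, a, ha, he⟩
      refine ⟨B1.neg_mem hx, k, D, -a, AddSubgroup.neg_mem _ ha, ?_⟩
      rw [map_neg, map_neg, mul_neg, he] }

theorem chart_isFam (hB1 : SStab S1 B1) (ι : P →+* L)
    (actL : (ℕ ↪o ℕ) → L →+* L) (hactL : ∀ (τ : ℕ ↪o ℕ) p, actL τ (ι p) = ι (S.act τ p))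
    (Θ : ℕ → P1 →+* L)
    (hΘ : ∀ (τ : ℕ ↪o ℕ) (i : ℕ), ∀ x ∈ B1, actL τ (Θ i x) = Θ (τ i) (S1.act τ x))
    (hA : ∀ i, ∀ x ∈ B1, ∃ k, ∃ a ∈ RD d.R d.h k, ι (d.h i) ^ k * Θ i x = ι a)
    {w : ℕ} (G : Set (Pos w × P)) (j : Fin w ↪o Fin (w + 1)) (k₀ : Fin (w + 1)) :
    IsFam S1 B1 (chartN (d := d) S1 B1 ι Θ G j k₀) where
  smul := by
    rintro ψ a x ha ⟨hx, k, D, b, hb, he⟩
    obtain ⟨k', c, hc, hce⟩ := hA (ψ k₀) a ha
    refine ⟨B1.mul_mem ha hx, k' + k, k' + D, c * b, JD_smul hc hb, ?_⟩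
    rw [map_mul ι, ← hce, ← he, map_mul, pow_add]
    ring
  act := by
    rintro ψ τ x ⟨hx, k, D, b, hb, he⟩
    refine ⟨hB1 τ x hx, k, D, S.act τ b, ?_, ?_⟩
    · have h := JD_act (S := S) d.stab d.act_h τ hb
      exact h
    · have h1 : (ψ.trans τ) k₀ = τ (ψ k₀) := rfl
      rw [h1, ← hΘ τ _ x hx, ← hactL, ← he, map_mul, map_pow, hactL, d.act_h]

theorem chart_gen (ι : P →+* L)
    (actL : (ℕ ↪o ℕ) → L →+* L) (hactL : ∀ (τ : ℕ ↪o ℕ) p, actL τ (ι p) = ι (S.act τ p))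
    (Θ : ℕ → P1 →+* L)
    (hΘ : ∀ (τ : ℕ ↪o ℕ) (i : ℕ), ∀ x ∈ B1, actL τ (Θ i x) = Θ (τ i) (S1.act τ x))
    (hA : ∀ i, ∀ x ∈ B1, ∃ k, ∃ a ∈ RD d.R d.h k, ι (d.h i) ^ k * Θ i x = ι a)
    {w : ℕ} (G : Set (Pos w × P)) (j : Fin w ↪o Fin (w + 1)) (k₀ : Fin (w + 1))
    {G1 : Set (Pos (w + 1) × P1)} {c : ℕ} (hG1B : ∀ g ∈ G1, g.2 ∈ B1)
    (hG1 : ∀ g ∈ G1, ∃ k, ∃ a ∈ JD S d.R d.h G c (j.trans g.1),
      ι (d.h (g.1 k₀)) ^ k * Θ (g.1 k₀) g.2 = ι a)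
    (ψ : Pos (w + 1)) (x : P1) (hx : x ∈ gen S1 B1 G1 ψ) :
    ∃ K₀ : ℕ, ∀ K, K₀ ≤ K → ∃ z ∈ JD S d.R d.h G (K + c) (j.trans ψ),
      ι (d.h (ψ k₀)) ^ K * Θ (ψ k₀) x = ι z := by
  unfold gen at hx
  induction hx using AddSubgroup.closure_induction with
  | mem x hx =>
    obtain ⟨g, hg, τ, hτ, a, ha, rfl⟩ := hx
    obtain ⟨k, b, hb, hbe⟩ := hG1 g hg
    obtain ⟨k', e, he, hee⟩ := hA (ψ k₀) a ha
    have h0 : τ (g.1 k₀) = ψ k₀ := by rw [← hτ]; rfl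
    have hb' : S.act τ b ∈ JD S d.R d.h G c (j.trans ψ) := by
      have h := JD_act (S := S) d.stab d.act_h τ hb
      rw [← hτ]
      exact h
    have hbe' : ι (d.h (ψ k₀)) ^ k * Θ (ψ k₀) (S1.act τ g.2) = ι (S.act τ b) := by
      rw [← h0, ← hΘ τ _ g.2 (hG1B g hg), ← hactL, ← hbe, map_mul, map_pow, hactL, d.act_h]
    refine ⟨k' + k, fun K hK => ?_⟩
    obtain ⟨m, rfl⟩ := Nat.exists_eq_add_of_le hK
    refine ⟨d.h (ψ k₀) ^ m * (e * S.act τ b), ?_, ?_⟩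
    · refine JD_mono ?_ _ (JD_smul (h_pow_mem_RD _ _) (JD_smul he hb'))
      omega
    · rw [map_mul ι, map_mul ι, ← hbe', ← hee, map_pow, map_mul, pow_add, pow_add]
      ring
  | zero => exact ⟨0, fun K _ => ⟨0, AddSubgroup.zero_mem _, by simp⟩⟩
  | add x y _ _ hx hy =>
    obtain ⟨K₁, h1⟩ := hx
    obtain ⟨K₂, h2⟩ := hy
    refine ⟨max K₁ K₂, fun K hK => ?_⟩
    obtain ⟨z₁, hz₁, e₁⟩ := h1 K ((le_max_left _ _).trans hK)
    obtain ⟨z₂, hz₂, e₂⟩ := h2 K ((le_max_right _ _).trans hK)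
    refine ⟨z₁ + z₂, AddSubgroup.add_mem _ hz₁ hz₂, ?_⟩
    rw [map_add, map_add, mul_add, e₁, e₂]
  | neg x _ hx =>
    obtain ⟨K₁, h1⟩ := hx
    refine ⟨K₁, fun K hK => ?_⟩
    obtain ⟨z₁, hz₁, e₁⟩ := h1 K hK
    refine ⟨-z₁, AddSubgroup.neg_mem _ hz₁, ?_⟩
    rw [map_neg, map_neg, mul_neg, e₁]

end

theorem chart {d : RData S} {P1 : Type} [CommRing P1] {S1 : IncAct P1} {B1 : Subring P1}
    (hB1 : SStab S1 B1) {L : Type} [CommRing L] (ι : P →+* L) (hι : Function.Injective ι)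
    (actL : (ℕ ↪o ℕ) → L →+* L) (hactL : ∀ (τ : ℕ ↪o ℕ) p, actL τ (ι p) = ι (S.act τ p))
    (Θ : ℕ → P1 →+* L)
    (hΘ : ∀ (τ : ℕ ↪o ℕ) (i : ℕ), ∀ x ∈ B1, actL τ (Θ i x) = Θ (τ i) (S1.act τ x))
    (hA : ∀ i, ∀ x ∈ B1, ∃ k, ∃ a ∈ RD d.R d.h k, ι (d.h i) ^ k * Θ i x = ι a)
    (hBs : ∀ i, ∀ y ∈ d.R, ∃ x ∈ B1, Θ i x = ι y)
    (hN : ∀ w, Noeth S1 B1 (cst w ⊥) (cst w B1.toAddSubgroup)) : H6 S d := by
  classical
  intro w G _ _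
  -- generators of all chart families
  have hfam : ∀ q : (Fin w ↪o Fin (w + 1)) × Fin (w + 1), ∃ (G1 : Set (Pos (w + 1) × P1)) (c : ℕ),
      (∀ g ∈ G1, g.2 ∈ B1) ∧ (∀ c', c ≤ c' → ∀ g ∈ G1, ∃ k, ∃ a ∈ JD S d.R d.h G c' (q.1.trans g.1),
        ι (d.h (g.1 q.2)) ^ k * Θ (g.1 q.2) g.2 = ι a) ∧
      ∀ ψ, chartN (d := d) S1 B1 ι Θ G q.1 q.2 ψ ≤ gen S1 B1 G1 ψ := by
    rintro ⟨j, k₀⟩
    obtain ⟨G1, hG1f, hG1m, hG1g⟩ := hN (w + 1) (chartN (d := d) S1 B1 ι Θ G j k₀)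
      (chart_isFam hB1 ι actL hactL Θ hΘ hA G j k₀) (fun ψ x hx => by
        have : x = 0 := by simpa [cst] using hx
        rw [this]; exact AddSubgroup.zero_mem _) (fun ψ x hx => hx.1)
    have hD : ∀ g : Pos (w + 1) × P1, ∃ D : ℕ, g ∈ G1 → ∃ k, ∃ a ∈ JD S d.R d.h G D (j.trans g.1),
        ι (d.h (g.1 k₀)) ^ k * Θ (g.1 k₀) g.2 = ι a := by
      intro g
      by_cases hg : g ∈ G1
      · obtain ⟨_, k, D, a, ha, he⟩ := hG1m g hg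
        exact ⟨D, fun _ => ⟨k, a, ha, he⟩⟩
      · exact ⟨0, fun h => absurd h hg⟩
    choose D hD using hD
    refine ⟨G1, hG1f.toFinset.sup D, fun g hg => (hG1m g hg).1, ?_, ?_⟩
    · intro c' hc' g hg
      obtain ⟨k, a, ha, he⟩ := hD g hg
      exact ⟨k, a, JD_mono ((Finset.le_sup (hG1f.mem_toFinset.mpr hg)).trans hc') _ ha, he⟩
    · intro ψ
      refine (hG1g ψ).trans ?_
      rw [show cst (w + 1) (⊥ : AddSubgroup P1) ψ = ⊥ from rfl, bot_sup_eq]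
  choose G1 c hB hc hgen using hfam
  haveI : Finite (Fin w ↪o Fin (w + 1)) := DFunLike.finite _
  haveI : Fintype ((Fin w ↪o Fin (w + 1)) × Fin (w + 1)) := Fintype.ofFinite _
  refine ⟨Finset.univ.sup c, ?_⟩
  rintro φ i y hy ⟨D, hD⟩
  obtain ⟨ψ, j, k₀, hj, hk₀⟩ := chart_pos φ i
  have hφ : j.trans ψ = φ := by
    ext l
    exact hj l
  obtain ⟨x, hx, hxe⟩ := hBs i y hy
  have hxN : x ∈ chartN (d := d) S1 B1 ι Θ G j k₀ ψ := by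
    refine ⟨hx, 0, D, y, ?_, ?_⟩
    · rw [hφ]; exact hD
    · rw [hk₀, pow_zero, one_mul, hxe]
  obtain ⟨K, hK⟩ := chart_gen ι actL hactL Θ hΘ hA G j k₀ (c := Finset.univ.sup c)
    (hB (j, k₀)) (hc (j, k₀) _ (Finset.le_sup (Finset.mem_univ (j, k₀)))) ψ x
    (hgen (j, k₀) ψ hxN)
  obtain ⟨z, hz, hze⟩ := hK K le_rfl
  refine ⟨K, ?_⟩
  rw [hk₀, hxe, ← map_pow, ← map_mul] at hze
  rw [hι hze, ← hφ]
  exact hz

end MPf70651.Full
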