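import Pool.Agent.Lib_MP_f70651_al.Full.Basic

/-!
# MP_f70651_al, full version : elementary facts on the concrete rings
-/

namespace MPf70651.Full

open MPf70651 MvPolynomial

section

variable {P : Type} [CommRing P] {S : IncAct P}

theorem DD_le {B : Subring P} {ι : Type} {V : (ι → ℕ) → Prop} {Δ : (ι → ℕ) → P}
    (hΔ : ∀ p, V p → Δ p ∈ B) (q w : ℕ) (φ : Pos w) : DD B V Δ q w φ ≤ B.toAddSubgroup := by
  unfold DD
  rw [AddSubgroup.closure_le]
  rintro _ ⟨a, ha, p, h1, _, _, rfl⟩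
  exact B.mul_mem ha (B.prod_mem fun l _ => hΔ _ (h1 l))

theorem isFam_DD {B : Subring P} (hB : SStab S B) {ι : Type} {V : (ι → ℕ) → Prop}
    {Δ : (ι → ℕ) → P} (hV : ∀ (τ : ℕ ↪o ℕ) (p : ι → ℕ), V (fun k => τ (p k)) ↔ V p)
    (hact : ∀ (τ : ℕ ↪o ℕ) (p : ι → ℕ), S.act τ (Δ p) = Δ (fun k => τ (p k))) (q w : ℕ) :
    IsFam S B (DD B V Δ q w) where
  smul := fun φ a x ha hx => by
    unfold DD at hx ⊢
    induction hx using AddSubgroup.closure_induction with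
    | mem x hx =>
      obtain ⟨c, hc, p, h1, h2, h3, rfl⟩ := hx
      apply AddSubgroup.subset_closure
      exact ⟨a * c, B.mul_mem ha hc, p, h1, h2, h3, by ring⟩
    | zero => rw [mul_zero]; exact AddSubgroup.zero_mem _
    | add x y _ _ hx hy => rw [mul_add]; exact AddSubgroup.add_mem _ hx hy
    | neg x _ hx => rw [mul_neg]; exact AddSubgroup.neg_mem _ hx
  act := fun φ τ x hx => by
    unfold DD at hx ⊢
    induction hx using AddSubgroup.closure_induction with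
    | mem x hx =>
      obtain ⟨c, hc, p, h1, h2, h3, rfl⟩ := hx
      apply AddSubgroup.subset_closure
      refine ⟨S.act τ c, hB τ c hc, fun l k => τ (p l k), fun l => (hV τ _).mpr (h1 l),
        fun l k j h => h2 l k j (τ.injective h),
        fun l l' hl k k' h => h3 l l' hl k k' (τ.injective h), ?_⟩
      rw [map_mul, map_prod]
      congr 1
      apply Finset.prod_congr rfl
      intro l _
      exact hact τ _
    | zero => rw [map_zero]; exact AddSubgroup.zero_mem _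
    | add x y _ _ hx hy => rw [map_add]; exact AddSubgroup.add_mem _ hx hy
    | neg x _ hx => rw [map_neg]; exact AddSubgroup.neg_mem _ hx

theorem isFam_XRT {R : Subring P} {h : ℕ → P} (hR : SStab S R)
    (hact : ∀ (τ : ℕ ↪o ℕ) j, S.act τ (h j) = h (τ j)) (w : ℕ) :
    IsFam (polyAct S) (RT R h) (cst w (XRT R h)) := by
  apply isFam_cst
  · rintro a ha _ ⟨x, hx, rfl⟩
    refine ⟨a * x, (RT R h).mul_mem ha hx, ?_⟩
    show Polynomial.X * (a * x) = a * (Polynomial.X * x)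
    ring
  · rintro τ _ ⟨x, hx, rfl⟩
    refine ⟨(polyAct S).act τ x, stab_RT hR hact τ x hx, ?_⟩
    show Polynomial.X * (polyAct S).act τ x = (polyAct S).act τ (Polynomial.X * x)
    rw [map_mul]
    congr 1
    show Polynomial.X = Polynomial.mapRingHom (S.act τ) Polynomial.X
    rw [Polynomial.coe_mapRingHom, Polynomial.map_X]

theorem XRT_le {R : Subring P} {h : ℕ → P} : XRT R h ≤ (RT R h).toAddSubgroup := by
  rintro _ ⟨x, hx, rfl⟩
  exact (RT R h).mul_mem X_mem_RT hx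

theorem polyAct_C (τ : ℕ ↪o ℕ) (a : P) :
    (polyAct S).act τ (Polynomial.C a) = Polynomial.C (S.act τ a) := by
  show Polynomial.mapRingHom (S.act τ) (Polynomial.C a) = _
  rw [Polynomial.coe_mapRingHom, Polynomial.map_C]

theorem polyAct_coeff (τ : ℕ ↪o ℕ) (p : Polynomial P) (n : ℕ) :
    ((polyAct S).act τ p).coeff n = S.act τ (p.coeff n) := by
  show (Polynomial.mapRingHom (S.act τ) p).coeff n = _
  rw [Polynomial.coe_mapRingHom, Polynomial.coeff_map]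

theorem stab_top : SStab S (⊤ : Subring P) := fun _ _ _ => Subring.mem_top _

end

/-! ### the ring `QQ (KK ρ β)` -/

theorem actQ_X (κ : Type) (τ : ℕ ↪o ℕ) (o : Option (ℕ × κ)) :
    (actQ κ).act τ (X o) = X (actV κ τ o) := by
  show rename (actV κ τ) (X o) = _
  rw [rename_X]

theorem actQ_C (κ : Type) (τ : ℕ ↪o ℕ) (c : ℂ) : (actQ κ).act τ (C c) = C c := by
  show rename (actV κ τ) (C c) = _
  rw [rename_C]

theorem actQ_MM (ρ : ℕ) (β : Type) (τ : ℕ ↪o ℕ) (i j : ℕ) :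
    (actQ (KK ρ β)).act τ (MM ρ β i j) = MM ρ β (τ i) (τ j) := by
  unfold MM
  rw [map_sum]
  apply Finset.sum_congr rfl
  intro a _
  rw [map_mul, actQ_X, actQ_X]
  rfl

theorem actQ_TT (ρ : ℕ) (β : Type) (τ : ℕ ↪o ℕ) (b : β) (i : ℕ) :
    (actQ (KK ρ β)).act τ (TT ρ β b i) = TT ρ β b (τ i) := by
  unfold TT
  rw [actQ_X]
  rfl

theorem minor_map {T T' : Type} [CommRing T] [CommRing T'] (f : T →+* T') (k : ℕ)
    (y : ℕ → ℕ → T) (p : Fin k ⊕ Fin k → ℕ) :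
    f (minor k y p) = minor k (fun i j => f (y i j)) p := by
  unfold minor
  rw [RingHom.map_det]
  rfl

theorem minor_comp {T : Type} [CommRing T] (k : ℕ) (y : ℕ → ℕ → T) (τ : ℕ → ℕ)
    (p : Fin k ⊕ Fin k → ℕ) :
    minor k (fun i j => y (τ i) (τ j)) p = minor k y (fun x => τ (p x)) := rfl

theorem Vld_act (k : ℕ) (τ : ℕ ↪o ℕ) (p : Fin k ⊕ Fin k → ℕ) :
    Vld k (fun x => τ (p x)) ↔ Vld k p := by
  unfold Vld
  simp only [ne_eq, EmbeddingLike.apply_eq_iff_eq]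

theorem actQ_minor (ρ : ℕ) (β : Type) (k : ℕ) (τ : ℕ ↪o ℕ) (p : Fin k ⊕ Fin k → ℕ) :
    (actQ (KK ρ β)).act τ (minor k (MM ρ β) p) = minor k (MM ρ β) (fun x => τ (p x)) := by
  rw [minor_map]
  simp only [actQ_MM]
  rfl

theorem MM_mem_Rr (ρ : ℕ) (β : Type) {i j : ℕ} (h : i ≠ j) : MM ρ β i j ∈ Rr ρ β :=
  Algebra.subset_adjoin (Or.inl (Or.inl (Or.inr ⟨i, j, h, rfl⟩)))

theorem X_mem_Rr (ρ : ℕ) (β : Type) : (X none : QQ (KK ρ β)) ∈ Rr ρ β :=
  Algebra.subset_adjoin (Or.inl (Or.inl (Or.inl rfl)))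

theorem eM_mem_Rr (ρ : ℕ) (β : Type) (i j : ℕ) : X none * MM ρ β i j ∈ Rr ρ β := by
  by_cases h : i = j
  · subst h
    exact Algebra.subset_adjoin (Or.inl (Or.inr ⟨i, rfl⟩))
  · exact (Rr ρ β).mul_mem (X_mem_Rr ρ β) (MM_mem_Rr ρ β h)

theorem TT_mem_Rr (ρ : ℕ) (β : Type) (b : β) (i : ℕ) : TT ρ β b i ∈ Rr ρ β :=
  Algebra.subset_adjoin (Or.inr ⟨b, i, rfl⟩)

theorem MM_mem_Rp (ρ : ℕ) (β : Type) (i j : ℕ) : MM ρ β i j ∈ Rp ρ β :=
  Algebra.subset_adjoin (Or.inl (Or.inr ⟨i, j, rfl⟩))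

theorem X_mem_Rp (ρ : ℕ) (β : Type) : (X none : QQ (KK ρ β)) ∈ Rp ρ β :=
  Algebra.subset_adjoin (Or.inl (Or.inl rfl))

theorem TT_mem_Rp (ρ : ℕ) (β : Type) (b : β) (i : ℕ) : TT ρ β b i ∈ Rp ρ β :=
  Algebra.subset_adjoin (Or.inr ⟨b, i, rfl⟩)

theorem Rr_le_Rp (ρ : ℕ) (β : Type) : Rr ρ β ≤ Rp ρ β := by
  unfold Rr
  rw [Algebra.adjoin_le_iff]
  rintro q (((hq | ⟨i, j, _, rfl⟩) | ⟨i, rfl⟩) | ⟨b, i, rfl⟩)
  · rw [Set.mem_singleton_iff] at hq
    rw [hq]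
    exact X_mem_Rp ρ β
  · exact MM_mem_Rp ρ β i j
  · exact (Rp ρ β).mul_mem (X_mem_Rp ρ β) (MM_mem_Rp ρ β i i)
  · exact TT_mem_Rp ρ β b i

theorem stab_Rr (ρ : ℕ) (β : Type) : SStab (actQ (KK ρ β)) (Rr ρ β).toSubring := by
  intro τ a ha
  have h : (Rr ρ β).map (rename (actV (KK ρ β) τ) : QQ (KK ρ β) →ₐ[ℂ] QQ (KK ρ β)) ≤ Rr ρ β := by
    unfold Rr
    rw [AlgHom.map_adjoin]
    apply Algebra.adjoin_mono
    rintro _ ⟨q, hq, rfl⟩
    rcases hq with ((hq | ⟨i, j, hij, rfl⟩) | ⟨i, rfl⟩) | ⟨b, i, rfl⟩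
    · left; left; left
      rw [Set.mem_singleton_iff] at hq
      rw [hq, Set.mem_singleton_iff, rename_X]
      rfl
    · left; left; right
      exact ⟨τ i, τ j, fun h => hij (τ.injective h), actQ_MM ρ β τ i j⟩
    · left; right
      refine ⟨τ i, ?_⟩
      rw [map_mul]
      congr 1
      · rw [rename_X]; rfl
      · exact actQ_MM ρ β τ i i
    · right
      exact ⟨b, τ i, actQ_TT ρ β τ b i⟩
  exact h ⟨a, ha, rfl⟩

theorem stab_Rp (ρ : ℕ) (β : Type) : SStab (actQ (KK ρ β)) (Rp ρ β).toSubring := by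
  intro τ a ha
  have h : (Rp ρ β).map (rename (actV (KK ρ β) τ) : QQ (KK ρ β) →ₐ[ℂ] QQ (KK ρ β)) ≤ Rp ρ β := by
    unfold Rp
    rw [AlgHom.map_adjoin]
    apply Algebra.adjoin_mono
    rintro _ ⟨q, hq, rfl⟩
    rcases hq with (hq | ⟨i, j, rfl⟩) | ⟨b, i, rfl⟩
    · left; left
      rw [Set.mem_singleton_iff] at hq
      rw [hq, Set.mem_singleton_iff, rename_X]
      rfl
    · left; right
      exact ⟨τ i, τ j, actQ_MM ρ β τ i j⟩
    · right
      exact ⟨b, τ i, actQ_TT ρ β τ b i⟩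
  exact h ⟨a, ha, rfl⟩

theorem gen_Rp (ρ : ℕ) (β : Type) : (Rp ρ β).toSubring ≤
    Subring.closure (((Rr ρ β).toSubring : Set (QQ (KK ρ β))) ∪
      Set.range fun j => MM ρ β j j) := by
  intro x hx
  have hx' : x ∈ Rp ρ β := hx
  unfold Rp at hx'
  have hR : ∀ y ∈ Rr ρ β, y ∈ Subring.closure (((Rr ρ β).toSubring : Set (QQ (KK ρ β))) ∪
      Set.range fun j => MM ρ β j j) := fun y hy => Subring.subset_closure (Or.inl hy)
  induction hx' using Algebra.adjoin_induction with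
  | mem y hy =>
    rcases hy with (hy | ⟨i, j, rfl⟩) | ⟨b, i, rfl⟩
    · rw [Set.mem_singleton_iff] at hy
      rw [hy]
      exact hR _ (X_mem_Rr ρ β)
    · by_cases h : i = j
      · subst h
        exact Subring.subset_closure (Or.inr ⟨i, rfl⟩)
      · exact hR _ (MM_mem_Rr ρ β h)
    · exact hR _ (TT_mem_Rr ρ β b i)
  | algebraMap c => exact hR _ ((Rr ρ β).algebraMap_mem c)
  | add y z hy hz h1 h2 => exact Subring.add_mem _ (h1 hy) (h2 hz)
  | mul y z hy hz h1 h2 => exact Subring.mul_mem _ (h1 hy) (h2 hz)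

theorem minor_mem_Rr (ρ : ℕ) (β : Type) (k : ℕ) (p : Fin k ⊕ Fin k → ℕ) (hp : Vld k p) :
    minor k (MM ρ β) p ∈ (Rr ρ β).toSubring := by
  unfold minor
  rw [Matrix.det_apply]
  apply Subring.sum_mem
  intro σ _
  have h1 : ∏ i, (Matrix.of fun a b : Fin k => MM ρ β (p (Sum.inl a)) (p (Sum.inr b))) (σ i) i ∈
      (Rr ρ β).toSubring := by
    apply Subring.prod_mem
    intro i _
    exact MM_mem_Rr ρ β (hp _ _)
  rcases Int.units_eq_one_or (Equiv.Perm.sign σ) with h | h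
  · rw [h, one_smul]
    exact h1
  · rw [h]
    have : ((-1 : ℤˣ) • ∏ i, (Matrix.of fun a b : Fin k =>
        MM ρ β (p (Sum.inl a)) (p (Sum.inr b))) (σ i) i) =
        - ∏ i, (Matrix.of fun a b : Fin k => MM ρ β (p (Sum.inl a)) (p (Sum.inr b))) (σ i) i := by
      rw [Units.smul_def]
      simp
    rw [this]
    exact Subring.neg_mem _ h1

/-! ### the ring `F` -/

theorem actF_X (β : Type) (τ : ℕ ↪o ℕ) (o : IF β) : (actF β).act τ (X o) = X (actI β τ o) := by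
  show rename (actI β τ) (X o) = _
  rw [rename_X]

theorem actF_yF (β : Type) (τ : ℕ ↪o ℕ) (i j : ℕ) :
    (actF β).act τ (yF β i j) = yF β (τ i) (τ j) := by
  unfold yF
  by_cases h : i = j
  · subst h
    simp
  · have h' : τ i ≠ τ j := fun h2 => h (τ.injective h2)
    rw [dif_pos h, dif_pos h', actF_X]
    rfl

theorem actF_minor (β : Type) (k : ℕ) (τ : ℕ ↪o ℕ) (p : Fin k ⊕ Fin k → ℕ) :
    (actF β).act τ (minor k (yF β) p) = minor k (yF β) (fun x => τ (p x)) := by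
  rw [minor_map]
  simp only [actF_yF]
  rfl

theorem II_act (β : Type) (k : ℕ) (τ : ℕ ↪o ℕ) (x : FF β) (hx : x ∈ II β k) :
    (actF β).act τ x ∈ II β k := by
  unfold II at hx ⊢
  refine Submodule.span_induction (p := fun x _ => (actF β).act τ x ∈
    Ideal.span {q | ∃ p : Fin k ⊕ Fin k → ℕ, Vld k p ∧ q = minor k (yF β) p}) ?_ ?_ ?_ ?_ hx
  · rintro _ ⟨p, hp, rfl⟩
    rw [actF_minor]
    exact Ideal.subset_span ⟨_, (Vld_act k τ p).mpr hp, rfl⟩
  · rw [map_zero]; exact Ideal.zero_mem _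
  · intro x y _ _ hx hy
    rw [map_add]; exact Ideal.add_mem _ hx hy
  · intro a x _ hx
    rw [smul_eq_mul, map_mul]; exact Ideal.mul_mem_left _ _ hx

theorem PhiF_act (ρ : ℕ) (β : Type) (τ : ℕ ↪o ℕ) (x : FF β) :
    (actQ (KK ρ β)).act τ (PhiF ρ β x) = PhiF ρ β ((actF β).act τ x) := by
  have h : ((rename (actV (KK ρ β) τ) : QQ (KK ρ β) →ₐ[ℂ] QQ (KK ρ β)).comp (PhiF ρ β)) =
      (PhiF ρ β).comp (rename (actI β τ) : FF β →ₐ[ℂ] FF β) := by
    apply MvPolynomial.algHom_ext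
    intro o
    rw [AlgHom.comp_apply, AlgHom.comp_apply, rename_X]
    unfold PhiF
    rw [aeval_X, aeval_X]
    rcases o with _ | (⟨⟨i, j⟩, hp⟩ | ⟨i, b⟩)
    · show rename (actV (KK ρ β) τ) (X none) = X none
      rw [rename_X]
      rfl
    · exact actQ_MM ρ β τ i j
    · exact actQ_TT ρ β τ b i
  exact congrArg (fun g => g x) h

theorem PhiF_yF (ρ : ℕ) (β : Type) {i j : ℕ} (h : i ≠ j) : PhiF ρ β (yF β i j) = MM ρ β i j := by
  unfold yF PhiF
  rw [dif_pos h, aeval_X]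

end MPf70651.Full
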