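import Pool.Agent.Lib_MP_f70651_al.Full.Conc
import Pool.Agent.Lib_MP_f70651_al.Full.Basic
import Pool.Agent.Lib_MP_f70651_al.Czero

/-!
# MP_f70651_al, full version : Cova
-/

namespace MPf70651.Full

open MPf70651 MvPolynomial

variable {P : Type} [CommRing P] {S : IncAct P}

/-- the part of the filtration with indices in `p` -/
def covJ (S : IncAct P) (B : Subring P) {w : ℕ} (b : Pos w → AddSubgroup P) (φ0 : Pos w) (x : P)
    {n : ℕ} (p : Pos n → Prop) (φ : Pos w) : AddSubgroup P :=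
  AddSubgroup.closure ({y | y ∈ b φ} ∪ {y | ∃ ψ, p ψ ∧ φ0.trans (ext ψ) = φ ∧
    ∃ a ∈ B, y = a * S.act (ext ψ) x})

section

variable {B : Subring P} {w : ℕ} {b : Pos w → AddSubgroup P}

theorem covJ_mono (φ0 : Pos w) (x : P) {n : ℕ} {p q : Pos n → Prop} (h : ∀ ψ, p ψ → q ψ)
    (φ : Pos w) : covJ S B b φ0 x p φ ≤ covJ S B b φ0 x q φ := by
  unfold covJ
  apply AddSubgroup.closure_mono
  rintro y (hy | ⟨ψ, h1, h2⟩)
  · exact Or.inl hy
  · exact Or.inr ⟨ψ, h ψ h1, h2⟩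

theorem covJ_b (φ0 : Pos w) (x : P) {n : ℕ} {p : Pos n → Prop} (φ : Pos w) :
    b φ ≤ covJ S B b φ0 x p φ := fun _ hy =>
  AddSubgroup.subset_closure (Or.inl hy)

theorem covJ_smul (hb : IsFam S B b) (φ0 : Pos w) (x : P) {n : ℕ} {p : Pos n → Prop} (φ : Pos w)
    (a : P) (ha : a ∈ B) (y : P) (hy : y ∈ covJ S B b φ0 x p φ) :
    a * y ∈ covJ S B b φ0 x p φ := by
  unfold covJ at hy ⊢
  induction hy using AddSubgroup.closure_induction with
  | mem y hy =>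
    apply AddSubgroup.subset_closure
    rcases hy with hy | ⟨ψ, h1, h2, c, hc, rfl⟩
    · exact Or.inl (hb.smul _ _ _ ha hy)
    · exact Or.inr ⟨ψ, h1, h2, a * c, B.mul_mem ha hc, by ring⟩
  | zero => rw [mul_zero]; exact AddSubgroup.zero_mem _
  | add y z _ _ hy hz => rw [mul_add]; exact AddSubgroup.add_mem _ hy hz
  | neg y _ hy => rw [mul_neg]; exact AddSubgroup.neg_mem _ hy

theorem covJ_act (hB : SStab S B) (hb : IsFam S B b) (φ0 : Pos w) (x : P) {n : ℕ}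
    (hsupp : SuppN S n x) (hφ : ∀ k, φ0 k < n) (ψ : Pos n) (φ : Pos w) (τ : ℕ ↪o ℕ) (y : P)
    (hy : y ∈ covJ S B b φ0 x (fun ψ' => czLex ψ' < czLex ψ) φ) :
    S.act τ y ∈ covJ S B b φ0 x (fun ψ' => czLex ψ' < czLex (ψ.trans τ)) (φ.trans τ) := by
  unfold covJ at hy ⊢
  induction hy using AddSubgroup.closure_induction with
  | mem y hy =>
    apply AddSubgroup.subset_closure
    rcases hy with hy | ⟨ψ', h1, h2, c, hc, rfl⟩
    · exact Or.inl (hb.act _ _ _ hy)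
    · refine Or.inr ⟨ψ'.trans τ, czLex_trans h1 τ, ?_, S.act τ c, hB τ c hc, ?_⟩
      · rw [pos_ext_trans φ0 hφ, h2]
      · rw [map_mul, act_ext_trans hsupp]
  | zero => rw [map_zero]; exact AddSubgroup.zero_mem _
  | add y z _ _ hy hz => rw [map_add]; exact AddSubgroup.add_mem _ hy hz
  | neg y _ hy => rw [map_neg]; exact AddSubgroup.neg_mem _ hy

/-- the top term -/
theorem covJ_top (φ0 : Pos w) (x : P) {n : ℕ} {p : Pos n → Prop} (φ : Pos w) (y : P)
    (hy : y ∈ covJ S B b φ0 x p φ) :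
    y ∈ b φ ∨ ∃ ψ : Pos n, p ψ ∧ φ0.trans (ext ψ) = φ ∧ ∃ a ∈ B,
      ∃ j ∈ covJ S B b φ0 x (fun ψ' => czLex ψ' < czLex ψ) φ, y = a * S.act (ext ψ) x + j := by
  unfold covJ at hy
  induction hy using AddSubgroup.closure_induction with
  | mem y hy =>
    rcases hy with hy | ⟨ψ, h1, h2, a, ha, rfl⟩
    · exact Or.inl hy
    · exact Or.inr ⟨ψ, h1, h2, a, ha, 0, AddSubgroup.zero_mem _, by rw [add_zero]⟩
  | zero => exact Or.inl (AddSubgroup.zero_mem _)
  | add y z _ _ hy hz =>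
    rcases hy with hy | ⟨ψ1, h1, h2, a, ha, j, hj, rfl⟩
    · rcases hz with hz | ⟨ψ2, h1', h2', a', ha', j', hj', rfl⟩
      · exact Or.inl (AddSubgroup.add_mem _ hy hz)
      · refine Or.inr ⟨ψ2, h1', h2', a', ha', y + j', ?_, by ring⟩
        exact AddSubgroup.add_mem _ (covJ_b φ0 x φ hy) hj'
    · rcases hz with hz | ⟨ψ2, h1', h2', a', ha', j', hj', rfl⟩
      · refine Or.inr ⟨ψ1, h1, h2, a, ha, j + z, ?_, by ring⟩
        exact AddSubgroup.add_mem _ hj (covJ_b φ0 x φ hz)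
      · rcases lt_trichotomy (czLex ψ1) (czLex ψ2) with h | h | h
        · refine Or.inr ⟨ψ2, h1', h2', a', ha', (a * S.act (ext ψ1) x + j) + j', ?_, by ring⟩
          refine AddSubgroup.add_mem _ (AddSubgroup.add_mem _ ?_ ?_) hj'
          · exact AddSubgroup.subset_closure (Or.inr ⟨ψ1, h, h2, a, ha, rfl⟩)
          · exact covJ_mono φ0 x (fun ψ' h' => lt_trans h' h) φ hj
        · have e := czLex_inj h
          subst e
          refine Or.inr ⟨ψ1, h1, h2, a + a', B.add_mem ha ha', j + j', ?_, by ring⟩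
          exact AddSubgroup.add_mem _ hj hj'
        · refine Or.inr ⟨ψ1, h1, h2, a, ha, j + (a' * S.act (ext ψ2) x + j'), ?_, by ring⟩
          refine AddSubgroup.add_mem _ hj (AddSubgroup.add_mem _ ?_ ?_)
          · exact AddSubgroup.subset_closure (Or.inr ⟨ψ2, h, h2', a', ha', rfl⟩)
          · exact covJ_mono φ0 x (fun ψ' h' => lt_trans h' h) φ hj'
  | neg y _ hy =>
    rcases hy with hy | ⟨ψ1, h1, h2, a, ha, j, hj, rfl⟩
    · exact Or.inl (AddSubgroup.neg_mem _ hy)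
    · exact Or.inr ⟨ψ1, h1, h2, -a, B.neg_mem ha, -j, AddSubgroup.neg_mem _ hj, by ring⟩

theorem covJ_all (φ0 : Pos w) (x : P) {n : ℕ} (hsupp : SuppN S n x) (hφ : ∀ k, φ0 k < n)
    (φ : Pos w) (y : P) (hy : y ∈ (b ⊔ gen S B {(φ0, x)}) φ) :
    y ∈ covJ S B b φ0 x (fun _ : Pos n => True) φ := by
  obtain ⟨y1, h1, y2, h2, rfl⟩ := AddSubgroup.mem_sup.mp hy
  refine AddSubgroup.add_mem _ (covJ_b φ0 x φ h1) ?_
  unfold gen at h2
  have h3 : AddSubgroup.closure {y | ∃ g ∈ ({(φ0, x)} : Set (Pos w × P)), ∃ τ : ℕ ↪o ℕ,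
      g.1.trans τ = φ ∧ ∃ a ∈ B, y = a * S.act τ g.2} ≤
      covJ S B b φ0 x (fun _ : Pos n => True) φ := by
    rw [AddSubgroup.closure_le]
    rintro _ ⟨g, hg, τ, hτ, a, ha, rfl⟩
    rw [Set.mem_singleton_iff] at hg
    subst hg
    simp only at hτ ⊢
    apply AddSubgroup.subset_closure
    refine Or.inr ⟨res n τ, trivial, ?_, a, ha, ?_⟩
    · rw [← hτ]
      exact trans_ext_eq φ0 hφ _ _ (fun i hi => ext_res n τ i hi)
    · congr 1
      exact hsupp _ _ (fun i hi => (ext_res n τ i hi).symm)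
  exact h3 h2

end

theorem cover_one {B : Subring P} (hB : SStab S B) {w : ℕ} {b : Pos w → AddSubgroup P}
    (hb : IsFam S B b) (φ0 : Pos w) (x : P) (n : ℕ) (hsupp : SuppN S n x) (hφ : ∀ k, φ0 k < n)
    (c : Pos n → AddSubgroup P) (hcB : ∀ ψ, c ψ ≤ B.toAddSubgroup)
    (hann : ∀ ψ, ∀ a ∈ c ψ, a * S.act (ext ψ) x ∈ b (φ0.trans (ext ψ)))
    (h : Noeth S B c (cst n B.toAddSubgroup)) : Noeth S B b (b ⊔ gen S B {(φ0, x)}) := by
  intro N hN hbN hNJ
  -- the family of leading coefficients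
  let Nt : Pos n → AddSubgroup P := fun ψ =>
    { carrier := {a | a ∈ B ∧ a * S.act (ext ψ) x ∈ N (φ0.trans (ext ψ)) ⊔
        covJ S B b φ0 x (fun ψ' => czLex ψ' < czLex ψ) (φ0.trans (ext ψ))}
      zero_mem' := ⟨B.zero_mem, by rw [zero_mul]; exact AddSubgroup.zero_mem _⟩
      add_mem' := fun {a c} ha hc => ⟨B.add_mem ha.1 hc.1, by
        rw [add_mul]; exact AddSubgroup.add_mem _ ha.2 hc.2⟩
      neg_mem' := fun {a} ha => ⟨B.neg_mem ha.1, by
        rw [neg_mul]; exact AddSubgroup.neg_mem _ ha.2⟩ }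
  have hfam : IsFam S B Nt := by
    refine ⟨?_, ?_⟩
    · rintro ψ a y ha ⟨h3, h4⟩
      refine ⟨B.mul_mem ha h3, ?_⟩
      obtain ⟨m, hm, j, hj, he⟩ := AddSubgroup.mem_sup.mp h4
      rw [mul_assoc, ← he, mul_add]
      exact AddSubgroup.mem_sup.mpr ⟨_, hN.smul _ _ _ ha hm, _,
        covJ_smul hb φ0 x _ a ha j hj, rfl⟩
    · rintro ψ τ y ⟨h3, h4⟩
      refine ⟨hB τ y h3, ?_⟩
      obtain ⟨m, hm, j, hj, he⟩ := AddSubgroup.mem_sup.mp h4
      rw [act_ext_trans hsupp, pos_ext_trans φ0 hφ, ← map_mul, ← he, map_add]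
      exact AddSubgroup.mem_sup.mpr ⟨_, hN.act _ _ _ hm, _,
        covJ_act hB hb φ0 x hsupp hφ ψ _ τ j hj, rfl⟩
  have hcN : c ≤ Nt := by
    intro ψ a ha
    exact ⟨hcB ψ ha, AddSubgroup.mem_sup_left (hbN _ (hann ψ a ha))⟩
  have hNB : Nt ≤ cst n B.toAddSubgroup := fun ψ a ha => ha.1
  obtain ⟨G, hGf, hGN, hGgen⟩ := h Nt hfam hcN hNB
  have hlift : ∀ g : Pos n × P, ∃ m : P, g ∈ G → m ∈ N (φ0.trans (ext g.1)) ∧
      g.2 * S.act (ext g.1) x - m ∈ covJ S B b φ0 x (fun ψ' => czLex ψ' < czLex g.1)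
        (φ0.trans (ext g.1)) := by
    intro g
    by_cases hg : g ∈ G
    · obtain ⟨m, hm, j, hj, he⟩ := AddSubgroup.mem_sup.mp (hGN g hg).2
      refine ⟨m, fun _ => ⟨hm, ?_⟩⟩
      rw [← he, add_sub_cancel_left]
      exact hj
    · exact ⟨0, fun h => absurd h hg⟩
  choose m hm using hlift
  set G3 : Set (Pos w × P) := (fun g : Pos n × P => (φ0.trans (ext g.1), m g)) '' G with hG3
  have hG3N : ∀ g ∈ G3, g.2 ∈ N g.1 := by
    rintro _ ⟨g, hg, rfl⟩
    exact (hm g hg).1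
  have hgenN : gen S B G3 ≤ N := gen_le hN hG3N
  refine ⟨G3, hGf.image _, hG3N, ?_⟩
  -- lifting the combinations
  have hcomb : ∀ (ψ : Pos n) (γ : P), γ ∈ gen S B G ψ →
      ∃ δ ∈ gen S B G3 (φ0.trans (ext ψ)), γ * S.act (ext ψ) x - δ ∈
        covJ S B b φ0 x (fun ψ' => czLex ψ' < czLex ψ) (φ0.trans (ext ψ)) := by
    intro ψ γ hγ
    unfold gen at hγ
    induction hγ using AddSubgroup.closure_induction with
    | mem γ hγ =>
      obtain ⟨g, hg, τ, hτ, a, ha, rfl⟩ := hγ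
      refine ⟨a * S.act τ (m g), ?_, ?_⟩
      · have h3 := mem_gen (S := S) (B := B) (G := G3) (g := (φ0.trans (ext g.1), m g))
          ⟨g, hg, rfl⟩ τ a ha
        simp only at h3
        rw [← pos_ext_trans φ0 hφ, hτ] at h3
        exact h3
      · have h3 := covJ_act hB hb φ0 x hsupp hφ g.1 _ τ _ (hm g hg).2
        rw [← pos_ext_trans φ0 hφ, hτ] at h3
        have h4 := covJ_smul hb φ0 x _ a ha _ h3
        rw [map_sub, map_mul, ← act_ext_trans hsupp, hτ] at h4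
        convert h4 using 1
        ring
    | zero => exact ⟨0, AddSubgroup.zero_mem _, by
        rw [zero_mul, sub_zero]; exact AddSubgroup.zero_mem _⟩
    | add y z _ _ hy hz =>
      obtain ⟨δ1, h3, h4⟩ := hy
      obtain ⟨δ2, h5, h6⟩ := hz
      refine ⟨δ1 + δ2, AddSubgroup.add_mem _ h3 h5, ?_⟩
      have := AddSubgroup.add_mem _ h4 h6
      convert this using 1
      ring
    | neg y _ hy =>
      obtain ⟨δ1, h3, h4⟩ := hy
      refine ⟨-δ1, AddSubgroup.neg_mem _ h3, ?_⟩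
      have := AddSubgroup.neg_mem _ h4
      convert this using 1
      ring
  have key : ∀ (k : Lex (Fin n → ℕ)) (ψ : Pos n), czLex ψ = k → ∀ a ∈ B,
      ∀ j ∈ covJ S B b φ0 x (fun ψ' => czLex ψ' < czLex ψ) (φ0.trans (ext ψ)),
      a * S.act (ext ψ) x + j ∈ N (φ0.trans (ext ψ)) →
      a * S.act (ext ψ) x + j ∈ b (φ0.trans (ext ψ)) ⊔ gen S B G3 (φ0.trans (ext ψ)) := by
    intro k
    induction k using WellFoundedLT.induction with
    | ind k ih =>
      rintro ψ rfl a ha j hj hy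
      have haN : a ∈ Nt ψ := by
        refine ⟨ha, AddSubgroup.mem_sup.mpr ⟨_, hy, -j, AddSubgroup.neg_mem _ hj, by ring⟩⟩
      obtain ⟨c', hc, γ, hγ, rfl⟩ := AddSubgroup.mem_sup.mp (hGgen ψ haN)
      obtain ⟨δ, hδ, hδ2⟩ := hcomb ψ γ hγ
      have hδN := hgenN _ hδ
      set φ := φ0.trans (ext ψ) with hφdef
      have hrest : (c' + γ) * S.act (ext ψ) x + j - δ ∈
          covJ S B b φ0 x (fun ψ' => czLex ψ' < czLex ψ) φ := by
        have h3 := AddSubgroup.add_mem _ (AddSubgroup.add_mem _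
          (covJ_b φ0 x φ (hann ψ c' hc)) hδ2) hj
        convert h3 using 1
        ring
      have hrestN : (c' + γ) * S.act (ext ψ) x + j - δ ∈ N φ := AddSubgroup.sub_mem _ hy hδN
      have hfin : (c' + γ) * S.act (ext ψ) x + j - δ ∈ b φ ⊔ gen S B G3 φ := by
        rcases covJ_top φ0 x φ _ hrest with h3 | ⟨ψ', h3, h4, a', ha', j', hj', h5⟩
        · exact AddSubgroup.mem_sup_left h3
        · rw [h5] at hrestN ⊢
          rw [← h4] at hj' hrestN ⊢
          exact ih _ h3 ψ' rfl a' ha' j' hj' hrestN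
      have h6 := AddSubgroup.add_mem _ hfin (AddSubgroup.mem_sup_right (S := b φ) hδ)
      rwa [sub_add_cancel] at h6
  intro φ y hy
  rcases covJ_top φ0 x φ y (covJ_all φ0 x hsupp hφ φ y (hNJ φ hy)) with
    h3 | ⟨ψ, _, h4, a, ha, j, hj, h5⟩
  · exact AddSubgroup.mem_sup_left h3
  · rw [h5] at hy ⊢
    rw [← h4] at hj hy ⊢
    exact key _ ψ rfl a ha j hj hy

end MPf70651.Full
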