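import Pool.Agent.Lib_MP_f70651_al.Full.Cova

/-!
# MP_f70651_al, full version : Covb
-/

namespace MPf70651.Full

open MPf70651 MvPolynomial

variable {P : Type} [CommRing P] {S : IncAct P}

theorem covb_aux {B : Subring P} (hB : SStab S B) {w : ℕ} {b : Pos w → AddSubgroup P}
    (hb : IsFam S B b) (G : Set (Pos w × P)) (hG : G.Finite)
    (hann : ∀ g ∈ G, ∃ n, SuppN S n g.2 ∧ (∀ k, g.1 k < n) ∧ ∃ c : Pos n → AddSubgroup P,
      (∀ ψ, c ψ ≤ B.toAddSubgroup) ∧
      (∀ ψ, ∀ a ∈ c ψ, a * S.act (ext ψ) g.2 ∈ b (g.1.trans (ext ψ))) ∧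
      Noeth S B c (cst n B.toAddSubgroup)) : Noeth S B b (b ⊔ gen S B G) := by
  induction G, hG using Set.Finite.induction_on with
  | empty =>
    apply Noeth.of_le
    apply sup_le le_rfl
    exact gen_le hb (fun g hg => absurd hg (Set.notMem_empty g))
  | @insert g G hgG hG ih =>
    have h1 := ih (fun g' hg' => hann g' (Set.mem_insert_of_mem _ hg'))
    obtain ⟨n, hn1, hn2, c, hc1, hc2, hc3⟩ := hann g (Set.mem_insert _ _)
    have hb' : IsFam S B (b ⊔ gen S B G) := hb.sup (isFam_gen hB G)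
    have h2 : Noeth S B (b ⊔ gen S B G) ((b ⊔ gen S B G) ⊔ gen S B {(g.1, g.2)}) :=
      cover_one hB hb' g.1 g.2 n hn1 hn2 c hc1
        (fun ψ a ha => AddSubgroup.mem_sup_left (hc2 ψ a ha)) hc3
    have h3 := Noeth.ext hB hb' le_sup_left le_sup_left h1 h2
    refine h3.mono le_rfl (sup_le (le_sup_left.trans le_sup_left) ?_)
    apply gen_le (hb'.sup (isFam_gen hB _))
    intro g' hg'
    rcases Set.mem_insert_iff.mp hg' with rfl | hg'
    · exact AddSubgroup.mem_sup_right (mem_gen_self (g := (g'.1, g'.2)) (Set.mem_singleton _))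
    · exact AddSubgroup.mem_sup_left (AddSubgroup.mem_sup_right (mem_gen_self hg'))

theorem cover {B : Subring P} (hB : SStab S B) {w : ℕ} {b D : Pos w → AddSubgroup P}
    (hb : IsFam S B b) (G : Set (Pos w × P)) (hG : G.Finite) (hD : D ≤ b ⊔ gen S B G)
    (hann : ∀ g ∈ G, ∃ n, SuppN S n g.2 ∧ (∀ k, g.1 k < n) ∧ ∃ c : Pos n → AddSubgroup P,
      (∀ ψ, c ψ ≤ B.toAddSubgroup) ∧
      (∀ ψ, ∀ a ∈ c ψ, a * S.act (ext ψ) g.2 ∈ b (g.1.trans (ext ψ))) ∧
      Noeth S B c (cst n B.toAddSubgroup)) : Noeth S B b D :=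
  (covb_aux hB hb G hG hann).mono le_rfl hD

end MPf70651.Full
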