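import Pool.Agent.Lib_MP_f70651_al.DefsTwo
import Pool.Agent.Lib_MP_f70651_al.Basic

/-!
# MP_f70651_al, full version : definitions

Everything is equivariant for the monoid `ℕ ↪o ℕ` of increasing maps.  `Pos w` is the set of
strictly increasing maps `Fin w → ℕ` (positions of `w` marks).
-/

namespace MPf70651.Full

open MPf70651 MvPolynomial

/-! ## Abstract part -/

/-- An action of the monoid of increasing maps on a commutative ring, with finite supports. -/
structure IncAct (P : Type) [CommRing P] where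
  act : (ℕ ↪o ℕ) → P →+* P
  act_refl : ∀ p, act (RelEmbedding.refl (· ≤ ·)) p = p
  act_trans : ∀ (τ σ : ℕ ↪o ℕ) (p : P), act (τ.trans σ) p = act σ (act τ p)
  supp : ∀ p : P, ∃ n : ℕ, ∀ σ τ : ℕ ↪o ℕ, (∀ i, i < n → σ i = τ i) → act σ p = act τ p

variable {P : Type} [CommRing P] (S : IncAct P)

/-- `p` only depends on the indices `< n`. -/
def SuppN (n : ℕ) (p : P) : Prop :=
  ∀ σ τ : ℕ ↪o ℕ, (∀ i, i < n → σ i = τ i) → S.act σ p = S.act τ p

/-- A subring stable under increasing maps. -/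
def SStab (B : Subring P) : Prop := ∀ (τ : ℕ ↪o ℕ), ∀ a ∈ B, S.act τ a ∈ B

/-- `w`-marked families of `B`-submodules of `P`. -/
structure IsFam (B : Subring P) {w : ℕ} (N : Pos w → AddSubgroup P) : Prop where
  smul : ∀ φ a x, a ∈ B → x ∈ N φ → a * x ∈ N φ
  act : ∀ φ (τ : ℕ ↪o ℕ) x, x ∈ N φ → S.act τ x ∈ N (φ.trans τ)

/-- The family generated over `B` by the translates of the elements of `G`. -/
def gen (B : Subring P) {w : ℕ} (G : Set (Pos w × P)) : Pos w → AddSubgroup P := fun φ =>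
  AddSubgroup.closure {x | ∃ g ∈ G, ∃ τ : ℕ ↪o ℕ, g.1.trans τ = φ ∧ ∃ a ∈ B, x = a * S.act τ g.2}

/-- `N` is finitely generated over `B` modulo `b`. -/
def FG (B : Subring P) {w : ℕ} (b N : Pos w → AddSubgroup P) : Prop :=
  ∃ G : Set (Pos w × P), G.Finite ∧ (∀ g ∈ G, g.2 ∈ N g.1) ∧ ∀ φ, N φ ≤ b φ ⊔ gen S B G φ

/-- Every family of `B`-submodules between `b` and `D` is finitely generated modulo `b`. -/
def Noeth (B : Subring P) {w : ℕ} (b D : Pos w → AddSubgroup P) : Prop :=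
  ∀ N : Pos w → AddSubgroup P, IsFam S B N → b ≤ N → N ≤ D → FG S B b N

/-- The constant family. -/
def cst (w : ℕ) (I : AddSubgroup P) : Pos w → AddSubgroup P := fun _ => I

/-- `𝔇^(q)(φ)`: generated over `B` by the products of `q` elements `Δ(p)`, `p` valid, with disjoint
index sets avoiding the marks `φ`. -/
def DD (B : Subring P) {ι : Type} (V : (ι → ℕ) → Prop) (Δ : (ι → ℕ) → P) (q w : ℕ) :
    Pos w → AddSubgroup P := fun φ =>
  AddSubgroup.closure {x | ∃ a ∈ B, ∃ p : Fin q → ι → ℕ, (∀ l, V (p l)) ∧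
    (∀ l k j, p l k ≠ φ j) ∧ (∀ l l', l ≠ l' → ∀ k k', p l k ≠ p l' k') ∧
    x = a * ∏ l, Δ (p l)}

/-- The `R`-span of the products of at most `D` of the elements `h j`. -/
def RD (R : Subring P) (h : ℕ → P) (D : ℕ) : AddSubgroup P :=
  AddSubgroup.closure {x | ∃ c ∈ R, ∃ l : List ℕ, l.length ≤ D ∧ x = c * (l.map h).prod}

theorem RD_mul {R : Subring P} {h : ℕ → P} {D E : ℕ} {x y : P} (hx : x ∈ RD R h D)
    (hy : y ∈ RD R h E) : x * y ∈ RD R h (D + E) := by
  unfold RD at hx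
  induction hx using AddSubgroup.closure_induction with
  | mem x hx =>
    obtain ⟨c, hc, l, hl, rfl⟩ := hx
    unfold RD at hy
    induction hy using AddSubgroup.closure_induction with
    | mem y hy =>
      obtain ⟨c', hc', l', hl', rfl⟩ := hy
      apply AddSubgroup.subset_closure
      refine ⟨c * c', R.mul_mem hc hc', l ++ l', ?_, ?_⟩
      · rw [List.length_append]; omega
      · rw [List.map_append, List.prod_append]; ring
    | zero => rw [mul_zero]; exact AddSubgroup.zero_mem _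
    | add y z _ _ hy hz => rw [mul_add]; exact AddSubgroup.add_mem _ hy hz
    | neg y _ hy => rw [mul_neg]; exact AddSubgroup.neg_mem _ hy
  | zero => rw [zero_mul]; exact AddSubgroup.zero_mem _
  | add x z _ _ hx hz => rw [add_mul]; exact AddSubgroup.add_mem _ hx hz
  | neg x _ hx => rw [neg_mul]; exact AddSubgroup.neg_mem _ hx

theorem RD_mono {R : Subring P} {h : ℕ → P} {D E : ℕ} (hDE : D ≤ E) : RD R h D ≤ RD R h E := by
  unfold RD
  apply AddSubgroup.closure_mono
  rintro _ ⟨c, hc, l, hl, rfl⟩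
  exact ⟨c, hc, l, hl.trans hDE, rfl⟩

theorem mem_RD_of_mem {R : Subring P} {h : ℕ → P} {D : ℕ} {x : P} (hx : x ∈ R) :
    x ∈ RD R h D :=
  AddSubgroup.subset_closure ⟨x, hx, [], Nat.zero_le _, by simp⟩

/-- `J_0^(D)`: the submodules generated by the translates of `G` over `RD D`. -/
def JD (R : Subring P) (h : ℕ → P) {w : ℕ} (G : Set (Pos w × P)) (D : ℕ) :
    Pos w → AddSubgroup P := fun φ =>
  AddSubgroup.closure {x | ∃ g ∈ G, ∃ τ : ℕ ↪o ℕ, g.1.trans τ = φ ∧
    ∃ a ∈ RD R h D, x = a * S.act τ g.2}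

/-- The Rees ring `⊕ (RD D) X^D` inside `P[X]`. -/
def RT (R : Subring P) (h : ℕ → P) : Subring (Polynomial P) where
  carrier := {p | ∀ D, p.coeff D ∈ RD R h D}
  mul_mem' := fun {p q} hp hq D => by
    rw [Polynomial.coeff_mul]
    apply AddSubgroup.sum_mem
    intro x hij
    have e : x.1 + x.2 = D := Finset.HasAntidiagonal.mem_antidiagonal.mp hij
    rw [← e]
    exact RD_mul (hp x.1) (hq x.2)
  one_mem' := fun D => by
    rw [Polynomial.coeff_one]
    split
    · exact mem_RD_of_mem R.one_mem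
    · exact AddSubgroup.zero_mem _
  add_mem' := fun {p q} hp hq D => by
    rw [Polynomial.coeff_add]
    exact AddSubgroup.add_mem _ (hp D) (hq D)
  zero_mem' := fun D => by
    rw [Polynomial.coeff_zero]
    exact AddSubgroup.zero_mem _
  neg_mem' := fun {p} hp D => by
    rw [Polynomial.coeff_neg]
    exact AddSubgroup.neg_mem _ (hp D)

/-- `X * RT`. -/
noncomputable def XRT (R : Subring P) (h : ℕ → P) : AddSubgroup (Polynomial P) :=
  (RT R h).toAddSubgroup.map (AddMonoidHom.mulLeft Polynomial.X)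

/-- The induced action on `P[X]`. -/
noncomputable def polyAct : IncAct (Polynomial P) where
  act := fun τ => Polynomial.mapRingHom (S.act τ)
  act_refl := fun p => by
    rw [Polynomial.coe_mapRingHom]
    ext n
    rw [Polynomial.coeff_map, S.act_refl]
  act_trans := fun τ σ p => by
    rw [Polynomial.coe_mapRingHom, Polynomial.coe_mapRingHom, Polynomial.coe_mapRingHom]
    ext n
    rw [Polynomial.coeff_map, Polynomial.coeff_map, Polynomial.coeff_map, S.act_trans]
  supp := fun p => by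
    choose f hf using S.supp
    refine ⟨p.support.sup (fun n => f (p.coeff n)), fun σ τ h => ?_⟩
    rw [Polynomial.coe_mapRingHom, Polynomial.coe_mapRingHom]
    ext n
    rw [Polynomial.coeff_map, Polynomial.coeff_map]
    by_cases hn : n ∈ p.support
    · apply hf
      intro i hi
      exact h i (lt_of_lt_of_le hi (Finset.le_sup (f := fun n => f (p.coeff n)) hn))
    · rw [Polynomial.notMem_support_iff.mp hn, map_zero, map_zero]

/-- The family of the polynomials `Σ x_D X^D` (`D ≥ 1`), `x_D ∈ JD (D - 1)`. -/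
noncomputable def bF (R : Subring P) (h : ℕ → P) {w : ℕ} (G : Set (Pos w × P)) :
    Pos w → AddSubgroup (Polynomial P) := fun φ =>
  { carrier := {p | p.coeff 0 = 0 ∧ ∀ D, p.coeff (D + 1) ∈ JD S R h G D φ}
    zero_mem' := ⟨Polynomial.coeff_zero 0, fun D => by
      rw [Polynomial.coeff_zero]; exact AddSubgroup.zero_mem _⟩
    add_mem' := fun {p q} hp hq => ⟨by rw [Polynomial.coeff_add, hp.1, hq.1, add_zero],
      fun D => by rw [Polynomial.coeff_add]; exact AddSubgroup.add_mem _ (hp.2 D) (hq.2 D)⟩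
    neg_mem' := fun {p} hp => ⟨by rw [Polynomial.coeff_neg, hp.1, neg_zero],
      fun D => by rw [Polynomial.coeff_neg]; exact AddSubgroup.neg_mem _ (hp.2 D)⟩ }

/-- The family of the polynomials `Σ x_D X^D` (`D ≥ 1`), `x_D ∈ JD D`. -/
noncomputable def DF (R : Subring P) (h : ℕ → P) {w : ℕ} (G : Set (Pos w × P)) :
    Pos w → AddSubgroup (Polynomial P) := fun φ =>
  { carrier := {p | p.coeff 0 = 0 ∧ ∀ D, p.coeff (D + 1) ∈ JD S R h G (D + 1) φ}
    zero_mem' := ⟨Polynomial.coeff_zero 0, fun D => by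
      rw [Polynomial.coeff_zero]; exact AddSubgroup.zero_mem _⟩
    add_mem' := fun {p q} hp hq => ⟨by rw [Polynomial.coeff_add, hp.1, hq.1, add_zero],
      fun D => by rw [Polynomial.coeff_add]; exact AddSubgroup.add_mem _ (hp.2 D) (hq.2 D)⟩
    neg_mem' := fun {p} hp => ⟨by rw [Polynomial.coeff_neg, hp.1, neg_zero],
      fun D => by rw [Polynomial.coeff_neg]; exact AddSubgroup.neg_mem _ (hp.2 D)⟩ }

/-- The data of a rank situation: `R ≤ R'` stable subrings, `R'` generated over `R` by the elements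
`h j`, which are absorbed by the elements `Δ p`. -/
structure RData where
  R : Subring P
  R' : Subring P
  h : ℕ → P
  ι : Type
  [fin : Fintype ι]
  V : (ι → ℕ) → Prop
  Δ : (ι → ℕ) → P
  r : ℕ
  R_le : R ≤ R'
  stab : SStab S R
  stab' : SStab S R'
  h_mem : ∀ j, h j ∈ R'
  act_h : ∀ (τ : ℕ ↪o ℕ) j, S.act τ (h j) = h (τ j)
  gen' : R' ≤ Subring.closure ((R : Set P) ∪ Set.range h)
  V_act : ∀ (τ : ℕ ↪o ℕ) (p : ι → ℕ), V (fun k => τ (p k)) ↔ V p
  Δ_mem : ∀ p, V p → Δ p ∈ R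
  Δ_act : ∀ (τ : ℕ ↪o ℕ) (p : ι → ℕ), S.act τ (Δ p) = Δ (fun k => τ (p k))
  absorb : ∀ (p : ι → ℕ) (j : ℕ), V p → (∀ k, p k ≠ j) → Δ p * h j ∈ R
  princ : ∀ k : Fin (r + 1) → ℕ, Function.Injective k → ∏ a, h (k a) ∈ RD R h r

/-- Hypothesis (H5): the Rees ring modulo `X` and the fresh `Δ` is noetherian. -/
def H5 (d : RData S) : Prop := ∀ w : ℕ, Noeth (polyAct S) (RT d.R d.h)
  (DD (RT d.R d.h) d.V (fun p => Polynomial.C (d.Δ p)) 1 w ⊔ cst w (XRT d.R d.h))
  (cst w (RT d.R d.h).toAddSubgroup)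

/-- Hypothesis (H6) (boundary charts). -/
def H6 (d : RData S) : Prop := ∀ (w : ℕ) (G : Set (Pos w × P)), G.Finite → (∀ g ∈ G, g.2 ∈ d.R) →
  ∃ c1 : ℕ, ∀ (φ : Pos w) (i : ℕ) (y : P), y ∈ d.R → (∃ D, y ∈ JD S d.R d.h G D φ) →
    ∃ k : ℕ, d.h i ^ k * y ∈ JD S d.R d.h G (k + c1) φ

/-! ## Concrete part -/

/-- Determinantal expression: `det (y (p (inl a)) (p (inr b)))`. -/
def minor {T : Type} [CommRing T] (k : ℕ) (y : ℕ → ℕ → T) (p : Fin k ⊕ Fin k → ℕ) : T :=
  (Matrix.of fun a b : Fin k => y (p (Sum.inl a)) (p (Sum.inr b))).det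

/-- The row indices are different from the column indices. -/
def Vld (k : ℕ) (p : Fin k ⊕ Fin k → ℕ) : Prop := ∀ a b, p (Sum.inl a) ≠ p (Sum.inr b)

/-- The index type for the variables `u_a`, `v_a` (`a < ρ`) and `t_b` (`b ∈ β`). -/
abbrev KK (ρ : ℕ) (β : Type) := (Fin ρ × Bool) ⊕ β

/-- The action on `QQ κ`. -/
noncomputable def actQ (κ : Type) : IncAct (QQ κ) where
  act := fun τ => (rename (actV κ τ) : QQ κ →ₐ[ℂ] QQ κ)
  act_refl := fun p => by
    show rename (actV κ (RelEmbedding.refl (· ≤ ·) : ℕ ↪o ℕ)) p = p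
    have h : actV κ (RelEmbedding.refl (· ≤ ·) : ℕ ↪o ℕ) = id := by
      funext o
      cases o with
      | none => rfl
      | some a => rfl
    rw [h]
    exact rename_id_apply p
  act_trans := fun τ σ p => by
    show rename (actV κ (τ.trans σ)) p = rename (actV κ σ) (rename (actV κ τ) p)
    rw [rename_rename]
    congr 1
    congr 1
    funext o
    cases o with
    | none => rfl
    | some a => rfl
  supp := fun p => by
    refine ⟨(p.vars.sup (fun o => o.elim 0 (fun i => i.1 + 1))), fun σ τ h => ?_⟩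
    show rename (actV κ σ) p = rename (actV κ τ) p
    have hh : ((rename (actV κ σ) : QQ κ →ₐ[ℂ] QQ κ) : QQ κ →+* QQ κ) p =
        ((rename (actV κ τ) : QQ κ →ₐ[ℂ] QQ κ) : QQ κ →+* QQ κ) p := by
      apply MvPolynomial.hom_congr_vars
      · ext c
        simp
      · intro v hv _
        cases v with
        | none => simp [actV]
        | some i =>
          have h1 : i.1 + 1 ≤ p.vars.sup (fun o => o.elim 0 (fun i => i.1 + 1)) :=
            Finset.le_sup (f := fun o : Option (ℕ × κ) => o.elim 0 (fun i => i.1 + 1)) hv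
          have h2 := h i.1 (by omega)
          simp [actV, Prod.map, h2]
      · rfl
    exact hh

/-- `M_ij = Σ_a u_ia v_ja`. -/
noncomputable def MM (ρ : ℕ) (β : Type) (i j : ℕ) : QQ (KK ρ β) :=
  ∑ a : Fin ρ, X (some (i, Sum.inl (a, true))) * X (some (j, Sum.inl (a, false)))

/-- `t_{b,i}`. -/
noncomputable def TT (ρ : ℕ) (β : Type) (b : β) (i : ℕ) : QQ (KK ρ β) := X (some (i, Sum.inr b))

/-- `R' = ℂ[e, M_ij, t_bi]`. -/
noncomputable def Rp (ρ : ℕ) (β : Type) : Subalgebra ℂ (QQ (KK ρ β)) :=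
  Algebra.adjoin ℂ ({X none} ∪ {q | ∃ i j : ℕ, q = MM ρ β i j} ∪ {q | ∃ b i, q = TT ρ β b i})

/-- `R = ℂ[e, M_ij (i ≠ j), e M_ii, t_bi]`. -/
noncomputable def Rr (ρ : ℕ) (β : Type) : Subalgebra ℂ (QQ (KK ρ β)) :=
  Algebra.adjoin ℂ ({X none} ∪ {q | ∃ i j : ℕ, i ≠ j ∧ q = MM ρ β i j} ∪
    {q | ∃ i : ℕ, q = X none * MM ρ β i i} ∪ {q | ∃ b i, q = TT ρ β b i})

/-- `R(ρ)`: the ring `R` is noetherian up to symmetry. -/
def RN (ρ : ℕ) : Prop := ∀ (β : Type) [Fintype β] (w : ℕ),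
  Noeth (actQ (KK ρ β)) (Rr ρ β).toSubring (cst w ⊥) (cst w (Rr ρ β).toSubring.toAddSubgroup)

/-- The index type of the variables `y_ij` (`i ≠ j`), `t_bi` (`b ∈ β`), and one constant. -/
abbrev IF (β : Type) := Option ({p : ℕ × ℕ // p.1 ≠ p.2} ⊕ (ℕ × β))

/-- The action on the index type. -/
def actI (β : Type) (τ : ℕ ↪o ℕ) : IF β → IF β :=
  Option.map (Sum.map (fun p => ⟨(τ p.1.1, τ p.1.2), fun h => p.2 (τ.injective h)⟩)
    (Prod.map τ id))

/-- The polynomial ring `F = ℂ[e, y_ij (i ≠ j), t_bi]`. -/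
abbrev FF (β : Type) := MvPolynomial (IF β) ℂ

/-- A bound of the indices of a variable. -/
def bdI {β : Type} : IF β → ℕ := fun o => match o with
  | none => 0
  | some (Sum.inl q) => max q.1.1 q.1.2 + 1
  | some (Sum.inr q) => q.1 + 1

theorem actI_congr {β : Type} {σ τ : ℕ ↪o ℕ} (v : IF β) (h : ∀ i, i < bdI v → σ i = τ i) :
    actI β σ v = actI β τ v := by
  rcases v with _ | (⟨⟨i, j⟩, hp⟩ | ⟨i, b⟩)
  · rfl
  · have h3 := h i (by show i < max i j + 1; omega)
    have h4 := h j (by show j < max i j + 1; omega)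
    simp [actI, h3, h4]
  · have h3 := h i (by show i < i + 1; omega)
    simp [actI, Prod.map, h3]

/-- The action on `F`. -/
noncomputable def actF (β : Type) : IncAct (FF β) where
  act := fun τ => (rename (actI β τ) : FF β →ₐ[ℂ] FF β)
  act_refl := fun p => by
    show rename (actI β (RelEmbedding.refl (· ≤ ·) : ℕ ↪o ℕ)) p = p
    have h : actI β (RelEmbedding.refl (· ≤ ·) : ℕ ↪o ℕ) = id := by
      funext o
      rcases o with _ | (⟨⟨i, j⟩, hp⟩ | ⟨i, b⟩) <;> rfl
    rw [h]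
    exact rename_id_apply p
  act_trans := fun τ σ p => by
    show rename (actI β (τ.trans σ)) p = rename (actI β σ) (rename (actI β τ) p)
    rw [rename_rename]
    congr 1
    congr 1
    funext o
    rcases o with _ | (⟨⟨i, j⟩, hp⟩ | ⟨i, b⟩) <;> rfl
  supp := fun p => by
    refine ⟨p.vars.sup bdI, fun σ τ h => ?_⟩
    have hh : ((rename (actI β σ) : FF β →ₐ[ℂ] FF β) : FF β →+* FF β) p =
        ((rename (actI β τ) : FF β →ₐ[ℂ] FF β) : FF β →+* FF β) p := by
      apply MvPolynomial.hom_congr_vars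
      · ext c
        simp
      · intro v hv _
        have h1 : bdI v ≤ p.vars.sup bdI := Finset.le_sup hv
        have h2 : actI β σ v = actI β τ v :=
          actI_congr v (fun i hi => h i (lt_of_lt_of_le hi h1))
        simp [h2]
      · rfl
    exact hh

/-- `y_ij` in `F` (zero on the diagonal). -/
noncomputable def yF (β : Type) (i j : ℕ) : FF β :=
  if h : i ≠ j then X (some (Sum.inl ⟨(i, j), h⟩)) else 0

/-- `t_bi` in `F`. -/
noncomputable def tF (β : Type) (b : β) (i : ℕ) : FF β := X (some (Sum.inr (i, b)))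

/-- The ideal generated by the off diagonal `k`-minors. -/
noncomputable def II (β : Type) (k : ℕ) : Ideal (FF β) :=
  Ideal.span {q | ∃ p : Fin k ⊕ Fin k → ℕ, Vld k p ∧ q = minor k (yF β) p}

/-- `P(ρ)`: the ring `F / (off diagonal (ρ+1)-minors)` is noetherian up to symmetry. -/
def PN (ρ : ℕ) : Prop := ∀ (β : Type) [Fintype β] (w : ℕ),
  Noeth (actF β) ⊤ (cst w (II β (ρ + 1)).toAddSubgroup) (cst w ⊤)

/-- The map `F → ℂ[e, u, v, t]`, `y_ij ↦ M_ij`. -/
noncomputable def PhiF (ρ : ℕ) (β : Type) : FF β →ₐ[ℂ] QQ (KK ρ β) :=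
  aeval (fun v : IF β => match v with
    | none => X none
    | some (Sum.inl p) => MM ρ β p.1.1 p.1.2
    | some (Sum.inr q) => TT ρ β q.2 q.1)

/-! ### off diagonal polynomials only (`RR = ℂ[y_ij : i ≠ j]`) -/

/-- `y_ij` in `RR`. -/
noncomputable def yR (i j : ℕ) : RR := if h : i ≠ j then X ⟨(i, j), h⟩ else 0

/-- The ideal of `RR` generated by the off diagonal `k`-minors. -/
noncomputable def IR (k : ℕ) : Ideal RR :=
  Ideal.span {q | ∃ p : Fin k ⊕ Fin k → ℕ, Vld k p ∧ q = minor k yR p}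

/-- `RR → ℂ[e, u, v]`, `y_ij ↦ M_ij`. -/
noncomputable def PhiR (ρ : ℕ) : RR →ₐ[ℂ] QQ (KK ρ Empty) :=
  aeval (fun p : {p : ℕ × ℕ // p.1 ≠ p.2} => MM ρ Empty p.1.1 p.1.2)

/-- The inclusion of `RR` in `F`. -/
noncomputable def incR (β : Type) : RR →ₐ[ℂ] FF β :=
  rename (fun p : {p : ℕ × ℕ // p.1 ≠ p.2} => (some (Sum.inl p) : IF β))

/-- The indices of a polynomial of `RR` lie in `F`. -/
def IdxIn (F : Finset ℕ) (κ : RR) : Prop := ∀ p ∈ κ.vars, p.1.1 ∈ F ∧ p.1.2 ∈ F

/-- `ℂ[e, y_ij] → ℂ[e, u, v]`, `y_ij ↦ M_ij`. -/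
noncomputable def Phi0 (ρ : ℕ) : MvPolynomial (Idx Off) ℂ →ₐ[ℂ] QQ (KK ρ Empty) :=
  aeval (fun v : Idx Off => match v with
    | none => X none
    | some p => MM ρ Empty p.1.1 p.1.2)

/-- The inclusion of `ℂ[e, y_ij]` in `F`. -/
noncomputable def inc0 (β : Type) : MvPolynomial (Idx Off) ℂ →ₐ[ℂ] FF β :=
  rename (Option.map (fun p => Sum.inl p))

end MPf70651.Full
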