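import Pool.Agent.Lib_MP_f70651_al.Full.Conc

/-!
# MP_f70651_al, full version : Der
-/

namespace MPf70651.Full

open MPf70651 MvPolynomial

theorem der_X_mem (k : ℕ) (β : Type) : (X none : QQ (KK k β)) ∈ Rp k β :=
  Algebra.subset_adjoin (Or.inl (Or.inl rfl))

theorem der_MM_mem (k : ℕ) (β : Type) (i j : ℕ) : MM k β i j ∈ Rp k β :=
  Algebra.subset_adjoin (Or.inl (Or.inr ⟨i, j, rfl⟩))

theorem der_TT_mem (k : ℕ) (β : Type) (b : β) (i : ℕ) : TT k β b i ∈ Rp k β :=
  Algebra.subset_adjoin (Or.inr ⟨b, i, rfl⟩)

/-- A derivation preserving the generators preserves `Rp`. -/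
theorem der_der (k : ℕ) (β : Type) (D : Derivation ℂ (QQ (KK k β)) (QQ (KK k β)))
    (hz : D (X none) ∈ Rp k β) (hp : ∀ i j, D (MM k β i j) ∈ Rp k β)
    (ht : ∀ b i, D (TT k β b i) ∈ Rp k β) (g : QQ (KK k β))
    (hg : g ∈ Rp k β) : D g ∈ Rp k β := by
  have hg' : g ∈ Rp k β := hg
  unfold Rp at hg
  induction hg using Algebra.adjoin_induction with
  | mem x hx =>
    rcases hx with (hx | ⟨i, j, rfl⟩) | ⟨b, i, rfl⟩
    · rw [Set.mem_singleton_iff] at hx
      rw [hx]; exact hz
    · exact hp i j
    · exact ht b i
  | algebraMap c =>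
    rw [Derivation.map_algebraMap]
    exact (Rp k β).zero_mem
  | add x y hx hy h1 h2 =>
    rw [map_add]
    exact (Rp k β).add_mem (h1 hx) (h2 hy)
  | mul x y hx hy h1 h2 =>
    rw [Derivation.leibniz]
    exact (Rp k β).add_mem ((Rp k β).mul_mem hx (h2 hy)) ((Rp k β).mul_mem hy (h1 hx))

theorem der_du_MM (r : ℕ) (β : Type) (i j k : ℕ) (a : Fin r) :
    pderiv (some (k, Sum.inl (a, true))) (MM r β i j) =
      if k = i then X (some (j, Sum.inl (a, false))) else 0 := by
  classical
  unfold MM
  rw [map_sum]
  have h : ∀ b : Fin r, pderiv (some (k, Sum.inl (a, true)))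
      (X (some (i, Sum.inl (b, true))) * X (some (j, Sum.inl (b, false))) : QQ (KK r β)) =
      if b = a then (if k = i then X (some (j, Sum.inl (a, false))) else 0) else 0 := by
    intro b
    rw [pderiv_mul, pderiv_X, pderiv_X]
    rw [Pi.single_apply, Pi.single_apply]
    have h1 : ¬ ((some (j, Sum.inl (b, false)) : Option (ℕ × KK r β)) =
        some (k, Sum.inl (a, true))) := by
      simp
    rw [if_neg h1, mul_zero, add_zero]
    by_cases hb : b = a
    · subst hb
      by_cases hk : k = i
      · subst hk; simp
      · have : ¬ ((some (i, Sum.inl (b, true)) : Option (ℕ × KK r β)) =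
            some (k, Sum.inl (b, true))) := by
          simpa using fun h => hk h.symm
        rw [if_neg this, if_pos rfl, if_neg hk, zero_mul]
    · have : ¬ ((some (i, Sum.inl (b, true)) : Option (ℕ × KK r β)) =
          some (k, Sum.inl (a, true))) := by
        simpa using fun _ => hb
      rw [if_neg this, if_neg hb, zero_mul]
  rw [Finset.sum_congr rfl (fun b _ => h b), Finset.sum_ite_eq' Finset.univ a]
  simp

theorem der_dv_MM (r : ℕ) (β : Type) (i j k : ℕ) (a : Fin r) :
    pderiv (some (k, Sum.inl (a, false))) (MM r β i j) =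
      if k = j then X (some (i, Sum.inl (a, true))) else 0 := by
  classical
  unfold MM
  rw [map_sum]
  have h : ∀ b : Fin r, pderiv (some (k, Sum.inl (a, false)))
      (X (some (i, Sum.inl (b, true))) * X (some (j, Sum.inl (b, false))) : QQ (KK r β)) =
      if b = a then (if k = j then X (some (i, Sum.inl (a, true))) else 0) else 0 := by
    intro b
    rw [pderiv_mul, pderiv_X, pderiv_X]
    rw [Pi.single_apply, Pi.single_apply]
    have h1 : ¬ ((some (i, Sum.inl (b, true)) : Option (ℕ × KK r β)) =
        some (k, Sum.inl (a, false))) := by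
      simp
    rw [if_neg h1, zero_mul, zero_add]
    by_cases hb : b = a
    · subst hb
      by_cases hk : k = j
      · subst hk; simp
      · have : ¬ ((some (j, Sum.inl (b, false)) : Option (ℕ × KK r β)) =
            some (k, Sum.inl (b, false))) := by
          simpa using fun h => hk h.symm
        rw [if_neg this, if_pos rfl, if_neg hk, mul_zero]
    · have : ¬ ((some (j, Sum.inl (b, false)) : Option (ℕ × KK r β)) =
          some (k, Sum.inl (a, false))) := by
        simpa using fun _ => hb
      rw [if_neg this, if_neg hb, mul_zero]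
  rw [Finset.sum_congr rfl (fun b _ => h b), Finset.sum_ite_eq' Finset.univ a]
  simp

theorem der_du_z (r : ℕ) (β : Type) (k : ℕ) (c : KK r β) :
    pderiv (some (k, c)) (X none : QQ (KK r β)) = 0 := by
  classical
  rw [pderiv_X, Pi.single_apply]
  simp

theorem der_du_TT (r : ℕ) (β : Type) (k : ℕ) (c : Fin r × Bool) (b : β) (i : ℕ) :
    pderiv (some (k, Sum.inl c)) (TT r β b i) = 0 := by
  classical
  unfold TT
  rw [pderiv_X, Pi.single_apply]
  simp

/-- `E_{ik} = Σ_a u_{ka} ∂/∂u_{ia}`. -/
noncomputable def derE (r : ℕ) (β : Type) (i k : ℕ) (s : Bool) :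
    Derivation ℂ (QQ (KK r β)) (QQ (KK r β)) :=
  ∑ a : Fin r, (X (some (k, Sum.inl (a, s))) : QQ (KK r β)) • pderiv (some (i, Sum.inl (a, s)))

theorem derE_apply (r : ℕ) (β : Type) (i k : ℕ) (s : Bool) (p : QQ (KK r β)) :
    derE r β i k s p =
      ∑ a : Fin r, X (some (k, Sum.inl (a, s))) * pderiv (some (i, Sum.inl (a, s))) p := by
  unfold derE
  have h := map_sum (Derivation.coeFnAddMonoidHom :
    Derivation ℂ (QQ (KK r β)) (QQ (KK r β)) →+ _)
    (fun a : Fin r => (X (some (k, Sum.inl (a, s))) : QQ (KK r β)) •
      pderiv (some (i, Sum.inl (a, s))))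
    Finset.univ
  have h2 := congrFun h p
  rw [Finset.sum_apply] at h2
  exact h2

theorem derE_mem (r : ℕ) (β : Type) (i k : ℕ) (s : Bool) (g : QQ (KK r β)) (hg : g ∈ Rp r β) :
    derE r β i k s g ∈ Rp r β := by
  apply der_der r β _ _ _ _ g hg
  · rw [derE_apply, Finset.sum_congr rfl (fun a _ => by rw [der_du_z, mul_zero])]
    simp
  · intro i' j'
    rw [derE_apply]
    cases s with
    | true =>
      by_cases h : i = i'
      · have : ∑ a : Fin r, X (some (k, Sum.inl (a, true))) *
            pderiv (some (i, Sum.inl (a, true))) (MM r β i' j') = MM r β k j' := by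
          conv_rhs => unfold MM
          apply Finset.sum_congr rfl
          intro a _
          rw [der_du_MM, if_pos h]
        rw [this]; exact der_MM_mem _ _ _ _
      · rw [Finset.sum_congr rfl (fun a _ => by rw [der_du_MM, if_neg h, mul_zero])]
        simp
    | false =>
      by_cases h : i = j'
      · have : ∑ a : Fin r, X (some (k, Sum.inl (a, false))) *
            pderiv (some (i, Sum.inl (a, false))) (MM r β i' j') = MM r β i' k := by
          conv_rhs => unfold MM
          apply Finset.sum_congr rfl
          intro a _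
          rw [der_dv_MM, if_pos h, mul_comm]
        rw [this]; exact der_MM_mem _ _ _ _
      · rw [Finset.sum_congr rfl (fun a _ => by rw [der_dv_MM, if_neg h, mul_zero])]
        simp
  · intro b i'
    rw [derE_apply, Finset.sum_congr rfl (fun a _ => by rw [der_du_TT, mul_zero])]
    simp

/-- The Laplacian. -/
noncomputable def derL (r : ℕ) (β : Type) (i j : ℕ) (g : QQ (KK r β)) : QQ (KK r β) :=
  ∑ a : Fin r, pderiv (some (j, Sum.inl (a, false))) (pderiv (some (i, Sum.inl (a, true))) g)

theorem derL_add (r : ℕ) (β : Type) (i j : ℕ) (p q : QQ (KK r β)) :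
    derL r β i j (p + q) = derL r β i j p + derL r β i j q := by
  unfold derL
  rw [← Finset.sum_add_distrib]
  apply Finset.sum_congr rfl
  intro a _
  rw [map_add, map_add]

theorem derL_mul (r : ℕ) (β : Type) (i j : ℕ) (p q : QQ (KK r β)) :
    derL r β i j (p * q) = derL r β i j p * q + p * derL r β i j q +
      ∑ a : Fin r, (pderiv (some (j, Sum.inl (a, false))) p *
          pderiv (some (i, Sum.inl (a, true))) q +
        pderiv (some (i, Sum.inl (a, true))) p * pderiv (some (j, Sum.inl (a, false))) q) := by
  unfold derL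
  rw [Finset.sum_mul, Finset.mul_sum, ← Finset.sum_add_distrib, ← Finset.sum_add_distrib]
  apply Finset.sum_congr rfl
  intro a _
  rw [pderiv_mul, map_add, pderiv_mul, pderiv_mul]
  ring

theorem derL_mul_mem (r : ℕ) (β : Type) (i j : ℕ) (q : QQ (KK r β)) (hq : q ∈ Rp r β) :
    ∀ p ∈ Rp r β, derL r β i j p ∈ Rp r β → derL r β i j (p * q) ∈ Rp r β := by
  classical
  have hq' := hq
  unfold Rp at hq
  induction hq using Algebra.adjoin_induction with
  | mem x hx =>
    intro p hp hLp
    rw [derL_mul]
    rcases hx with (hx | ⟨k, l, rfl⟩) | ⟨b, k, rfl⟩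
    · rw [Set.mem_singleton_iff] at hx
      subst hx
      have h1 : derL r β i j (X none) = 0 := by
        unfold derL
        apply Finset.sum_eq_zero
        intro a _
        rw [der_du_z, map_zero]
      have h2 : ∑ a : Fin r, (pderiv (some (j, Sum.inl (a, false))) p *
          pderiv (some (i, Sum.inl (a, true))) (X none : QQ (KK r β)) +
        pderiv (some (i, Sum.inl (a, true))) p *
          pderiv (some (j, Sum.inl (a, false))) (X none)) = 0 := by
        apply Finset.sum_eq_zero
        intro a _
        rw [der_du_z, der_du_z, mul_zero, mul_zero, add_zero]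
      rw [h1, h2, mul_zero, add_zero, add_zero]
      exact (Rp r β).mul_mem hLp (der_X_mem r β)
    · have h1 : derL r β i j (MM r β k l) ∈ Rp r β := by
        unfold derL
        apply (Rp r β).sum_mem
        intro a _
        rw [der_du_MM]
        by_cases h : i = k
        · rw [if_pos h, pderiv_X, Pi.single_apply]
          by_cases h' : (some (l, Sum.inl (a, false)) : Option (ℕ × KK r β)) =
              some (j, Sum.inl (a, false))
          · rw [if_pos h']; exact (Rp r β).one_mem
          · rw [if_neg h']; exact (Rp r β).zero_mem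
        · rw [if_neg h, map_zero]; exact (Rp r β).zero_mem
      have h2 : ∑ a : Fin r, (pderiv (some (j, Sum.inl (a, false))) p *
          pderiv (some (i, Sum.inl (a, true))) (MM r β k l) +
        pderiv (some (i, Sum.inl (a, true))) p *
          pderiv (some (j, Sum.inl (a, false))) (MM r β k l)) =
          (if i = k then derE r β j l false p else 0) +
            (if j = l then derE r β i k true p else 0) := by
        rw [Finset.sum_add_distrib]
        congr 1
        · by_cases h : i = k
          · rw [if_pos h, derE_apply]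
            apply Finset.sum_congr rfl
            intro a _
            rw [der_du_MM, if_pos h, mul_comm]
          · rw [if_neg h]
            apply Finset.sum_eq_zero
            intro a _
            rw [der_du_MM, if_neg h, mul_zero]
        · by_cases h : j = l
          · rw [if_pos h, derE_apply]
            apply Finset.sum_congr rfl
            intro a _
            rw [der_dv_MM, if_pos h, mul_comm]
          · rw [if_neg h]
            apply Finset.sum_eq_zero
            intro a _
            rw [der_dv_MM, if_neg h, mul_zero]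
      rw [h2]
      refine (Rp r β).add_mem ((Rp r β).add_mem ((Rp r β).mul_mem hLp (der_MM_mem r β k l))
        ((Rp r β).mul_mem hp h1)) ((Rp r β).add_mem ?_ ?_)
      · split
        · exact derE_mem _ _ _ _ _ _ hp
        · exact (Rp r β).zero_mem
      · split
        · exact derE_mem _ _ _ _ _ _ hp
        · exact (Rp r β).zero_mem
    · have h1 : derL r β i j (TT r β b k) = 0 := by
        unfold derL
        apply Finset.sum_eq_zero
        intro a _
        rw [der_du_TT, map_zero]
      have h2 : ∑ a : Fin r, (pderiv (some (j, Sum.inl (a, false))) p *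
          pderiv (some (i, Sum.inl (a, true))) (TT r β b k) +
        pderiv (some (i, Sum.inl (a, true))) p *
          pderiv (some (j, Sum.inl (a, false))) (TT r β b k)) = 0 := by
        apply Finset.sum_eq_zero
        intro a _
        rw [der_du_TT, der_du_TT, mul_zero, mul_zero, add_zero]
      rw [h1, h2, mul_zero, add_zero, add_zero]
      exact (Rp r β).mul_mem hLp (der_TT_mem r β b k)
  | algebraMap c =>
    intro p hp hLp
    have : derL r β i j (p * algebraMap ℂ (QQ (KK r β)) c) = derL r β i j p * C c := by
      rw [derL_mul]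
      have h0 : ∀ v, pderiv v (algebraMap ℂ (QQ (KK r β)) c) = 0 := fun v =>
        Derivation.map_algebraMap _ _
      have h1 : derL r β i j (algebraMap ℂ (QQ (KK r β)) c) = 0 := by
        unfold derL
        apply Finset.sum_eq_zero
        intro a _
        rw [h0, map_zero]
      rw [h1, Finset.sum_eq_zero (fun a _ => by rw [h0, h0, mul_zero, mul_zero, add_zero]),
        mul_zero, add_zero, add_zero]
      rfl
    rw [this]
    exact (Rp r β).mul_mem hLp ((Rp r β).algebraMap_mem c)
  | add x y hx hy h1 h2 =>
    intro p hp hLp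
    rw [mul_add, derL_add]
    exact (Rp r β).add_mem (h1 hx p hp hLp) (h2 hy p hp hLp)
  | mul x y hx hy h1 h2 =>
    intro p hp hLp
    rw [← mul_assoc]
    exact h2 hy (p * x) ((Rp r β).mul_mem hp hx) (h1 hx p hp hLp)

theorem lap_mem2 (k : ℕ) (β : Type) (i j : ℕ) (g : QQ (KK k β)) (hg : g ∈ Rp k β) :
    ∑ a : Fin k, pderiv (some (j, Sum.inl (a, false)))
      (pderiv (some (i, Sum.inl (a, true))) g) ∈ Rp k β := by
  have h := derL_mul_mem k β i j g hg 1 (Rp k β).one_mem (by
    have : derL k β i j 1 = 0 := by
      unfold derL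
      apply Finset.sum_eq_zero
      intro a _
      rw [pderiv_one, map_zero]
    rw [this]; exact (Rp k β).zero_mem)
  rw [one_mul] at h
  exact h

theorem dz_mem2 (k : ℕ) (β : Type) (g : QQ (KK k β)) (hg : g ∈ Rp k β) :
    pderiv none g ∈ Rp k β := by
  classical
  apply der_der k β _ _ _ _ g hg
  · rw [pderiv_X, Pi.single_apply, if_pos rfl]
    exact (Rp k β).one_mem
  · intro i j
    have : pderiv none (MM k β i j) = 0 := by
      unfold MM
      rw [map_sum]
      apply Finset.sum_eq_zero
      intro a _
      rw [pderiv_mul, pderiv_X, pderiv_X, Pi.single_apply, Pi.single_apply]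
      simp
    rw [this]
    exact (Rp k β).zero_mem
  · intro b i
    have : pderiv none (TT k β b i) = 0 := by
      unfold TT
      rw [pderiv_X, Pi.single_apply]
      simp
    rw [this]
    exact (Rp k β).zero_mem

theorem dt_mem2 (k : ℕ) (β : Type) (i : ℕ) (b : β) (g : QQ (KK k β)) (hg : g ∈ Rp k β) :
    pderiv (some (i, Sum.inr b)) g ∈ Rp k β := by
  classical
  apply der_der k β _ _ _ _ g hg
  · rw [der_du_z]
    exact (Rp k β).zero_mem
  · intro i' j
    have : pderiv (some (i, Sum.inr b)) (MM k β i' j) = 0 := by
      unfold MM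
      rw [map_sum]
      apply Finset.sum_eq_zero
      intro a _
      rw [pderiv_mul, pderiv_X, pderiv_X, Pi.single_apply, Pi.single_apply]
      simp
    rw [this]
    exact (Rp k β).zero_mem
  · intro b' i'
    unfold TT
    rw [pderiv_X, Pi.single_apply]
    by_cases h : (some (i', Sum.inr b') : Option (ℕ × KK k β)) = some (i, Sum.inr b)
    · rw [if_pos h]; exact (Rp k β).one_mem
    · rw [if_neg h]; exact (Rp k β).zero_mem

end MPf70651.Full
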