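import Pool.Agent.Lib_MP_f70651_al.Full.Mzero

/-!
# MP_f70651_al, full version : Deta
-/

namespace MPf70651.Full

open MPf70651 MvPolynomial

theorem det_mem_subring {T : Type} [CommRing T] (R : Subring T) {n : ℕ}
    (A : Matrix (Fin n) (Fin n) T) (h : ∀ a b, A a b ∈ R) : A.det ∈ R := by
  classical
  rw [Matrix.det_apply]
  apply Subring.sum_mem
  intro σ _
  rcases Int.units_eq_one_or (Equiv.Perm.sign σ) with h1 | h1
  · rw [h1, one_smul]
    exact Subring.prod_mem _ fun a _ => h _ _
  · rw [h1, Units.neg_smul, one_smul]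
    exact Subring.neg_mem _ (Subring.prod_mem _ fun a _ => h _ _)

theorem absorb_MM (k : ℕ) (β : Type) (p : Fin k ⊕ Fin k → ℕ) (j : ℕ) (hp : Vld k p)
    (hj : ∀ x, p x ≠ j) : minor k (MM k β) p * MM k β j j ∈ (Rr k β).toSubring := by
  classical
  have hoff : ∀ i i' : ℕ, i ≠ i' → MM k β i i' ∈ (Rr k β).toSubring := by
    intro i i' hii
    show MM k β i i' ∈ Rr k β
    unfold Rr
    apply Algebra.subset_adjoin
    left
    left
    right
    exact ⟨i, i', hii, rfl⟩
  set rw' : Fin (k + 1) → ℕ := Fin.snoc (fun a : Fin k => p (Sum.inl a)) j with hrw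
  set cl' : Fin (k + 1) → ℕ := Fin.snoc (fun a : Fin k => p (Sum.inr a)) j with hcl
  have r1 : ∀ a : Fin k, rw' a.castSucc = p (Sum.inl a) := fun a => by
    rw [hrw]; exact Fin.snoc_castSucc (α := fun _ => ℕ) _ _ _
  have r2 : rw' (Fin.last k) = j := by
    rw [hrw]; exact Fin.snoc_last (α := fun _ => ℕ) _ _
  have c1 : ∀ a : Fin k, cl' a.castSucc = p (Sum.inr a) := fun a => by
    rw [hcl]; exact Fin.snoc_castSucc (α := fun _ => ℕ) _ _ _
  have c2 : cl' (Fin.last k) = j := by
    rw [hcl]; exact Fin.snoc_last (α := fun _ => ℕ) _ _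
  have h0 := minor_MM_zero k β (Sum.elim rw' cl')
  unfold minor at h0
  rw [Matrix.det_succ_row _ (Fin.last k), Fin.sum_univ_castSucc] at h0
  have hlast : (-1 : QQ (KK k β)) ^ ((Fin.last k : ℕ) + (Fin.last k : ℕ)) *
      (Matrix.of fun a b : Fin (k + 1) => MM k β (Sum.elim rw' cl' (Sum.inl a))
        (Sum.elim rw' cl' (Sum.inr b))) (Fin.last k) (Fin.last k) *
      ((Matrix.of fun a b : Fin (k + 1) => MM k β (Sum.elim rw' cl' (Sum.inl a))
        (Sum.elim rw' cl' (Sum.inr b))).submatrix (Fin.last k).succAbove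
          (Fin.last k).succAbove).det = minor k (MM k β) p * MM k β j j := by
    rw [Even.neg_one_pow ⟨_, rfl⟩, one_mul]
    have e1 : (Matrix.of fun a b : Fin (k + 1) => MM k β (Sum.elim rw' cl' (Sum.inl a))
        (Sum.elim rw' cl' (Sum.inr b))) (Fin.last k) (Fin.last k) = MM k β j j := by
      show MM k β (rw' (Fin.last k)) (cl' (Fin.last k)) = MM k β j j
      rw [r2, c2]
    have e2 : (Matrix.of fun a b : Fin (k + 1) => MM k β (Sum.elim rw' cl' (Sum.inl a))
        (Sum.elim rw' cl' (Sum.inr b))).submatrix (Fin.last k).succAbove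
          (Fin.last k).succAbove =
        Matrix.of fun a b : Fin k => MM k β (p (Sum.inl a)) (p (Sum.inr b)) := by
      ext1 a b
      show MM k β (rw' ((Fin.last k).succAbove a)) (cl' ((Fin.last k).succAbove b)) = _
      rw [Fin.succAbove_last, r1, c1]
      rfl
    rw [e1, e2, mul_comm]
    rfl
  rw [hlast] at h0
  have h1 : minor k (MM k β) p * MM k β j j = - ∑ i : Fin k,
      (-1 : QQ (KK k β)) ^ ((Fin.last k : ℕ) + (i.castSucc : ℕ)) *
      (Matrix.of fun a b : Fin (k + 1) => MM k β (Sum.elim rw' cl' (Sum.inl a))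
        (Sum.elim rw' cl' (Sum.inr b))) (Fin.last k) i.castSucc *
      ((Matrix.of fun a b : Fin (k + 1) => MM k β (Sum.elim rw' cl' (Sum.inl a))
        (Sum.elim rw' cl' (Sum.inr b))).submatrix (Fin.last k).succAbove
          i.castSucc.succAbove).det := by
    rw [eq_neg_iff_add_eq_zero, add_comm]
    exact h0
  rw [h1]
  apply Subring.neg_mem
  apply Subring.sum_mem
  intro i _
  apply Subring.mul_mem
  · apply Subring.mul_mem
    · apply Subring.pow_mem
      exact Subring.neg_mem _ (Subring.one_mem _)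
    · show MM k β (rw' (Fin.last k)) (cl' i.castSucc) ∈ _
      rw [r2, c1]
      exact hoff _ _ (hj _).symm
  · apply det_mem_subring
    intro a b
    show MM k β (rw' ((Fin.last k).succAbove a)) (cl' (i.castSucc.succAbove b)) ∈ _
    rw [Fin.succAbove_last, r1]
    apply hoff
    have hcases : ∀ c : Fin (k + 1), p (Sum.inl a) ≠ cl' c := by
      intro c
      refine Fin.lastCases ?_ (fun c => ?_) c
      · rw [c2]; exact hj _
      · rw [c1]; exact hp _ _
    exact hcases _

end MPf70651.Full
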