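import Pool.Agent.Lib_MP_f70651_al.Full.Mzero

/-!
# MP_f70651_al, full version : Detp
-/

namespace MPf70651.Full

open MPf70651 MvPolynomial

theorem detp_term (k : ℕ) (β : Type) (s : Fin (k + 1) → ℕ) (hs : Function.Injective s)
    (σ : Equiv.Perm (Fin (k + 1))) (hσ : σ ≠ 1) :
    ∏ a, MM k β (s (σ a)) (s a) ∈ RD (Rr k β).toSubring (fun j => MM k β j j) k := by
  classical
  rw [← Finset.prod_filter_mul_prod_filter_not Finset.univ (fun a => σ a = a), mul_comm]
  apply AddSubgroup.subset_closure
  refine ⟨∏ a ∈ Finset.univ.filter (fun a => ¬ σ a = a), MM k β (s (σ a)) (s a), ?_,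
    ((Finset.univ.filter (fun a => σ a = a)).toList.map s), ?_, ?_⟩
  · apply Subring.prod_mem
    intro a ha
    rw [Finset.mem_filter] at ha
    exact MM_mem_Rr k β (fun h => ha.2 (hs h))
  · rw [List.length_map, Finset.length_toList]
    have h1 : ∃ a, ¬ σ a = a := by
      by_contra hcon
      push Not at hcon
      exact hσ (Equiv.ext hcon)
    obtain ⟨a, ha⟩ := h1
    have h2 : (Finset.univ.filter (fun a => σ a = a)) ⊂ (Finset.univ : Finset (Fin (k + 1))) := by
      rw [Finset.ssubset_univ_iff]
      intro h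
      have : a ∈ Finset.univ.filter (fun a => σ a = a) := by rw [h]; exact Finset.mem_univ a
      rw [Finset.mem_filter] at this
      exact ha this.2
    have h3 := Finset.card_lt_card h2
    rw [Finset.card_univ, Fintype.card_fin] at h3
    omega
  · congr 1
    rw [List.map_map]
    have h4 : ∏ a ∈ Finset.univ.filter (fun a => σ a = a), MM k β (s (σ a)) (s a) =
        ∏ a ∈ Finset.univ.filter (fun a => σ a = a), MM k β (s a) (s a) := by
      apply Finset.prod_congr rfl
      intro a ha
      rw [Finset.mem_filter] at ha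
      rw [ha.2]
    rw [h4]
    exact (Finset.prod_map_toList _ _).symm

theorem princ_MM (k : ℕ) (β : Type) (s : Fin (k + 1) → ℕ) (hs : Function.Injective s) :
    ∏ a, MM k β (s a) (s a) ∈ RD (Rr k β).toSubring (fun j => MM k β j j) k := by
  classical
  have h0 := minor_MM_zero k β (Sum.elim s s)
  unfold minor at h0
  rw [Matrix.det_apply'] at h0
  simp only [Matrix.of_apply, Sum.elim_inl, Sum.elim_inr] at h0
  rw [← Finset.add_sum_erase Finset.univ _ (Finset.mem_univ (1 : Equiv.Perm (Fin (k + 1))))] at h0
  simp only [Equiv.Perm.sign_one, Units.val_one, Int.cast_one, one_mul, Equiv.Perm.coe_one,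
    id_eq] at h0
  rw [eq_neg_of_add_eq_zero_left h0]
  apply AddSubgroup.neg_mem
  apply AddSubgroup.sum_mem
  intro σ hσ
  rw [Finset.mem_erase] at hσ
  have h1 := detp_term k β s hs σ hσ.1
  rcases Int.units_eq_one_or (Equiv.Perm.sign σ) with h2 | h2
  · rw [h2, Units.val_one, Int.cast_one, one_mul]
    exact h1
  · rw [h2, Units.val_neg, Units.val_one, Int.cast_neg, Int.cast_one, neg_one_mul]
    exact AddSubgroup.neg_mem _ h1

end MPf70651.Full
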