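import Pool.Agent.Lib_MP_f70651_al.Full.Covb

/-!
# MP_f70651_al, full version : Dq
-/

namespace MPf70651.Full

open MPf70651 MvPolynomial

variable {P : Type} [CommRing P] {S : IncAct P}

/-- Factoring a position and `q` tuples through an increasing map with small values. -/
theorem dq_factor {ι : Type} [Fintype ι] {q w : ℕ} (φ : Pos w) (p : Fin q → ι → ℕ) :
    ∃ (φ0 : Pos w) (p0 : Fin q → ι → ℕ) (ε : ℕ ↪o ℕ), φ0.trans ε = φ ∧
      (∀ l k, ε (p0 l k) = p l k) ∧ (∀ j, φ0 j < w + q * Fintype.card ι) ∧
      ∀ l k, p0 l k < w + q * Fintype.card ι := by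
  classical
  set U : Finset ℕ := Finset.univ.image (fun j : Fin w => φ j) ∪
    Finset.univ.image (fun x : Fin q × ι => p x.1 x.2) with hU
  have hcard : U.card ≤ w + q * Fintype.card ι := by
    refine (Finset.card_union_le _ _).trans (Nat.add_le_add ?_ ?_)
    · refine Finset.card_image_le.trans ?_
      simp
    · refine Finset.card_image_le.trans ?_
      simp
  obtain ⟨ε, hε⟩ := exists_cover U _ hcard
  have h1 : ∀ j : Fin w, ∃ i, i < w + q * Fintype.card ι ∧ ε i = φ j := fun j =>
    hε _ (Finset.mem_union_left _ (Finset.mem_image_of_mem _ (Finset.mem_univ j)))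
  have h2 : ∀ l k, ∃ i, i < w + q * Fintype.card ι ∧ ε i = p l k := fun l k =>
    hε _ (Finset.mem_union_right _ (Finset.mem_image_of_mem
      (fun x : Fin q × ι => p x.1 x.2) (Finset.mem_univ (l, k))))
  choose a ha1 ha2 using h1
  choose c hc1 hc2 using h2
  have hmono : StrictMono a := by
    intro j j' hjj
    have h3 : φ j < φ j' := φ.strictMono hjj
    rw [← ha2, ← ha2] at h3
    exact ε.lt_iff_lt.1 h3
  refine ⟨OrderEmbedding.ofStrictMono a hmono, c, ε, ?_, hc2, ha1, hc1⟩
  ext j
  exact ha2 j

/-- The finite set of generators. -/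
def dqG {ι : Type} (V : (ι → ℕ) → Prop) (Δ : (ι → ℕ) → P) (q w M : ℕ) : Set (Pos w × P) :=
  {g | ∃ (φ0 : Pos w) (p0 : Fin q → ι → ℕ), (∀ j, φ0 j < M) ∧ (∀ l k, p0 l k < M) ∧
    (∀ l, V (p0 l)) ∧ (∀ l k j, p0 l k ≠ φ0 j) ∧
    (∀ l l', l ≠ l' → ∀ k k', p0 l k ≠ p0 l' k') ∧ g = (φ0, ∏ l, Δ (p0 l))}

theorem dqG_finite {ι : Type} [Fintype ι] (V : (ι → ℕ) → Prop) (Δ : (ι → ℕ) → P) (q w M : ℕ) :
    (dqG V Δ q w M).Finite := by
  classical
  have h1 : Finite {φ0 : Pos w // ∀ j, φ0 j < M} := by
    have hinj : Function.Injective (fun (φ : {φ0 : Pos w // ∀ j, φ0 j < M}) =>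
        (fun j : Fin w => (⟨φ.1 j, φ.2 j⟩ : Fin M))) := by
      intro φ φ' h
      apply Subtype.ext
      ext j
      have := congrFun h j
      simpa using this
    exact Finite.of_injective _ hinj
  have h2 : Finite {p0 : Fin q → ι → ℕ // ∀ l k, p0 l k < M} := by
    have hinj : Function.Injective (fun (p : {p0 : Fin q → ι → ℕ // ∀ l k, p0 l k < M}) =>
        (fun (l : Fin q) (k : ι) => (⟨p.1 l k, p.2 l k⟩ : Fin M))) := by
      intro p p' h
      apply Subtype.ext
      funext l k
      have := congrFun (congrFun h l) k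
      simpa using this
    exact Finite.of_injective _ hinj
  refine (Set.finite_range (fun x : {φ0 : Pos w // ∀ j, φ0 j < M} ×
    {p0 : Fin q → ι → ℕ // ∀ l k, p0 l k < M} =>
      ((x.1.1, ∏ l, Δ (x.2.1 l)) : Pos w × P))).subset ?_
  rintro _ ⟨φ0, p0, h3, h4, _, _, _, rfl⟩
  exact ⟨(⟨φ0, h3⟩, ⟨p0, h4⟩), rfl⟩

theorem DD_zero_top {B : Subring P} {ι : Type} (V : (ι → ℕ) → Prop) (Δ : (ι → ℕ) → P) (w : ℕ)
    (φ : Pos w) : B.toAddSubgroup ≤ DD B V Δ 0 w φ := by
  intro x hx
  apply AddSubgroup.subset_closure
  exact ⟨x, hx, fun l => l.elim0, fun l => l.elim0, fun l => l.elim0, fun l => l.elim0,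
    by simp⟩

theorem DD_succ_le {B : Subring P} {ι : Type} {V : (ι → ℕ) → Prop} {Δ : (ι → ℕ) → P}
    (hΔ : ∀ p, V p → Δ p ∈ B) (q w : ℕ) (φ : Pos w) :
    DD B V Δ (q + 1) w φ ≤ DD B V Δ q w φ := by
  unfold DD
  rw [AddSubgroup.closure_le]
  rintro _ ⟨a, ha, p, h1, h2, h3, rfl⟩
  apply AddSubgroup.subset_closure
  refine ⟨a * Δ (p 0), B.mul_mem ha (hΔ _ (h1 0)), fun l => p l.succ, fun l => h1 _,
    fun l k j => h2 _ k j, fun l l' hl k k' => h3 _ _ (fun h => hl (Fin.succ_injective _ h)) k k',
    ?_⟩
  rw [Fin.prod_univ_succ]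
  ring

theorem dq {B : Subring P} (hB : SStab S B) {ι : Type} [Fintype ι] (V : (ι → ℕ) → Prop)
    (Δ : (ι → ℕ) → P) (hV : ∀ (τ : ℕ ↪o ℕ) (p : ι → ℕ), V (fun k => τ (p k)) ↔ V p)
    (hΔ : ∀ p, V p → Δ p ∈ B)
    (hact : ∀ (τ : ℕ ↪o ℕ) (p : ι → ℕ), S.act τ (Δ p) = Δ (fun k => τ (p k)))
    (I0 : AddSubgroup P) (hI1 : ∀ a ∈ B, ∀ x ∈ I0, a * x ∈ I0)
    (hI2 : ∀ (τ : ℕ ↪o ℕ), ∀ x ∈ I0, S.act τ x ∈ I0) (hI3 : I0 ≤ B.toAddSubgroup)
    (h1 : ∀ w, Noeth S B (DD B V Δ 1 w ⊔ cst w I0) (cst w B.toAddSubgroup)) (q w : ℕ) :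
    Noeth S B (DD B V Δ q w ⊔ cst w I0) (cst w B.toAddSubgroup) := by
  have hfamI : ∀ w, IsFam S B (cst w I0) := fun w => isFam_cst w I0 hI1 hI2
  have hfam : ∀ q, IsFam S B (DD B V Δ q w ⊔ cst w I0) := fun q =>
    (isFam_DD hB hV hact q w).sup (hfamI w)
  induction q with
  | zero =>
    apply Noeth.of_le
    intro φ
    exact le_sup_of_le_left (DD_zero_top V Δ w φ)
  | succ q ih =>
    refine Noeth.ext hB (hfam q) ?_ ?_ ?_ ih
    · exact sup_le_sup_right (fun φ => DD_succ_le hΔ q w φ) _
    · exact sup_le (fun φ => DD_le hΔ q w φ) (fun φ => hI3)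
    · refine cover hB (hfam (q + 1)) (dqG V Δ q w (w + q * Fintype.card ι))
        (dqG_finite V Δ q w _) ?_ ?_
      · refine sup_le ?_ (le_sup_of_le_left le_sup_right)
        intro φ
        refine le_trans ?_ (le_sup_right : gen S B (dqG V Δ q w (w + q * Fintype.card ι)) φ ≤ _)
        unfold DD
        rw [AddSubgroup.closure_le]
        rintro _ ⟨a, ha, p, h2, h3, h4, rfl⟩
        obtain ⟨φ0, p0, ε, e1, e2, e3, e4⟩ := dq_factor φ p
        have e5 : ∀ l, (fun k => ε (p0 l k)) = p l := fun l => funext (fun k => e2 l k)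
        have e6 : ∀ j, ε (φ0 j) = φ j := fun j => by
          rw [← e1]
          rfl
        have hg : ((φ0, ∏ l, Δ (p0 l)) : Pos w × P) ∈
            dqG V Δ q w (w + q * Fintype.card ι) := by
          refine ⟨φ0, p0, e3, e4, ?_, ?_, ?_, rfl⟩
          · intro l
            rw [← hV ε, e5]
            exact h2 l
          · intro l k j h
            apply h3 l k j
            rw [← e2, ← e6, h]
          · intro l l' hl k k' h
            apply h4 l l' hl k k'
            rw [← e2, ← e2, h]
        have h5 := mem_gen (S := S) (B := B) hg ε a ha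
        have h6 : S.act ε (∏ l, Δ (p0 l)) = ∏ l, Δ (p l) := by
          rw [map_prod]
          apply Finset.prod_congr rfl
          intro l _
          rw [hact, e5]
        have h7 : φ0.trans ε = φ := e1
        have h8 : a * S.act ε (∏ l, Δ (p0 l)) ∈
            gen S B (dqG V Δ q w (w + q * Fintype.card ι)) (φ0.trans ε) := h5
        rw [h6, h7] at h8
        exact h8
      · rintro _ ⟨φ0, p0, e3, e4, g1, g2, g3, rfl⟩
        obtain ⟨m, hm⟩ := S.supp (∏ l, Δ (p0 l))
        have hprodB : ∀ τ : ℕ ↪o ℕ, S.act τ (∏ l, Δ (p0 l)) ∈ B := by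
          intro τ
          apply hB
          exact B.prod_mem fun l _ => hΔ _ (g1 l)
        refine ⟨max m (w + q * Fintype.card ι), ?_, ?_, ?_⟩
        · exact SuppN.mono (S := S) hm (le_max_left _ _)
        · intro k
          exact lt_of_lt_of_le (e3 k) (le_max_right _ _)
        · refine ⟨DD B V Δ 1 _ ⊔ cst _ I0, ?_, ?_, h1 _⟩
          · intro ψ
            exact sup_le (DD_le hΔ 1 _ ψ) hI3
          · intro ψ a ha
            obtain ⟨x, hx, y, hy, rfl⟩ := AddSubgroup.mem_sup.mp ha
            have key : x * S.act (ext ψ) (∏ l, Δ (p0 l)) ∈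
                DD B V Δ (q + 1) w (φ0.trans (ext ψ)) := by
              clear ha hy
              unfold DD at hx ⊢
              induction hx using AddSubgroup.closure_induction with
              | mem x hx =>
                obtain ⟨c, hc, p', k1, k2, k3, rfl⟩ := hx
                apply AddSubgroup.subset_closure
                refine ⟨c, hc, Fin.cons (p' 0) (fun l k => ext ψ (p0 l k)), ?_, ?_, ?_, ?_⟩
                · intro l
                  refine Fin.cases ?_ (fun l => ?_) l
                  · exact k1 0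
                  · exact (hV (ext ψ) (p0 l)).2 (g1 l)
                · intro l
                  refine Fin.cases ?_ (fun l => ?_) l
                  · intro k j h
                    have h9 : φ0 j < max m (w + q * Fintype.card ι) :=
                      lt_of_lt_of_le (e3 j) (le_max_right _ _)
                    apply k2 0 k ⟨φ0 j, h9⟩
                    rw [← ext_apply ψ _ h9]
                    exact h
                  · intro k j h
                    exact g2 l k j ((ext ψ).injective h)
                · intro l l'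
                  refine Fin.cases ?_ (fun l => ?_) l
                  · refine Fin.cases ?_ (fun l' => ?_) l'
                    · intro h
                      exact absurd rfl h
                    · intro _ k k' h
                      have h9 : p0 l' k' < max m (w + q * Fintype.card ι) :=
                        lt_of_lt_of_le (e4 l' k') (le_max_right _ _)
                      apply k2 0 k ⟨p0 l' k', h9⟩
                      rw [← ext_apply ψ _ h9]
                      exact h
                  · refine Fin.cases ?_ (fun l' => ?_) l'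
                    · intro _ k k' h
                      have h9 : p0 l k < max m (w + q * Fintype.card ι) :=
                        lt_of_lt_of_le (e4 l k) (le_max_right _ _)
                      apply k2 0 k' ⟨p0 l k, h9⟩
                      rw [← ext_apply ψ _ h9]
                      exact h.symm
                    · intro hl k k' h
                      exact g3 l l' (fun h' => hl (by rw [h'])) k k' ((ext ψ).injective h)
                · have e7 : S.act (ext ψ) (∏ l, Δ (p0 l)) =
                      ∏ l, Δ (fun k => ext ψ (p0 l k)) := by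
                    rw [map_prod]
                    exact Finset.prod_congr rfl fun l _ => hact _ _
                  have e8 : ∏ l : Fin (q + 1), Δ ((Fin.cons (p' 0)
                      (fun l k => ext ψ (p0 l k)) : Fin (q + 1) → ι → ℕ) l) =
                      Δ (p' 0) * ∏ l, Δ (fun k => ext ψ (p0 l k)) := by
                    rw [Fin.prod_univ_succ]
                    rfl
                  have e9 : ∏ l : Fin 1, Δ (p' l) = Δ (p' 0) := Fin.prod_univ_one _
                  rw [e7, e8, e9]
                  ring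
              | zero => rw [zero_mul]; exact AddSubgroup.zero_mem _
              | add x y _ _ hx hy => rw [add_mul]; exact AddSubgroup.add_mem _ hx hy
              | neg x _ hx => rw [neg_mul]; exact AddSubgroup.neg_mem _ hx
            rw [add_mul]
            refine AddSubgroup.mem_sup.mpr ⟨_, key, _, ?_, rfl⟩
            show y * S.act (ext ψ) (∏ l, Δ (p0 l)) ∈ I0
            rw [mul_comm]
            exact hI1 _ (hprodB _) y hy

end MPf70651.Full
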