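import Pool.Agent.Lib_MP_f70651_al.Full.Conc

/-!
# MP_f70651_al, full version : Fgn
-/

namespace MPf70651.Full

open MPf70651 MvPolynomial

variable {P : Type} [CommRing P] {S : IncAct P}

/-- The span of a set over a subring. -/
def fgnSpan (R' : Subring P) (X : Set P) : AddSubgroup P :=
  AddSubgroup.closure {x | ∃ a ∈ R', ∃ y ∈ X, x = a * y}

theorem fgnSpan_smul {R' : Subring P} {X : Set P} {a x : P} (ha : a ∈ R')
    (hx : x ∈ fgnSpan R' X) : a * x ∈ fgnSpan R' X := by
  unfold fgnSpan at hx ⊢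
  induction hx using AddSubgroup.closure_induction with
  | mem x hx =>
    obtain ⟨c, hc, y, hy, rfl⟩ := hx
    exact AddSubgroup.subset_closure ⟨a * c, R'.mul_mem ha hc, y, hy, by ring⟩
  | zero => rw [mul_zero]; exact AddSubgroup.zero_mem _
  | add x y _ _ hx hy => rw [mul_add]; exact AddSubgroup.add_mem _ hx hy
  | neg x _ hx => rw [mul_neg]; exact AddSubgroup.neg_mem _ hx

theorem fgnSpan_mono {R' : Subring P} {X Y : Set P} (h : X ⊆ Y) :
    fgnSpan R' X ≤ fgnSpan R' Y := by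
  unfold fgnSpan
  apply AddSubgroup.closure_mono
  rintro _ ⟨c, hc, y, hy, rfl⟩
  exact ⟨c, hc, y, h hy, rfl⟩

theorem fgnSpan_finite {R' : Subring P} {X : Set P} {x : P} (hx : x ∈ fgnSpan R' X) :
    ∃ T : Set P, T.Finite ∧ T ⊆ X ∧ x ∈ fgnSpan R' T := by
  unfold fgnSpan at hx
  induction hx using AddSubgroup.closure_induction with
  | mem x hx =>
    obtain ⟨c, hc, y, hy, rfl⟩ := hx
    exact ⟨{y}, Set.finite_singleton y, Set.singleton_subset_iff.mpr hy,
      AddSubgroup.subset_closure ⟨c, hc, y, rfl, rfl⟩⟩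
  | zero => exact ⟨∅, Set.finite_empty, Set.empty_subset _, AddSubgroup.zero_mem _⟩
  | add x y _ _ hx hy =>
    obtain ⟨T, hT, hTX, hxT⟩ := hx
    obtain ⟨U, hU, hUX, hyU⟩ := hy
    exact ⟨T ∪ U, hT.union hU, Set.union_subset hTX hUX,
      AddSubgroup.add_mem _ (fgnSpan_mono Set.subset_union_left hxT)
        (fgnSpan_mono Set.subset_union_right hyU)⟩
  | neg x _ hx =>
    obtain ⟨T, hT, hTX, hxT⟩ := hx
    exact ⟨T, hT, hTX, AddSubgroup.neg_mem _ hxT⟩

theorem exists_fin_gen {R R' : Subring P} (hR' : SStab S R') {w : ℕ} {N : Pos w → AddSubgroup P}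
    (hN : IsFam S R N) (hNR : N ≤ cst w R'.toAddSubgroup)
    (h : Noeth S R' (cst w ⊥) (cst w R'.toAddSubgroup)) :
    ∃ G : Set (Pos w × P), G.Finite ∧ (∀ g ∈ G, g.2 ∈ N g.1) ∧ N ≤ gen S R' G := by
  classical
  have hfam : IsFam S R' (fun φ => fgnSpan R' (N φ : Set P)) :=
    { smul := fun φ a x ha hx => fgnSpan_smul ha hx
      act := fun φ τ x hx => by
        unfold fgnSpan at hx ⊢
        induction hx using AddSubgroup.closure_induction with
        | mem x hx =>
          obtain ⟨c, hc, y, hy, rfl⟩ := hx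
          rw [map_mul]
          exact AddSubgroup.subset_closure ⟨_, hR' τ c hc, _, hN.act φ τ y hy, rfl⟩
        | zero => rw [map_zero]; exact AddSubgroup.zero_mem _
        | add x y _ _ hx hy => rw [map_add]; exact AddSubgroup.add_mem _ hx hy
        | neg x _ hx => rw [map_neg]; exact AddSubgroup.neg_mem _ hx }
  obtain ⟨G', hG'f, hG'm, hG'g⟩ := h (fun φ => fgnSpan R' (N φ : Set P)) hfam
    (fun φ x hx => by
      have : x = 0 := by simpa [cst] using hx
      rw [this]; exact AddSubgroup.zero_mem _)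
    (fun φ => by
      show AddSubgroup.closure _ ≤ _
      rw [AddSubgroup.closure_le]
      rintro _ ⟨c, hc, y, hy, rfl⟩
      exact R'.mul_mem hc (hNR φ hy))
  have hT : ∀ g : Pos w × P, ∃ T : Set P, g ∈ G' → T.Finite ∧ T ⊆ (N g.1 : Set P) ∧
      g.2 ∈ fgnSpan R' T := by
    intro g
    by_cases hg : g ∈ G'
    · obtain ⟨T, hT⟩ := fgnSpan_finite (hG'm g hg)
      exact ⟨T, fun _ => hT⟩
    · exact ⟨∅, fun h => absurd h hg⟩
  choose T hT using hT
  refine ⟨⋃ g ∈ G', (fun x : P => (g.1, x)) '' T g, ?_, ?_, ?_⟩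
  · exact hG'f.biUnion fun g hg => (hT g hg).1.image _
  · intro g hg
    simp only [Set.mem_iUnion] at hg
    obtain ⟨g', hg', x, hx, rfl⟩ := hg
    exact (hT g' hg').2.1 hx
  · intro φ x hx
    have h1 : x ∈ fgnSpan R' (N φ : Set P) :=
      AddSubgroup.subset_closure ⟨1, R'.one_mem, x, hx, by rw [one_mul]⟩
    have h2 := hG'g φ h1
    rw [show cst w (⊥ : AddSubgroup P) φ = ⊥ from rfl, bot_sup_eq] at h2
    refine (gen_le (isFam_gen hR' _) ?_ : gen S R' G' ≤ _) φ h2
    intro g hg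
    have h3 := (hT g hg).2.2
    unfold fgnSpan at h3
    refine (AddSubgroup.closure_le _).mpr ?_ h3
    rintro _ ⟨a, ha, y, hy, rfl⟩
    refine (isFam_gen hR' _).smul _ a y ha ?_
    refine mem_gen_self (g := (g.1, y)) ?_
    simp only [Set.mem_iUnion]
    exact ⟨g, hg, y, hy, rfl⟩

end MPf70651.Full
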