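import Pool.Agent.Lib_MP_f70651_al.Full.Tnr
import Pool.Agent.Lib_MP_f70651_al.Lead
import Pool.Agent.Lib_MP_f70651_al.Euler

/-!
# MP_f70651_al, full version : Grad
-/

namespace MPf70651.Full

open MPf70651 MvPolynomial

/-- The action of an injective map on `Idx Off`. -/
def gradX (τ : ℕ → ℕ) (hτ : Function.Injective τ) : Idx Off → Idx Off :=
  Option.map (fun p => ⟨(τ p.1.1, τ p.1.2), fun h => p.2 (hτ h)⟩)

theorem grad_MM (ρ : ℕ) (β : Type) (τ : ℕ → ℕ) (i j : ℕ) :
    rename (actV (KK ρ β) τ) (MM ρ β i j) = MM ρ β (τ i) (τ j) := by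
  unfold MM
  rw [map_sum]
  apply Finset.sum_congr rfl
  intro a _
  rw [map_mul, rename_X, rename_X]
  rfl

theorem grad_equiv (ρ : ℕ) (τ : ℕ → ℕ) (hτ : Function.Injective τ)
    (g : MvPolynomial (Idx Off) ℂ) :
    Phi0 ρ (rename (gradX τ hτ) g) = rename (actV (KK ρ Empty) τ) (Phi0 ρ g) := by
  have h : (Phi0 ρ).comp (rename (gradX τ hτ)) =
      (rename (actV (KK ρ Empty) τ) : QQ (KK ρ Empty) →ₐ[ℂ] QQ (KK ρ Empty)).comp (Phi0 ρ) := by
    apply MvPolynomial.algHom_ext
    intro v
    rw [AlgHom.comp_apply, AlgHom.comp_apply, rename_X]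
    unfold Phi0
    rw [aeval_X, aeval_X]
    cases v with
    | none =>
      show X none = rename (actV (KK ρ Empty) τ) (X none)
      rw [rename_X]
      rfl
    | some p =>
      show MM ρ Empty (τ p.1.1) (τ p.1.2) =
        rename (actV (KK ρ Empty) τ) (MM ρ Empty p.1.1 p.1.2)
      rw [grad_MM]
  exact congrArg (fun F => F g) h

theorem grad_act_range (ρ : ℕ) (τ : ℕ → ℕ) (hτ : Function.Injective τ) (a : QQ (KK ρ Empty))
    (ha : a ∈ (Phi0 ρ).range.toSubring) :
    rename (actV (KK ρ Empty) τ) a ∈ (Phi0 ρ).range.toSubring := by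
  obtain ⟨g, rfl⟩ := ha
  exact ⟨rename (gradX τ hτ) g, grad_equiv ρ τ hτ g⟩

/-- The situation on `ℂ[e, u, v]` with `A = A'` the range of `Phi0`. -/
noncomputable def sitG (ρ : ℕ) : Sit (QQ (KK ρ Empty)) where
  act := fun τ => ((rename (actV (KK ρ Empty) τ) : QQ (KK ρ Empty) →ₐ[ℂ] QQ (KK ρ Empty)) :
    QQ (KK ρ Empty) →+* QQ (KK ρ Empty))
  act_id := fun p => by
    show rename (actV (KK ρ Empty) id) p = p
    have h : actV (KK ρ Empty) id = id := by
      funext o
      cases o with
      | none => rfl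
      | some a => rfl
    rw [h]
    exact rename_id_apply p
  act_comp := fun σ τ p => by
    show rename (actV (KK ρ Empty) (σ ∘ τ)) p =
      rename (actV (KK ρ Empty) σ) (rename (actV (KK ρ Empty) τ) p)
    rw [rename_rename]
    congr 1
    congr 1
    funext o
    cases o with
    | none => rfl
    | some a => rfl
  supp := fun p => by
    refine ⟨(p.vars.sup (fun o => o.elim 0 (fun i => i.1 + 1))), fun σ τ h => ?_⟩
    apply MvPolynomial.hom_congr_vars
    · ext c
      simp
    · intro v hv _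
      cases v with
      | none => simp [actV]
      | some i =>
        have h1 : i.1 + 1 ≤ p.vars.sup (fun o => o.elim 0 (fun i => i.1 + 1)) :=
          Finset.le_sup (f := fun o : Option (ℕ × KK ρ Empty) => o.elim 0 (fun i => i.1 + 1)) hv
        have h2 := h i.1 (by omega)
        simp [actV, Prod.map, h2]
    · rfl
  A := (Phi0 ρ).range.toSubring
  A' := (Phi0 ρ).range.toSubring
  A_le := le_rfl
  y := fun _ _ => 0
  act_y := fun τ _ _ => map_zero _
  y_mem := fun _ _ _ => Subring.zero_mem _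
  y_mem' := fun _ _ => Subring.zero_mem _
  act_A := fun τ hτ a ha => grad_act_range ρ τ hτ a ha
  act_A' := fun τ hτ a ha => grad_act_range ρ τ hτ a ha

theorem grad_range (ρ : ℕ) : (PhiF ρ Empty).range = (Phi0 ρ).range := by
  unfold PhiF Phi0
  rw [← Algebra.adjoin_range_eq_range_aeval, ← Algebra.adjoin_range_eq_range_aeval]
  congr 1
  ext q
  constructor
  · rintro ⟨v, rfl⟩
    rcases v with _ | (p | q)
    · exact ⟨none, rfl⟩
    · exact ⟨some p, rfl⟩
    · exact q.2.elim
  · rintro ⟨v, rfl⟩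
    rcases v with _ | p
    · exact ⟨none, rfl⟩
    · exact ⟨some (Sum.inl p), rfl⟩

/-- The weights: `e` and `u` have weight `1`, `v` has weight `0`. -/
def gradW (ρ : ℕ) : Option (ℕ × KK ρ Empty) → ℕ := fun o => match o with
  | none => 1
  | some (_, Sum.inl (_, true)) => 1
  | some (_, Sum.inl (_, false)) => 0
  | some (_, Sum.inr _) => 0

theorem grad_weight (ρ : ℕ) (n : ℕ) (p : MvPolynomial (Idx Off) ℂ) (hp : p.IsHomogeneous n) :
    IsWeightedHomogeneous (gradW ρ) (Phi0 ρ p) n := by
  rw [p.as_sum, map_sum]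
  apply IsWeightedHomogeneous.sum
  intro m hm
  unfold Phi0
  rw [aeval_monomial]
  have hdeg : m.sum (fun _ k => k) = n := by
    have h3 : m.degree = n := by
      by_contra hne
      exact (mem_support_iff.mp hm) (hp.coeff_eq_zero hne)
    rw [← h3]
    rfl
  have hv : ∀ v : Idx Off, IsWeightedHomogeneous (gradW ρ) ((match v with
      | none => X none
      | some p => MM ρ Empty p.1.1 p.1.2) : QQ (KK ρ Empty)) 1 := by
    intro v
    cases v with
    | none => exact isWeightedHomogeneous_X _ _ _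
    | some p =>
      show IsWeightedHomogeneous (gradW ρ) (MM ρ Empty p.1.1 p.1.2) 1
      unfold MM
      apply IsWeightedHomogeneous.sum
      intro a _
      exact (isWeightedHomogeneous_X ℂ (gradW ρ) (some (p.1.1, Sum.inl (a, true)))).mul
        (isWeightedHomogeneous_X ℂ (gradW ρ) (some (p.1.2, Sum.inl (a, false))))
  have h1 := IsWeightedHomogeneous.prod m.support (fun v : Idx Off => ((match v with
      | none => X none
      | some p => MM ρ Empty p.1.1 p.1.2) : QQ (KK ρ Empty)) ^ (m v)) (fun v => m v • 1)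
      (w := gradW ρ) (fun v _ => (hv v).pow (m v))
  have h2 := (isWeightedHomogeneous_C (gradW ρ) (coeff m p)).mul h1
  rw [zero_add] at h2
  have h3 : (∑ v ∈ m.support, m v • 1 : ℕ) = n := by
    rw [← hdeg]
    simp [Finsupp.sum]
  rw [h3] at h2
  exact h2

theorem grad_comp (ρ : ℕ) (g : MvPolynomial (Idx Off) ℂ) (k : ℕ) :
    Phi0 ρ (homogeneousComponent k g) = weightedHomogeneousComponent (gradW ρ) k (Phi0 ρ g) := by
  have hterm : ∀ x, weightedHomogeneousComponent (gradW ρ) k
      (Phi0 ρ (homogeneousComponent x g)) =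
      if x = k then Phi0 ρ (homogeneousComponent x g) else 0 := by
    intro x
    have hx := grad_weight ρ x _ (homogeneousComponent_isHomogeneous x g)
    split_ifs with h
    · subst h
      exact hx.weightedHomogeneousComponent_same
    · exact hx.weightedHomogeneousComponent_ne k (Ne.symm h)
  conv_rhs => rw [← sum_homogeneousComponent g, map_sum, map_sum]
  rw [Finset.sum_congr rfl (fun x _ => hterm x), Finset.sum_ite_eq']
  split_ifs with h
  · rfl
  · rw [Finset.mem_range] at h
    rw [homogeneousComponent_eq_zero _ _ (by omega), map_zero]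

theorem ker_fg (ρ : ℕ) (hR : RN ρ) : ∃ G : Set (MvPolynomial (Idx Off) ℂ), G.Finite ∧
    (∀ g ∈ G, Phi0 ρ g = 0) ∧ ∀ g, Phi0 ρ g = 0 → g ∈ trI Off G := by
  have hΦ : ∀ (τ : ℕ ↪o ℕ) g, Phi0 ρ (rename (actX Off τ) g) = (sitG ρ).act τ (Phi0 ρ g) :=
    fun τ g => grad_equiv ρ τ τ.injective g
  apply ker_fg_of_grad Off (Phi0 ρ)
  · intro g hg k
    rw [grad_comp, hg, map_zero]
  · intro c hc
    rw [show (Phi0 ρ) (C c) = C c from AlgHom.commutes (Phi0 ρ) c] at hc
    exact C_eq_zero.mp hc
  · intro τ g hg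
    rw [hΦ, hg, map_zero]
  · apply grad_fg (sitG ρ) Off (Phi0 ρ) hΦ (Phi0 ρ).range.toSubring (fun a => Iff.rfl) le_rfl
    intro w N hN
    have h := noeth_range ρ hR Empty w
    rw [grad_range] at h
    obtain ⟨G, h1, h2, h3⟩ := h N ⟨hN.smul, hN.act⟩ (fun φ => bot_le) (fun φ x hx => hN.le φ x hx)
    exact ⟨G, h1, h2, h3⟩

end MPf70651.Full
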