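import Pool.Agent.Lib_MP_f70651_al.Full.Conc

/-!
# MP_f70651_al, full version : Pull
-/

namespace MPf70651.Full

open MPf70651 MvPolynomial

variable {P : Type} [CommRing P] {S : IncAct P}

theorem pull {P1 : Type} [CommRing P1] {S1 : IncAct P1} {B1 : Subring P1} (hB1 : SStab S1 B1)
    {B : Subring P} {w : ℕ} {b1 : Pos w → AddSubgroup P1} {b : Pos w → AddSubgroup P}
    (Θ : Pos w → (P1 →+* P))
    (hact : ∀ φ (τ : ℕ ↪o ℕ), ∀ x ∈ B1, S.act τ (Θ φ x) = Θ (φ.trans τ) (S1.act τ x))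
    (hmap : ∀ φ, ∀ x ∈ B1, Θ φ x ∈ B) (hb1B : ∀ φ, b1 φ ≤ B1.toAddSubgroup)
    (hb1 : ∀ φ, ∀ x ∈ b1 φ, Θ φ x ∈ b φ)
    (hsurj : ∀ φ, ∀ y ∈ B, ∃ x ∈ B1, y - Θ φ x ∈ b φ)
    (h : Noeth S1 B1 b1 (cst w B1.toAddSubgroup)) : Noeth S B b (cst w B.toAddSubgroup) := by
  intro N hN hbN hNB
  set N1 : Pos w → AddSubgroup P1 := fun φ =>
    B1.toAddSubgroup ⊓ (N φ).comap (Θ φ).toAddMonoidHom with hN1
  have hmem : ∀ φ x, x ∈ N1 φ ↔ x ∈ B1 ∧ Θ φ x ∈ N φ := fun φ x => Iff.rfl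
  have hfam : IsFam S1 B1 N1 :=
    { smul := fun φ a x ha hx => by
        rw [hmem] at hx ⊢
        refine ⟨B1.mul_mem ha hx.1, ?_⟩
        rw [map_mul]
        exact hN.smul φ _ _ (hmap φ a ha) hx.2
      act := fun φ τ x hx => by
        rw [hmem] at hx ⊢
        refine ⟨hB1 τ x hx.1, ?_⟩
        rw [← hact φ τ x hx.1]
        exact hN.act φ τ _ hx.2 }
  obtain ⟨G1, hG1, hG1N, hG1gen⟩ := h N1 hfam
    (fun φ x hx => (hmem φ x).2 ⟨hb1B φ hx, hbN φ (hb1 φ x hx)⟩)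
    (fun φ x hx => ((hmem φ x).1 hx).1)
  set G : Set (Pos w × P) := (fun g : Pos w × P1 => (g.1, Θ g.1 g.2)) '' G1 with hG
  have hgen : ∀ φ, ∀ x ∈ gen S1 B1 G1 φ, Θ φ x ∈ gen S B G φ := by
    intro φ x hx
    unfold gen at hx
    induction hx using AddSubgroup.closure_induction with
    | mem x hx =>
      obtain ⟨g, hg, τ, hτ, a, ha, rfl⟩ := hx
      have hgB : g.2 ∈ B1 := ((hmem _ _).1 (hG1N g hg)).1
      have h3 := mem_gen (S := S) (B := B) (G := G) (g := (g.1, Θ g.1 g.2)) ⟨g, hg, rfl⟩ τ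
        (Θ φ a) (hmap φ a ha)
      rw [map_mul]
      have h4 : Θ φ (S1.act τ g.2) = S.act τ (Θ g.1 g.2) := by
        rw [hact g.1 τ g.2 hgB, hτ]
      rw [h4]
      simp only [hτ] at h3
      exact h3
    | zero => rw [map_zero]; exact AddSubgroup.zero_mem _
    | add x y _ _ hx hy => rw [map_add]; exact AddSubgroup.add_mem _ hx hy
    | neg x _ hx => rw [map_neg]; exact AddSubgroup.neg_mem _ hx
  refine ⟨G, hG1.image _, ?_, fun φ y hy => ?_⟩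
  · rintro _ ⟨g, hg, rfl⟩
    exact ((hmem _ _).1 (hG1N g hg)).2
  · obtain ⟨x, hx, hyx⟩ := hsurj φ y (hNB φ hy)
    have hx1 : x ∈ N1 φ := by
      rw [hmem]
      refine ⟨hx, ?_⟩
      have h5 := AddSubgroup.sub_mem _ hy (hbN φ hyx)
      rwa [sub_sub_cancel] at h5
    obtain ⟨u, hu, v, hv, huv⟩ := AddSubgroup.mem_sup.mp (hG1gen φ hx1)
    refine AddSubgroup.mem_sup.mpr ⟨(y - Θ φ x) + Θ φ u,
      AddSubgroup.add_mem _ hyx (hb1 φ u hu), Θ φ v, hgen φ v hv, ?_⟩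
    rw [← huv, map_add]
    ring

theorem lift_noeth {P1 : Type} [CommRing P1] {S1 : IncAct P1} {B1 : Subring P1}
    (hB1 : SStab S1 B1) {B : Subring P} {w : ℕ} {b1 : Pos w → AddSubgroup P1} (Φ : P1 →+* P)
    (hact : ∀ (τ : ℕ ↪o ℕ), ∀ x ∈ B1, S.act τ (Φ x) = Φ (S1.act τ x))
    (hmap : ∀ x ∈ B1, Φ x ∈ B) (hsurj : ∀ y ∈ B, ∃ x ∈ B1, Φ x = y)
    (hk : ∀ φ, ∀ x ∈ B1, Φ x = 0 → x ∈ b1 φ)
    (h : Noeth S B (cst w ⊥) (cst w B.toAddSubgroup)) :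
    Noeth S1 B1 b1 (cst w B1.toAddSubgroup) := by
  intro N1 hN1 hbN hNB
  set N : Pos w → AddSubgroup P := fun φ => (N1 φ).map Φ.toAddMonoidHom with hN
  have hmem : ∀ φ y, y ∈ N φ ↔ ∃ x ∈ N1 φ, Φ x = y := fun φ y => Iff.rfl
  have hfam : IsFam S B N :=
    { smul := fun φ a y ha hy => by
        rw [hmem] at hy ⊢
        obtain ⟨x, hx, rfl⟩ := hy
        obtain ⟨a', ha', rfl⟩ := hsurj a ha
        exact ⟨a' * x, hN1.smul φ a' x ha' hx, map_mul _ _ _⟩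
      act := fun φ τ y hy => by
        rw [hmem] at hy ⊢
        obtain ⟨x, hx, rfl⟩ := hy
        exact ⟨S1.act τ x, hN1.act φ τ x hx, (hact τ x (hNB φ hx)).symm⟩ }
  obtain ⟨G, hGf, hGN, hGgen⟩ := h N hfam
    (fun φ x hx => by
      have hx0 : x = 0 := hx
      rw [hx0]
      exact AddSubgroup.zero_mem _)
    (fun φ y hy => by
      obtain ⟨x, hx, rfl⟩ := (hmem φ y).1 hy
      exact hmap x (hNB φ hx))
  have hlift : ∀ g : Pos w × P, ∃ m : P1, g ∈ G → m ∈ N1 g.1 ∧ Φ m = g.2 := by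
    intro g
    by_cases hg : g ∈ G
    · obtain ⟨m, hm, he⟩ := (hmem _ _).1 (hGN g hg)
      exact ⟨m, fun _ => ⟨hm, he⟩⟩
    · exact ⟨0, fun h => absurd h hg⟩
  choose m hm using hlift
  set G1 : Set (Pos w × P1) := (fun g : Pos w × P => (g.1, m g)) '' G with hG1
  have hgen : ∀ φ, ∀ y ∈ gen S B G φ, ∃ x ∈ gen S1 B1 G1 φ, Φ x = y := by
    intro φ y hy
    unfold gen at hy
    induction hy using AddSubgroup.closure_induction with
    | mem y hy =>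
      obtain ⟨g, hg, τ, hτ, a, ha, rfl⟩ := hy
      obtain ⟨a', ha', rfl⟩ := hsurj a ha
      have h3 := mem_gen (S := S1) (B := B1) (G := G1) (g := (g.1, m g)) ⟨g, hg, rfl⟩ τ a' ha'
      simp only [hτ] at h3
      refine ⟨_, h3, ?_⟩
      rw [map_mul, ← hact τ (m g) (hNB _ (hm g hg).1), (hm g hg).2]
    | zero => exact ⟨0, AddSubgroup.zero_mem _, map_zero _⟩
    | add x y _ _ hx hy =>
      obtain ⟨x', hx', rfl⟩ := hx
      obtain ⟨y', hy', rfl⟩ := hy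
      exact ⟨x' + y', AddSubgroup.add_mem _ hx' hy', map_add _ _ _⟩
    | neg x _ hx =>
      obtain ⟨x', hx', rfl⟩ := hx
      exact ⟨-x', AddSubgroup.neg_mem _ hx', map_neg _ _⟩
  have hgenB : gen S1 B1 G1 ≤ N1 := by
    apply gen_le hN1
    rintro _ ⟨g, hg, rfl⟩
    exact (hm g hg).1
  refine ⟨G1, hGf.image _, ?_, fun φ y hy => ?_⟩
  · rintro _ ⟨g, hg, rfl⟩
    exact (hm g hg).1
  · have h1 : Φ y ∈ gen S B G φ := by
      obtain ⟨u, hu, v, hv, huv⟩ := AddSubgroup.mem_sup.mp (hGgen φ ((hmem φ _).2 ⟨y, hy, rfl⟩))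
      have hu0 : u = 0 := hu
      rw [← huv, hu0, zero_add]
      exact hv
    obtain ⟨x, hx, hxy⟩ := hgen φ _ h1
    refine AddSubgroup.mem_sup.mpr ⟨y - x, ?_, x, hx, by ring⟩
    apply hk φ
    · exact B1.sub_mem (hNB φ hy) (hNB φ (hgenB φ hx))
    · rw [map_sub, hxy, sub_self]

end MPf70651.Full
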