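import Pool.Agent.Lib_MP_f70651_al.Full.Rdata
import Pool.Agent.Lib_MP_f70651_al.Full.Pull

/-!
# MP_f70651_al, full version : Hfive
-/

namespace MPf70651.Full

open MPf70651 MvPolynomial

/-- The extended type of parameters. -/
abbrev hfB (β : Type) (w : ℕ) : Type := β ⊕ ((Fin w × Bool) ⊕ Bool)

/-- The values of the substitution on the variables. -/
noncomputable def hfV (k : ℕ) (β : Type) {w : ℕ} (φ : Pos w) :
    IF (hfB β w) → Polynomial (QQ (KK k β))
  | none => Polynomial.C (X none)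
  | some (Sum.inl q) => if (∀ l, φ l ≠ q.1.1) ∧ (∀ l, φ l ≠ q.1.2) then
      Polynomial.C (MM k β q.1.1 q.1.2) else 0
  | some (Sum.inr (i, Sum.inl b)) => Polynomial.C (TT k β b i)
  | some (Sum.inr (j, Sum.inr (Sum.inl (l, true)))) =>
      if φ l = j then 0 else Polynomial.C (MM k β (φ l) j)
  | some (Sum.inr (j, Sum.inr (Sum.inl (l, false)))) =>
      if φ l = j then 0 else Polynomial.C (MM k β j (φ l))
  | some (Sum.inr (j, Sum.inr (Sum.inr true))) => Polynomial.C (X none * MM k β j j)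
  | some (Sum.inr (j, Sum.inr (Sum.inr false))) => Polynomial.X * Polynomial.C (MM k β j j)

/-- The substitution. -/
noncomputable def hfT (k : ℕ) (β : Type) {w : ℕ} (φ : Pos w) :
    FF (hfB β w) →ₐ[ℂ] Polynomial (QQ (KK k β)) := aeval (hfV k β φ)

theorem hfT_X (k : ℕ) (β : Type) {w : ℕ} (φ : Pos w) (v : IF (hfB β w)) :
    hfT k β φ (X v) = hfV k β φ v := by
  unfold hfT
  rw [aeval_X]

theorem hfT_act (k : ℕ) (β : Type) {w : ℕ} (φ : Pos w) (τ : ℕ ↪o ℕ) (x : FF (hfB β w)) :
    (polyAct (actQ (KK k β))).act τ (hfT k β φ x) =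
      hfT k β (φ.trans τ) ((actF (hfB β w)).act τ x) := by
  have h : ((polyAct (actQ (KK k β))).act τ).comp (hfT k β φ : FF (hfB β w) →+* _) =
      (hfT k β (φ.trans τ) : FF (hfB β w) →+* _).comp ((actF (hfB β w)).act τ) := by
    apply MvPolynomial.ringHom_ext
    · intro c
      show (polyAct (actQ (KK k β))).act τ (hfT k β φ (C c)) =
        hfT k β (φ.trans τ) ((actF (hfB β w)).act τ (C c))
      have h1 : (actF (hfB β w)).act τ (C c) = C c := by
        show rename (actI _ τ) (C c) = _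
        rw [rename_C]
      rw [h1, ← MvPolynomial.algebraMap_eq, AlgHom.commutes, AlgHom.commutes]
      show (polyAct (actQ (KK k β))).act τ (Polynomial.C (C c)) = Polynomial.C (C c)
      rw [polyAct_C, actQ_C]
    · intro v
      show (polyAct (actQ (KK k β))).act τ (hfT k β φ (X v)) =
        hfT k β (φ.trans τ) ((actF (hfB β w)).act τ (X v))
      rw [actF_X, hfT_X, hfT_X]
      have hinj : ∀ (l : Fin w) (j : ℕ), (φ.trans τ) l = τ j ↔ φ l = j := by
        intro l j
        show τ (φ l) = τ j ↔ _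
        exact τ.injective.eq_iff
      rcases v with _ | (⟨⟨i, j⟩, hp⟩ | ⟨i, (b | (⟨l, (_ | _)⟩ | (_ | _)))⟩)
      · show (polyAct (actQ (KK k β))).act τ (Polynomial.C (X none)) = Polynomial.C (X none)
        rw [polyAct_C, actQ_X]
        rfl
      · show (polyAct (actQ (KK k β))).act τ (if (∀ l, φ l ≠ i) ∧ (∀ l, φ l ≠ j) then
          Polynomial.C (MM k β i j) else 0) = if (∀ l, (φ.trans τ) l ≠ τ i) ∧
            (∀ l, (φ.trans τ) l ≠ τ j) then Polynomial.C (MM k β (τ i) (τ j)) else 0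
        by_cases hc : (∀ l, φ l ≠ i) ∧ (∀ l, φ l ≠ j)
        · have hc' : (∀ l, (φ.trans τ) l ≠ τ i) ∧ (∀ l, (φ.trans τ) l ≠ τ j) :=
            ⟨fun l h => hc.1 l ((hinj l i).mp h), fun l h => hc.2 l ((hinj l j).mp h)⟩
          rw [if_pos hc, if_pos hc', polyAct_C, actQ_MM]
        · have hc' : ¬ ((∀ l, (φ.trans τ) l ≠ τ i) ∧ (∀ l, (φ.trans τ) l ≠ τ j)) := fun h =>
            hc ⟨fun l h2 => h.1 l ((hinj l i).mpr h2), fun l h2 => h.2 l ((hinj l j).mpr h2)⟩
          rw [if_neg hc, if_neg hc', map_zero]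
      · show (polyAct (actQ (KK k β))).act τ (Polynomial.C (TT k β b i)) =
          Polynomial.C (TT k β b (τ i))
        rw [polyAct_C, actQ_TT]
      · show (polyAct (actQ (KK k β))).act τ (if φ l = i then 0 else
          Polynomial.C (MM k β i (φ l))) = if (φ.trans τ) l = τ i then 0 else
            Polynomial.C (MM k β (τ i) ((φ.trans τ) l))
        by_cases hc : φ l = i
        · rw [if_pos hc, if_pos ((hinj l i).mpr hc), map_zero]
        · rw [if_neg hc, if_neg (fun h => hc ((hinj l i).mp h)), polyAct_C, actQ_MM]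
          rfl
      · show (polyAct (actQ (KK k β))).act τ (if φ l = i then 0 else
          Polynomial.C (MM k β (φ l) i)) = if (φ.trans τ) l = τ i then 0 else
            Polynomial.C (MM k β ((φ.trans τ) l) (τ i))
        by_cases hc : φ l = i
        · rw [if_pos hc, if_pos ((hinj l i).mpr hc), map_zero]
        · rw [if_neg hc, if_neg (fun h => hc ((hinj l i).mp h)), polyAct_C, actQ_MM]
          rfl
      · show (polyAct (actQ (KK k β))).act τ (Polynomial.X * Polynomial.C (MM k β i i)) =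
          Polynomial.X * Polynomial.C (MM k β (τ i) (τ i))
        rw [map_mul, polyAct_C, actQ_MM]
        congr 1
        show Polynomial.mapRingHom _ Polynomial.X = Polynomial.X
        rw [Polynomial.coe_mapRingHom, Polynomial.map_X]
      · show (polyAct (actQ (KK k β))).act τ (Polynomial.C (X none * MM k β i i)) =
          Polynomial.C (X none * MM k β (τ i) (τ i))
        rw [polyAct_C, map_mul, actQ_MM, actQ_X]
        rfl
  exact congrArg (fun g => g x) h

theorem hfT_mem (k : ℕ) (β : Type) {w : ℕ} (φ : Pos w) (x : FF (hfB β w)) :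
    hfT k β φ x ∈ RT (Rr k β).toSubring (fun j => MM k β j j) := by
  induction x using MvPolynomial.induction_on with
  | C c =>
    rw [← MvPolynomial.algebraMap_eq, AlgHom.commutes]
    show Polynomial.C (C c) ∈ _
    exact C_mem_RT ((Rr k β).algebraMap_mem c)
  | add p q hp hq => rw [map_add]; exact Subring.add_mem _ hp hq
  | mul_X p v hp =>
    rw [map_mul, hfT_X]
    refine Subring.mul_mem _ hp ?_
    rcases v with _ | (⟨⟨i, j⟩, hp⟩ | ⟨i, (b | (⟨l, (_ | _)⟩ | (_ | _)))⟩)
    · exact C_mem_RT (X_mem_Rr k β)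
    · show (if (∀ l, φ l ≠ i) ∧ (∀ l, φ l ≠ j) then Polynomial.C (MM k β i j) else 0) ∈ _
      split
      · exact C_mem_RT (MM_mem_Rr k β hp)
      · exact Subring.zero_mem _
    · exact C_mem_RT (TT_mem_Rr k β b i)
    · show (if φ l = i then 0 else Polynomial.C (MM k β i (φ l))) ∈ _
      split
      · exact Subring.zero_mem _
      · next h => exact C_mem_RT (MM_mem_Rr k β (fun h' => h h'.symm))
    · show (if φ l = i then 0 else Polynomial.C (MM k β (φ l) i)) ∈ _
      split
      · exact Subring.zero_mem _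
      · next h => exact C_mem_RT (MM_mem_Rr k β h)
    · show Polynomial.X * Polynomial.C (MM k β i i) ∈ _
      rw [mul_comm, ← pow_one Polynomial.X, Polynomial.C_mul_X_pow_eq_monomial]
      exact monomial_mem_RT (h_mem_RD (h := fun j => MM k β j j) i)
    · exact C_mem_RT (eM_mem_Rr k β i i)

/-- off diagonal entries -/
theorem hfT_yF (k : ℕ) (β : Type) {w : ℕ} (φ : Pos w) (i j : ℕ) (h : i ≠ j) :
    hfT k β φ (yF _ i j) = if (∀ l, φ l ≠ i) ∧ (∀ l, φ l ≠ j) then
      Polynomial.C (MM k β i j) else 0 := by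
  unfold yF
  rw [dif_pos h, hfT_X]
  rfl

/-- the elements of `R` are hit -/
theorem hfT_surj_R (k : ℕ) (β : Type) {w : ℕ} (φ : Pos w) (y : QQ (KK k β)) (hy : y ∈ Rr k β) :
    ∃ x : FF (hfB β w), hfT k β φ x = Polynomial.C y := by
  unfold Rr at hy
  induction hy using Algebra.adjoin_induction with
  | mem y hy =>
    rcases hy with ((hy | ⟨i, j, hij, rfl⟩) | ⟨i, rfl⟩) | ⟨b, i, rfl⟩
    · rw [Set.mem_singleton_iff] at hy
      exact ⟨X none, by rw [hfT_X, hy]; rfl⟩
    · by_cases h1 : ∃ l, φ l = i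
      · obtain ⟨l, rfl⟩ := h1
        refine ⟨X (some (Sum.inr (j, Sum.inr (Sum.inl (l, true))))), ?_⟩
        rw [hfT_X]
        show (if φ l = j then 0 else Polynomial.C (MM k β (φ l) j)) = _
        rw [if_neg hij]
      · by_cases h2 : ∃ l, φ l = j
        · obtain ⟨l, rfl⟩ := h2
          refine ⟨X (some (Sum.inr (i, Sum.inr (Sum.inl (l, false))))), ?_⟩
          rw [hfT_X]
          show (if φ l = i then 0 else Polynomial.C (MM k β i (φ l))) = _
          rw [if_neg (fun h => hij h.symm)]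
        · refine ⟨yF _ i j, ?_⟩
          rw [hfT_yF k β φ i j hij, if_pos]
          exact ⟨fun l hl => h1 ⟨l, hl⟩, fun l hl => h2 ⟨l, hl⟩⟩
    · exact ⟨X (some (Sum.inr (i, Sum.inr (Sum.inr true)))), by rw [hfT_X]; rfl⟩
    · exact ⟨X (some (Sum.inr (i, Sum.inl b))), by rw [hfT_X]; rfl⟩
  | algebraMap c =>
    refine ⟨C c, ?_⟩
    rw [← MvPolynomial.algebraMap_eq, AlgHom.commutes]
    rfl
  | add y z _ _ h1 h2 =>
    obtain ⟨a, ha⟩ := h1
    obtain ⟨b, hb⟩ := h2
    exact ⟨a + b, by rw [map_add, ha, hb, Polynomial.C_add]⟩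
  | mul y z _ _ h1 h2 =>
    obtain ⟨a, ha⟩ := h1
    obtain ⟨b, hb⟩ := h2
    exact ⟨a * b, by rw [map_mul, ha, hb, Polynomial.C_mul]⟩

/-- the products `h X` are hit -/
theorem hfT_list (k : ℕ) (β : Type) {w : ℕ} (φ : Pos w) (l : List ℕ) :
    ∃ x : FF (hfB β w), hfT k β φ x =
      Polynomial.monomial l.length ((l.map (fun j => MM k β j j)).prod) := by
  induction l with
  | nil => exact ⟨1, by rw [map_one]; rfl⟩
  | cons j l ih =>
    obtain ⟨x, hx⟩ := ih
    refine ⟨X (some (Sum.inr (j, Sum.inr (Sum.inr false)))) * x, ?_⟩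
    rw [map_mul, hx, hfT_X]
    show Polynomial.X * Polynomial.C (MM k β j j) * _ = _
    rw [mul_comm Polynomial.X, ← pow_one (Polynomial.X : Polynomial (QQ (KK k β))),
      Polynomial.C_mul_X_pow_eq_monomial, Polynomial.monomial_mul_monomial, List.map_cons,
      List.prod_cons, List.length_cons, Nat.add_comm]

theorem hfT_surj (k : ℕ) (β : Type) {w : ℕ} (φ : Pos w) (y : Polynomial (QQ (KK k β)))
    (hy : y ∈ RT (Rr k β).toSubring (fun j => MM k β j j)) :
    ∃ x : FF (hfB β w), y - hfT k β φ x ∈ XRT (Rr k β).toSubring (fun j => MM k β j j) := by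
  -- one coefficient
  have h1 : ∀ (D : ℕ) (a : QQ (KK k β)), a ∈ RD (Rr k β).toSubring (fun j => MM k β j j) D →
      ∃ x : FF (hfB β w), Polynomial.monomial D a - hfT k β φ x ∈
        XRT (Rr k β).toSubring (fun j => MM k β j j) := by
    intro D a ha
    unfold RD at ha
    induction ha using AddSubgroup.closure_induction with
    | mem a ha =>
      obtain ⟨c, hc, l, hl, rfl⟩ := ha
      rcases Nat.lt_or_ge l.length D with hlt | hge
      · refine ⟨0, ?_⟩
        rw [map_zero, sub_zero]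
        refine ⟨Polynomial.monomial (D - 1) (c * (l.map (fun j => MM k β j j)).prod), ?_, ?_⟩
        · apply monomial_mem_RT
          exact AddSubgroup.subset_closure ⟨c, hc, l, by omega, rfl⟩
        · show Polynomial.X * Polynomial.monomial (D - 1) _ = _
          have hD : D - 1 + 1 = D := by omega
          rw [Polynomial.X_mul_monomial, hD]
      · have hD : l.length = D := le_antisymm hl hge
        obtain ⟨x1, hx1⟩ := hfT_surj_R k β φ c hc
        obtain ⟨x2, hx2⟩ := hfT_list k β φ l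
        refine ⟨x1 * x2, ?_⟩
        rw [map_mul (hfT k β φ), hx1, hx2, Polynomial.C_mul_monomial, hD, sub_self]
        exact AddSubgroup.zero_mem _
    | zero => exact ⟨0, by rw [map_zero, map_zero, sub_zero]; exact AddSubgroup.zero_mem _⟩
    | add a b _ _ ha hb =>
      obtain ⟨x, hx⟩ := ha
      obtain ⟨z, hz⟩ := hb
      refine ⟨x + z, ?_⟩
      rw [map_add, map_add]
      have := AddSubgroup.add_mem _ hx hz
      have e : (Polynomial.monomial D a + Polynomial.monomial D b -
          (hfT k β φ x + hfT k β φ z)) = (Polynomial.monomial D a - hfT k β φ x) +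
            (Polynomial.monomial D b - hfT k β φ z) := by ring
      rw [e]
      exact this
    | neg a _ ha =>
      obtain ⟨x, hx⟩ := ha
      refine ⟨-x, ?_⟩
      rw [map_neg, map_neg]
      have := AddSubgroup.neg_mem _ hx
      have e : (-Polynomial.monomial D a - -hfT k β φ x) =
        -(Polynomial.monomial D a - hfT k β φ x) := by ring
      rw [e]
      exact this
  choose x hx using fun D => h1 D (y.coeff D) (hy D)
  refine ⟨∑ D ∈ y.support, x D, ?_⟩
  have e : y - hfT k β φ (∑ D ∈ y.support, x D) =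
      ∑ D ∈ y.support, (Polynomial.monomial D (y.coeff D) - hfT k β φ (x D)) := by
    rw [map_sum, Finset.sum_sub_distrib]
    congr 1
    exact y.as_sum_support
  rw [e]
  exact AddSubgroup.sum_mem _ (fun D _ => hx D)

theorem hfT_minor (ρ : ℕ) (β : Type) {w : ℕ} (φ : Pos w)
    (p : Fin (ρ + 1) ⊕ Fin (ρ + 1) → ℕ) (hp : Vld (ρ + 1) p) :
    hfT (ρ + 1) β φ (minor (ρ + 1) (yF _) p) = 0 ∨
      ((∀ x j, p x ≠ φ j) ∧ hfT (ρ + 1) β φ (minor (ρ + 1) (yF _) p) =
        Polynomial.C (minor (ρ + 1) (MM (ρ + 1) β) p)) := by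
  have h0 : hfT (ρ + 1) β φ (minor (ρ + 1) (yF _) p) =
      minor (ρ + 1) (fun i j => hfT (ρ + 1) β φ (yF _ i j)) p := by
    have h := minor_map ((hfT (ρ + 1) β φ : FF (hfB β w) →ₐ[ℂ] _) :
      FF (hfB β w) →+* Polynomial (QQ (KK (ρ + 1) β))) (ρ + 1) (yF _) p
    exact h
  by_cases h1 : ∃ a l, φ l = p (Sum.inl a)
  · left
    obtain ⟨a, l, hl⟩ := h1
    rw [h0]
    unfold minor
    apply Matrix.det_eq_zero_of_row_eq_zero a
    intro b
    show hfT (ρ + 1) β φ (yF _ (p (Sum.inl a)) (p (Sum.inr b))) = 0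
    rw [hfT_yF _ _ _ _ _ (hp a b), if_neg]
    exact fun h => h.1 l hl
  · by_cases h2 : ∃ b l, φ l = p (Sum.inr b)
    · left
      obtain ⟨b, l, hl⟩ := h2
      rw [h0]
      unfold minor
      apply Matrix.det_eq_zero_of_column_eq_zero b
      intro a
      show hfT (ρ + 1) β φ (yF _ (p (Sum.inl a)) (p (Sum.inr b))) = 0
      rw [hfT_yF _ _ _ _ _ (hp a b), if_neg]
      exact fun h => h.2 l hl
    · right
      refine ⟨?_, ?_⟩
      · rintro (a | b) j h
        · exact h1 ⟨a, j, h.symm⟩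
        · exact h2 ⟨b, j, h.symm⟩
      · rw [h0, minor_map]
        unfold minor
        congr 1
        ext1 a b
        show hfT (ρ + 1) β φ (yF _ (p (Sum.inl a)) (p (Sum.inr b))) = _
        rw [hfT_yF _ _ _ _ _ (hp a b), if_pos]
        · rfl
        · exact ⟨fun l hl => h1 ⟨a, l, hl⟩, fun l hl => h2 ⟨b, l, hl⟩⟩

theorem h5_rdata (ρ : ℕ) (hP : PN ρ) (β : Type) [Fintype β] :
    H5 (actQ (KK (ρ + 1) β)) (rdata (ρ + 1) β) := by
  intro w
  set R : Subring (QQ (KK (ρ + 1) β)) := (Rr (ρ + 1) β).toSubring with hR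
  set h : ℕ → QQ (KK (ρ + 1) β) := fun j => MM (ρ + 1) β j j with hh
  have hstab : SStab (polyAct (actQ (KK (ρ + 1) β))) (RT R h) :=
    stab_RT (stab_Rr (ρ + 1) β) (fun τ j => actQ_MM (ρ + 1) β τ j j)
  have hfam : IsFam (polyAct (actQ (KK (ρ + 1) β))) (RT R h)
      (DD (RT R h) (Vld (ρ + 1)) (fun p => Polynomial.C (minor (ρ + 1) (MM (ρ + 1) β) p)) 1 w ⊔
        cst w (XRT R h)) := by
    refine IsFam.sup (isFam_DD hstab (Vld_act (ρ + 1)) ?_ 1 w)
      (isFam_XRT (stab_Rr (ρ + 1) β) (fun τ j => actQ_MM (ρ + 1) β τ j j) w)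
    intro τ p
    rw [polyAct_C, actQ_minor]
  have hPw := hP (hfB β w) w
  have htop : (cst w (⊤ : AddSubgroup (FF (hfB β w)))) =
      cst w (⊤ : Subring (FF (hfB β w))).toAddSubgroup := by
    funext φ
    apply le_antisymm
    · intro x _
      exact Subring.mem_top x
    · exact le_top
  rw [htop] at hPw
  refine pull (S := polyAct (actQ (KK (ρ + 1) β))) (S1 := actF (hfB β w)) (B1 := ⊤)
    stab_top (fun φ => (hfT (ρ + 1) β φ : FF (hfB β w) →+* _)) ?_ ?_ ?_ ?_ ?_ hPw
  · intro φ τ x _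
    exact hfT_act (ρ + 1) β φ τ x
  · intro φ x _
    exact hfT_mem (ρ + 1) β φ x
  · intro φ x _
    exact Subring.mem_top x
  · intro φ x hx
    have hx' : x ∈ II (hfB β w) (ρ + 1) := hx
    unfold II at hx'
    refine Submodule.span_induction (p := fun x _ => hfT (ρ + 1) β φ x ∈
      (DD (RT R h) (Vld (ρ + 1)) (fun p => Polynomial.C (minor (ρ + 1) (MM (ρ + 1) β) p)) 1 w ⊔
        cst w (XRT R h)) φ) ?_ ?_ ?_ ?_ hx'
    · rintro _ ⟨p, hp, rfl⟩
      rcases hfT_minor ρ β φ p hp with h1 | ⟨h1, h2⟩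
      · rw [h1]
        exact AddSubgroup.zero_mem _
      · rw [h2]
        apply AddSubgroup.mem_sup_left
        unfold DD
        apply AddSubgroup.subset_closure
        refine ⟨1, Subring.one_mem _, fun _ => p, fun _ => hp, fun _ k j => h1 k j, ?_, ?_⟩
        · intro l l' hl
          exact absurd (Subsingleton.elim l l') hl
        · simp
    · rw [map_zero]
      exact AddSubgroup.zero_mem _
    · intro x y _ _ hx hy
      rw [map_add]
      exact AddSubgroup.add_mem _ hx hy
    · intro a x _ hx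
      rw [smul_eq_mul, map_mul]
      exact hfam.smul φ _ _ (hfT_mem (ρ + 1) β φ a) hx
  · intro φ y hy
    obtain ⟨x, hx⟩ := hfT_surj (ρ + 1) β φ y hy
    exact ⟨x, Subring.mem_top x, AddSubgroup.mem_sup_right hx⟩

end MPf70651.Full
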