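import Pool.Agent.Lib_MP_f70651_al.Full.Pull

/-!
# MP_f70651_al, full version : Hfour
-/

namespace MPf70651.Full

open MPf70651 MvPolynomial

variable {P : Type} [CommRing P] {S : IncAct P}

theorem h_four (d : RData S) (h5 : H5 S d) (w : ℕ) :
    Noeth S d.R (DD d.R d.V d.Δ 1 w ⊔ cst w ⊥) (cst w d.R.toAddSubgroup) := by
  refine pull (S1 := polyAct S) (B1 := RT d.R d.h) (stab_RT d.stab d.act_h)
    (fun _ => Polynomial.constantCoeff) ?_ ?_ ?_ ?_ ?_ (h5 w)
  · intro φ τ x _
    show S.act τ (Polynomial.constantCoeff x) =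
      Polynomial.constantCoeff (Polynomial.mapRingHom (S.act τ) x)
    rw [Polynomial.constantCoeff_apply, Polynomial.constantCoeff_apply, Polynomial.coe_mapRingHom,
      Polynomial.coeff_map]
  · intro φ x hx
    have h := hx 0
    rw [RD_zero] at h
    exact h
  · intro φ
    refine sup_le ?_ ?_
    · unfold DD
      rw [AddSubgroup.closure_le]
      rintro _ ⟨a, ha, p, hp, -, -, rfl⟩
      exact (RT d.R d.h).mul_mem ha
        ((RT d.R d.h).prod_mem fun k _ => C_mem_RT (d.Δ_mem _ (hp k)))
    · rintro _ ⟨q, hq, rfl⟩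
      exact (RT d.R d.h).mul_mem X_mem_RT hq
  · intro φ x hx
    obtain ⟨y, hy, z, hz, rfl⟩ := AddSubgroup.mem_sup.mp hx
    rw [map_add]
    refine AddSubgroup.add_mem _ (AddSubgroup.mem_sup_left ?_) ?_
    · clear hx
      unfold DD at hy ⊢
      induction hy using AddSubgroup.closure_induction with
      | zero => rw [map_zero]; exact AddSubgroup.zero_mem _
      | add x y _ _ ihx ihy => rw [map_add]; exact AddSubgroup.add_mem _ ihx ihy
      | neg x _ ih => rw [map_neg]; exact AddSubgroup.neg_mem _ ih
      | mem x hx =>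
        obtain ⟨a, ha, p, hp, hpf, hpd, rfl⟩ := hx
        apply AddSubgroup.subset_closure
        refine ⟨Polynomial.constantCoeff a, ?_, p, hp, hpf, hpd, ?_⟩
        · have h := ha 0
          rw [RD_zero] at h
          exact h
        · rw [map_mul, map_prod]
          congr 1
          apply Finset.prod_congr rfl
          intro k _
          rw [Polynomial.constantCoeff_apply, Polynomial.coeff_C_zero]
    · obtain ⟨q, _, rfl⟩ := hz
      have : Polynomial.constantCoeff ((AddMonoidHom.mulLeft Polynomial.X) q) = (0 : P) := by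
        rw [AddMonoidHom.coe_mulLeft, map_mul, Polynomial.constantCoeff_apply,
          Polynomial.coeff_X_zero, zero_mul]
      rw [this]
      exact AddSubgroup.zero_mem _
  · intro φ y hy
    refine ⟨Polynomial.C y, C_mem_RT hy, ?_⟩
    rw [Polynomial.constantCoeff_apply, Polynomial.coeff_C_zero, sub_self]
    exact AddSubgroup.zero_mem _

end MPf70651.Full
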