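import Pool.Agent.Lib_MP_f70651_al.Full.Ladder

/-!
# MP_f70651_al, full version : Indep
-/

namespace MPf70651.Full

open MPf70651 MvPolynomial

/-- the cells -/
abbrev IndC := {p : ℕ × ℕ // p.1 ≠ p.2}

/-- tail counts -/
def indN (row col : ℕ → ℕ) (m : IndC →₀ ℕ) (x y : ℕ) : ℕ :=
  m.sum fun q k => if x ≤ row q.1.1 ∧ y ≤ col q.1.2 then k else 0

lemma indN_add (row col : ℕ → ℕ) (m m' : IndC →₀ ℕ) (x y : ℕ) :
    indN row col (m + m') x y = indN row col m x y + indN row col m' x y := by
  unfold indN
  rw [Finsupp.sum_add_index']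
  · intro a; simp
  · intro a b c; split_ifs <;> simp

lemma indN_sum (row col : ℕ → ℕ) {ι : Type} (s : Finset ι) (f : ι → (IndC →₀ ℕ)) (x y : ℕ) :
    indN row col (∑ i ∈ s, f i) x y = ∑ i ∈ s, indN row col (f i) x y := by
  classical
  induction s using Finset.induction_on with
  | empty => simp [indN]
  | insert a s ha ih => rw [Finset.sum_insert ha, Finset.sum_insert ha, indN_add, ih]

/-- the cells are comonotone -/
def IndComo (row col : ℕ → ℕ) (m : IndC →₀ ℕ) : Prop :=
  ∀ p ∈ m.support, ∀ q ∈ m.support, row p.1.1 < row q.1.1 → ¬ col q.1.2 < col p.1.2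

lemma ind_T1 (m : IndC →₀ ℕ) (g : ℕ → Prop) [DecidablePred g] :
    (m.sum fun q k => if g q.1.1 then k else 0) =
      (m.mapDomain (fun q : IndC => q.1.1)).sum fun i k => if g i then k else 0 := by
  rw [Finsupp.sum_mapDomain_index]
  · intro a; simp
  · intro a b c; split_ifs <;> simp

lemma ind_T2 (m : IndC →₀ ℕ) (g : ℕ → Prop) [DecidablePred g] :
    (m.sum fun q k => if g q.1.2 then k else 0) =
      (m.mapDomain (fun q : IndC => q.1.2)).sum fun i k => if g i then k else 0 := by
  rw [Finsupp.sum_mapDomain_index]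
  · intro a; simp
  · intro a b c; split_ifs <;> simp

lemma indN_le {row col : ℕ → ℕ} {m m0 : IndC →₀ ℕ}
    (h1 : m.mapDomain (fun q : IndC => q.1.1) = m0.mapDomain (fun q : IndC => q.1.1))
    (h2 : m.mapDomain (fun q : IndC => q.1.2) = m0.mapDomain (fun q : IndC => q.1.2))
    (hc : IndComo row col m0) (x y : ℕ) : indN row col m x y ≤ indN row col m0 x y := by
  by_cases h : ∃ p ∈ m0.support, x ≤ row p.1.1 ∧ col p.1.2 < y
  · obtain ⟨p, hp, hp1, hp2⟩ := h
    have e1 : indN row col m0 x y = m0.sum fun q k => if y ≤ col q.1.2 then k else 0 := by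
      unfold indN
      apply Finsupp.sum_congr
      intro q hq
      by_cases hy : y ≤ col q.1.2
      · have hx : x ≤ row q.1.1 := by
          by_contra hx
          exact hc q hq p hp (by omega) (by omega)
        rw [if_pos ⟨hx, hy⟩, if_pos hy]
      · rw [if_neg (fun h => hy h.2), if_neg hy]
    rw [e1, ind_T2 m0 (fun i => y ≤ col i), ← h2, ← ind_T2 m (fun i => y ≤ col i)]
    unfold indN
    apply Finset.sum_le_sum
    intro q _
    dsimp only
    split_ifs with h3 h4
    · exact le_refl _
    · exact absurd h3.2 h4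
    · exact Nat.zero_le _
    · exact le_refl _
  · push Not at h
    have e1 : indN row col m0 x y = m0.sum fun q k => if x ≤ row q.1.1 then k else 0 := by
      unfold indN
      apply Finsupp.sum_congr
      intro q hq
      by_cases hx : x ≤ row q.1.1
      · rw [if_pos ⟨hx, h q hq hx⟩, if_pos hx]
      · rw [if_neg (fun h => hx h.1), if_neg hx]
    rw [e1, ind_T1 m0 (fun i => x ≤ row i), ← h1, ← ind_T1 m (fun i => x ≤ row i)]
    unfold indN
    apply Finset.sum_le_sum
    intro q _
    dsimp only
    split_ifs with h3 h4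
    · exact le_refl _
    · exact absurd h3.1 h4
    · exact Nat.zero_le _
    · exact le_refl _

lemma indN_diff {row col : ℕ → ℕ} (hrow : Function.Injective row) (hcol : Function.Injective col)
    (m : IndC →₀ ℕ) (p : IndC) :
    indN row col m (row p.1.1) (col p.1.2) + indN row col m (row p.1.1 + 1) (col p.1.2 + 1) =
      m p + indN row col m (row p.1.1 + 1) (col p.1.2) +
        indN row col m (row p.1.1) (col p.1.2 + 1) := by
  classical
  have h1 : m p = m.sum fun q k => if p = q then k else 0 := by
    rw [Finsupp.sum_ite_eq]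
    by_cases h : p ∈ m.support
    · rw [if_pos h]
    · rw [if_neg h, Finsupp.notMem_support_iff.mp h]
  rw [h1]
  unfold indN
  rw [← Finsupp.sum_add, ← Finsupp.sum_add, ← Finsupp.sum_add]
  apply Finsupp.sum_congr
  intro q _
  by_cases hr : row q.1.1 = row p.1.1 <;> by_cases hc : col q.1.2 = col p.1.2
  · have e : p = q := Subtype.ext (Prod.ext (hrow hr.symm) (hcol hc.symm))
    subst e
    simp
  · have e : p ≠ q := fun e => hc (by rw [e])
    rw [if_neg e]
    split_ifs <;> omega
  · have e : p ≠ q := fun e => hr (by rw [e])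
    rw [if_neg e]
    split_ifs <;> omega
  · have e : p ≠ q := fun e => hr (by rw [e])
    rw [if_neg e]
    split_ifs <;> omega

lemma indN_ext {row col : ℕ → ℕ} (hrow : Function.Injective row) (hcol : Function.Injective col)
    {m m' : IndC →₀ ℕ} (h : ∀ x y, indN row col m x y = indN row col m' x y) : m = m' := by
  ext p
  have h1 := indN_diff hrow hcol m p
  have h2 := indN_diff hrow hcol m' p
  simp only [h] at h1
  omega

/-! ### the colouring -/

/-- there is an anti-chain of length `k + 1` in the support of `m` ending at `p` -/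
def IndCh (row col : ℕ → ℕ) (m : IndC →₀ ℕ) (p : IndC) (k : ℕ) : Prop :=
  ∃ s : Fin (k + 1) → IndC, (∀ a, s a ∈ m.support) ∧
    (∀ a b, a < b → row (s a).1.1 < row (s b).1.1 ∧ col (s b).1.2 < col (s a).1.2) ∧
    s (Fin.last k) = p

open Classical in
/-- the colour of a cell -/
noncomputable def indc (row col : ℕ → ℕ) (m : IndC →₀ ℕ) (ρ : ℕ) (p : IndC) : ℕ :=
  Nat.findGreatest (IndCh row col m p) ρ

lemma indCh_zero (row col : ℕ → ℕ) {m : IndC →₀ ℕ} {p : IndC} (hp : p ∈ m.support) :
    IndCh row col m p 0 := by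
  refine ⟨fun _ => p, fun _ => hp, fun a b h => ?_, rfl⟩
  have := a.2
  have := b.2
  have h' : a.val < b.val := h
  omega

lemma indc_spec (row col : ℕ → ℕ) {m : IndC →₀ ℕ} (ρ : ℕ) {p : IndC} (hp : p ∈ m.support) :
    IndCh row col m p (indc row col m ρ p) := by
  classical
  unfold indc
  exact Nat.findGreatest_spec (P := IndCh row col m p) (Nat.zero_le ρ) (indCh_zero row col hp)

lemma indc_lt {row col : ℕ → ℕ} {m : IndC →₀ ℕ} {ρ : ℕ} (hm : Good row col (ρ + 1) m) {p : IndC}
    (hp : p ∈ m.support) : indc row col m ρ p < ρ := by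
  classical
  have h1 : indc row col m ρ p ≤ ρ := Nat.findGreatest_le ρ
  rcases h1.lt_or_eq with h | h
  · exact h
  · exfalso
    have h2 := indc_spec row col ρ hp
    rw [h] at h2
    obtain ⟨s, h3, h4, -⟩ := h2
    exact hm ⟨s, h3, h4⟩

lemma indc_como {row col : ℕ → ℕ} {m : IndC →₀ ℕ} {ρ : ℕ} (hm : Good row col (ρ + 1) m)
    {p q : IndC} (hp : p ∈ m.support) (hq : q ∈ m.support) (hr : row p.1.1 < row q.1.1)
    (hc : col q.1.2 < col p.1.2) : indc row col m ρ p < indc row col m ρ q := by
  classical
  obtain ⟨s, h1, h2, h3⟩ := indc_spec row col ρ hp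
  have hlt := indc_lt hm hp
  have h4 : IndCh row col m q (indc row col m ρ p + 1) := by
    refine ⟨Fin.snoc s q, ?_, ?_, ?_⟩
    · intro a
      refine Fin.lastCases ?_ (fun a => ?_) a
      · rw [Fin.snoc_last]; exact hq
      · rw [Fin.snoc_castSucc]; exact h1 a
    · intro a b
      refine Fin.lastCases ?_ (fun b => ?_) b
      · refine Fin.lastCases ?_ (fun a => ?_) a
        · intro h; exact absurd h (lt_irrefl _)
        · intro _
          rw [Fin.snoc_last, Fin.snoc_castSucc]
          rcases (Fin.le_last a).lt_or_eq with h | h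
          · have h5 := h2 a _ h
            rw [h3] at h5
            exact ⟨h5.1.trans hr, hc.trans h5.2⟩
          · rw [h, h3]
            exact ⟨hr, hc⟩
      · refine Fin.lastCases ?_ (fun a => ?_) a
        · intro h
          exact absurd h (not_lt.mpr (Fin.le_last _))
        · intro h
          rw [Fin.snoc_castSucc, Fin.snoc_castSucc]
          exact h2 a b (by simpa using h)
    · rw [Fin.snoc_last]
  have h5 : indc row col m ρ p + 1 ≤ indc row col m ρ q := by
    unfold indc at h4 hlt ⊢
    exact Nat.le_findGreatest (by omega) h4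
  omega

/-- a good monomial is a sum of comonotone monomials -/
lemma ind_decomp {row col : ℕ → ℕ} {m : IndC →₀ ℕ} {ρ : ℕ} (hm : Good row col (ρ + 1) m) :
    ∃ M : Fin ρ → (IndC →₀ ℕ), ∑ a, M a = m ∧ ∀ a, IndComo row col (M a) := by
  classical
  refine ⟨fun a => m.filter (fun p => indc row col m ρ p = a.val), ?_, ?_⟩
  · ext p
    rw [Finsupp.finsetSum_apply]
    by_cases hp : p ∈ m.support
    · have hlt := indc_lt hm hp
      rw [Finset.sum_eq_single (⟨indc row col m ρ p, hlt⟩ : Fin ρ)]
      · rw [Finsupp.filter_apply_pos]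
        rfl
      · intro b _ hb
        rw [Finsupp.filter_apply_neg]
        intro h
        exact hb (Fin.ext h.symm)
      · intro h
        exact absurd (Finset.mem_univ _) h
    · rw [Finsupp.notMem_support_iff.mp hp]
      apply Finset.sum_eq_zero
      intro a _
      rw [Finsupp.filter_apply, Finsupp.notMem_support_iff.mp hp, ite_self]
  · intro a p hp q hq hr hc
    rw [Finsupp.support_filter, Finset.mem_filter] at hp hq
    have h := indc_como hm hp.1 hq.1 hr hc
    rw [hp.2, hq.2] at h
    exact lt_irrefl _ h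

/-! ### coefficients -/

/-- exponent of `u_{i,a} v_{j,a}` -/
noncomputable def indE (ρ : ℕ) (a : Fin ρ) (p : IndC) : Option (ℕ × KK ρ Empty) →₀ ℕ :=
  Finsupp.single (some (p.1.1, Sum.inl (a, true))) 1 +
    Finsupp.single (some (p.1.2, Sum.inl (a, false))) 1

/-- the exponent attached to a coloured monomial -/
noncomputable def indX (ρ : ℕ) (M : Fin ρ → (IndC →₀ ℕ)) : Option (ℕ × KK ρ Empty) →₀ ℕ :=
  ∑ a, (M a).sum fun p k => k • indE ρ a p

lemma indX_add (ρ : ℕ) (M M' : Fin ρ → (IndC →₀ ℕ)) :
    indX ρ (M + M') = indX ρ M + indX ρ M' := by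
  unfold indX
  rw [← Finset.sum_add_distrib]
  apply Finset.sum_congr rfl
  intro a _
  rw [Pi.add_apply, Finsupp.sum_add_index']
  · intro p; simp
  · intro p k l; rw [add_smul]

lemma indX_single (ρ : ℕ) (a : Fin ρ) (p : IndC) :
    indX ρ (Pi.single a (Finsupp.single p 1)) = indE ρ a p := by
  classical
  unfold indX
  rw [Finset.sum_eq_single a]
  · rw [Pi.single_eq_same, Finsupp.sum_single_index]
    · simp
    · simp
  · intro b _ hb
    rw [Pi.single_eq_of_ne hb]
    simp
  · intro h
    exact absurd (Finset.mem_univ _) h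

lemma indX_row (ρ : ℕ) (M : Fin ρ → (IndC →₀ ℕ)) (a : Fin ρ) (i : ℕ) :
    indX ρ M (some (i, Sum.inl (a, true))) =
      (M a).mapDomain (fun q : IndC => q.1.1) i := by
  classical
  unfold indX
  rw [Finsupp.finsetSum_apply, Finset.sum_eq_single a]
  · rw [Finsupp.mapDomain, Finsupp.sum_apply, Finsupp.sum_apply]
    apply Finsupp.sum_congr
    intro p _
    unfold indE
    rw [Finsupp.smul_apply, Finsupp.add_apply, Finsupp.single_apply, Finsupp.single_apply,
      Finsupp.single_apply]
    by_cases h : p.1.1 = i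
    · simp [h]
    · simp [h]
  · intro b _ hb
    rw [Finsupp.sum_apply]
    apply Finset.sum_eq_zero
    intro p _
    unfold indE
    dsimp only
    rw [Finsupp.smul_apply, Finsupp.add_apply, Finsupp.single_apply, Finsupp.single_apply]
    simp [hb]
  · intro h
    exact absurd (Finset.mem_univ _) h

lemma indX_col (ρ : ℕ) (M : Fin ρ → (IndC →₀ ℕ)) (a : Fin ρ) (i : ℕ) :
    indX ρ M (some (i, Sum.inl (a, false))) =
      (M a).mapDomain (fun q : IndC => q.1.2) i := by
  classical
  unfold indX
  rw [Finsupp.finsetSum_apply, Finset.sum_eq_single a]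
  · rw [Finsupp.mapDomain, Finsupp.sum_apply, Finsupp.sum_apply]
    apply Finsupp.sum_congr
    intro p _
    unfold indE
    rw [Finsupp.smul_apply, Finsupp.add_apply, Finsupp.single_apply, Finsupp.single_apply,
      Finsupp.single_apply]
    by_cases h : p.1.2 = i
    · simp [h]
    · simp [h]
  · intro b _ hb
    rw [Finsupp.sum_apply]
    apply Finset.sum_eq_zero
    intro p _
    unfold indE
    dsimp only
    rw [Finsupp.smul_apply, Finsupp.add_apply, Finsupp.single_apply, Finsupp.single_apply]
    simp [hb]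
  · intro h
    exact absurd (Finset.mem_univ _) h

lemma ind_MM (ρ : ℕ) (p : IndC) : MM ρ Empty p.1.1 p.1.2 =
    ∑ a : Fin ρ, monomial (indE ρ a p) (1 : ℂ) := by
  unfold MM
  apply Finset.sum_congr rfl
  intro a _
  unfold indE X
  rw [monomial_mul, one_mul]

lemma ind_Phi_add (ρ : ℕ) (p : IndC) (m : IndC →₀ ℕ) :
    PhiR ρ (monomial (Finsupp.single p 1 + m) 1) =
      MM ρ Empty p.1.1 p.1.2 * PhiR ρ (monomial m 1) := by
  have h : (monomial (Finsupp.single p 1 + m) 1 : RR) = X p * monomial m 1 := by
    unfold X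
    rw [monomial_mul, one_mul]
  rw [h, map_mul]
  congr 1
  unfold PhiR
  rw [aeval_X]

/-- the monomials of `PhiR (y^m)` -/
lemma ind_coeff (ρ : ℕ) (m : IndC →₀ ℕ) : ∀ x : Option (ℕ × KK ρ Empty) →₀ ℕ,
    coeff x (PhiR ρ (monomial m 1)) ≠ 0 →
    ∃ M : Fin ρ → (IndC →₀ ℕ), ∑ a, M a = m ∧ indX ρ M = x := by
  classical
  induction m using Finsupp.induction_linear with
  | zero =>
    intro x hx
    have h1 : PhiR ρ (monomial 0 1) = 1 := by
      rw [← C_apply, C_1, map_one]
    rw [h1, coeff_one] at hx
    refine ⟨0, by simp, ?_⟩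
    by_contra h
    apply hx
    rw [if_neg]
    intro h2
    apply h
    rw [← h2]
    unfold indX
    simp
  | add f g hf hg =>
    intro x hx
    have h1 : (monomial (f + g) 1 : RR) = monomial f 1 * monomial g 1 := by
      rw [monomial_mul, one_mul]
    rw [h1, map_mul, coeff_mul] at hx
    obtain ⟨y, hy, hy2⟩ := Finset.exists_ne_zero_of_sum_ne_zero hx
    obtain ⟨M1, h2, h3⟩ := hf y.1 (left_ne_zero_of_mul hy2)
    obtain ⟨M2, h4, h5⟩ := hg y.2 (right_ne_zero_of_mul hy2)
    refine ⟨M1 + M2, ?_, ?_⟩
    · simp only [Pi.add_apply]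
      rw [Finset.sum_add_distrib, h2, h4]
    · rw [indX_add, h3, h5]
      exact Finset.HasAntidiagonal.mem_antidiagonal.mp hy
  | single p k =>
    induction k with
    | zero =>
      intro x hx
      rw [Finsupp.single_zero] at hx ⊢
      have h1 : PhiR ρ (monomial 0 1) = 1 := by
        rw [← C_apply, C_1, map_one]
      rw [h1, coeff_one] at hx
      refine ⟨0, by simp, ?_⟩
      by_contra h
      apply hx
      rw [if_neg]
      intro h2
      apply h
      rw [← h2]
      unfold indX
      simp
    | succ k ih =>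
      intro x hx
      have e : (Finsupp.single p (k + 1) : IndC →₀ ℕ) = Finsupp.single p 1 + Finsupp.single p k := by
        rw [← Finsupp.single_add, add_comm]
      rw [e, ind_Phi_add, coeff_mul] at hx
      obtain ⟨y, hy, hy2⟩ := Finset.exists_ne_zero_of_sum_ne_zero hx
      obtain ⟨M, h2, h3⟩ := ih y.2 (right_ne_zero_of_mul hy2)
      have h4 := left_ne_zero_of_mul hy2
      rw [ind_MM, coeff_sum] at h4
      obtain ⟨a, _, ha⟩ := Finset.exists_ne_zero_of_sum_ne_zero h4
      rw [coeff_monomial] at ha
      have h5 : indE ρ a p = y.1 := by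
        by_contra h
        exact ha (if_neg h)
      refine ⟨Pi.single a (Finsupp.single p 1) + M, ?_, ?_⟩
      · simp only [Pi.add_apply]
        rw [Finset.sum_add_distrib, h2, e]
        congr 1
        rw [Finset.sum_eq_single a]
        · rw [Pi.single_eq_same]
        · intro b _ hb
          rw [Pi.single_eq_of_ne hb]
        · intro h
          exact absurd (Finset.mem_univ _) h
      · rw [indX_add, indX_single, h5, h3]
        exact Finset.HasAntidiagonal.mem_antidiagonal.mp hy

lemma ind_pos (ρ : ℕ) (s : Multiset IndC) :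
    ∃ Q : MvPolynomial (Option (ℕ × KK ρ Empty)) ℕ,
      MvPolynomial.map (Nat.castRingHom ℂ) Q = PhiR ρ (monomial (Multiset.toFinsupp s) 1) ∧
      ∀ M : Fin ρ → (IndC →₀ ℕ), ∑ a, M a = Multiset.toFinsupp s → coeff (indX ρ M) Q ≠ 0 := by
  classical
  induction s using Multiset.induction_on with
  | empty =>
    refine ⟨1, ?_, ?_⟩
    · rw [map_one, map_zero, ← C_apply, C_1, map_one]
    · intro M hM
      rw [map_zero] at hM
      have h1 : M = 0 := by
        funext a
        have h2 := (Finset.sum_eq_zero_iff.mp hM) a (Finset.mem_univ _)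
        exact h2
      rw [h1]
      have h3 : indX ρ (0 : Fin ρ → (IndC →₀ ℕ)) = 0 := by
        unfold indX
        simp
      rw [h3, coeff_zero_one]
      exact one_ne_zero
  | cons p s ih =>
    obtain ⟨Q, hQ1, hQ2⟩ := ih
    have e : Multiset.toFinsupp (p ::ₘ s) = Finsupp.single p 1 + Multiset.toFinsupp s := by
      rw [← Multiset.singleton_add, map_add, Multiset.toFinsupp_singleton]
    refine ⟨(∑ a : Fin ρ, monomial (indE ρ a p) 1) * Q, ?_, ?_⟩
    · rw [map_mul, hQ1, e, ind_Phi_add, ind_MM, map_sum]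
      congr 1
      apply Finset.sum_congr rfl
      intro a _
      rw [map_monomial]
      simp
    · intro M hM
      rw [e] at hM
      have h1 : (∑ a, M a) p ≠ 0 := by
        rw [hM, Finsupp.add_apply, Finsupp.single_eq_same]
        omega
      rw [Finsupp.finsetSum_apply] at h1
      obtain ⟨a, _, ha⟩ := Finset.exists_ne_zero_of_sum_ne_zero h1
      have h2 : Finsupp.single p 1 ≤ M a := by
        rw [Finsupp.single_le_iff]
        omega
      have h3 : M = Pi.single a (Finsupp.single p 1) +
          Function.update M a (M a - Finsupp.single p 1) := by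
        funext b
        rw [Pi.add_apply]
        by_cases hb : b = a
        · subst hb
          rw [Pi.single_eq_same, Function.update_self, add_tsub_cancel_of_le h2]
        · rw [Pi.single_eq_of_ne hb, Function.update_of_ne hb, zero_add]
      set M' := Function.update M a (M a - Finsupp.single p 1) with hM'
      have h4 : ∑ b, M' b = Multiset.toFinsupp s := by
        rw [h3] at hM
        simp only [Pi.add_apply] at hM
        rw [Finset.sum_add_distrib] at hM
        have h5 : ∑ b, (Pi.single a (Finsupp.single p 1) : Fin ρ → (IndC →₀ ℕ)) b =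
            Finsupp.single p 1 := by
          rw [Finset.sum_eq_single a]
          · rw [Pi.single_eq_same]
          · intro b _ hb
            rw [Pi.single_eq_of_ne hb]
          · intro h
            exact absurd (Finset.mem_univ _) h
        rw [h5] at hM
        exact add_left_cancel hM
      have h6 := hQ2 M' h4
      rw [h3, indX_add, indX_single, coeff_mul]
      have h7 : coeff (indE ρ a p) (∑ b : Fin ρ, monomial (indE ρ b p) (1 : ℕ)) *
          coeff (indX ρ M') Q ≤ ∑ x ∈ Finset.HasAntidiagonal.antidiagonal (indE ρ a p + indX ρ M'),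
          coeff x.1 (∑ b : Fin ρ, monomial (indE ρ b p) (1 : ℕ)) * coeff x.2 Q := by
        apply Finset.single_le_sum (f := fun x : _ × _ =>
          coeff x.1 (∑ b : Fin ρ, monomial (indE ρ b p) (1 : ℕ)) * coeff x.2 Q)
          (fun _ _ => Nat.zero_le _)
          (a := (indE ρ a p, indX ρ M'))
        exact Finset.HasAntidiagonal.mem_antidiagonal.mpr rfl
      have h8 : 1 ≤ coeff (indE ρ a p) (∑ b : Fin ρ, monomial (indE ρ b p) (1 : ℕ)) := by
        rw [coeff_sum]
        have h9 : coeff (indE ρ a p) (monomial (indE ρ a p) (1 : ℕ)) = 1 := by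
          rw [coeff_monomial, if_pos rfl]
        refine le_trans (le_of_eq h9.symm) ?_
        exact Finset.single_le_sum (f := fun b : Fin ρ => coeff (indE ρ a p)
          (monomial (indE ρ b p) (1 : ℕ))) (fun _ _ => Nat.zero_le _) (Finset.mem_univ a)
      have h10 : 1 ≤ coeff (indX ρ M') Q := Nat.one_le_iff_ne_zero.mpr h6
      have h11 := Nat.mul_le_mul h8 h10
      intro h12
      rw [h12] at h7
      omega

theorem indep (row col : ℕ → ℕ) (hrow : Function.Injective row) (hcol : Function.Injective col)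
    (ρ : ℕ) (κ : RR) (hκ : ∀ m ∈ κ.support, Good row col (ρ + 1) m) (h : PhiR ρ κ = 0) :
    κ = 0 := by
  classical
  by_contra hne
  have hsup : κ.support.Nonempty := by
    rw [Finset.nonempty_iff_ne_empty]
    intro h1
    exact hne (MvPolynomial.support_eq_empty.mp h1)
  -- a common bound
  set B : ℕ := κ.support.sup (fun m => m.support.sup
    (fun q => row q.1.1 + col q.1.2 + 1)) with hB
  have hbd : ∀ m ∈ κ.support, ∀ x y, B ≤ x ∨ B ≤ y → indN row col m x y = 0 := by
    intro m hm x y hxy
    unfold indN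
    apply Finset.sum_eq_zero
    intro q hq
    have h1 : row q.1.1 + col q.1.2 + 1 ≤ B :=
      (Finset.le_sup (f := fun q : IndC => row q.1.1 + col q.1.2 + 1) hq).trans
        (Finset.le_sup (f := fun m : IndC →₀ ℕ => m.support.sup
          (fun q => row q.1.1 + col q.1.2 + 1)) hm)
    dsimp only
    rw [if_neg]
    omega
  set W : (IndC →₀ ℕ) → ℕ := fun m =>
    ∑ z ∈ Finset.range B ×ˢ Finset.range B, indN row col m z.1 z.2 with hW
  obtain ⟨m0, hm0, hmin⟩ := Finset.exists_min_image κ.support W hsup
  obtain ⟨M0, hM0, hcomo⟩ := ind_decomp (hκ m0 hm0)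
  -- the coefficient of `x0`
  have key : ∀ m ∈ κ.support, m ≠ m0 → coeff (indX ρ M0) (PhiR ρ (monomial m 1)) = 0 := by
    intro m hm hne'
    by_contra hc
    obtain ⟨M, h1, h2⟩ := ind_coeff ρ m _ hc
    have h3 : ∀ a x y, indN row col (M a) x y ≤ indN row col (M0 a) x y := by
      intro a x y
      apply indN_le _ _ (hcomo a)
      · ext i
        rw [← indX_row, ← indX_row, h2]
      · ext i
        rw [← indX_col, ← indX_col, h2]
    have h4 : ∀ x y, indN row col m x y ≤ indN row col m0 x y := by
      intro x y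
      rw [← h1, ← hM0, indN_sum, indN_sum]
      exact Finset.sum_le_sum fun a _ => h3 a x y
    have h5 : W m = W m0 := le_antisymm (Finset.sum_le_sum fun z _ => h4 z.1 z.2) (hmin m hm)
    have h6 := (Finset.sum_eq_sum_iff_of_le (s := Finset.range B ×ˢ Finset.range B)
      (fun z _ => h4 z.1 z.2)).mp h5
    apply hne'
    apply indN_ext hrow hcol
    intro x y
    by_cases hx : x < B
    · by_cases hy : y < B
      · exact h6 (x, y) (Finset.mem_product.mpr ⟨Finset.mem_range.mpr hx, Finset.mem_range.mpr hy⟩)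
      · rw [hbd m hm x y (Or.inr (not_lt.mp hy)), hbd m0 hm0 x y (Or.inr (not_lt.mp hy))]
    · rw [hbd m hm x y (Or.inl (not_lt.mp hx)), hbd m0 hm0 x y (Or.inl (not_lt.mp hx))]
  have key0 : coeff (indX ρ M0) (PhiR ρ (monomial m0 1)) ≠ 0 := by
    obtain ⟨Q, hQ1, hQ2⟩ := ind_pos ρ (Finsupp.toMultiset m0)
    rw [Finsupp.toMultiset_toFinsupp] at hQ1 hQ2
    rw [← hQ1, coeff_map]
    have h1 := hQ2 M0 hM0
    simpa using h1
  have h1 : coeff (indX ρ M0) (PhiR ρ κ) = coeff m0 κ *
      coeff (indX ρ M0) (PhiR ρ (monomial m0 1)) := by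
    conv_lhs => rw [κ.as_sum]
    rw [map_sum, coeff_sum, Finset.sum_eq_single m0]
    · have h2 : (monomial m0 (coeff m0 κ) : RR) = C (coeff m0 κ) * monomial m0 1 := by
        rw [C_mul_monomial, mul_one]
      rw [h2, map_mul, ← algebraMap_eq, AlgHom.commutes, algebraMap_eq, coeff_C_mul]
    · intro m hm hne'
      have h2 : (monomial m (coeff m κ) : RR) = C (coeff m κ) * monomial m 1 := by
        rw [C_mul_monomial, mul_one]
      rw [h2, map_mul, ← algebraMap_eq, AlgHom.commutes, algebraMap_eq, coeff_C_mul,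
        key m hm hne', mul_zero]
    · intro h2
      exact absurd hm0 h2
  rw [h, coeff_zero] at h1
  have h2 := mul_ne_zero (MvPolynomial.mem_support_iff.mp hm0) key0
  exact h2 h1.symm

end MPf70651.Full
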