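import Pool.Agent.Lib_MP_f70651_al.Full.Covb
import Pool.Agent.Lib_MP_f70651_al.Full.Dq
import Pool.Agent.Lib_MP_f70651_al.Full.Hfour

/-!
# MP_f70651_al, full version : Jc
-/

namespace MPf70651.Full

open MPf70651 MvPolynomial

variable {P : Type} [CommRing P] {S : IncAct P}

theorem jc_fin_pos (n M : ℕ) : {σ : Pos n | ∀ i, σ i < M}.Finite := by
  have : Finite {σ : Pos n | ∀ i, σ i < M} := by
    refine Finite.of_injective (β := Fin n → Fin M)
      (fun σ => fun i => (⟨σ.1 i, σ.2 i⟩ : Fin M)) ?_
    intro σ τ h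
    apply Subtype.ext
    ext i
    exact congrArg Fin.val (congrFun h i)
  exact Set.toFinite _

theorem jc_fin_list (s M : ℕ) : {l : List ℕ | l.length ≤ s ∧ ∀ i ∈ l, i < M}.Finite := by
  refine ((List.finite_length_le (Fin M) s).image (List.map Fin.val)).subset ?_
  rintro l ⟨hl, hM⟩
  refine ⟨l.pmap (fun i hi => (⟨i, hi⟩ : Fin M)) hM, ?_, ?_⟩
  · simpa using hl
  · rw [List.map_pmap]
    simp

/-- each `h j` is absorbed by its own `Δ` -/
theorem jc_absorb (d : RData S) (c : ℕ) : ∀ (p : Fin c → d.ι → ℕ) (l : List ℕ),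
    (∀ k, d.V (p k)) → (∀ k x, ∀ j ∈ l, p k x ≠ j) → l.length ≤ c →
    (∏ k, d.Δ (p k)) * (l.map d.h).prod ∈ d.R := by
  induction c with
  | zero =>
    intro p l _ _ hl
    have : l = [] := List.eq_nil_of_length_eq_zero (Nat.le_zero.mp hl)
    subst this
    simp
  | succ c ih =>
    intro p l hV hp hl
    rw [Fin.prod_univ_succ]
    cases l with
    | nil =>
      rw [List.map_nil, List.prod_nil, mul_one]
      exact d.R.mul_mem (d.Δ_mem _ (hV 0)) (d.R.prod_mem fun k _ => d.Δ_mem _ (hV _))
    | cons j l =>
      rw [List.map_cons, List.prod_cons]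
      have h1 := d.absorb (p 0) j (hV 0) (fun x => hp 0 x j List.mem_cons_self)
      have h2 := ih (fun k => p k.succ) l (fun k => hV _)
        (fun k x i hi => hp _ x i (List.mem_cons_of_mem _ hi))
        (by rw [List.length_cons] at hl; omega)
      have h3 := d.R.mul_mem h1 h2
      convert h3 using 1
      ring

theorem noeth_JD (d : RData S) (h5 : H5 S d) {w : ℕ} (G : Set (Pos w × P)) (hG : G.Finite)
    (c : ℕ) : Noeth S d.R (JD S d.R d.h G 0) (JD S d.R d.h G c) := by
  classical
  have := d.fin
  have hm : ∀ x : Pos w × P, ∃ m, SuppN S m x.2 ∧ ∀ k, x.1 k < m := by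
    intro x
    obtain ⟨n, hn⟩ := exists_suppN (S := S) x.2
    obtain ⟨n', hn'⟩ := exists_bound x.1
    exact ⟨max n n', hn.mono (le_max_left _ _), fun k => lt_of_lt_of_le (hn' k) (le_max_right _ _)⟩
  choose m hm1 hm2 using hm
  let G' : Set (Pos w × P) := ⋃ g ∈ G, (fun q : Pos (m g) × List ℕ =>
    ((g.1.trans (ext q.1), (q.2.map d.h).prod * S.act (ext q.1) g.2) : Pos w × P)) ''
      ({σ : Pos (m g) | ∀ i, σ i < m g + c} ×ˢ
        {l : List ℕ | l.length ≤ c ∧ ∀ i ∈ l, i < m g + c})
  have hG' : G'.Finite := hG.biUnion fun g _ => ((jc_fin_pos _ _).prod (jc_fin_list _ _)).image _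
  refine cover d.stab (isFam_JD d.stab d.act_h 0) G' hG' ?_ ?_
  · -- `JD c` is generated by `G'`
    intro φ
    refine le_trans ?_ (le_sup_right : gen S d.R G' φ ≤ JD S d.R d.h G 0 φ ⊔ gen S d.R G' φ)
    unfold JD
    rw [AddSubgroup.closure_le]
    rintro _ ⟨g, hg, τ, hτ, a, ha, rfl⟩
    show a * S.act τ g.2 ∈ gen S d.R G' φ
    unfold RD at ha
    induction ha using AddSubgroup.closure_induction with
    | zero => rw [zero_mul]; exact AddSubgroup.zero_mem _
    | add x y _ _ ihx ihy => rw [add_mul]; exact AddSubgroup.add_mem _ ihx ihy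
    | neg x _ ih => rw [neg_mul]; exact AddSubgroup.neg_mem _ ih
    | mem x hx =>
      obtain ⟨b, hb, l, hl, rfl⟩ := hx
      let U : Finset ℕ := (Finset.range (m g)).image τ ∪ l.toFinset
      have hU : U.card ≤ m g + c := by
        refine (Finset.card_union_le _ _).trans (add_le_add ?_ ?_)
        · exact Finset.card_image_le.trans (by simp)
        · exact (List.toFinset_card_le l).trans hl
      obtain ⟨ε, hε⟩ := exists_cover U (m g + c) hU
      have hinv : ∀ u : ℕ, ∃ i, u ∈ U → i < m g + c ∧ ε i = u := by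
        intro u
        by_cases hu : u ∈ U
        · obtain ⟨i, hi⟩ := hε u hu
          exact ⟨i, fun _ => hi⟩
        · exact ⟨0, fun h => absurd h hu⟩
      choose inv hinv using hinv
      have hτU : ∀ i, i < m g → τ i ∈ U := fun i hi =>
        Finset.mem_union_left _ (Finset.mem_image_of_mem _ (Finset.mem_range.mpr hi))
      have hlU : ∀ i ∈ l, i ∈ U := fun i hi =>
        Finset.mem_union_right _ (List.mem_toFinset.mpr hi)
      let σ : Pos (m g) := OrderEmbedding.ofStrictMono (fun i : Fin (m g) => inv (τ i)) (by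
        intro i j hij
        have h1 := hinv _ (hτU i i.2)
        have h2 := hinv _ (hτU j j.2)
        apply ε.lt_iff_lt.mp
        rw [h1.2, h2.2]
        exact τ.strictMono hij)
      have hσ : ∀ i, ∀ hi : i < m g, ε (ext σ i) = τ i := by
        intro i hi
        rw [ext_apply _ _ hi]
        exact (hinv _ (hτU i hi)).2
      have hmem : ((g.1.trans (ext σ), ((l.map inv).map d.h).prod *
          S.act (ext σ) g.2) : Pos w × P) ∈ G' := by
        simp only [G', Set.mem_iUnion]
        refine ⟨g, hg, (σ, l.map inv), ⟨?_, ?_, ?_⟩, rfl⟩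
        · intro i
          exact (hinv _ (hτU i i.2)).1
        · show (l.map inv).length ≤ c
          rw [List.length_map]
          exact hl
        · intro i hi
          obtain ⟨j, hj, rfl⟩ := List.mem_map.mp hi
          exact (hinv _ (hlU j hj)).1
      have h1 := mem_gen (S := S) (B := d.R) hmem ε b hb
      have h2 : (g.1.trans (ext σ)).trans ε = φ := by
        rw [← hτ]
        exact trans_ext_eq g.1 (hm2 g) ((ext σ).trans ε) τ (fun i hi => hσ i hi)
      have h3 : S.act ε (((l.map inv).map d.h).prod * S.act (ext σ) g.2) =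
          (l.map d.h).prod * S.act τ g.2 := by
        rw [map_mul, act_act, map_list_prod, List.map_map, List.map_map]
        congr 1
        · congr 1
          apply List.map_congr_left
          intro i hi
          simp only [Function.comp_apply]
          rw [d.act_h, (hinv _ (hlU i hi)).2]
        · exact hm1 g _ _ (fun i hi => hσ i hi)
      simp only at h1
      rw [h2, h3, ← mul_assoc] at h1
      exact h1
  · -- annihilators
    intro g' hg'
    simp only [G', Set.mem_iUnion] at hg'
    obtain ⟨g, hg, ⟨σ, l⟩, ⟨hσM, hl, hlM⟩, rfl⟩ := hg'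
    obtain ⟨n1, hn1⟩ := exists_suppN (S := S) ((l.map d.h).prod * S.act (ext σ) g.2)
    obtain ⟨n2, hn2⟩ := exists_bound (g.1.trans (ext σ))
    let n := max (max n1 n2) (m g + c)
    refine ⟨n, hn1.mono ((le_max_left _ _).trans (le_max_left _ _)),
      fun k => lt_of_lt_of_le (hn2 k) ((le_max_right _ _).trans (le_max_left _ _)),
      DD d.R d.V d.Δ c n, ?_, ?_, ?_⟩
    · intro ψ
      unfold DD
      rw [AddSubgroup.closure_le]
      rintro _ ⟨a, ha, p, hp, -, -, rfl⟩
      exact d.R.mul_mem ha (d.R.prod_mem fun k _ => d.Δ_mem _ (hp k))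
    · intro ψ a ha
      unfold DD at ha
      induction ha using AddSubgroup.closure_induction with
      | zero => rw [zero_mul]; exact AddSubgroup.zero_mem _
      | add x y _ _ ihx ihy => rw [add_mul]; exact AddSubgroup.add_mem _ ihx ihy
      | neg x _ ih => rw [neg_mul]; exact AddSubgroup.neg_mem _ ih
      | mem x hx =>
        obtain ⟨a, ha, p, hp, hpf, -, rfl⟩ := hx
        have hln : ∀ i ∈ l, i < n := fun i hi => lt_of_lt_of_le (hlM i hi) (le_max_right _ _)
        have h1 := jc_absorb d c p (l.map (ext ψ)) hp (by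
          intro k x j hj
          obtain ⟨i, hi, rfl⟩ := List.mem_map.mp hj
          rw [ext_apply _ _ (hln i hi)]
          exact hpf k x ⟨i, hln i hi⟩) (by rw [List.length_map]; exact hl)
        have h2 := d.R.mul_mem ha h1
        have h3 : a * (∏ k, d.Δ (p k)) * S.act (ext ψ) ((l.map d.h).prod * S.act (ext σ) g.2) =
            a * ((∏ k, d.Δ (p k)) * ((l.map (ext ψ)).map d.h).prod) *
              S.act ((ext σ).trans (ext ψ)) g.2 := by
          rw [map_mul, act_act, map_list_prod, List.map_map, List.map_map]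
          have : (l.map (S.act (ext ψ) ∘ d.h)).prod = (l.map (d.h ∘ (ext ψ))).prod := by
            congr 1
            apply List.map_congr_left
            intro i _
            simp only [Function.comp_apply]
            exact d.act_h _ _
          rw [this]
          ring
        rw [h3]
        unfold JD
        apply AddSubgroup.subset_closure
        exact ⟨g, hg, (ext σ).trans (ext ψ), rfl, _, mem_RD_of_mem h2, rfl⟩
    · have h1 := dq d.stab d.V d.Δ d.V_act d.Δ_mem d.Δ_act ⊥ (fun a _ x hx => by
        rw [AddSubgroup.mem_bot] at hx ⊢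
        rw [hx, mul_zero]) (fun τ x hx => by
        rw [AddSubgroup.mem_bot] at hx ⊢
        rw [hx, map_zero]) bot_le (fun w => h_four d h5 w) c n
      refine h1.mono ?_ le_rfl
      exact sup_le le_rfl (fun ψ => bot_le)

end MPf70651.Full
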