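import Pool.Agent.Lib_MP_f70651_al.Full.Mzero

/-!
# MP_f70651_al, full version : ladders
-/

namespace MPf70651.Full

open MPf70651 MvPolynomial

/-- Closed regions (ladders). -/
def Closed (row col : ℕ → ℕ) (L : Set {p : ℕ × ℕ // p.1 ≠ p.2}) : Prop :=
  ∀ p ∈ L, ∀ q ∈ L, row p.1.1 < row q.1.1 → col q.1.2 < col p.1.2 →
    (∃ h : p.1.1 ≠ q.1.2, (⟨(p.1.1, q.1.2), h⟩ : {p : ℕ × ℕ // p.1 ≠ p.2}) ∈ L) ∧
    ∃ h : q.1.1 ≠ p.1.2, (⟨(q.1.1, p.1.2), h⟩ : {p : ℕ × ℕ // p.1 ≠ p.2}) ∈ L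

/-- Monomials without strict anti-chains of length `k`. -/
def Good (row col : ℕ → ℕ) (k : ℕ) (m : {p : ℕ × ℕ // p.1 ≠ p.2} →₀ ℕ) : Prop :=
  ¬ ∃ s : Fin k → {p : ℕ × ℕ // p.1 ≠ p.2}, (∀ a, s a ∈ m.support) ∧
    (∀ a b, a < b → row (s a).1.1 < row (s b).1.1 ∧ col (s b).1.2 < col (s a).1.2)

end MPf70651.Full
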