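import Pool.Agent.Lib_MP_f70651_al.Full.Pull
import Pool.Agent.Lib_MP_f70651_al.Dehom
import Pool.Agent.Lib_MP_f70651_al.SitFacts

/-!
# MP_f70651_al, full version : Naa
-/

namespace MPf70651.Full

open MPf70651 MvPolynomial

/-- The situation with `A' = A`. -/
noncomputable def sitA (f : MvPolynomial (Fin 2) ℂ) : Sit PP where
  act := fun τ => (actP τ : PP →+* PP)
  act_id := (sit f).act_id
  act_comp := (sit f).act_comp
  supp := actP_supp
  A := (AA f).toSubring
  A' := (AA f).toSubring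
  A_le := le_rfl
  y := fun _ _ => 0
  act_y := fun τ _ _ => map_zero _
  y_mem := fun _ _ _ => Subring.zero_mem _
  y_mem' := fun _ _ => Subring.zero_mem _
  act_A := fun τ hτ a ha => actP_AA f τ hτ a ha
  act_A' := fun τ hτ a ha => actP_AA f τ hτ a ha

/-- The action of increasing maps on `PP`. -/
noncomputable def naaAct : IncAct PP where
  act := fun τ => (actP τ : PP →+* PP)
  act_refl := fun p => (sit 0).act_id p
  act_trans := fun τ σ p => (sit 0).act_comp σ τ p
  supp := fun p => by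
    obtain ⟨n, hn⟩ := actP_supp p
    exact ⟨n, fun σ τ h => hn σ τ h⟩

/-- The covering map. -/
noncomputable def naaTh (f : MvPolynomial (Fin 2) ℂ) :
    QQ (KK (SitF.rr f) Unit) →ₐ[ℂ] PP :=
  aeval (fun o : Option (ℕ × (KK (SitF.rr f) Unit)) => match o with
    | none => 0
    | some (i, Sum.inl (a, true)) => SitF.uu f i a
    | some (j, Sum.inl (a, false)) => SitF.vv f j a
    | some (_, Sum.inr _) => zz)

theorem naaTh_none (f : MvPolynomial (Fin 2) ℂ) : naaTh f (X none) = 0 := by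
  unfold naaTh
  rw [aeval_X]

theorem naaTh_true (f : MvPolynomial (Fin 2) ℂ) (i : ℕ) (a : Fin (SitF.rr f)) :
    naaTh f (X (some (i, Sum.inl (a, true)))) = SitF.uu f i a := by
  unfold naaTh
  rw [aeval_X]

theorem naaTh_false (f : MvPolynomial (Fin 2) ℂ) (j : ℕ) (a : Fin (SitF.rr f)) :
    naaTh f (X (some (j, Sum.inl (a, false)))) = SitF.vv f j a := by
  unfold naaTh
  rw [aeval_X]

theorem naaTh_inr (f : MvPolynomial (Fin 2) ℂ) (i : ℕ) (b : Unit) :
    naaTh f (X (some (i, Sum.inr b))) = zz := by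
  unfold naaTh
  rw [aeval_X]

theorem naaTh_MM (f : MvPolynomial (Fin 2) ℂ) (i j : ℕ) :
    naaTh f (MM (SitF.rr f) Unit i j) = YY f i j := by
  unfold MM
  rw [map_sum, SitF.YY_eq]
  refine Finset.sum_congr rfl fun a _ => ?_
  rw [map_mul, naaTh_true, naaTh_false]

theorem naaTh_TT (f : MvPolynomial (Fin 2) ℂ) (b : Unit) (i : ℕ) :
    naaTh f (TT (SitF.rr f) Unit b i) = zz := by
  unfold TT
  exact naaTh_inr f i b

theorem naaTh_act (f : MvPolynomial (Fin 2) ℂ) (τ : ℕ → ℕ) (q : QQ (KK (SitF.rr f) Unit)) :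
    naaTh f (rename (actV (KK (SitF.rr f) Unit) τ) q) = actP τ (naaTh f q) := by
  have h : (naaTh f).comp (rename (actV (KK (SitF.rr f) Unit) τ)) =
      (actP τ).comp (naaTh f) := by
    apply MvPolynomial.algHom_ext
    intro o
    rw [AlgHom.comp_apply, AlgHom.comp_apply, rename_X]
    match o with
    | none =>
      have h1 : actV (KK (SitF.rr f) Unit) τ none = none := rfl
      rw [h1, naaTh_none, map_zero]
    | some (i, Sum.inl (a, true)) =>
      have h1 : actV (KK (SitF.rr f) Unit) τ (some (i, Sum.inl (a, true))) =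
        some (τ i, Sum.inl (a, true)) := rfl
      rw [h1, naaTh_true, naaTh_true]
      unfold SitF.uu
      rw [map_mul, map_pow, actP_zz]
      unfold actP
      rw [rename_X]
      rfl
    | some (j, Sum.inl (a, false)) =>
      have h1 : actV (KK (SitF.rr f) Unit) τ (some (j, Sum.inl (a, false))) =
        some (τ j, Sum.inl (a, false)) := rfl
      rw [h1, naaTh_false, naaTh_false]
      unfold SitF.vv
      rw [map_mul, map_pow]
      unfold actP
      rw [rename_X, rename_C]
      rfl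
    | some (i, Sum.inr b) =>
      have h1 : actV (KK (SitF.rr f) Unit) τ (some (i, Sum.inr b)) =
        some (τ i, Sum.inr b) := rfl
      rw [h1, naaTh_inr, naaTh_inr, actP_zz]
  exact congrArg (fun g => g q) h

theorem naa_map_Rr (f : MvPolynomial (Fin 2) ℂ) :
    (Rr (SitF.rr f) Unit).map (naaTh f) = AA f := by
  unfold Rr
  rw [AlgHom.map_adjoin]
  apply le_antisymm
  · rw [Algebra.adjoin_le_iff]
    rintro _ ⟨q, hq, rfl⟩
    rcases hq with ((hq | ⟨i, j, hij, rfl⟩) | ⟨i, rfl⟩) | ⟨b, i, rfl⟩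
    · rw [Set.mem_singleton_iff] at hq
      subst hq
      show naaTh f (X none) ∈ AA f
      rw [naaTh_none]
      exact (AA f).zero_mem
    · show naaTh f (MM (SitF.rr f) Unit i j) ∈ AA f
      rw [naaTh_MM]
      exact Algebra.subset_adjoin (Or.inr ⟨i, j, hij, rfl⟩)
    · show naaTh f (X none * MM (SitF.rr f) Unit i i) ∈ AA f
      rw [map_mul, naaTh_none, zero_mul]
      exact (AA f).zero_mem
    · show naaTh f (TT (SitF.rr f) Unit b i) ∈ AA f
      rw [naaTh_TT]
      exact Algebra.subset_adjoin (Or.inl rfl)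
  · unfold AA
    rw [Algebra.adjoin_le_iff]
    rintro p (hp | ⟨i, j, hij, rfl⟩)
    · rw [Set.mem_singleton_iff] at hp
      subst hp
      apply Algebra.subset_adjoin
      exact ⟨TT (SitF.rr f) Unit () 0, Or.inr ⟨(), 0, rfl⟩, naaTh_TT f () 0⟩
    · apply Algebra.subset_adjoin
      exact ⟨MM (SitF.rr f) Unit i j, Or.inl (Or.inl (Or.inr ⟨i, j, hij, rfl⟩)),
        naaTh_MM f i j⟩

theorem noeth_AA (f : MvPolynomial (Fin 2) ℂ) (hR : ∀ ρ, RN ρ) (w : ℕ)
    (N : Pos w → AddSubgroup PP) (hN : MPf70651.IsFam (sitA f) (AA f).toSubring N) :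
    MPf70651.FG (sitA f) (AA f).toSubring ⊥ N := by
  have hpull : Noeth naaAct (AA f).toSubring (cst w ⊥)
      (cst w (AA f).toSubring.toAddSubgroup) := by
    refine pull (S1 := actQ (KK (SitF.rr f) Unit)) (B1 := (Rr (SitF.rr f) Unit).toSubring)
      (stab_Rr (SitF.rr f) Unit) (b1 := cst w ⊥)
      (fun _ => (naaTh f : QQ (KK (SitF.rr f) Unit) →+* PP)) ?_ ?_ ?_ ?_ ?_
      (hR (SitF.rr f) Unit w)
    · intro φ τ x _
      exact (naaTh_act f τ x).symm
    · intro φ x hx
      show naaTh f x ∈ AA f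
      rw [← naa_map_Rr]
      exact ⟨x, hx, rfl⟩
    · intro φ
      exact bot_le
    · intro φ x hx
      have hx0 : x = 0 := (AddSubgroup.mem_bot).1 hx
      rw [hx0, map_zero]
      exact AddSubgroup.zero_mem _
    · intro φ y hy
      have hy' : y ∈ AA f := hy
      rw [← naa_map_Rr] at hy'
      obtain ⟨x, hx, hxy⟩ := hy'
      refine ⟨x, hx, ?_⟩
      have h0 : y - (naaTh f : QQ (KK (SitF.rr f) Unit) →+* PP) x = 0 := by
        rw [← hxy]
        exact sub_self _
      rw [h0]
      exact AddSubgroup.zero_mem _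
  have hfam : IsFam naaAct (AA f).toSubring N :=
    ⟨fun φ a x ha hx => hN.smul φ a x ha hx, fun φ τ x hx => hN.act φ τ x hx⟩
  obtain ⟨G, hG, h1, h2⟩ := hpull N hfam (fun φ => bot_le) (fun φ x hx => hN.le φ x hx)
  exact ⟨G, hG, h1, h2⟩

end MPf70651.Full
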