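import Pool.Agent.Lib_MP_f70651_al.Full.Retr
import Pool.Agent.Lib_MP_f70651_al.Grob

/-!
# MP_f70651_al, full version : Nar
-/

namespace MPf70651.Full

open MPf70651 MvPolynomial

/-- Finite sets of elements of a family generating finitely many elements of the ideals. -/
theorem nar_gens {κ : Type} {w : ℕ} (N : Pos w → AddSubgroup (QQ κ)) (G : Set (Pos w × QQ κ))
    (hG : ∀ g ∈ G, g.2 ∈ Ideal.span ((N g.1 : Set (QQ κ)))) :
    ∃ T : Pos w × QQ κ → Finset (QQ κ), ∀ g ∈ G, (∀ t ∈ T g, t ∈ N g.1) ∧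
      g.2 ∈ Ideal.span (T g : Set (QQ κ)) := by
  have h : ∀ g : Pos w × QQ κ, ∃ T : Finset (QQ κ), g ∈ G → (∀ t ∈ T, t ∈ N g.1) ∧
      g.2 ∈ Ideal.span (T : Set (QQ κ)) := by
    intro g
    by_cases hg : g ∈ G
    · obtain ⟨T, hT1, hT2⟩ := Submodule.mem_span_finite_of_mem_span (hG g hg)
      exact ⟨T, fun _ => ⟨fun t ht => hT1 ht, hT2⟩⟩
    · exact ⟨∅, fun h => absurd h hg⟩
  choose T hT using h
  exact ⟨T, hT⟩

theorem na_Rp (k : ℕ) (β : Type) [Fintype β] (w : ℕ) :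
    Noeth (actQ (KK k β)) (Rp k β).toSubring (cst w ⊥)
      (cst w (Rp k β).toSubring.toAddSubgroup) := by
  intro N hN _ hND
  have hNR : ∀ φ, ∀ x ∈ N φ, x ∈ Rp k β := fun φ x hx => hND φ hx
  obtain ⟨π, hπ1, hπ2, hπ3⟩ := exists_retraction2 k β
  obtain ⟨G, hGf, hG1, hG2⟩ := noeth_QQ w (KK k β) (fun φ => Ideal.span ((N φ : Set (QQ (KK k β)))))
    (by
      intro φ τ p hp
      refine Submodule.span_induction (p := fun x _ => rename (actV (KK k β) τ) x ∈
        Ideal.span ((N (φ.trans τ) : Set (QQ (KK k β))))) ?_ ?_ ?_ ?_ hp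
      · intro x hx
        exact Ideal.subset_span (hN.act φ τ x hx)
      · rw [map_zero]; exact Ideal.zero_mem _
      · intro x y _ _ hx hy
        rw [map_add]; exact Ideal.add_mem _ hx hy
      · intro a x _ hx
        rw [smul_eq_mul, map_mul]; exact Ideal.mul_mem_left _ _ hx)
  obtain ⟨T, hT⟩ := nar_gens N G hG1
  set G' : Set (Pos w × QQ (KK k β)) := ⋃ g ∈ G, (fun t => (g.1, t)) '' (T g : Set (QQ (KK k β)))
    with hG'
  have hG'N : ∀ g ∈ G', g.2 ∈ N g.1 := by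
    intro x hx
    rw [hG', Set.mem_iUnion₂] at hx
    obtain ⟨g, hg, t, ht, rfl⟩ := hx
    exact (hT g hg).1 t ht
  refine ⟨G', hGf.biUnion fun g _ => (Finset.finite_toSet _).image _, hG'N, ?_⟩
  intro φ x hx
  apply AddSubgroup.mem_sup_right
  have hgen : IsFam (actQ (KK k β)) (Rp k β).toSubring
      (gen (actQ (KK k β)) (Rp k β).toSubring G') := isFam_gen (stab_Rp k β) G'
  -- elements of the ideal generated by the translates
  have key : ∀ z ∈ Ideal.span {q | ∃ g ∈ G', ∃ τ : ℕ ↪o ℕ, g.1.trans τ = φ ∧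
      q = (actQ (KK k β)).act τ g.2}, ∀ q : QQ (KK k β),
      π (q * z) ∈ gen (actQ (KK k β)) (Rp k β).toSubring G' φ := by
    intro z hz
    refine Submodule.span_induction (p := fun z _ => ∀ q : QQ (KK k β),
      π (q * z) ∈ gen (actQ (KK k β)) (Rp k β).toSubring G' φ) ?_ ?_ ?_ ?_ hz
    · rintro _ ⟨g, hg, τ, hτ, rfl⟩ q
      have h1 : (actQ (KK k β)).act τ g.2 ∈ Rp k β :=
        stab_Rp k β τ _ (hNR _ _ (hG'N g hg))
      rw [hπ2 q _ h1, ← hτ]
      exact mem_gen hg τ _ (hπ1 q)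
    · intro q
      rw [mul_zero, map_zero]
      exact AddSubgroup.zero_mem _
    · intro x y _ _ hx hy q
      rw [mul_add, map_add]
      exact AddSubgroup.add_mem _ (hx q) (hy q)
    · intro a x _ hx q
      rw [smul_eq_mul, ← mul_assoc]
      exact hx (q * a)
  have hle : Ideal.span {q | ∃ g ∈ G, ∃ τ : ℕ ↪o ℕ, g.1.trans τ = φ ∧
      q = rename (actV (KK k β) τ) g.2} ≤
      Ideal.span {q | ∃ g ∈ G', ∃ τ : ℕ ↪o ℕ, g.1.trans τ = φ ∧
        q = (actQ (KK k β)).act τ g.2} := by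
    rw [Ideal.span_le]
    rintro _ ⟨g, hg, τ, hτ, rfl⟩
    have h2 : g.2 ∈ Ideal.span (T g : Set (QQ (KK k β))) := (hT g hg).2
    refine Submodule.span_induction (p := fun y _ => rename (actV (KK k β) τ) y ∈
      Ideal.span {q | ∃ g ∈ G', ∃ τ : ℕ ↪o ℕ, g.1.trans τ = φ ∧
        q = (actQ (KK k β)).act τ g.2}) ?_ ?_ ?_ ?_ h2
    · intro t ht
      refine Ideal.subset_span ⟨(g.1, t), ?_, τ, hτ, rfl⟩
      rw [hG', Set.mem_iUnion₂]
      exact ⟨g, hg, t, ht, rfl⟩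
    · rw [map_zero]; exact Ideal.zero_mem _
    · intro x y _ _ hx hy
      rw [map_add]; exact Ideal.add_mem _ hx hy
    · intro a x _ hx
      rw [smul_eq_mul, map_mul]; exact Ideal.mul_mem_left _ _ hx
  have h3 := key x (hle (hG2 φ (Ideal.subset_span hx))) 1
  rw [one_mul, hπ3 x (hNR φ x hx)] at h3
  exact h3

end MPf70651.Full
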