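import Pool.Agent.Lib_MP_f70651_al.Full.Pull

/-!
# MP_f70651_al, full version : Pfresh
-/

namespace MPf70651.Full

open MPf70651 MvPolynomial

open Classical in
/-- The values of the variables under `pfTh`. -/
noncomputable def pfVal (β : Type) {w : ℕ} (φ : Pos w) : IF (β ⊕ (Fin w × Bool)) → FF β := fun v =>
  match v with
  | none => X none
  | some (Sum.inl p) => if (∃ k, φ k = p.1.1) ∨ (∃ k, φ k = p.1.2) then 0 else X (some (Sum.inl p))
  | some (Sum.inr (i, Sum.inl b)) => X (some (Sum.inr (i, b)))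
  | some (Sum.inr (i, Sum.inr (k, true))) => yF β (φ k) i
  | some (Sum.inr (i, Sum.inr (k, false))) => yF β i (φ k)

/-- The substitution for the mark `φ`. -/
noncomputable def pfTh (β : Type) {w : ℕ} (φ : Pos w) : FF (β ⊕ (Fin w × Bool)) →ₐ[ℂ] FF β :=
  aeval (pfVal β φ)

theorem pfTh_yF (β : Type) {w : ℕ} (φ : Pos w) (i j : ℕ) (hi : ∀ k, φ k ≠ i)
    (hj : ∀ k, φ k ≠ j) : pfTh β φ (yF _ i j) = yF β i j := by
  unfold yF
  by_cases h : i = j
  · subst h
    simp
  · rw [dif_pos h, dif_pos h]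
    unfold pfTh
    rw [aeval_X]
    unfold pfVal
    dsimp only
    rw [if_neg]
    rintro (⟨k, hk⟩ | ⟨k, hk⟩)
    · exact hi k hk
    · exact hj k hk

theorem pfTh_yF_zero (β : Type) {w : ℕ} (φ : Pos w) (i j : ℕ)
    (h1 : (∃ k, φ k = i) ∨ (∃ k, φ k = j)) : pfTh β φ (yF _ i j) = 0 := by
  unfold yF
  by_cases h : i = j
  · subst h
    simp
  · rw [dif_pos h]
    unfold pfTh
    rw [aeval_X]
    unfold pfVal
    dsimp only
    rw [if_pos h1]

theorem pfTh_act (β : Type) {w : ℕ} (φ : Pos w) (τ : ℕ ↪o ℕ) (x : FF (β ⊕ (Fin w × Bool))) :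
    (actF β).act τ (pfTh β φ x) = pfTh β (φ.trans τ) ((actF _).act τ x) := by
  have h : ((rename (actI β τ) : FF β →ₐ[ℂ] FF β).comp (pfTh β φ)) =
      (pfTh β (φ.trans τ)).comp (rename (actI _ τ) : FF (β ⊕ (Fin w × Bool)) →ₐ[ℂ] _) := by
    apply MvPolynomial.algHom_ext
    intro o
    rw [AlgHom.comp_apply, AlgHom.comp_apply, rename_X]
    unfold pfTh
    rw [aeval_X, aeval_X]
    rcases o with _ | (⟨⟨i, j⟩, hp⟩ | ⟨i, b | ⟨k, _ | _⟩⟩)
    · show rename (actI β τ) (X none) = X none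
      rw [rename_X]
      rfl
    · show rename (actI β τ) (if (∃ k, φ k = i) ∨ (∃ k, φ k = j) then 0 else _) =
        if (∃ k, (φ.trans τ) k = τ i) ∨ (∃ k, (φ.trans τ) k = τ j) then 0 else _
      have e : ((∃ k, (φ.trans τ) k = τ i) ∨ (∃ k, (φ.trans τ) k = τ j)) ↔
          ((∃ k, φ k = i) ∨ (∃ k, φ k = j)) := by
        constructor
        · rintro (⟨k, hk⟩ | ⟨k, hk⟩)
          · exact Or.inl ⟨k, τ.injective hk⟩
          · exact Or.inr ⟨k, τ.injective hk⟩
        · rintro (⟨k, hk⟩ | ⟨k, hk⟩)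
          · exact Or.inl ⟨k, congrArg τ hk⟩
          · exact Or.inr ⟨k, congrArg τ hk⟩
      by_cases hc : (∃ k, φ k = i) ∨ (∃ k, φ k = j)
      · rw [if_pos hc, if_pos (e.mpr hc), map_zero]
      · rw [if_neg hc, if_neg (fun h => hc (e.mp h)), rename_X]
        rfl
    · show rename (actI β τ) (X (some (Sum.inr (i, b)))) = X (some (Sum.inr (τ i, b)))
      rw [rename_X]
      rfl
    · exact actF_yF β τ i (φ k)
    · exact actF_yF β τ (φ k) i
  exact congrArg (fun g => g x) h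

theorem pfTh_surj (β : Type) {w : ℕ} (φ : Pos w) : Function.Surjective (pfTh β φ) := by
  rw [← AlgHom.range_eq_top, eq_top_iff, ← MvPolynomial.adjoin_range_X, Algebra.adjoin_le_iff]
  rintro _ ⟨o, rfl⟩
  rcases o with _ | (⟨⟨i, j⟩, hp⟩ | ⟨i, b⟩)
  · refine ⟨X none, ?_⟩
    unfold pfTh
    exact aeval_X _ _
  · by_cases h1 : ∃ k, φ k = i
    · obtain ⟨k, rfl⟩ := h1
      refine ⟨X (some (Sum.inr (j, Sum.inr (k, true)))), ?_⟩
      unfold pfTh
      refine (aeval_X _ _).trans ?_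
      show yF β (φ k) j = _
      unfold yF
      rw [dif_pos hp]
    · by_cases h2 : ∃ k, φ k = j
      · obtain ⟨k, rfl⟩ := h2
        refine ⟨X (some (Sum.inr (i, Sum.inr (k, false)))), ?_⟩
        unfold pfTh
        refine (aeval_X _ _).trans ?_
        show yF β i (φ k) = _
        unfold yF
        rw [dif_pos hp]
      · refine ⟨X (some (Sum.inl ⟨(i, j), hp⟩)), ?_⟩
        unfold pfTh
        refine (aeval_X _ _).trans ?_
        unfold pfVal
        dsimp only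
        rw [if_neg]
        rintro (h | h)
        · exact h1 h
        · exact h2 h
  · refine ⟨X (some (Sum.inr (i, Sum.inl b))), ?_⟩
    unfold pfTh
    exact aeval_X _ _

theorem pfTh_II (ρ : ℕ) (β : Type) {w : ℕ} (φ : Pos w) (x : FF (β ⊕ (Fin w × Bool)))
    (hx : x ∈ II (β ⊕ (Fin w × Bool)) (ρ + 1)) :
    pfTh β φ x ∈ DD (⊤ : Subring (FF β)) (Vld (ρ + 1)) (minor (ρ + 1) (yF β)) 1 w φ := by
  have hfam : IsFam (actF β) (⊤ : Subring (FF β))
      (DD (⊤ : Subring (FF β)) (Vld (ρ + 1)) (minor (ρ + 1) (yF β)) 1 w) :=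
    isFam_DD (S := actF β) stab_top (fun τ p => Vld_act (ρ + 1) τ p)
      (fun τ p => actF_minor β (ρ + 1) τ p) 1 w
  unfold II at hx
  refine Submodule.span_induction (p := fun x _ => pfTh β φ x ∈
    DD (⊤ : Subring (FF β)) (Vld (ρ + 1)) (minor (ρ + 1) (yF β)) 1 w φ) ?_ ?_ ?_ ?_ hx
  · rintro _ ⟨p, hp, rfl⟩
    have hm : pfTh β φ (minor (ρ + 1) (yF _) p) =
        minor (ρ + 1) (fun i j => pfTh β φ (yF _ i j)) p :=
      minor_map ((pfTh β φ : _ →ₐ[ℂ] _) : FF (β ⊕ (Fin w × Bool)) →+* FF β) (ρ + 1) (yF _) p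
    rw [hm]
    by_cases h1 : ∃ z k, φ k = p z
    · obtain ⟨z, k, hk⟩ := h1
      have : minor (ρ + 1) (fun i j => pfTh β φ (yF _ i j)) p = 0 := by
        unfold minor
        rcases z with a | b
        · apply Matrix.det_eq_zero_of_row_eq_zero a
          intro j
          exact pfTh_yF_zero β φ _ _ (Or.inl ⟨k, hk⟩)
        · apply Matrix.det_eq_zero_of_column_eq_zero b
          intro j
          exact pfTh_yF_zero β φ _ _ (Or.inr ⟨k, hk⟩)
      rw [this]
      exact AddSubgroup.zero_mem _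
    · have h2 : ∀ z k, φ k ≠ p z := fun z k h => h1 ⟨z, k, h⟩
      have : minor (ρ + 1) (fun i j => pfTh β φ (yF _ i j)) p = minor (ρ + 1) (yF β) p := by
        unfold minor
        congr 1
        ext a b
        exact congrArg _ (pfTh_yF β φ _ _ (h2 _) (h2 _))
      rw [this]
      unfold DD
      apply AddSubgroup.subset_closure
      refine ⟨1, Subring.mem_top _, fun _ => p, fun _ => hp, fun _ z k h => h2 z k h.symm,
        fun l l' h => absurd (Subsingleton.elim l l') h, ?_⟩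
      simp
  · rw [map_zero]; exact AddSubgroup.zero_mem _
  · intro x y _ _ hx hy
    rw [map_add]; exact AddSubgroup.add_mem _ hx hy
  · intro a x _ hx
    rw [smul_eq_mul, map_mul]
    exact hfam.smul φ _ _ (Subring.mem_top _) hx

theorem noeth_fresh (ρ : ℕ) (hP : PN ρ) (β : Type) [Fintype β] (w : ℕ) :
    Noeth (actF β) ⊤ (DD (⊤ : Subring (FF β)) (Vld (ρ + 1)) (minor (ρ + 1) (yF β)) 1 w ⊔
      cst w (II β (ρ + 2)).toAddSubgroup) (cst w (⊤ : Subring (FF β)).toAddSubgroup) := by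
  have h1 := hP (β ⊕ (Fin w × Bool)) w
  refine pull (S1 := actF (β ⊕ (Fin w × Bool))) (B1 := ⊤) stab_top
    (b1 := cst w (II (β ⊕ (Fin w × Bool)) (ρ + 1)).toAddSubgroup)
    (fun φ => ((pfTh β φ : _ →ₐ[ℂ] _) : FF (β ⊕ (Fin w × Bool)) →+* FF β)) ?_ ?_ ?_ ?_ ?_ h1
  · intro φ τ x _
    exact pfTh_act β φ τ x
  · intro _ _ _
    exact Subring.mem_top _
  · intro _ x _
    exact Subring.mem_top _
  · intro φ x hx
    exact AddSubgroup.mem_sup_left (pfTh_II ρ β φ x hx)
  · intro φ y _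
    obtain ⟨x, rfl⟩ := pfTh_surj β φ y
    refine ⟨x, Subring.mem_top _, ?_⟩
    show pfTh β φ x - pfTh β φ x ∈ _
    rw [sub_self]
    exact AddSubgroup.zero_mem _

end MPf70651.Full
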