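import Pool.Agent.Lib_MP_f70651_al.Four
import Pool.Agent.Lib_MP_f70651_al.Full.Covb
import Pool.Agent.Lib_MP_f70651_al.Full.Dq
import Pool.Agent.Lib_MP_f70651_al.Full.Annf
import Pool.Agent.Lib_MP_f70651_al.Full.Pfresh
import Pool.Agent.Lib_MP_f70651_al.Full.Grad
import Pool.Agent.Lib_MP_f70651_al.Full.Pure

/-!
# MP_f70651_al, full version : Pker
-/

namespace MPf70651.Full

open MPf70651 MvPolynomial

/-- Support bound in `F` through the variables. -/
theorem pk_suppN (β : Type) (x : FF β) (n : ℕ) (h : ∀ v ∈ x.vars, bdI v ≤ n) :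
    SuppN (actF β) n x := by
  intro σ τ hst
  have hh : ((rename (actI β σ) : FF β →ₐ[ℂ] FF β) : FF β →+* FF β) x =
      ((rename (actI β τ) : FF β →ₐ[ℂ] FF β) : FF β →+* FF β) x := by
    apply MvPolynomial.hom_congr_vars
    · ext c
      simp
    · intro v hv _
      have h2 : actI β σ v = actI β τ v :=
        actI_congr v (fun i hi => hst i (lt_of_lt_of_le hi (h v hv)))
      simp [h2]
    · rfl
  exact hh

/-- The inclusion `inc0` is equivariant. -/
theorem pk_inc0_act (β : Type) (τ : ℕ ↪o ℕ) (g : MvPolynomial (Idx Off) ℂ) :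
    inc0 β (rename (actX Off τ) g) = (actF β).act τ (inc0 β g) := by
  show rename _ (rename (actX Off τ) g) = rename (actI β τ) (rename _ g)
  rw [rename_rename, rename_rename]
  congr 1
  congr 1
  funext o
  rcases o with _ | p <;> rfl

theorem pk_PhiF_inc0 (ρ : ℕ) (β : Type) (g : MvPolynomial (Idx Off) ℂ) (hg : Phi0 ρ g = 0) :
    PhiF ρ β (inc0 β g) = 0 := by
  have h : (PhiF ρ β).comp (inc0 β) =
      (rename (Option.map (Prod.map id (Sum.map id (Empty.elim : Empty → β)))) :
        QQ (KK ρ Empty) →ₐ[ℂ] QQ (KK ρ β)).comp (Phi0 ρ) := by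
    apply MvPolynomial.algHom_ext
    intro o
    rw [AlgHom.comp_apply, AlgHom.comp_apply]
    unfold inc0 PhiF Phi0
    rw [rename_X, aeval_X, aeval_X]
    rcases o with _ | p
    · show X none = rename _ (X none)
      rw [rename_X]
      rfl
    · show MM ρ β p.1.1 p.1.2 = rename _ (MM ρ Empty p.1.1 p.1.2)
      unfold MM
      rw [map_sum]
      apply Finset.sum_congr rfl
      intro a _
      rw [map_mul, rename_X, rename_X]
      rfl
  have h2 := congrArg (fun f => f g) h
  simp only [AlgHom.comp_apply] at h2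
  rw [h2, hg, map_zero]

theorem pk_Phi0_rename (ρ : ℕ) (κ : RR) :
    Phi0 ρ (rename (fun p : {p : ℕ × ℕ // p.1 ≠ p.2} => (some p : Idx Off)) κ) = PhiR ρ κ := by
  unfold Phi0 PhiR
  rw [aeval_rename]
  rfl

theorem pk_inc0_rename (β : Type) (κ : RR) :
    inc0 β (rename (fun p : {p : ℕ × ℕ // p.1 ≠ p.2} => (some p : Idx Off)) κ) = incR β κ := by
  unfold inc0 incR
  rw [rename_rename]
  rfl

theorem noeth_kernel (ρ : ℕ) (hR : RN (ρ + 1)) (hP : PN ρ) (β : Type) [Fintype β] (w : ℕ) :
    Noeth (actF β) ⊤ (cst w (II β (ρ + 2)).toAddSubgroup)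
      (cst w (RingHom.ker (PhiF (ρ + 1) β)).toAddSubgroup) := by
  classical
  obtain ⟨G0, hG0, hG1, hG2⟩ := ker_fg (ρ + 1) hR
  -- bounds of supports
  have hm : ∀ g : MvPolynomial (Idx Off) ℂ, ∃ m, SuppN (actF β) m (inc0 β g) :=
    fun g => exists_suppN _
  choose m hm using hm
  let G : Set (Pos w × FF β) := ⋃ g ∈ G0, (fun q : Pos w × Pos (m g) =>
    ((q.1, (actF β).act (ext q.2) (inc0 β g)) : Pos w × FF β)) ''
      ({φ : Pos w | ∀ i, φ i < w + m g} ×ˢ {σ : Pos (m g) | ∀ i, σ i < w + m g})
  have hGfin : G.Finite := hG0.biUnion fun g _ =>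
    ((four_fin_pos _ _).prod (four_fin_pos _ _)).image _
  have hGmem : ∀ x ∈ G, ∃ g ∈ G0, ∃ s : Pos (m g), x.2 = (actF β).act (ext s) (inc0 β g) := by
    intro x hx
    simp only [G, Set.mem_iUnion] at hx
    obtain ⟨g, hg, ⟨φ, σ⟩, _, rfl⟩ := hx
    exact ⟨g, hg, σ, rfl⟩
  -- isFam
  have hbF : IsFam (actF β) ⊤ (cst w (II β (ρ + 2)).toAddSubgroup) := by
    apply isFam_cst
    · intro a _ x hx
      exact Ideal.mul_mem_left _ a hx
    · intro τ x hx
      exact II_act β _ τ x hx
  have hgF : IsFam (actF β) ⊤ (gen (actF β) ⊤ G) := isFam_gen stab_top G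
  refine cover (S := actF β) (B := ⊤) stab_top hbF G hGfin ?_ ?_
  · -- the kernel is generated by `G`
    intro φ x hx
    refine AddSubgroup.mem_sup_right ?_
    have hker : PhiF (ρ + 1) β x = 0 := hx
    -- translates of the generators
    have hgen : ∀ g ∈ G0, ∀ τ : ℕ ↪o ℕ,
        (actF β).act τ (inc0 β g) ∈ gen (actF β) ⊤ G φ := by
      intro g hg τ
      let U : Finset ℕ := (Finset.univ.image φ) ∪ (Finset.range (m g)).image τ
      have hU : U.card ≤ w + m g := by
        refine (Finset.card_union_le _ _).trans (add_le_add ?_ ?_)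
        · exact Finset.card_image_le.trans (by simp)
        · exact Finset.card_image_le.trans (by simp)
      obtain ⟨ε, hε⟩ := exists_cover U (w + m g) hU
      have hinv : ∀ u : ℕ, ∃ i, u ∈ U → i < w + m g ∧ ε i = u := by
        intro u
        by_cases hu : u ∈ U
        · obtain ⟨i, hi⟩ := hε u hu
          exact ⟨i, fun _ => hi⟩
        · exact ⟨0, fun h => absurd h hu⟩
      choose inv hinv using hinv
      have hτU : ∀ i, i < m g → τ i ∈ U := fun i hi =>
        Finset.mem_union_right _ (Finset.mem_image_of_mem _ (Finset.mem_range.mpr hi))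
      have hφU : ∀ i, φ i ∈ U := fun i =>
        Finset.mem_union_left _ (Finset.mem_image_of_mem _ (Finset.mem_univ i))
      let σ : Pos (m g) := OrderEmbedding.ofStrictMono (fun i : Fin (m g) => inv (τ i)) (by
        intro i j hij
        have h1 := hinv _ (hτU i i.2)
        have h2 := hinv _ (hτU j j.2)
        apply ε.lt_iff_lt.mp
        rw [h1.2, h2.2]
        exact τ.strictMono hij)
      let φ0 : Pos w := OrderEmbedding.ofStrictMono (fun i : Fin w => inv (φ i)) (by
        intro i j hij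
        have h1 := hinv _ (hφU i)
        have h2 := hinv _ (hφU j)
        apply ε.lt_iff_lt.mp
        rw [h1.2, h2.2]
        exact φ.strictMono hij)
      have hmem : ((φ0, (actF β).act (ext σ) (inc0 β g)) : Pos w × FF β) ∈ G := by
        simp only [G, Set.mem_iUnion]
        refine ⟨g, hg, (φ0, σ), ⟨?_, ?_⟩, rfl⟩
        · intro i
          exact (hinv _ (hφU i)).1
        · intro i
          exact (hinv _ (hτU i i.2)).1
      have h1 := mem_gen (S := actF β) (B := ⊤) hmem ε 1 (Subring.mem_top _)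
      have h2 : φ0.trans ε = φ := by
        ext i
        exact (hinv _ (hφU i)).2
      have h3 : (actF β).act ε ((actF β).act (ext σ) (inc0 β g)) =
          (actF β).act τ (inc0 β g) := by
        rw [act_act]
        apply hm g
        intro i hi
        show ε (ext σ i) = τ i
        rw [ext_apply _ _ hi]
        exact (hinv _ (hτU i hi)).2
      simp only at h1
      rw [h2, h3, one_mul] at h1
      exact h1
    -- pure elements
    have hpure : ∀ κ : RR, PhiR (ρ + 1) κ = 0 → incR β κ ∈ gen (actF β) ⊤ G φ := by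
      intro κ hκ
      rw [← pk_inc0_rename]
      have h1 := hG2 _ ((pk_Phi0_rename (ρ + 1) κ).trans hκ)
      unfold trI at h1
      refine Submodule.span_induction
        (p := fun y _ => inc0 β y ∈ gen (actF β) ⊤ G φ) ?_ ?_ ?_ ?_ h1
      · rintro _ ⟨g, hg, τ, rfl⟩
        rw [pk_inc0_act]
        exact hgen g hg τ
      · rw [map_zero]; exact AddSubgroup.zero_mem _
      · intro a b _ _ ha hb
        rw [map_add]; exact AddSubgroup.add_mem _ ha hb
      · intro a b _ hb
        rw [smul_eq_mul, map_mul]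
        exact hgF.smul φ _ _ (Subring.mem_top _) hb
    refine Submodule.span_induction
      (p := fun y _ => y ∈ gen (actF β) ⊤ G φ) ?_ ?_ ?_ ?_ (pure_decomp (ρ + 1) β x hker)
    · rintro _ ⟨κ, hκ, _, _, rfl⟩
      exact hpure κ hκ
    · exact AddSubgroup.zero_mem _
    · intro a b _ _ ha hb
      exact AddSubgroup.add_mem _ ha hb
    · intro a b _ hb
      rw [smul_eq_mul]
      exact hgF.smul φ _ _ (Subring.mem_top _) hb
  · -- annihilators
    intro x hx
    obtain ⟨g, hg, s, hs⟩ := hGmem x hx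
    have hker : PhiF (ρ + 1) β x.2 = 0 := by
      rw [hs, ← PhiF_act, pk_PhiF_inc0 (ρ + 1) β g (hG1 g hg), map_zero]
    obtain ⟨n', hn'⟩ := exists_bound x.1
    set n := max (x.2.vars.sup bdI) n' with hn
    have hvars : ∀ v ∈ x.2.vars, bdI v ≤ n := fun v hv =>
      (Finset.le_sup (f := bdI) hv).trans (le_max_left _ _)
    refine ⟨n, pk_suppN β x.2 n hvars, fun k => lt_of_lt_of_le (hn' k) (le_max_right _ _),
      DD (⊤ : Subring (FF β)) (Vld (ρ + 1)) (minor (ρ + 1) (yF β)) x.2.totalDegree n ⊔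
        cst n (II β (ρ + 2)).toAddSubgroup, ?_, ?_, ?_⟩
    · intro ψ a _
      exact Subring.mem_top _
    · intro ψ a ha
      show a * (actF β).act (ext ψ) x.2 ∈ II β (ρ + 2)
      obtain ⟨b, hb, c, hc, rfl⟩ := AddSubgroup.mem_sup.mp ha
      rw [add_mul]
      refine Ideal.add_mem _ ?_ (Ideal.mul_mem_right _ _ hc)
      have hb2 : b ∈ DD (⊤ : Subring (FF β)) (Vld (ρ + 1)) (minor (ρ + 1) (yF β))
        x.2.totalDegree n ψ := hb
      clear ha hb
      unfold DD at hb2
      induction hb2 using AddSubgroup.closure_induction with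
      | mem y hy =>
        obtain ⟨c, _, p, h1, h2, h3, rfl⟩ := hy
        rw [mul_assoc]
        exact Ideal.mul_mem_left _ _
          (ann_F (ρ + 1) β x.2.totalDegree n x.2 hker le_rfl hvars ψ p h1 h2 h3)
      | zero => rw [zero_mul]; exact Ideal.zero_mem _
      | add y z _ _ hy hz => rw [add_mul]; exact Ideal.add_mem _ hy hz
      | neg y _ hy => rw [neg_mul]; exact neg_mem hy
    · exact dq stab_top (Vld (ρ + 1)) (minor (ρ + 1) (yF β)) (Vld_act (ρ + 1))
        (fun p _ => Subring.mem_top _) (actF_minor β (ρ + 1)) (II β (ρ + 2)).toAddSubgroup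
        (fun a _ x hx => Ideal.mul_mem_left _ a hx) (fun τ x hx => II_act β _ τ x hx)
        (fun x _ => Subring.mem_top _) (fun w => noeth_fresh ρ hP β w) _ n

end MPf70651.Full
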