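import Pool.Agent.Lib_MP_f70651_al.Full.Rdata
import Pool.Agent.Lib_MP_f70651_al.Full.Chart

/-!
# MP_f70651_al, full version : Theta
-/

namespace MPf70651.Full

open MPf70651 MvPolynomial

section

variable (ρ : ℕ) (β : Type)

/-- The field of fractions. -/
abbrev ThL : Type := FractionRing (QQ (KK (ρ + 1) β))

/-- The inclusion in the field of fractions. -/
noncomputable def thI : QQ (KK (ρ + 1) β) →+* ThL ρ β := algebraMap _ _

theorem thI_inj : Function.Injective (thI ρ β) := IsFractionRing.injective _ _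

theorem MM_last_ne (ρ : ℕ) (β : Type) (i j : ℕ) : MM (ρ + 1) β i j ≠ 0 := by
  intro h
  have h1 := congrArg (MvPolynomial.eval (fun _ => (1 : ℂ))) h
  rw [MM, map_sum, map_zero] at h1
  have h2 : ∀ a : Fin (ρ + 1), MvPolynomial.eval (fun _ => (1 : ℂ))
      ((X (some (i, Sum.inl (a, true))) : QQ (KK (ρ + 1) β)) *
        X (some (j, Sum.inl (a, false)))) = 1 := by
    intro a
    rw [map_mul, eval_X, eval_X, mul_one]
  rw [Finset.sum_congr rfl (fun a _ => h2 a)] at h1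
  simp only [Finset.sum_const, Finset.card_univ, Fintype.card_fin, nsmul_eq_mul, mul_one] at h1
  have h3 : ((ρ + 1 : ℕ) : ℂ) = 0 := h1
  rw [Nat.cast_eq_zero] at h3
  omega

/-- The values of the variables. -/
noncomputable def thV (i : ℕ) : Option (ℕ × KK ρ (β ⊕ Fin 3)) → ThL ρ β := fun o => match o with
  | none => (thI ρ β (MM (ρ + 1) β i i))⁻¹
  | some (j, Sum.inl (a, true)) => thI ρ β (X (some (j, Sum.inl (a.castSucc, true)))) -
      thI ρ β (MM (ρ + 1) β j i) * thI ρ β (X (some (i, Sum.inl (a.castSucc, true)))) *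
        (thI ρ β (MM (ρ + 1) β i i))⁻¹
  | some (j, Sum.inl (a, false)) => thI ρ β (X (some (j, Sum.inl (a.castSucc, false)))) -
      thI ρ β (X (some (i, Sum.inl (a.castSucc, false)))) *
        thI ρ β (X (some (j, Sum.inl (Fin.last ρ, false)))) *
        (thI ρ β (X (some (i, Sum.inl (Fin.last ρ, false)))))⁻¹
  | some (j, Sum.inr (Sum.inl b)) => thI ρ β (TT (ρ + 1) β b j)
  | some (j, Sum.inr (Sum.inr b)) =>
      if b = 0 then (if j = i then 0 else thI ρ β (MM (ρ + 1) β i j))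
      else if b = 1 then (if j = i then 0 else thI ρ β (MM (ρ + 1) β j i))
      else thI ρ β (X none * MM (ρ + 1) β i i)

/-- The chart map. -/
noncomputable def thM (i : ℕ) : QQ (KK ρ (β ⊕ Fin 3)) →ₐ[ℂ] ThL ρ β := aeval (thV ρ β i)

theorem thM_X (i : ℕ) : thM ρ β i (X none) = (thI ρ β (MM (ρ + 1) β i i))⁻¹ := by
  unfold thM
  rw [aeval_X]
  rfl

theorem thM_T (i j : ℕ) (b : β) : thM ρ β i (TT ρ (β ⊕ Fin 3) (Sum.inl b) j) =
    thI ρ β (TT (ρ + 1) β b j) := by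
  unfold thM TT
  rw [aeval_X]
  rfl

theorem thM_T0 {i j : ℕ} (h : j ≠ i) : thM ρ β i (TT ρ (β ⊕ Fin 3) (Sum.inr 0) j) =
    thI ρ β (MM (ρ + 1) β i j) := by
  unfold thM TT
  rw [aeval_X]
  simp only [thV, if_pos, if_neg h]

theorem thM_T0' (i : ℕ) : thM ρ β i (TT ρ (β ⊕ Fin 3) (Sum.inr 0) i) = 0 := by
  unfold thM TT
  rw [aeval_X]
  simp only [thV, if_pos]

theorem thM_T1 {i j : ℕ} (h : j ≠ i) : thM ρ β i (TT ρ (β ⊕ Fin 3) (Sum.inr 1) j) =
    thI ρ β (MM (ρ + 1) β j i) := by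
  unfold thM TT
  rw [aeval_X]
  simp only [thV, if_neg h]
  rfl

theorem thM_T1' (i : ℕ) : thM ρ β i (TT ρ (β ⊕ Fin 3) (Sum.inr 1) i) = 0 := by
  unfold thM TT
  rw [aeval_X]
  simp [thV]

theorem thM_T2 (i j : ℕ) : thM ρ β i (TT ρ (β ⊕ Fin 3) (Sum.inr 2) j) =
    thI ρ β (X none * MM (ρ + 1) β i i) := by
  unfold thM TT
  rw [aeval_X]
  rfl

/-- The Schur complement. -/
theorem thM_MM (i j k : ℕ) : thM ρ β i (MM ρ (β ⊕ Fin 3) j k) =
    thI ρ β (MM (ρ + 1) β j k) - thI ρ β (MM (ρ + 1) β j i) * thI ρ β (MM (ρ + 1) β i k) *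
      (thI ρ β (MM (ρ + 1) β i i))⁻¹ := by
  have h0 : thI ρ β (MM (ρ + 1) β i i) ≠ 0 := by
    rw [Ne, map_eq_zero_iff _ (thI_inj ρ β)]
    exact MM_last_ne ρ β i i
  have h1 : thI ρ β (X (some (i, Sum.inl (Fin.last ρ, false)))) ≠ 0 := by
    rw [Ne, map_eq_zero_iff _ (thI_inj ρ β)]
    exact X_ne_zero _
  have hM : ∀ j k, thI ρ β (MM (ρ + 1) β j k) = ∑ a : Fin (ρ + 1),
      thI ρ β (X (some (j, Sum.inl (a, true)))) * thI ρ β (X (some (k, Sum.inl (a, false)))) := by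
    intro j k
    rw [MM, map_sum]
    exact Finset.sum_congr rfl fun a _ => map_mul _ _ _
  obtain ⟨u, hu⟩ : ∃ u : ℕ → Fin (ρ + 1) → ThL ρ β,
    u = fun j a => thI ρ β (X (some (j, Sum.inl (a, true)))) := ⟨_, rfl⟩
  obtain ⟨v, hv⟩ : ∃ v : ℕ → Fin (ρ + 1) → ThL ρ β,
    v = fun j a => thI ρ β (X (some (j, Sum.inl (a, false)))) := ⟨_, rfl⟩
  obtain ⟨h, hh⟩ : ∃ h : ThL ρ β, h = thI ρ β (MM (ρ + 1) β i i) := ⟨_, rfl⟩
  have hM' : ∀ j k, thI ρ β (MM (ρ + 1) β j k) = ∑ a : Fin (ρ + 1), u j a * v k a := by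
    intro j k
    rw [hM, hu, hv]
  have hL : thM ρ β i (MM ρ (β ⊕ Fin 3) j k) = ∑ a : Fin ρ,
      (u j a.castSucc - thI ρ β (MM (ρ + 1) β j i) * u i a.castSucc * h⁻¹) *
      (v k a.castSucc - v i a.castSucc * v k (Fin.last ρ) * (v i (Fin.last ρ))⁻¹) := by
    rw [MM, map_sum]
    apply Finset.sum_congr rfl
    intro a _
    rw [map_mul]
    unfold thM
    rw [aeval_X, aeval_X, hu, hv, hh]
    rfl
  have hL2 : ∑ a : Fin ρ,
      (u j a.castSucc - thI ρ β (MM (ρ + 1) β j i) * u i a.castSucc * h⁻¹) *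
      (v k a.castSucc - v i a.castSucc * v k (Fin.last ρ) * (v i (Fin.last ρ))⁻¹) =
      ∑ a : Fin (ρ + 1),
      (u j a - thI ρ β (MM (ρ + 1) β j i) * u i a * h⁻¹) *
      (v k a - v i a * v k (Fin.last ρ) * (v i (Fin.last ρ))⁻¹) := by
    rw [Fin.sum_univ_castSucc]
    have h3 : v i (Fin.last ρ) ≠ 0 := by rw [hv]; exact h1
    have : v k (Fin.last ρ) - v i (Fin.last ρ) * v k (Fin.last ρ) * (v i (Fin.last ρ))⁻¹ = 0 := by
      field_simp
      ring
    rw [this, mul_zero, add_zero]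
  rw [hL, hL2]
  have e1 : ∀ a : Fin (ρ + 1),
      (u j a - thI ρ β (MM (ρ + 1) β j i) * u i a * h⁻¹) *
      (v k a - v i a * v k (Fin.last ρ) * (v i (Fin.last ρ))⁻¹) =
      u j a * v k a - (v k (Fin.last ρ) * (v i (Fin.last ρ))⁻¹) * (u j a * v i a) -
      (thI ρ β (MM (ρ + 1) β j i) * h⁻¹) * (u i a * v k a) +
      (thI ρ β (MM (ρ + 1) β j i) * h⁻¹) * (v k (Fin.last ρ) * (v i (Fin.last ρ))⁻¹) *
        (u i a * v i a) := by
    intro a
    ring
  rw [Finset.sum_congr rfl (fun a _ => e1 a), Finset.sum_add_distrib, Finset.sum_sub_distrib,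
    Finset.sum_sub_distrib, ← Finset.mul_sum, ← Finset.mul_sum, ← Finset.mul_sum, ← hM', ← hM',
    ← hM', ← hM', ← hh]
  have h0' : h ≠ 0 := by rw [hh]; exact h0
  have e2 : h⁻¹ * h = 1 := inv_mul_cancel₀ h0'
  generalize thI ρ β (MM (ρ + 1) β j k) = A
  generalize thI ρ β (MM (ρ + 1) β j i) = B
  generalize thI ρ β (MM (ρ + 1) β i k) = C
  generalize v k (Fin.last ρ) * (v i (Fin.last ρ))⁻¹ = D
  linear_combination (B * D) * e2


theorem thI_ne (i : ℕ) : thI ρ β (MM (ρ + 1) β i i) ≠ 0 := by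
  rw [Ne, map_eq_zero_iff _ (thI_inj ρ β)]
  exact MM_last_ne ρ β i i

theorem thM_MM_left (i k : ℕ) : thM ρ β i (MM ρ (β ⊕ Fin 3) i k) = 0 := by
  rw [thM_MM]
  have := inv_mul_cancel₀ (thI_ne ρ β i)
  linear_combination (-thI ρ β (MM (ρ + 1) β i k)) * this

theorem thM_MM_right (i j : ℕ) : thM ρ β i (MM ρ (β ⊕ Fin 3) j i) = 0 := by
  rw [thM_MM]
  have := inv_mul_cancel₀ (thI_ne ρ β i)
  linear_combination (-thI ρ β (MM (ρ + 1) β j i)) * this

/-- The action on the field of fractions. -/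
noncomputable def thA (τ : ℕ ↪o ℕ) : ThL ρ β →+* ThL ρ β :=
  IsFractionRing.map (K := ThL ρ β) (L := ThL ρ β)
    (j := ((rename (actV (KK (ρ + 1) β) τ) : QQ (KK (ρ + 1) β) →ₐ[ℂ] QQ (KK (ρ + 1) β)) :
      QQ (KK (ρ + 1) β) →+* QQ (KK (ρ + 1) β)))
    (rename_injective _ (Option.map_injective (Prod.map_injective.mpr
      ⟨τ.injective, Function.injective_id⟩)))

theorem thA_I (τ : ℕ ↪o ℕ) (p : QQ (KK (ρ + 1) β)) :
    thA ρ β τ (thI ρ β p) = thI ρ β ((actQ (KK (ρ + 1) β)).act τ p) := by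
  unfold thA thI IsFractionRing.map
  rw [IsLocalization.map_eq]
  rfl

theorem thA_M (τ : ℕ ↪o ℕ) (i : ℕ) (x : QQ (KK ρ (β ⊕ Fin 3))) :
    thA ρ β τ (thM ρ β i x) = thM ρ β (τ i) ((actQ (KK ρ (β ⊕ Fin 3))).act τ x) := by
  have h : (thA ρ β τ).comp (thM ρ β i : QQ (KK ρ (β ⊕ Fin 3)) →+* ThL ρ β) =
      (thM ρ β (τ i) : QQ (KK ρ (β ⊕ Fin 3)) →+* ThL ρ β).comp
        ((actQ (KK ρ (β ⊕ Fin 3))).act τ) := by
    apply MvPolynomial.ringHom_ext
    · intro c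
      have h1 : ∀ i, thM ρ β i (C c) = thI ρ β (C c) := by
        intro i
        unfold thM
        rw [aeval_C]
        rfl
      rw [RingHom.comp_apply, RingHom.comp_apply]
      show thA ρ β τ (thM ρ β i (C c)) = thM ρ β (τ i) ((actQ _).act τ (C c))
      rw [actQ_C, h1, h1, thA_I, actQ_C]
    · intro o
      rw [RingHom.comp_apply, RingHom.comp_apply, actQ_X]
      show thA ρ β τ (thM ρ β i (X o)) = thM ρ β (τ i) (X (actV _ τ o))
      unfold thM
      rw [aeval_X, aeval_X]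
      rcases o with _ | ⟨j, (⟨a, (_ | _)⟩ | (b | b))⟩
      · show thA ρ β τ ((thI ρ β (MM (ρ + 1) β i i))⁻¹) = (thI ρ β (MM (ρ + 1) β (τ i) (τ i)))⁻¹
        rw [map_inv₀, thA_I, actQ_MM]
      · show thA ρ β τ (thI ρ β (X (some (j, Sum.inl (a.castSucc, false)))) -
          thI ρ β (X (some (i, Sum.inl (a.castSucc, false)))) *
          thI ρ β (X (some (j, Sum.inl (Fin.last ρ, false)))) *
          (thI ρ β (X (some (i, Sum.inl (Fin.last ρ, false)))))⁻¹) =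
          thI ρ β (X (some (τ j, Sum.inl (a.castSucc, false)))) -
          thI ρ β (X (some (τ i, Sum.inl (a.castSucc, false)))) *
          thI ρ β (X (some (τ j, Sum.inl (Fin.last ρ, false)))) *
          (thI ρ β (X (some (τ i, Sum.inl (Fin.last ρ, false)))))⁻¹
        rw [map_sub, map_mul, map_mul, map_inv₀, thA_I, thA_I, thA_I, thA_I, actQ_X, actQ_X,
          actQ_X, actQ_X]
        rfl
      · show thA ρ β τ (thI ρ β (X (some (j, Sum.inl (a.castSucc, true)))) -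
          thI ρ β (MM (ρ + 1) β j i) * thI ρ β (X (some (i, Sum.inl (a.castSucc, true)))) *
          (thI ρ β (MM (ρ + 1) β i i))⁻¹) =
          thI ρ β (X (some (τ j, Sum.inl (a.castSucc, true)))) -
          thI ρ β (MM (ρ + 1) β (τ j) (τ i)) *
          thI ρ β (X (some (τ i, Sum.inl (a.castSucc, true)))) *
          (thI ρ β (MM (ρ + 1) β (τ i) (τ i)))⁻¹
        rw [map_sub, map_mul, map_mul, map_inv₀, thA_I, thA_I, thA_I, thA_I, actQ_X, actQ_X,
          actQ_MM, actQ_MM]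
        rfl
      · show thA ρ β τ (thI ρ β (TT (ρ + 1) β b j)) = thI ρ β (TT (ρ + 1) β b (τ j))
        rw [thA_I, actQ_TT]
      · show thA ρ β τ (if b = 0 then (if j = i then 0 else thI ρ β (MM (ρ + 1) β i j))
          else if b = 1 then (if j = i then 0 else thI ρ β (MM (ρ + 1) β j i))
          else thI ρ β (X none * MM (ρ + 1) β i i)) =
          (if b = 0 then (if τ j = τ i then 0 else thI ρ β (MM (ρ + 1) β (τ i) (τ j)))
          else if b = 1 then (if τ j = τ i then 0 else thI ρ β (MM (ρ + 1) β (τ j) (τ i)))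
          else thI ρ β (X none * MM (ρ + 1) β (τ i) (τ i)))
        have e : (τ j = τ i) ↔ j = i := ⟨fun h => τ.injective h, fun h => by rw [h]⟩
        simp only [e]
        split_ifs
        · exact map_zero _
        · rw [thA_I, actQ_MM]
        · exact map_zero _
        · rw [thA_I, actQ_MM]
        · rw [thA_I, map_mul, actQ_MM, actQ_X]
          rfl
  exact congrArg (fun g => g x) h

theorem pow_mem_RD {P : Type} [CommRing P] {R : Subring P} (h : ℕ → P) (i k : ℕ) :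
    h i ^ k ∈ RD R h k := by
  apply AddSubgroup.subset_closure
  refine ⟨1, R.one_mem, List.replicate k i, ?_, ?_⟩
  · rw [List.length_replicate]
  · rw [List.map_replicate, List.prod_replicate, one_mul]

theorem thM_hA (i : ℕ) : ∀ x ∈ (Rr ρ (β ⊕ Fin 3)).toSubring, ∃ k,
    ∃ a ∈ RD (rdata (ρ + 1) β).R (rdata (ρ + 1) β).h k,
    thI ρ β ((rdata (ρ + 1) β).h i) ^ k * thM ρ β i x = thI ρ β a := by
  intro x hx
  have hx' : x ∈ Rr ρ (β ⊕ Fin 3) := hx
  have hh : ∀ j, (rdata (ρ + 1) β).h j = MM (ρ + 1) β j j := fun j => rfl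
  have hR : ∀ y, y ∈ (rdata (ρ + 1) β).R ↔ y ∈ Rr (ρ + 1) β := fun y => Iff.rfl
  have hne := thI_ne ρ β i
  have hinv := mul_inv_cancel₀ hne
  unfold Rr at hx'
  induction hx' using Algebra.adjoin_induction with
  | mem y hy =>
    rcases hy with ((hy | ⟨j, k, hjk, rfl⟩) | ⟨j, rfl⟩) | ⟨b, j, rfl⟩
    · rw [Set.mem_singleton_iff] at hy
      rw [hy]
      refine ⟨1, 1, mem_RD_of_mem (Subring.one_mem _), ?_⟩
      rw [hh, thM_X, pow_one, hinv, map_one]
    · by_cases hj : j = i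
      · subst hj
        refine ⟨0, 0, AddSubgroup.zero_mem _, ?_⟩
        rw [thM_MM_left, mul_zero, map_zero]
      by_cases hk : k = i
      · subst hk
        refine ⟨0, 0, AddSubgroup.zero_mem _, ?_⟩
        rw [thM_MM_right, mul_zero, map_zero]
      refine ⟨1, MM (ρ + 1) β j k * MM (ρ + 1) β i i - MM (ρ + 1) β j i * MM (ρ + 1) β i k,
        ?_, ?_⟩
      · apply AddSubgroup.sub_mem
        · apply AddSubgroup.subset_closure
          refine ⟨MM (ρ + 1) β j k, (hR _).mpr (MM_mem_Rr _ _ hjk), [i], le_refl _, ?_⟩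
          simp [hh]
        · apply mem_RD_of_mem
          rw [hR]
          exact (Rr (ρ + 1) β).mul_mem (MM_mem_Rr _ _ hj) (MM_mem_Rr _ _ (Ne.symm hk))
      · rw [hh, thM_MM, pow_one, map_sub, map_mul, map_mul]
        linear_combination (-(thI ρ β (MM (ρ + 1) β j i) * thI ρ β (MM (ρ + 1) β i k))) * hinv
    · by_cases hj : j = i
      · subst hj
        refine ⟨0, 0, AddSubgroup.zero_mem _, ?_⟩
        rw [map_mul, thM_MM_left, mul_zero, mul_zero, map_zero]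
      refine ⟨2, MM (ρ + 1) β i i * MM (ρ + 1) β j j - MM (ρ + 1) β j i * MM (ρ + 1) β i j,
        ?_, ?_⟩
      · apply AddSubgroup.sub_mem
        · apply AddSubgroup.subset_closure
          refine ⟨1, Subring.one_mem _, [i, j], le_refl _, ?_⟩
          simp [hh]
        · apply mem_RD_of_mem
          rw [hR]
          exact (Rr (ρ + 1) β).mul_mem (MM_mem_Rr _ _ hj) (MM_mem_Rr _ _ (Ne.symm hj))
      · rw [hh, map_mul, thM_X, thM_MM, map_sub, map_mul, map_mul]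
        generalize thI ρ β (MM (ρ + 1) β j j) = A at *
        generalize thI ρ β (MM (ρ + 1) β j i) = B at *
        generalize thI ρ β (MM (ρ + 1) β i j) = C at *
        generalize thI ρ β (MM (ρ + 1) β i i) = D at *
        field_simp
    · rcases b with b | b
      · refine ⟨0, TT (ρ + 1) β b j, mem_RD_of_mem ((hR _).mpr (TT_mem_Rr _ _ b j)), ?_⟩
        rw [thM_T, pow_zero, one_mul]
      · fin_cases b
        · show ∃ k, ∃ a ∈ RD (rdata (ρ + 1) β).R (rdata (ρ + 1) β).h k,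
            thI ρ β ((rdata (ρ + 1) β).h i) ^ k *
              thM ρ β i (TT ρ (β ⊕ Fin 3) (Sum.inr 0) j) = thI ρ β a
          by_cases hj : j = i
          · subst hj
            refine ⟨0, 0, AddSubgroup.zero_mem _, ?_⟩
            rw [thM_T0', mul_zero, map_zero]
          · refine ⟨0, MM (ρ + 1) β i j,
              mem_RD_of_mem ((hR _).mpr (MM_mem_Rr _ _ (Ne.symm hj))), ?_⟩
            rw [thM_T0 ρ β hj, pow_zero, one_mul]
        · show ∃ k, ∃ a ∈ RD (rdata (ρ + 1) β).R (rdata (ρ + 1) β).h k,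
            thI ρ β ((rdata (ρ + 1) β).h i) ^ k *
              thM ρ β i (TT ρ (β ⊕ Fin 3) (Sum.inr 1) j) = thI ρ β a
          by_cases hj : j = i
          · subst hj
            refine ⟨0, 0, AddSubgroup.zero_mem _, ?_⟩
            rw [thM_T1', mul_zero, map_zero]
          · refine ⟨0, MM (ρ + 1) β j i,
              mem_RD_of_mem ((hR _).mpr (MM_mem_Rr _ _ hj)), ?_⟩
            rw [thM_T1 ρ β hj, pow_zero, one_mul]
        · show ∃ k, ∃ a ∈ RD (rdata (ρ + 1) β).R (rdata (ρ + 1) β).h k,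
            thI ρ β ((rdata (ρ + 1) β).h i) ^ k *
              thM ρ β i (TT ρ (β ⊕ Fin 3) (Sum.inr 2) j) = thI ρ β a
          refine ⟨0, X none * MM (ρ + 1) β i i,
              mem_RD_of_mem ((hR _).mpr (eM_mem_Rr _ _ i i)), ?_⟩
          rw [thM_T2, pow_zero, one_mul]
  | algebraMap c =>
    refine ⟨0, algebraMap ℂ _ c, mem_RD_of_mem ((hR _).mpr ((Rr (ρ + 1) β).algebraMap_mem c)), ?_⟩
    rw [pow_zero, one_mul, AlgHom.commutes]
    rfl
  | add y z hy hz h1 h2 =>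
    obtain ⟨k, a, ha, h1⟩ := h1 hy
    obtain ⟨k', a', ha', h2⟩ := h2 hz
    refine ⟨k + k', (rdata (ρ + 1) β).h i ^ k' * a + (rdata (ρ + 1) β).h i ^ k * a', ?_, ?_⟩
    · apply AddSubgroup.add_mem
      · rw [add_comm k k']
        exact RD_mul (pow_mem_RD _ i k') ha
      · exact RD_mul (pow_mem_RD _ i k) ha'
    · rw [map_add, map_add, map_mul, map_mul, map_pow, map_pow, ← h1, ← h2]
      ring
  | mul y z hy hz h1 h2 =>
    obtain ⟨k, a, ha, h1⟩ := h1 hy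
    obtain ⟨k', a', ha', h2⟩ := h2 hz
    refine ⟨k + k', a * a', RD_mul ha ha', ?_⟩
    rw [map_mul, map_mul, ← h1, ← h2]
    ring

theorem thM_hBs (i : ℕ) : ∀ y ∈ (rdata (ρ + 1) β).R, ∃ x ∈ (Rr ρ (β ⊕ Fin 3)).toSubring,
    thM ρ β i x = thI ρ β y := by
  intro y hy0
  have hy' : y ∈ Rr (ρ + 1) β := hy0
  clear hy0
  have hne := thI_ne ρ β i
  have hinv := inv_mul_cancel₀ hne
  unfold Rr at hy'
  have hR : ∀ y, y ∈ (Rr ρ (β ⊕ Fin 3)).toSubring ↔ y ∈ Rr ρ (β ⊕ Fin 3) := fun y => Iff.rfl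
  induction hy' using Algebra.adjoin_induction with
  | mem y hy =>
    rcases hy with ((hy | ⟨j, k, hjk, rfl⟩) | ⟨j, rfl⟩) | ⟨b, j, rfl⟩
    · rw [Set.mem_singleton_iff] at hy
      rw [hy]
      refine ⟨X none * TT ρ (β ⊕ Fin 3) (Sum.inr 2) i, (hR _).mpr
        ((Rr _ _).mul_mem (X_mem_Rr _ _) (TT_mem_Rr _ _ _ _)), ?_⟩
      rw [map_mul, thM_X, thM_T2, map_mul]
      linear_combination (thI ρ β (X none)) * hinv
    · by_cases hj : j = i
      · subst hj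
        refine ⟨TT ρ (β ⊕ Fin 3) (Sum.inr 0) k, (hR _).mpr (TT_mem_Rr _ _ _ _), ?_⟩
        rw [thM_T0 ρ β (Ne.symm hjk)]
      by_cases hk : k = i
      · subst hk
        refine ⟨TT ρ (β ⊕ Fin 3) (Sum.inr 1) j, (hR _).mpr (TT_mem_Rr _ _ _ _), ?_⟩
        rw [thM_T1 ρ β hj]
      refine ⟨MM ρ (β ⊕ Fin 3) j k + X none * (TT ρ (β ⊕ Fin 3) (Sum.inr 1) j *
        TT ρ (β ⊕ Fin 3) (Sum.inr 0) k), (hR _).mpr ((Rr _ _).add_mem (MM_mem_Rr _ _ hjk)
        ((Rr _ _).mul_mem (X_mem_Rr _ _) ((Rr _ _).mul_mem (TT_mem_Rr _ _ _ _)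
        (TT_mem_Rr _ _ _ _)))), ?_⟩
      rw [map_add, map_mul, map_mul, thM_MM, thM_X, thM_T1 ρ β hj, thM_T0 ρ β hk]
      ring
    · by_cases hj : j = i
      · subst hj
        refine ⟨TT ρ (β ⊕ Fin 3) (Sum.inr 2) j, (hR _).mpr (TT_mem_Rr _ _ _ _), ?_⟩
        rw [thM_T2]
      refine ⟨TT ρ (β ⊕ Fin 3) (Sum.inr 2) j * (X none * MM ρ (β ⊕ Fin 3) j j +
        X none * (X none * (TT ρ (β ⊕ Fin 3) (Sum.inr 0) j *
        TT ρ (β ⊕ Fin 3) (Sum.inr 1) j))), (hR _).mpr ((Rr _ _).mul_mem (TT_mem_Rr _ _ _ _)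
        ((Rr _ _).add_mem (eM_mem_Rr _ _ j j) ((Rr _ _).mul_mem (X_mem_Rr _ _)
        ((Rr _ _).mul_mem (X_mem_Rr _ _) ((Rr _ _).mul_mem (TT_mem_Rr _ _ _ _)
        (TT_mem_Rr _ _ _ _)))))), ?_⟩
      rw [map_mul, map_add, map_mul, map_mul, map_mul, map_mul, thM_MM, thM_X, thM_T1 ρ β hj,
        thM_T0 ρ β hj, thM_T2, map_mul, map_mul]
      generalize thI ρ β (MM (ρ + 1) β j j) = A at *
      generalize thI ρ β (MM (ρ + 1) β j i) = B at *
      generalize thI ρ β (MM (ρ + 1) β i j) = C at *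
      generalize thI ρ β (MM (ρ + 1) β i i) = D at *
      generalize thI ρ β (X none) = E at *
      field_simp
      ring
    · refine ⟨TT ρ (β ⊕ Fin 3) (Sum.inl b) j, (hR _).mpr (TT_mem_Rr _ _ _ _), ?_⟩
      rw [thM_T]
  | algebraMap c =>
    refine ⟨algebraMap ℂ _ c, (hR _).mpr ((Rr ρ (β ⊕ Fin 3)).algebraMap_mem c), ?_⟩
    rw [AlgHom.commutes]
    rfl
  | add y z hy hz h1 h2 =>
    obtain ⟨x, hx, h1⟩ := h1
    obtain ⟨x', hx', h2⟩ := h2
    exact ⟨x + x', Subring.add_mem _ hx hx', by rw [map_add, map_add, h1, h2]⟩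
  | mul y z hy hz h1 h2 =>
    obtain ⟨x, hx, h1⟩ := h1
    obtain ⟨x', hx', h2⟩ := h2
    exact ⟨x * x', Subring.mul_mem _ hx hx', by rw [map_mul, map_mul, h1, h2]⟩

end

theorem h6_rdata (ρ : ℕ) (hR : RN ρ) (β : Type) [Fintype β] :
    H6 (actQ (KK (ρ + 1) β)) (rdata (ρ + 1) β) := by
  apply chart (S1 := actQ (KK ρ (β ⊕ Fin 3))) (B1 := (Rr ρ (β ⊕ Fin 3)).toSubring)
    (stab_Rr ρ (β ⊕ Fin 3)) (thI ρ β) (thI_inj ρ β) (thA ρ β) (thA_I ρ β)
    (fun i => (thM ρ β i : QQ (KK ρ (β ⊕ Fin 3)) →+* ThL ρ β))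
  · intro τ i x _
    exact thA_M ρ β τ i x
  · exact thM_hA ρ β
  · exact thM_hBs ρ β
  · intro w
    exact hR (β ⊕ Fin 3) w

end MPf70651.Full
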