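import Pool.Agent.Lib_MP_f70651_al.Full.Rstep
import Pool.Agent.Lib_MP_f70651_al.Full.Hfive
import Pool.Agent.Lib_MP_f70651_al.Full.Theta
import Pool.Agent.Lib_MP_f70651_al.Full.Nar
import Pool.Agent.Lib_MP_f70651_al.Full.Pker
import Pool.Agent.Lib_MP_f70651_al.Full.Base
import Pool.Agent.Lib_MP_f70651_al.Full.Naa
import Pool.Agent.Lib_MP_f70651_al.Lead
import Pool.Agent.Lib_MP_f70651_al.Euler

/-!
# MP_f70651_al, full version : Main
-/

namespace MPf70651.Full

open MPf70651 MvPolynomial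

theorem r_succ (ρ : ℕ) (hP : PN ρ) (hR : RN ρ) : RN (ρ + 1) := by
  intro β _ w
  exact rstep (rdata (ρ + 1) β) (h5_rdata ρ hP β) (h6_rdata ρ hR β)
    (fun w => na_Rp (ρ + 1) β w) w

theorem p_succ (ρ : ℕ) (hR : RN (ρ + 1)) (hP : PN ρ) : PN (ρ + 1) := by
  intro β _ w
  have h1 := noeth_kernel ρ hR hP β w
  have h2 : Noeth (actF β) ⊤ (cst w (RingHom.ker (PhiF (ρ + 1) β)).toAddSubgroup)
      (cst w (⊤ : Subring (FF β)).toAddSubgroup) := by
    refine lift_noeth (S := actQ (KK (ρ + 1) β)) (B := (PhiF (ρ + 1) β).range.toSubring)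
      stab_top ((PhiF (ρ + 1) β : FF β →ₐ[ℂ] _) : FF β →+* _) ?_ ?_ ?_ ?_
      (noeth_range (ρ + 1) hR β w)
    · intro τ x _
      exact PhiF_act (ρ + 1) β τ x
    · intro x _
      exact ⟨x, rfl⟩
    · rintro y ⟨x, rfl⟩
      exact ⟨x, Subring.mem_top _, rfl⟩
    · intro φ x _ hx
      exact hx
  refine Noeth.ext stab_top ?_ ?_ ?_ h1 h2
  · apply isFam_cst
    · intro a _ x hx
      exact Ideal.mul_mem_left _ a hx
    · intro τ x hx
      show PhiF (ρ + 1) β ((actF β).act τ x) = 0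
      rw [← PhiF_act]
      have : PhiF (ρ + 1) β x = 0 := hx
      rw [this, map_zero]
  · intro φ x hx
    exact II_le_ker (ρ + 1) β hx
  · intro φ x _
    exact AddSubgroup.mem_top x

theorem all_ranks (ρ : ℕ) : RN ρ ∧ PN ρ := by
  induction ρ with
  | zero => exact ⟨r_zero, p_zero⟩
  | succ ρ ih =>
    have h1 := r_succ ρ ih.2 ih.1
    exact ⟨h1, p_succ ρ h1 ih.2⟩

theorem main_full (f : MvPolynomial (Fin 2) ℂ) :
    ∃ G : Finset RR, (∀ g ∈ G, phi0 f g = 0) ∧
      Ideal.span {q | ∃ σ : Equiv.Perm ℕ, {i | σ i ≠ i}.Finite ∧ ∃ g ∈ G,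
        q = rename (permY σ) g} = RingHom.ker (phi0 f) := by
  have hgrad := grad_fg (sitA f) Off (phi f) (fun τ g => phi_act f τ g) (AA f).toSubring
    (phi_range f) le_rfl (fun w N h => noeth_AA f (fun ρ => (all_ranks ρ).1) w N h)
  refine dehom f (ker_fg_of_grad Off (phi f) (phi_hom f) ?_ ?_ hgrad)
  · intro c hc
    have : (C c : PP) = 0 := by
      have h := hc
      rw [← MvPolynomial.algebraMap_eq, AlgHom.commutes] at h
      exact h
    exact C_eq_zero.mp this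
  · intro τ g hg
    rw [phi_act, hg, map_zero]

end MPf70651.Full
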