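import Pool.Agent.Lib_MP_f70651_al.Full.Conc

/-!
# MP_f70651_al, full version : the `(k+1)`-minors of the matrix `M` of rank `k` vanish
-/

namespace MPf70651.Full

open MPf70651 MvPolynomial

/-- The determinant of a `(k+1) × (k+1)` matrix factoring through rank `k` vanishes. -/
theorem det_factor_zero {T : Type} [CommRing T] (k : ℕ) (u v : Fin (k + 1) → Fin k → T) :
    (Matrix.of fun a b : Fin (k + 1) => ∑ x, u a x * v b x).det = 0 := by
  classical
  set A : Matrix (Fin (k + 1)) (Fin (k + 1)) T := Matrix.of fun a b =>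
    (Fin.cons 0 (u a) : Fin (k + 1) → T) b with hA
  set B : Matrix (Fin (k + 1)) (Fin (k + 1)) T := Matrix.of fun a b =>
    (Fin.cons 0 (v b) : Fin (k + 1) → T) a with hB
  have h1 : (Matrix.of fun a b : Fin (k + 1) => ∑ x, u a x * v b x) = A * B := by
    ext a b
    rw [Matrix.mul_apply, Fin.sum_univ_succ]
    simp [hA, hB]
  rw [h1, Matrix.det_mul]
  have h2 : A.det = 0 := by
    apply Matrix.det_eq_zero_of_column_eq_zero 0
    intro i
    simp [hA]
  rw [h2, zero_mul]

theorem minor_MM_zero (k : ℕ) (β : Type) (p : Fin (k + 1) ⊕ Fin (k + 1) → ℕ) :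
    minor (k + 1) (MM k β) p = 0 := by
  unfold minor MM
  exact det_factor_zero k
    (fun a x => X (some (p (Sum.inl a), Sum.inl (x, true))))
    (fun b x => X (some (p (Sum.inr b), Sum.inl (x, false))))

theorem PhiF_minor (ρ : ℕ) (β : Type) (k : ℕ) (p : Fin k ⊕ Fin k → ℕ) (hp : Vld k p) :
    PhiF ρ β (minor k (yF β) p) = minor k (MM ρ β) p := by
  have h : ((PhiF ρ β : FF β →ₐ[ℂ] _) : FF β →+* _) (minor k (yF β) p) =
      minor k (MM ρ β) p := by
    rw [minor_map]
    unfold minor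
    congr 1
    ext a b
    exact congrArg _ (PhiF_yF ρ β (hp a b))
  exact h

theorem II_le_ker (ρ : ℕ) (β : Type) : II β (ρ + 1) ≤ RingHom.ker (PhiF ρ β) := by
  unfold II
  rw [Ideal.span_le]
  rintro _ ⟨p, hp, rfl⟩
  show PhiF ρ β (minor (ρ + 1) (yF β) p) = 0
  rw [PhiF_minor ρ β _ p hp, minor_MM_zero]

theorem PhiR_yR (ρ : ℕ) {i j : ℕ} (h : i ≠ j) : PhiR ρ (yR i j) = MM ρ Empty i j := by
  unfold yR PhiR
  rw [dif_pos h, aeval_X]

theorem PhiR_minor (ρ : ℕ) (k : ℕ) (p : Fin k ⊕ Fin k → ℕ) (hp : Vld k p) :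
    PhiR ρ (minor k yR p) = minor k (MM ρ Empty) p := by
  have h : ((PhiR ρ : RR →ₐ[ℂ] _) : RR →+* _) (minor k yR p) =
      minor k (MM ρ Empty) p := by
    rw [minor_map]
    unfold minor
    congr 1
    ext a b
    exact congrArg _ (PhiR_yR ρ (hp a b))
  exact h

theorem IR_le_ker (ρ : ℕ) (κ : RR) (h : κ ∈ IR (ρ + 1)) : PhiR ρ κ = 0 := by
  have hle : IR (ρ + 1) ≤ RingHom.ker (PhiR ρ) := by
    unfold IR
    rw [Ideal.span_le]
    rintro _ ⟨p, hp, rfl⟩
    show PhiR ρ (minor (ρ + 1) yR p) = 0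
    rw [PhiR_minor ρ _ p hp, minor_MM_zero]
  exact hle h

theorem incR_yR (β : Type) (i j : ℕ) : incR β (yR i j) = yF β i j := by
  unfold incR yR yF
  by_cases h : i = j
  · subst h
    simp
  · rw [dif_pos h, dif_pos h, rename_X]

theorem incR_minor (β : Type) (k : ℕ) (p : Fin k ⊕ Fin k → ℕ) :
    incR β (minor k yR p) = minor k (yF β) p := by
  have h : ((incR β : RR →ₐ[ℂ] _) : RR →+* _) (minor k yR p) = minor k (yF β) p := by
    rw [minor_map]
    unfold minor
    congr 1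
    ext a b
    exact congrArg _ (incR_yR β _ _)
  exact h

theorem incR_IR (β : Type) (k : ℕ) (κ : RR) (h : κ ∈ IR k) : incR β κ ∈ II β k := by
  have hle : IR k ≤ Ideal.comap (incR β) (II β k) := by
    unfold IR
    rw [Ideal.span_le]
    rintro _ ⟨p, hp, rfl⟩
    show incR β (minor k yR p) ∈ II β k
    rw [incR_minor]
    exact Ideal.subset_span ⟨p, hp, rfl⟩
  exact hle h

end MPf70651.Full
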