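import Pool.Agent.Lib_MP_f70651_al.Full.Deta
import Pool.Agent.Lib_MP_f70651_al.Full.Detp

/-!
# MP_f70651_al, full version : Rdata
-/

namespace MPf70651.Full

open MPf70651 MvPolynomial

noncomputable def rdata (k : ℕ) (β : Type) : RData (actQ (KK k β)) where
  R := (Rr k β).toSubring
  R' := (Rp k β).toSubring
  h := fun j => MM k β j j
  ι := Fin k ⊕ Fin k
  V := Vld k
  Δ := minor k (MM k β)
  r := k
  R_le := Rr_le_Rp k β
  stab := stab_Rr k β
  stab' := stab_Rp k β
  h_mem := fun j => MM_mem_Rp k β j j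
  act_h := fun τ j => actQ_MM k β τ j j
  gen' := gen_Rp k β
  V_act := Vld_act k
  Δ_mem := minor_mem_Rr k β k
  Δ_act := actQ_minor k β k
  absorb := fun p j hp hj => absorb_MM k β p j hp hj
  princ := princ_MM k β

end MPf70651.Full
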