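import Pool.Agent.Lib_MP_f70651_al.Full.Conc

/-!
# MP_f70651_al, full version : Trunc
-/

namespace MPf70651.Full

open MPf70651 MvPolynomial

/-- The set of indices of a monomial. -/
def truncIdx {κ : Type} (m : Option (ℕ × κ) →₀ ℕ) : Set ℕ :=
  {i | ∃ c, m (some (i, c)) ≠ 0}

theorem truncIdx_add {κ : Type} (m m' : Option (ℕ × κ) →₀ ℕ) :
    truncIdx (m + m') = truncIdx m ∪ truncIdx m' := by
  ext i
  simp only [truncIdx, Set.mem_ofPred_eq, Set.mem_union, Finsupp.add_apply]
  constructor
  · rintro ⟨c, hc⟩
    by_cases h : m (some (i, c)) = 0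
    · right; exact ⟨c, fun h' => hc (by rw [h, h'])⟩
    · left; exact ⟨c, h⟩
  · rintro (⟨c, hc⟩ | ⟨c, hc⟩)
    · exact ⟨c, by omega⟩
    · exact ⟨c, by omega⟩

theorem truncIdx_single {κ : Type} (k : ℕ) (c : κ) :
    truncIdx (Finsupp.single (some (k, c)) 1) = {k} := by
  classical
  ext l
  simp only [truncIdx, Set.mem_ofPred_eq, Set.mem_singleton_iff]
  constructor
  · rintro ⟨c', hc'⟩
    rw [Finsupp.single_apply] at hc'
    by_contra hne
    apply hc'
    rw [if_neg]
    intro h
    rw [Option.some.injEq, Prod.mk.injEq] at h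
    exact hne h.1.symm
  · rintro rfl
    exact ⟨c, by simp⟩

/-- All the monomials of `g` have the same degree and the same set of indices. -/
def TruncPr {κ : Type} (g : QQ κ) : Prop :=
  ∃ (d : ℕ) (F : Set ℕ), ∀ m ∈ g.support, m.degree = d ∧ truncIdx m = F

theorem TruncPr.mul {κ : Type} {g h : QQ κ} (hg : TruncPr g) (hh : TruncPr h) :
    TruncPr (g * h) := by
  classical
  obtain ⟨d, F, h1⟩ := hg
  obtain ⟨d', F', h2⟩ := hh
  refine ⟨d + d', F ∪ F', fun m hm => ?_⟩
  have := support_mul g h hm
  rw [Finset.mem_add] at this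
  obtain ⟨a, ha, b, hb, rfl⟩ := this
  rw [truncIdx_add, (h1 a ha).2, (h2 b hb).2, map_add, (h1 a ha).1, (h2 b hb).1]
  exact ⟨rfl, rfl⟩

/-- The generators of `Rp`. -/
def truncGen (k : ℕ) (β : Type) : Set (QQ (KK k β)) :=
  {X none} ∪ {q | ∃ i j : ℕ, q = MM k β i j} ∪ {q | ∃ b i, q = TT k β b i}

theorem truncPr_of_mem {k : ℕ} {β : Type} (g : QQ (KK k β))
    (hg : g ∈ Submonoid.closure (truncGen k β)) : TruncPr g := by
  classical
  induction hg using Submonoid.closure_induction with
  | mem x hx =>
    rcases hx with (hx | ⟨i, j, rfl⟩) | ⟨b, i, rfl⟩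
    · rw [Set.mem_singleton_iff] at hx
      subst hx
      refine ⟨1, ∅, fun m hm => ?_⟩
      have hm' : m = Finsupp.single none 1 := by
        have := support_monomial_subset hm
        simpa using this
      subst hm'
      refine ⟨by simp, ?_⟩
      ext i
      simp [truncIdx]
    · refine ⟨2, {i, j}, fun m hm => ?_⟩
      have : ∃ a : Fin k, m = Finsupp.single (some (i, Sum.inl (a, true))) 1 +
          Finsupp.single (some (j, Sum.inl (a, false))) 1 := by
        unfold MM at hm
        have h1 := support_sum hm
        rw [Finset.mem_biUnion] at h1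
        obtain ⟨a, _, ha⟩ := h1
        refine ⟨a, ?_⟩
        have h2 := support_mul _ _ ha
        rw [Finset.mem_add] at h2
        obtain ⟨b, hb, c, hc, rfl⟩ := h2
        have hb' := support_monomial_subset hb
        have hc' := support_monomial_subset hc
        rw [Finset.mem_singleton] at hb' hc'
        rw [hb', hc']
      obtain ⟨a, rfl⟩ := this
      refine ⟨by rw [map_add]; simp, ?_⟩
      rw [truncIdx_add, truncIdx_single, truncIdx_single]
      rfl
    · refine ⟨1, {i}, fun m hm => ?_⟩
      have hm' : m = Finsupp.single (some (i, Sum.inr b)) 1 := by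
        have := support_monomial_subset hm
        simpa using this
      subst hm'
      exact ⟨by simp, truncIdx_single _ _⟩
  | one =>
    refine ⟨0, ∅, fun m hm => ?_⟩
    have hm' : m = 0 := by
      rw [← C_1] at hm
      have := support_monomial_subset hm
      simpa using this
    subst hm'
    refine ⟨by simp, ?_⟩
    ext i
    simp [truncIdx]
  | mul x y _ _ hx hy => exact hx.mul hy

theorem trunc_mem2 (k : ℕ) (β : Type) [Fintype β] (M : Finset (Option (ℕ × KK k β) →₀ ℕ)) :
    ∃ T : Finset (Option (ℕ × KK k β) →₀ ℕ), M ⊆ T ∧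
      ∀ g ∈ Rp k β, (∑ m ∈ T, monomial m (coeff m g)) ∈ Rp k β := by
  classical
  -- the bounds
  set D : ℕ := M.sup (fun m => m.degree) with hD
  set n : ℕ := M.sup (fun m => m.support.sup (fun o => o.elim 0 (fun p => p.1 + 1))) with hn
  set s : Finset (Option (ℕ × KK k β)) :=
    insert none (((Finset.range n) ×ˢ (Finset.univ : Finset (KK k β))).map
      ⟨some, Option.some_injective _⟩) with hs
  have hmem_s : ∀ (i : ℕ) (c : KK k β), some (i, c) ∈ s ↔ i < n := by
    intro i c
    simp [hs]
  have hnone : none ∈ s := by simp [hs]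
  set T : Finset (Option (ℕ × KK k β) →₀ ℕ) :=
    (s.finsupp (fun _ => Finset.range (D + 1))).filter (fun m => m.degree ≤ D) with hT
  have hmemT : ∀ m : Option (ℕ × KK k β) →₀ ℕ,
      m ∈ T ↔ m.degree ≤ D ∧ ∀ i ∈ truncIdx m, i < n := by
    intro m
    rw [hT, Finset.mem_filter, Finset.mem_finsupp_iff]
    constructor
    · rintro ⟨⟨h1, _⟩, h3⟩
      refine ⟨h3, ?_⟩
      rintro i ⟨c, hc⟩
      rw [← hmem_s i c]
      exact h1 (Finsupp.mem_support_iff.mpr hc)
    · rintro ⟨h1, h2⟩
      refine ⟨⟨?_, ?_⟩, h1⟩
      · intro o ho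
        cases o with
        | none => exact hnone
        | some p =>
          obtain ⟨i, c⟩ := p
          rw [hmem_s]
          exact h2 i ⟨c, Finsupp.mem_support_iff.mp ho⟩
      · intro i _
        rw [Finset.mem_range]
        have := Finsupp.le_degree i m
        omega
  have hgen : Rp k β = Algebra.adjoin ℂ (truncGen k β) := rfl
  refine ⟨T, ?_, ?_⟩
  · intro m hm
    rw [hmemT]
    refine ⟨Finset.le_sup (f := fun m => m.degree) hm, ?_⟩
    rintro i ⟨c, hc⟩
    have h1 : m.support.sup (fun o => o.elim 0 (fun p => p.1 + 1)) ≤ n :=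
      Finset.le_sup (f := fun m : Option (ℕ × KK k β) →₀ ℕ =>
        m.support.sup (fun o => o.elim 0 (fun p => p.1 + 1))) hm
    have h2 : i + 1 ≤ m.support.sup (fun o => o.elim 0 (fun p => p.1 + 1)) :=
      Finset.le_sup (f := fun o : Option (ℕ × KK k β) => o.elim 0 (fun p => p.1 + 1))
        (Finsupp.mem_support_iff.mpr hc)
    omega
  · intro g hg
    have hg' : g ∈ Submodule.span ℂ ((Submonoid.closure
        (truncGen k β) : Submonoid (QQ (KK k β))) :
        Set (QQ (KK k β))) := by
      rw [← Algebra.adjoin_eq_span, ← hgen]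
      exact hg
    have hsp : ∀ x : QQ (KK k β), x ∈ Submodule.span ℂ ((Submonoid.closure
        (truncGen k β) : Submonoid (QQ (KK k β))) :
        Set (QQ (KK k β))) → x ∈ Rp k β := by
      intro x hx
      rw [hgen]
      rw [← Algebra.adjoin_eq_span] at hx
      exact hx
    induction hg' using Submodule.span_induction with
    | mem x hx =>
      obtain ⟨d, F, hdF⟩ := truncPr_of_mem x hx
      have hxG : x ∈ Rp k β := hsp x (Submodule.subset_span hx)
      by_cases hc : d ≤ D ∧ ∀ i ∈ F, i < n
      · have hsub : x.support ⊆ T := by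
          intro m hm
          rw [hmemT, (hdF m hm).1, (hdF m hm).2]
          exact hc
        have : ∑ m ∈ T, monomial m (coeff m x) = x := by
          conv_rhs => rw [x.as_sum]
          symm
          apply Finset.sum_subset hsub
          intro m _ hm
          rw [notMem_support_iff.mp hm, monomial_zero]
        rw [this]
        exact hxG
      · have : ∑ m ∈ T, monomial m (coeff m x) = 0 := by
          apply Finset.sum_eq_zero
          intro m hm
          have : coeff m x = 0 := by
            rw [← notMem_support_iff]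
            intro h
            apply hc
            rw [← (hdF m h).1, ← (hdF m h).2]
            exact (hmemT m).mp hm
          rw [this, monomial_zero]
        rw [this]
        exact (Rp k β).zero_mem
    | zero => simp
    | add x y hx hy h1 h2 =>
      have e : ∑ m ∈ T, monomial m (coeff m (x + y)) =
          (∑ m ∈ T, monomial m (coeff m x)) + ∑ m ∈ T, monomial m (coeff m y) := by
        rw [← Finset.sum_add_distrib]
        apply Finset.sum_congr rfl
        intro m _
        rw [coeff_add, map_add]
      rw [e]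
      exact (Rp k β).add_mem (h1 (hsp x hx)) (h2 (hsp y hy))
    | smul c x hx h1 =>
      have e : ∑ m ∈ T, monomial m (coeff m (c • x)) =
          c • ∑ m ∈ T, monomial m (coeff m x) := by
        rw [Finset.smul_sum]
        apply Finset.sum_congr rfl
        intro m _
        rw [coeff_smul, smul_monomial]
      rw [e]
      exact (Rp k β).smul_mem (h1 (hsp x hx)) c

end MPf70651.Full
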