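import Pool.Agent.Lib_MP_f70651_al.Full.Der
import Pool.Agent.Lib_MP_f70651_al.Full.Trunc
import Pool.Agent.Lib_MP_f70651_al.FisB

/-!
# MP_f70651_al, full version : Retr
-/

namespace MPf70651.Full

open MPf70651 MvPolynomial

theorem fis2_zero_left {σ : Type} (q : MvPolynomial σ ℂ) : fis 0 q = 0 := by
  have h := fis_smul_left (0 : MvPolynomial σ ℂ) q 0
  rw [zero_smul, map_zero, zero_mul] at h
  exact h

theorem fis2_sum_left {σ ι : Type} (s : Finset ι) (p : ι → MvPolynomial σ ℂ)
    (q : MvPolynomial σ ℂ) : fis (∑ a ∈ s, p a) q = ∑ a ∈ s, fis (p a) q := by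
  classical
  induction s using Finset.induction_on with
  | empty => rw [Finset.sum_empty, Finset.sum_empty, fis2_zero_left]
  | insert a s ha ih => rw [Finset.sum_insert ha, Finset.sum_insert ha, fis_add_left, ih]

theorem fis2_sum_right {σ ι : Type} (s : Finset ι) (p : MvPolynomial σ ℂ)
    (q : ι → MvPolynomial σ ℂ) : fis p (∑ a ∈ s, q a) = ∑ a ∈ s, fis p (q a) := by
  classical
  induction s using Finset.induction_on with
  | empty => rw [Finset.sum_empty, Finset.sum_empty, fis_zero_right]
  | insert a s ha ih => rw [Finset.sum_insert ha, Finset.sum_insert ha, fis_add_right, ih]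

theorem exists_retraction2 (k : ℕ) (β : Type) [Fintype β] :
    ∃ π : QQ (KK k β) →ₗ[ℂ] QQ (KK k β), (∀ q, π q ∈ Rp k β) ∧
      (∀ q, ∀ g ∈ Rp k β, π (q * g) = π q * g) ∧ ∀ g ∈ Rp k β, π g = g := by
  apply fischer (Rp k β) ({X none} ∪ {q | ∃ i j : ℕ, q = MM k β i j} ∪
    {q | ∃ b i, q = TT k β b i}) rfl
  · rintro g ((hg | ⟨i, j, rfl⟩) | ⟨b, i, rfl⟩)
    · rw [Set.mem_singleton_iff] at hg
      subst hg
      exact ⟨(pderiv none : Derivation ℂ (QQ (KK k β)) (QQ (KK k β))).toLinearMap,
        fun p q => fis_X_mul none p q, fun q hq => dz_mem2 k β q hq⟩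
    · refine ⟨∑ a : Fin k,
        ((pderiv (some (j, Sum.inl (a, false))) :
          Derivation ℂ (QQ (KK k β)) (QQ (KK k β))).toLinearMap).comp
        ((pderiv (some (i, Sum.inl (a, true))) :
          Derivation ℂ (QQ (KK k β)) (QQ (KK k β))).toLinearMap), ?_, ?_⟩
      · intro p q
        rw [LinearMap.sum_apply, fis2_sum_right]
        unfold MM
        rw [Finset.sum_mul, fis2_sum_left]
        apply Finset.sum_congr rfl
        intro a _
        rw [mul_assoc, fis_X_mul, fis_X_mul]
        rfl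
      · intro q hq
        rw [LinearMap.sum_apply]
        exact lap_mem2 k β i j q hq
    · exact ⟨(pderiv (some (i, Sum.inr b)) :
          Derivation ℂ (QQ (KK k β)) (QQ (KK k β))).toLinearMap,
        fun p q => fis_X_mul _ p q, fun q hq => dt_mem2 k β i b q hq⟩
  · exact trunc_mem2 k β

end MPf70651.Full
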