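import Pool.Agent.Lib_MP_f70651_al.Full.Sonea

/-!
# MP_f70651_al, full version : Soneb
-/

namespace MPf70651.Full

open MPf70651 MvPolynomial

variable {P : Type} [CommRing P] {S : IncAct P}

/-- The elements of `JD (D + 1)` all of whose translates are pushed into `JD (D + k)` by a power
`k` of every `h i`. -/
def sbLam (d : RData S) {w : ℕ} (G : Set (Pos w × P)) (D : ℕ) (φ : Pos w) : AddSubgroup P where
  carrier := {y | y ∈ JD S d.R d.h G (D + 1) φ ∧ ∀ (τ : ℕ ↪o ℕ) (i : ℕ), ∃ k,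
    d.h i ^ k * S.act τ y ∈ JD S d.R d.h G (D + k) (φ.trans τ)}
  zero_mem' := ⟨AddSubgroup.zero_mem _, fun τ i => ⟨0, by
    rw [map_zero, mul_zero]; exact AddSubgroup.zero_mem _⟩⟩
  add_mem' := fun {x y} hx hy => ⟨AddSubgroup.add_mem _ hx.1 hy.1, fun τ i => by
    obtain ⟨k, hk⟩ := hx.2 τ i
    obtain ⟨l, hl⟩ := hy.2 τ i
    refine ⟨k + l, ?_⟩
    rw [map_add, mul_add]
    apply AddSubgroup.add_mem
    · have h1 := JD_smul (S := S) (h_pow_mem_RD (R := d.R) (h := d.h) i l) hk
      rw [show d.h i ^ (k + l) * S.act τ x = d.h i ^ l * (d.h i ^ k * S.act τ x) by ring,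
        show D + (k + l) = l + (D + k) by ring]
      exact h1
    · have h1 := JD_smul (S := S) (h_pow_mem_RD (R := d.R) (h := d.h) i k) hl
      rw [show d.h i ^ (k + l) * S.act τ y = d.h i ^ k * (d.h i ^ l * S.act τ y) by ring,
        show D + (k + l) = k + (D + l) by ring]
      exact h1⟩
  neg_mem' := fun {x} hx => ⟨AddSubgroup.neg_mem _ hx.1, fun τ i => by
    obtain ⟨k, hk⟩ := hx.2 τ i
    refine ⟨k, ?_⟩
    rw [map_neg, mul_neg]
    exact AddSubgroup.neg_mem _ hk⟩

theorem sbLam_smul (d : RData S) {w : ℕ} {G : Set (Pos w × P)} {D E : ℕ} {φ : Pos w} {a x : P}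
    (ha : a ∈ RD d.R d.h E) (hx : x ∈ sbLam d G D φ) : a * x ∈ sbLam d G (E + D) φ := by
  refine ⟨?_, fun τ i => ?_⟩
  · have h1 := JD_smul (S := S) ha hx.1
    rw [← add_assoc] at h1
    exact h1
  · obtain ⟨k, hk⟩ := hx.2 τ i
    refine ⟨k, ?_⟩
    have h1 := JD_smul (S := S) (RD_act d.stab d.act_h τ ha) hk
    rw [map_mul, show d.h i ^ k * (S.act τ a * S.act τ x) = S.act τ a * (d.h i ^ k * S.act τ x) by
      ring, add_assoc]
    exact h1

theorem sbLam_act (d : RData S) {w : ℕ} {G : Set (Pos w × P)} {D : ℕ} {φ : Pos w} {x : P}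
    (τ : ℕ ↪o ℕ) (hx : x ∈ sbLam d G D φ) : S.act τ x ∈ sbLam d G D (φ.trans τ) := by
  refine ⟨JD_act d.stab d.act_h τ hx.1, fun σ i => ?_⟩
  obtain ⟨k, hk⟩ := hx.2 (τ.trans σ) i
  refine ⟨k, ?_⟩
  rw [act_act]
  exact hk

/-- The family of polynomials with coefficients in `sbLam`. -/
noncomputable def sbLt (d : RData S) {w : ℕ} (G : Set (Pos w × P)) :
    Pos w → AddSubgroup (Polynomial P) := fun φ =>
  { carrier := {p | p.coeff 0 = 0 ∧ ∀ D, p.coeff (D + 1) ∈ sbLam d G D φ}
    zero_mem' := ⟨Polynomial.coeff_zero 0, fun D => by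
      rw [Polynomial.coeff_zero]; exact AddSubgroup.zero_mem _⟩
    add_mem' := fun {p q} hp hq => ⟨by rw [Polynomial.coeff_add, hp.1, hq.1, add_zero],
      fun D => by rw [Polynomial.coeff_add]; exact AddSubgroup.add_mem _ (hp.2 D) (hq.2 D)⟩
    neg_mem' := fun {p} hp => ⟨by rw [Polynomial.coeff_neg, hp.1, neg_zero],
      fun D => by rw [Polynomial.coeff_neg]; exact AddSubgroup.neg_mem _ (hp.2 D)⟩ }

theorem isFam_sbLt (d : RData S) {w : ℕ} (G : Set (Pos w × P)) :
    IsFam (polyAct S) (RT d.R d.h) (sbLt d G) where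
  smul := fun φ a p ha hp => by
    refine ⟨?_, fun D => ?_⟩
    · rw [Polynomial.mul_coeff_zero, hp.1, mul_zero]
    · rw [Polynomial.coeff_mul]
      apply AddSubgroup.sum_mem
      intro x hx
      have e : x.1 + x.2 = D + 1 := Finset.HasAntidiagonal.mem_antidiagonal.mp hx
      rcases hx2 : x.2 with _ | j
      · rw [hp.1, mul_zero]
        exact AddSubgroup.zero_mem _
      · have e2 : x.1 + j = D := by omega
        rw [← e2]
        exact sbLam_smul d (ha x.1) (hp.2 j)
  act := fun φ τ p hp => by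
    refine ⟨?_, fun D => ?_⟩
    · show (Polynomial.mapRingHom (S.act τ) p).coeff 0 = 0
      rw [Polynomial.coe_mapRingHom, Polynomial.coeff_map, hp.1, map_zero]
    · show (Polynomial.mapRingHom (S.act τ) p).coeff (D + 1) ∈ _
      rw [Polynomial.coe_mapRingHom, Polynomial.coeff_map]
      exact sbLam_act d τ (hp.2 D)

theorem bF_le_sbLt (d : RData S) {w : ℕ} (G : Set (Pos w × P)) :
    bF S d.R d.h G ≤ sbLt d G := by
  intro φ p hp
  refine ⟨hp.1, fun D => ⟨JD_mono (Nat.le_succ D) φ (hp.2 D), fun τ i => ⟨0, ?_⟩⟩⟩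
  rw [pow_zero, one_mul, add_zero]
  exact JD_act d.stab d.act_h τ (hp.2 D)

theorem sbLt_le_DF (d : RData S) {w : ℕ} (G : Set (Pos w × P)) :
    sbLt d G ≤ DF S d.R d.h G := fun _ _ hp => ⟨hp.1, fun D => (hp.2 D).1⟩

/-- Covering: `(τ, i)` comes from finitely many pairs `(ext s, i')`. -/
theorem sb_cover (n : ℕ) (τ : ℕ ↪o ℕ) (i : ℕ) : ∃ (ε : ℕ ↪o ℕ) (s : Pos n) (i' : ℕ),
    i' < n + 1 ∧ (∀ j, s j < n + 1) ∧ ε i' = i ∧ ∀ j, j < n → τ j = ε (ext s j) := by
  classical
  have hU : (insert i ((Finset.range n).image τ)).card ≤ n + 1 := by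
    refine (Finset.card_insert_le _ _).trans ?_
    have := Finset.card_image_le (s := Finset.range n) (f := τ)
    rw [Finset.card_range] at this
    omega
  obtain ⟨ε, hε⟩ := exists_cover _ (n + 1) hU
  obtain ⟨i', hi', he⟩ := hε i (Finset.mem_insert_self _ _)
  have h1 : ∀ j : Fin n, ∃ m, m < n + 1 ∧ ε m = τ j := fun j =>
    hε (τ j) (Finset.mem_insert_of_mem (Finset.mem_image_of_mem _ (Finset.mem_range.mpr j.2)))
  choose m hm1 hm2 using h1
  have hmono : StrictMono m := by
    intro a b hab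
    rw [← ε.lt_iff_lt, hm2, hm2, τ.lt_iff_lt]
    exact hab
  refine ⟨ε, OrderEmbedding.ofStrictMono m hmono, i', hi', hm1, he, fun j hj => ?_⟩
  rw [ext_apply _ _ hj]
  exact (hm2 ⟨j, hj⟩).symm

theorem sb_unif_pow (d : RData S) {w : ℕ} {G : Set (Pos w × P)} {D : ℕ} {φ : Pos w} {y : P}
    (hy : y ∈ sbLam d G D φ) : ∃ k, ∀ (τ : ℕ ↪o ℕ) (i : ℕ),
      d.h i ^ k * S.act τ y ∈ JD S d.R d.h G (D + k) (φ.trans τ) := by
  classical
  obtain ⟨n1, hn1⟩ := exists_suppN (S := S) y
  set n := max n1 (Finset.univ.sup fun k : Fin w => φ k + 1) with hn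
  have hsupp : SuppN S n y := hn1.mono (le_max_left _ _)
  have hφ : ∀ k, φ k < n := fun k =>
    lt_of_lt_of_le (Nat.lt_succ_self _)
      ((Finset.le_sup (f := fun k : Fin w => φ k + 1) (Finset.mem_univ k)).trans (le_max_right _ _))
  choose K hK using hy.2
  -- the finite set of the pairs
  have hfin : Set.Finite {s : Pos n | ∀ j, s j < n + 1} := by
    apply Set.Finite.of_finite_image (f := fun s : Pos n => (s : Fin n → ℕ))
    · apply (Set.Finite.pi' (t := fun _ : Fin n => Set.Iio (n + 1))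
        (fun _ => Set.finite_Iio _)).subset
      rintro _ ⟨s, hs, rfl⟩ j
      exact hs j
    · intro s _ t _ hst
      exact DFunLike.coe_injective hst
  obtain ⟨B, hB⟩ : ∃ B, ∀ s : Pos n, (∀ j, s j < n + 1) → ∀ i', i' < n + 1 →
      K (ext s) i' ≤ B := by
    have h2 : Set.Finite ((fun q : Pos n × ℕ => K (ext q.1) q.2) ''
        ({s : Pos n | ∀ j, s j < n + 1} ×ˢ Set.Iio (n + 1))) :=
      (hfin.prod (Set.finite_Iio _)).image _
    obtain ⟨B, hB⟩ := h2.bddAbove
    exact ⟨B, fun s hs i' hi' => hB ⟨(s, i'), ⟨hs, hi'⟩, rfl⟩⟩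
  refine ⟨B, fun τ i => ?_⟩
  obtain ⟨ε, s, i', hi', hs, he, hτ⟩ := sb_cover n τ i
  have h3 := hK (ext s) i'
  have h4 := JD_smul (S := S) (h_pow_mem_RD (R := d.R) (h := d.h) i' (B - K (ext s) i')) h3
  have hle := hB s hs i' hi'
  rw [← mul_assoc, ← pow_add, Nat.sub_add_cancel hle,
    show B - K (ext s) i' + (D + K (ext s) i') = D + B by omega] at h4
  have h5 := JD_act d.stab d.act_h ε h4
  rw [map_mul, map_pow, d.act_h, he, act_act] at h5
  have h6 : S.act ((ext s).trans ε) y = S.act τ y := by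
    apply hsupp
    intro j hj
    exact (hτ j hj).symm
  have h7 : (φ.trans (ext s)).trans ε = φ.trans τ := by
    ext k
    exact (hτ (φ k) (hφ k)).symm
  rw [h6, h7] at h5
  exact h5

theorem sb_prod_mem_RD {R : Subring P} {h : ℕ → P} (l : List ℕ) {E : ℕ} (hl : l.length ≤ E) :
    (l.map h).prod ∈ RD R h E :=
  AddSubgroup.subset_closure ⟨1, R.one_mem, l, hl, by rw [one_mul]⟩

theorem sb_subperm {l1 l2 : List ℕ} (h : l1.Subperm l2) : ∃ l, l2.Perm (l1 ++ l) := by
  obtain ⟨l', h1, h2⟩ := h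
  obtain ⟨l, hl⟩ := h2.exists_perm_append
  exact ⟨l, hl.trans (h1.append_right l)⟩

theorem sb_unif (d : RData S) {w : ℕ} {G : Set (Pos w × P)} {D : ℕ} {φ : Pos w} {y : P}
    (hy : y ∈ sbLam d G D φ) : ∃ K, ∀ (τ : ℕ ↪o ℕ) (l : List ℕ), K ≤ l.length →
      (l.map d.h).prod * S.act τ y ∈ JD S d.R d.h G (D + l.length) (φ.trans τ) := by
  classical
  obtain ⟨k, hk⟩ := sb_unif_pow d hy
  refine ⟨d.r * k + 1, fun τ l hl => ?_⟩
  by_cases hc : d.r + 1 ≤ l.toFinset.card
  · obtain ⟨F, hF1, hF2⟩ := Finset.exists_subset_card_eq hc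
    -- split the list
    have hnd : F.toList.Subperm l := by
      apply List.Nodup.subperm F.nodup_toList
      intro a ha
      exact List.mem_toFinset.mp (hF1 (Finset.mem_toList.mp ha))
    obtain ⟨l1, hl1⟩ := sb_subperm hnd
    have h1 : (l.map d.h).prod = (∏ a ∈ F, d.h a) * (l1.map d.h).prod := by
      rw [(hl1.map d.h).prod_eq, List.map_append, List.prod_append]
      congr 1
      exact Finset.prod_map_toList F d.h
    have h2 : l.length = d.r + 1 + l1.length := by
      rw [hl1.length_eq, List.length_append, Finset.length_toList, hF2]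
    have h3 : ∏ a ∈ F, d.h a ∈ RD d.R d.h d.r := by
      have e := F.orderIsoOfFin hF2
      have h4 := d.princ (fun a => (e a : ℕ)) (fun a b hab => e.injective (Subtype.ext hab))
      have h5 : ∏ a : Fin (d.r + 1), d.h (e a) = ∏ a ∈ F, d.h a := by
        rw [← Finset.prod_coe_sort F]
        exact Fintype.prod_equiv e.toEquiv _ _ (fun a => rfl)
      rw [← h5]
      exact h4
    have h6 := JD_smul (S := S) (RD_mul h3 (sb_prod_mem_RD (R := d.R) (h := d.h) l1 le_rfl))
      (JD_act d.stab d.act_h τ hy.1)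
    rw [h1, h2]
    rw [show D + (d.r + 1 + l1.length) = d.r + l1.length + (D + 1) by ring]
    exact h6
  · -- some entry occurs at least `k` times
    obtain ⟨i, hi⟩ : ∃ i, k ≤ l.count i := by
      by_contra hcon
      push Not at hcon
      have h1 : l.length = ∑ a ∈ l.toFinset, l.count a := by
        rw [List.sum_toFinset_count_eq_length]
      have h2 : ∑ a ∈ l.toFinset, l.count a ≤ ∑ a ∈ l.toFinset, k :=
        Finset.sum_le_sum (fun a _ => (hcon a).le)
      rw [Finset.sum_const, smul_eq_mul] at h2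
      have h3 : l.toFinset.card * k ≤ d.r * k := Nat.mul_le_mul_right _ (by omega)
      omega
    have hsub : (List.replicate k i).Subperm l :=
      (List.replicate_sublist_iff.mpr hi).subperm
    obtain ⟨l1, hl1⟩ := sb_subperm hsub
    have h1 : (l.map d.h).prod = d.h i ^ k * (l1.map d.h).prod := by
      rw [(hl1.map d.h).prod_eq, List.map_append, List.prod_append, List.map_replicate,
        List.prod_replicate]
    have h2 : l.length = k + l1.length := by
      rw [hl1.length_eq, List.length_append, List.length_replicate]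
    have h6 := JD_smul (S := S) (sb_prod_mem_RD (R := d.R) (h := d.h) l1 le_rfl) (hk τ i)
    rw [h1, h2, show d.h i ^ k * (l1.map d.h).prod * S.act τ y =
      (l1.map d.h).prod * (d.h i ^ k * S.act τ y) by ring,
      show D + (k + l1.length) = l1.length + (D + k) by ring]
    exact h6

theorem s_one (d : RData S) (h5 : H5 S d) {w : ℕ} (G : Set (Pos w × P)) (hG : G.Finite) :
    ∃ D1, ∀ D, D1 ≤ D → ∀ (φ : Pos w), ∀ y ∈ JD S d.R d.h G (D + 1) φ,
      (∀ (τ : ℕ ↪o ℕ) (i : ℕ), ∃ k, d.h i ^ k * S.act τ y ∈ JD S d.R d.h G (D + k) (φ.trans τ)) →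
      y ∈ JD S d.R d.h G D φ := by
  classical
  obtain ⟨G', hG'f, hG'1, hG'2⟩ := noeth_DF d h5 G hG (sbLt d G) (isFam_sbLt d G)
    (bF_le_sbLt d G) (sbLt_le_DF d G)
  -- uniform bounds
  have hK : ∀ (g : Pos w × Polynomial P) (D : ℕ), ∃ K, g ∈ G' → ∀ (τ : ℕ ↪o ℕ) (l : List ℕ),
      K ≤ l.length → (l.map d.h).prod * S.act τ (g.2.coeff (D + 1)) ∈
        JD S d.R d.h G (D + l.length) (g.1.trans τ) := by
    intro g D
    by_cases hg : g ∈ G'
    · obtain ⟨K, hK⟩ := sb_unif d ((hG'1 g hg).2 D)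
      exact ⟨K, fun _ => hK⟩
    · exact ⟨0, fun h => absurd h hg⟩
  choose K hK using hK
  obtain ⟨N, hN⟩ : ∃ N, ∀ g ∈ G', g.2.natDegree ≤ N := by
    obtain ⟨N, hN⟩ := (hG'f.image (fun g : Pos w × Polynomial P => g.2.natDegree)).bddAbove
    exact ⟨N, fun g hg => hN ⟨g, hg, rfl⟩⟩
  obtain ⟨K0, hK0⟩ : ∃ K0, ∀ g ∈ G', ∀ D, D < N + 1 → K g D ≤ K0 := by
    obtain ⟨K0, hK0⟩ := ((hG'f.prod (Set.finite_Iio (N + 1))).image
      (fun q : (Pos w × Polynomial P) × ℕ => K q.1 q.2)).bddAbove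
    exact ⟨K0, fun g hg D hD => hK0 ⟨(g, D), ⟨hg, hD⟩, rfl⟩⟩
  refine ⟨N + K0 + 1, fun D hD φ y hy hy2 => ?_⟩
  -- coefficient `D + 1` of the elements generated by `G'`
  have hgen : ∀ c ∈ gen (polyAct S) (RT d.R d.h) G' φ, c.coeff (D + 1) ∈ JD S d.R d.h G D φ := by
    intro c hc
    unfold gen at hc
    induction hc using AddSubgroup.closure_induction with
    | mem c hc =>
      obtain ⟨g, hg, τ, hτ, a, ha, rfl⟩ := hc
      rw [Polynomial.coeff_mul]
      apply AddSubgroup.sum_mem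
      intro x hx
      have e : x.1 + x.2 = D + 1 := Finset.HasAntidiagonal.mem_antidiagonal.mp hx
      have hco : ((polyAct S).act τ g.2).coeff x.2 = S.act τ (g.2.coeff x.2) := by
        show (Polynomial.mapRingHom (S.act τ) g.2).coeff x.2 = _
        rw [Polynomial.coe_mapRingHom, Polynomial.coeff_map]
      rw [hco]
      rcases hx2 : x.2 with _ | j
      · rw [(hG'1 g hg).1, map_zero, mul_zero]
        exact AddSubgroup.zero_mem _
      by_cases hj : g.2.natDegree < j + 1
      · rw [Polynomial.coeff_eq_zero_of_natDegree_lt hj, map_zero, mul_zero]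
        exact AddSubgroup.zero_mem _
      have hjN : j < N + 1 := by have := hN g hg; omega
      have hKj : K g j ≤ K0 := hK0 g hg j hjN
      have e2 : x.1 + j = D := by omega
      have hx1 : K g j ≤ x.1 := by omega
      have ha1 := ha x.1
      generalize a.coeff x.1 = b at ha1
      unfold RD at ha1
      rw [← hτ]
      induction ha1 using AddSubgroup.closure_induction with
      | mem b hb =>
        obtain ⟨c0, hc0, l, hl, rfl⟩ := hb
        rw [mul_assoc]
        rw [← zero_add D]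
        apply JD_smul (S := S) (mem_RD_of_mem (D := 0) hc0)
        by_cases hlt : l.length < x.1
        · have h1 := JD_smul (S := S) (sb_prod_mem_RD (R := d.R) (h := d.h) l le_rfl)
            (JD_act d.stab d.act_h τ ((hG'1 g hg).2 j).1)
          exact JD_mono (by omega) _ h1
        · have hle : l.length = x.1 := by omega
          have h1 := hK g j hg τ l (by omega)
          exact JD_mono (by omega) _ h1
      | zero => rw [zero_mul]; exact AddSubgroup.zero_mem _
      | add b b' _ _ hb hb' => rw [add_mul]; exact AddSubgroup.add_mem _ hb hb'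
      | neg b _ hb => rw [neg_mul]; exact AddSubgroup.neg_mem _ hb
    | zero => rw [Polynomial.coeff_zero]; exact AddSubgroup.zero_mem _
    | add c c' _ _ hc hc' => rw [Polynomial.coeff_add]; exact AddSubgroup.add_mem _ hc hc'
    | neg c _ hc => rw [Polynomial.coeff_neg]; exact AddSubgroup.neg_mem _ hc
  have hp : Polynomial.monomial (D + 1) y ∈ sbLt d G φ := by
    refine ⟨?_, fun E => ?_⟩
    · rw [Polynomial.coeff_monomial, if_neg (by omega)]
    · rw [Polynomial.coeff_monomial]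
      split
      · next hE =>
        have hE' : D = E := by omega
        rw [← hE']
        exact ⟨hy, hy2⟩
      · exact AddSubgroup.zero_mem _
  obtain ⟨b, hb, c, hc, hbc⟩ := AddSubgroup.mem_sup.mp (hG'2 φ hp)
  have h1 : y = b.coeff (D + 1) + c.coeff (D + 1) := by
    rw [← Polynomial.coeff_add, hbc, Polynomial.coeff_monomial, if_pos rfl]
  rw [h1]
  exact AddSubgroup.add_mem _ (hb.2 D) (hgen c hc)

end MPf70651.Full
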