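import Pool.Agent.Lib_MP_f70651_al.Full.Jc
import Pool.Agent.Lib_MP_f70651_al.Full.Fgn
import Pool.Agent.Lib_MP_f70651_al.Full.Soneb

/-!
# MP_f70651_al, full version : Rstep
-/

namespace MPf70651.Full

open MPf70651 MvPolynomial

variable {P : Type} [CommRing P] {S : IncAct P}

theorem artin_rees (d : RData S) (h5 : H5 S d) (h6 : H6 S d) {w : ℕ} (G : Set (Pos w × P))
    (hG : G.Finite) (hGR : ∀ g ∈ G, g.2 ∈ d.R) :
    ∃ c0, ∀ (φ : Pos w) (y : P), y ∈ d.R → (∃ D, y ∈ JD S d.R d.h G D φ) →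
      y ∈ JD S d.R d.h G c0 φ := by
  obtain ⟨D1, hD1⟩ := s_one d h5 G hG
  obtain ⟨c1, hc1⟩ := h6 w G hG hGR
  refine ⟨max D1 c1, ?_⟩
  rintro φ y hy ⟨D, hD⟩
  induction D with
  | zero => exact JD_mono (Nat.zero_le _) φ hD
  | succ D ih =>
    by_cases hc : max D1 c1 ≤ D
    · apply ih
      apply hD1 D ((le_max_left _ _).trans hc) φ y hD
      intro τ i
      obtain ⟨k, hk⟩ := hc1 (φ.trans τ) i (S.act τ y) (d.stab τ y hy)
        ⟨D + 1, JD_act d.stab d.act_h τ hD⟩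
      refine ⟨k, JD_mono ?_ _ hk⟩
      have := (le_max_right D1 c1).trans hc
      omega
    · exact JD_mono (by omega) φ hD

theorem rstep (d : RData S) (h5 : H5 S d) (h6 : H6 S d)
    (hNA : ∀ w, Noeth S d.R' (cst w ⊥) (cst w d.R'.toAddSubgroup)) (w : ℕ) :
    Noeth S d.R (cst w ⊥) (cst w d.R.toAddSubgroup) := by
  intro N hN _ hNR
  have hNR' : N ≤ cst w d.R'.toAddSubgroup := fun φ x hx => d.R_le (hNR φ hx)
  obtain ⟨G, hG, hGN, hgen⟩ := exists_fin_gen d.stab' hN hNR' (hNA w)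
  obtain ⟨c0, hc0⟩ := artin_rees d h5 h6 G hG (fun g hg => hNR _ (hGN g hg))
  have h1 : N ≤ JD S d.R d.h G c0 := fun φ y hy =>
    hc0 φ y (hNR φ hy) (exists_JD d.gen' (hgen φ hy))
  have h2 : JD S d.R d.h G 0 ≤ N := by
    rw [JD_zero]
    exact gen_le hN hGN
  have h3 := noeth_JD d h5 G hG c0 N hN h2 h1
  rw [JD_zero] at h3
  have h4 : FG S d.R (cst w ⊥) (gen S d.R G) :=
    ⟨G, hG, fun g hg => mem_gen_self hg, fun φ => le_sup_right⟩
  rw [JD_zero] at h2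
  exact h4.trans h3 h2

end MPf70651.Full
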