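import Pool.Agent.Lib_MP_f70651_al.Full.Straight
import Pool.Agent.Lib_MP_f70651_al.Full.Indep

/-!
# MP_f70651_al, full version : Sft
-/

namespace MPf70651.Full

open MPf70651 MvPolynomial

theorem sft (row col : ℕ → ℕ) (hrow : Function.Injective row) (hcol : Function.Injective col)
    (L : Set {p : ℕ × ℕ // p.1 ≠ p.2}) (hL : Closed row col L) (ρ : ℕ) (κ : RR)
    (hκ : ∀ p ∈ κ.vars, p ∈ L) (h : PhiR ρ κ = 0) : κ ∈ IR (ρ + 1) := by
  obtain ⟨κ', h1, h2⟩ := straighten row col L hL (ρ + 1) κ hκ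
  have h3 : PhiR ρ κ' = 0 := by
    have h4 := IR_le_ker ρ _ h1
    rw [map_sub, h, zero_sub, neg_eq_zero] at h4
    exact h4
  have h5 := indep row col hrow hcol ρ κ' h2 h3
  rw [h5, sub_zero] at h1
  exact h1

end MPf70651.Full
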