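import Pool.Agent.Lib_MP_f70651_al.Full.Covb

/-!
# MP_f70651_al, full version : Sonea
-/

namespace MPf70651.Full

open MPf70651 MvPolynomial

variable {P : Type} [CommRing P] {S : IncAct P}

theorem sonea_fin_pos (n M : ℕ) : {σ : Pos n | ∀ i, σ i < M}.Finite := by
  have : Finite {σ : Pos n | ∀ i, σ i < M} := by
    refine Finite.of_injective (β := Fin n → Fin M)
      (fun σ => fun i => (⟨σ.1 i, σ.2 i⟩ : Fin M)) ?_
    intro σ τ h
    apply Subtype.ext
    ext i
    exact congrArg Fin.val (congrFun h i)
  exact Set.toFinite _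

theorem sonea_isFam_bF (d : RData S) {w : ℕ} (G : Set (Pos w × P)) :
    IsFam (polyAct S) (RT d.R d.h) (bF S d.R d.h G) where
  smul := fun φ a x ha hx => by
    refine ⟨?_, fun D => ?_⟩
    · rw [Polynomial.mul_coeff_zero, hx.1, mul_zero]
    · rw [Polynomial.coeff_mul]
      apply AddSubgroup.sum_mem
      rintro ⟨i, j⟩ hij
      have e : i + j = D + 1 := Finset.HasAntidiagonal.mem_antidiagonal.mp hij
      cases j with
      | zero =>
        show a.coeff i * x.coeff 0 ∈ _
        rw [hx.1, mul_zero]
        exact AddSubgroup.zero_mem _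
      | succ j =>
        have h1 := JD_smul (S := S) (ha i) (hx.2 j)
        have h2 : i + j = D := by omega
        rw [h2] at h1
        exact h1
  act := fun φ τ x hx => by
    refine ⟨?_, fun D => ?_⟩
    · rw [polyAct_coeff, hx.1, map_zero]
    · rw [polyAct_coeff]
      exact JD_act d.stab d.act_h τ (hx.2 D)

theorem sonea_trans_ext {w : ℕ} (φ : Pos w) {m : ℕ} (hφ : ∀ k, φ k < m) (σ τ : ℕ ↪o ℕ)
    (h : ∀ i, i < m → σ i = τ i) : φ.trans σ = φ.trans τ := by
  ext k
  exact h _ (hφ k)

/-- The generators of `DF` modulo `bF`. -/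
noncomputable def soneaG (d : RData S) {w : ℕ} (G : Set (Pos w × P)) (m : Pos w × P → ℕ) :
    Set (Pos w × Polynomial P) :=
  ⋃ g ∈ G, (fun q : Pos (m g) × ℕ =>
    ((g.1.trans (ext q.1), Polynomial.X * Polynomial.C (d.h q.2 * S.act (ext q.1) g.2)) :
      Pos w × Polynomial P)) '' ({σ : Pos (m g) | ∀ i, σ i < m g + 1} ×ˢ {j : ℕ | j < m g + 1})

theorem soneaG_finite (d : RData S) {w : ℕ} (G : Set (Pos w × P)) (hG : G.Finite)
    (m : Pos w × P → ℕ) : (soneaG d G m).Finite :=
  hG.biUnion fun _ _ => ((sonea_fin_pos _ _).prod (Set.finite_lt_nat _)).image _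

theorem sonea_mono (d : RData S) {w : ℕ} (G : Set (Pos w × P)) (m : Pos w × P → ℕ)
    (hm1 : ∀ g, SuppN S (m g) g.2) (hm2 : ∀ g k, g.1 k < m g) (φ : Pos w) (D : ℕ) (y : P)
    (hy : y ∈ JD S d.R d.h G (D + 1) φ) :
    Polynomial.monomial (D + 1) y ∈
      (bF S d.R d.h G ⊔ gen (polyAct S) (RT d.R d.h) (soneaG d G m)) φ := by
  classical
  unfold JD at hy
  induction hy using AddSubgroup.closure_induction with
  | zero => rw [map_zero]; exact AddSubgroup.zero_mem _
  | add x y _ _ hx hy => rw [map_add]; exact AddSubgroup.add_mem _ hx hy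
  | neg x _ hx => rw [map_neg]; exact AddSubgroup.neg_mem _ hx
  | mem x hx =>
    obtain ⟨g, hg, τ, hτ, a, ha, rfl⟩ := hx
    unfold RD at ha
    induction ha using AddSubgroup.closure_induction with
    | zero => rw [zero_mul, map_zero]; exact AddSubgroup.zero_mem _
    | add x y _ _ hx hy => rw [add_mul, map_add]; exact AddSubgroup.add_mem _ hx hy
    | neg x _ hx => rw [neg_mul, map_neg]; exact AddSubgroup.neg_mem _ hx
    | mem x hx =>
      obtain ⟨c, hc, l, hl, rfl⟩ := hx
      by_cases hlD : l.length ≤ D
      · apply AddSubgroup.mem_sup_left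
        refine ⟨?_, fun E => ?_⟩
        · rw [Polynomial.coeff_monomial, if_neg (by omega)]
        · rw [Polynomial.coeff_monomial]
          split
          · next h =>
            have h1 : D = E := by omega
            subst h1
            exact AddSubgroup.subset_closure ⟨g, hg, τ, hτ, _,
              AddSubgroup.subset_closure ⟨c, hc, l, hlD, rfl⟩, rfl⟩
          · exact AddSubgroup.zero_mem _
      · apply AddSubgroup.mem_sup_right
        cases l with
        | nil => simp at hlD
        | cons j l =>
          have hl' : l.length ≤ D := by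
            rw [List.length_cons] at hl
            omega
          let U : Finset ℕ := (Finset.range (m g)).image τ ∪ {j}
          have hU : U.card ≤ m g + 1 := by
            refine (Finset.card_union_le _ _).trans (add_le_add ?_ ?_)
            · exact Finset.card_image_le.trans (by simp)
            · simp
          obtain ⟨ε, hε⟩ := exists_cover U (m g + 1) hU
          have hinv : ∀ u : ℕ, ∃ i, u ∈ U → i < m g + 1 ∧ ε i = u := by
            intro u
            by_cases hu : u ∈ U
            · obtain ⟨i, hi⟩ := hε u hu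
              exact ⟨i, fun _ => hi⟩
            · exact ⟨0, fun h => absurd h hu⟩
          choose inv hinv using hinv
          have hτU : ∀ i, i < m g → τ i ∈ U := fun i hi =>
            Finset.mem_union_left _ (Finset.mem_image_of_mem _ (Finset.mem_range.mpr hi))
          have hjU : j ∈ U := Finset.mem_union_right _ (Finset.mem_singleton_self j)
          let σ : Pos (m g) := OrderEmbedding.ofStrictMono (fun i : Fin (m g) => inv (τ i)) (by
            intro i j hij
            have h1 := hinv _ (hτU i i.2)
            have h2 := hinv _ (hτU j j.2)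
            apply ε.lt_iff_lt.mp
            rw [h1.2, h2.2]
            exact τ.strictMono hij)
          have hσ : ∀ i, ∀ hi : i < m g, ε (ext σ i) = τ i := by
            intro i hi
            rw [ext_apply _ _ hi]
            exact (hinv _ (hτU i hi)).2
          have hmem : ((g.1.trans (ext σ),
              Polynomial.X * Polynomial.C (d.h (inv j) * S.act (ext σ) g.2)) :
              Pos w × Polynomial P) ∈ soneaG d G m := by
            unfold soneaG
            simp only [Set.mem_iUnion]
            refine ⟨g, hg, (σ, inv j), ⟨?_, ?_⟩, rfl⟩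
            · intro i
              exact (hinv _ (hτU i i.2)).1
            · exact (hinv _ hjU).1
          have h0 : c * (l.map d.h).prod ∈ RD d.R d.h D :=
            AddSubgroup.subset_closure ⟨c, hc, l, hl', rfl⟩
          have h1 := mem_gen (S := polyAct S) (B := RT d.R d.h) hmem ε
            (Polynomial.monomial D (c * (l.map d.h).prod)) (monomial_mem_RT h0)
          have h2 : (g.1.trans (ext σ)).trans ε = φ := by
            rw [← hτ]
            exact sonea_trans_ext g.1 (hm2 g) ((ext σ).trans ε) τ (fun i hi => hσ i hi)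
          have h3 : (polyAct S).act ε (Polynomial.X *
              Polynomial.C (d.h (inv j) * S.act (ext σ) g.2)) =
              Polynomial.X * Polynomial.C (d.h j * S.act τ g.2) := by
            show Polynomial.mapRingHom (S.act ε) _ = _
            rw [Polynomial.coe_mapRingHom, Polynomial.map_mul, Polynomial.map_X, Polynomial.map_C,
              map_mul, d.act_h, (hinv _ hjU).2, act_act]
            congr 3
            exact hm1 g _ _ (fun i hi => hσ i hi)
          have h4 : Polynomial.monomial (D + 1) (c * ((j :: l).map d.h).prod * S.act τ g.2) =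
              Polynomial.monomial D (c * (l.map d.h).prod) *
                (Polynomial.X * Polynomial.C (d.h j * S.act τ g.2)) := by
            rw [← mul_assoc, Polynomial.monomial_mul_X, Polynomial.monomial_mul_C]
            congr 1
            rw [List.map_cons, List.prod_cons]
            ring
          simp only at h1
          rw [h2, h3] at h1
          rw [h4]
          exact h1

theorem sonea_le (d : RData S) {w : ℕ} (G : Set (Pos w × P)) (m : Pos w × P → ℕ)
    (hm1 : ∀ g, SuppN S (m g) g.2) (hm2 : ∀ g k, g.1 k < m g) :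
    DF S d.R d.h G ≤ bF S d.R d.h G ⊔ gen (polyAct S) (RT d.R d.h) (soneaG d G m) := by
  intro φ p hp
  rw [p.as_sum_support]
  apply AddSubgroup.sum_mem
  intro i _
  cases i with
  | zero =>
    rw [hp.1, map_zero]
    exact AddSubgroup.zero_mem _
  | succ D => exact sonea_mono d G m hm1 hm2 φ D _ (hp.2 D)

theorem sonea_ann (d : RData S) {w : ℕ} (G : Set (Pos w × P)) (g : Pos w × P) (hg : g ∈ G)
    (σ τ : ℕ ↪o ℕ) (j n : ℕ) (hj : j < n) (ψ : Pos n) (a : Polynomial P)
    (ha : a ∈ (DD (RT d.R d.h) d.V (fun p => Polynomial.C (d.Δ p)) 1 n ⊔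
      cst n (XRT d.R d.h)) ψ) (hτ : ∀ i, ∀ hi : i < n, τ i = ψ ⟨i, hi⟩) :
    a * (polyAct S).act τ (Polynomial.X * Polynomial.C (d.h j * S.act σ g.2)) ∈
      bF S d.R d.h G ((g.1.trans σ).trans τ) := by
  have h3 : (polyAct S).act τ (Polynomial.X * Polynomial.C (d.h j * S.act σ g.2)) =
      Polynomial.X * Polynomial.C (d.h (τ j) * S.act (σ.trans τ) g.2) := by
    show Polynomial.mapRingHom (S.act τ) _ = _
    rw [Polynomial.coe_mapRingHom, Polynomial.map_mul, Polynomial.map_X, Polynomial.map_C,
      map_mul, d.act_h, act_act]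
  rw [h3]
  obtain ⟨x, hx, y, hy, rfl⟩ := AddSubgroup.mem_sup.mp ha
  clear ha
  rw [add_mul]
  refine AddSubgroup.add_mem _ ?_ ?_
  · unfold DD at hx
    induction hx using AddSubgroup.closure_induction with
    | zero => rw [zero_mul]; exact AddSubgroup.zero_mem _
    | add x y _ _ hx hy => rw [add_mul]; exact AddSubgroup.add_mem _ hx hy
    | neg x _ hx => rw [neg_mul]; exact AddSubgroup.neg_mem _ hx
    | mem x hx =>
      obtain ⟨b, hb, p, hp1, hp2, _, rfl⟩ := hx
      have hab : d.Δ (p 0) * d.h (τ j) ∈ d.R := by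
        apply d.absorb _ _ (hp1 0)
        intro k
        rw [hτ j hj]
        exact hp2 0 k _
      have e : b * (∏ l : Fin 1, Polynomial.C (d.Δ (p l))) *
          (Polynomial.X * Polynomial.C (d.h (τ j) * S.act (σ.trans τ) g.2)) =
          (b * Polynomial.C ((d.Δ (p 0) * d.h (τ j)) * S.act (σ.trans τ) g.2)) *
            Polynomial.X := by
        rw [Fin.prod_univ_one, map_mul, map_mul, map_mul]
        ring
      rw [e]
      refine ⟨?_, fun D => ?_⟩
      · rw [Polynomial.coeff_mul_X_zero]
      · rw [Polynomial.coeff_mul_X, Polynomial.coeff_mul_C, ← mul_assoc]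
        apply AddSubgroup.subset_closure
        refine ⟨g, hg, σ.trans τ, rfl, _, ?_, rfl⟩
        have h5 := RD_mul (hb D) (mem_RD_of_mem (D := 0) (h := d.h) hab)
        exact h5
  · obtain ⟨z, hz, rfl⟩ := hy
    have e : (AddMonoidHom.mulLeft (Polynomial.X : Polynomial P)) z *
        (Polynomial.X * Polynomial.C (d.h (τ j) * S.act (σ.trans τ) g.2)) =
        (z * Polynomial.C (d.h (τ j) * S.act (σ.trans τ) g.2)) * Polynomial.X ^ 2 := by
      show Polynomial.X * z * _ = _
      ring
    rw [e]
    refine ⟨?_, fun D => ?_⟩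
    · rw [Polynomial.coeff_mul_X_pow', if_neg (by omega)]
    · rw [Polynomial.coeff_mul_X_pow']
      split
      · next h =>
        rw [Polynomial.coeff_mul_C, ← mul_assoc]
        apply AddSubgroup.subset_closure
        refine ⟨g, hg, σ.trans τ, rfl, _, ?_, rfl⟩
        have h5 := RD_mul (hz (D + 1 - 2)) (h_mem_RD (R := d.R) (h := d.h) (τ j))
        have h6 : D + 1 - 2 + 1 = D := by omega
        rw [h6] at h5
        exact h5
      · exact AddSubgroup.zero_mem _

theorem noeth_DF (d : RData S) (h5 : H5 S d) {w : ℕ} (G : Set (Pos w × P)) (hG : G.Finite) :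
    Noeth (polyAct S) (RT d.R d.h) (bF S d.R d.h G) (DF S d.R d.h G) := by
  have hm : ∀ x : Pos w × P, ∃ m, SuppN S m x.2 ∧ ∀ k, x.1 k < m := by
    intro x
    obtain ⟨n, hn⟩ := exists_suppN (S := S) x.2
    refine ⟨max n (Finset.univ.sup (fun k => x.1 k + 1)), hn.mono (le_max_left _ _), fun k => ?_⟩
    refine lt_of_lt_of_le ?_ (le_max_right _ _)
    exact Nat.lt_of_succ_le (Finset.le_sup (f := fun k => x.1 k + 1) (Finset.mem_univ k))
  choose m hm1 hm2 using hm
  have hR := stab_RT d.stab d.act_h
  apply cover hR (sonea_isFam_bF d G) (soneaG d G m) (soneaG_finite d G hG m)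
    (sonea_le d G m hm1 hm2)
  intro g' hg'
  unfold soneaG at hg'
  simp only [Set.mem_iUnion] at hg'
  obtain ⟨g, hg, ⟨s, j⟩, ⟨_, hj⟩, rfl⟩ := hg'
  obtain ⟨n, hn⟩ := exists_suppN (S := polyAct S)
    (Polynomial.X * Polynomial.C (d.h j * S.act (ext s) g.2))
  refine ⟨max (max n (m g + 1)) (Finset.univ.sup (fun k => (g.1.trans (ext s)) k + 1)),
    hn.mono ((le_max_left _ _).trans (le_max_left _ _)), fun k => ?_,
    DD (RT d.R d.h) d.V (fun p => Polynomial.C (d.Δ p)) 1 _ ⊔ cst _ (XRT d.R d.h), ?_, ?_, ?_⟩
  · refine lt_of_lt_of_le ?_ (le_max_right _ _)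
    exact Nat.lt_of_succ_le
      (Finset.le_sup (f := fun k => (g.1.trans (ext s)) k + 1) (Finset.mem_univ k))
  · intro ψ
    apply sup_le
    · exact DD_le (fun p hp => C_mem_RT (d.Δ_mem p hp)) _ _ _
    · exact XRT_le
  · intro ψ a ha
    apply sonea_ann d G g hg (ext s) (ext ψ) j _ ?_ ψ a ha
    · intro i hi
      exact ext_apply _ _ hi
    · have h7 : j < m g + 1 := hj
      exact lt_of_lt_of_le h7 ((le_max_right _ _).trans (le_max_left _ _))
  · exact h5 _

end MPf70651.Full
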