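import Pool.Agent.Lib_MP_f70651_al.Full.Ladder

/-!
# MP_f70651_al, full version : Straight
-/

namespace MPf70651.Full

open MPf70651 MvPolynomial

/-- Off diagonal cells. -/
abbrev OCell := {p : ℕ × ℕ // p.1 ≠ p.2}

theorem weight_bound (r c : OCell → ℕ) (m : OCell →₀ ℕ) :
    Finsupp.weight (fun p => r p * c p) m ≤ Finsupp.weight r m * Finsupp.weight c m := by
  rw [Finsupp.weight_apply, Finsupp.weight_apply, Finsupp.weight_apply, Finsupp.sum, Finsupp.sum,
    Finsupp.sum, Finset.sum_mul]
  apply Finset.sum_le_sum
  intro p hp
  have h1 : m p • c p ≤ ∑ q ∈ m.support, m q • c q :=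
    Finset.single_le_sum (f := fun q => m q • c q) (fun _ _ => Nat.zero_le _) hp
  have h2 : 1 ≤ m p := Nat.one_le_iff_ne_zero.2 (Finsupp.mem_support_iff.1 hp)
  have h3 : c p ≤ m p • c p := by
    rw [smul_eq_mul]
    exact Nat.le_mul_of_pos_left _ h2
  rw [smul_eq_mul, smul_eq_mul, ← mul_assoc]
  exact Nat.mul_le_mul_left _ (h3.trans h1)

/-- The polynomials which can be straightened. -/
noncomputable def Tsub (row col : ℕ → ℕ) (k : ℕ) : Submodule ℂ RR :=
  (IR k).restrictScalars ℂ ⊔ restrictSupport ℂ {m | Good row col k m}

theorem sum_single_le {k : ℕ} (s : Fin k → OCell) (hs : Function.Injective s)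
    (m : OCell →₀ ℕ) (hm : ∀ a, s a ∈ m.support) :
    ∑ a, Finsupp.single (s a) 1 ≤ m := by
  classical
  intro p
  rw [Finsupp.finsetSum_apply]
  simp only [Finsupp.single_apply]
  rw [Finset.sum_boole]
  by_cases h : ∃ a, s a = p
  · obtain ⟨a, rfl⟩ := h
    have h1 : (Finset.univ.filter (fun b => s b = s a)).card ≤ 1 := by
      rw [Finset.card_le_one]
      intro x hx y hy
      rw [Finset.mem_filter] at hx hy
      exact hs (hx.2.trans hy.2.symm)
    have h2 : 1 ≤ m (s a) := Nat.one_le_iff_ne_zero.2 (Finsupp.mem_support_iff.1 (hm a))
    exact (by exact_mod_cast h1 : ((Finset.univ.filter (fun b => s b = s a)).card : ℕ) ≤ 1).trans h2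
  · have : Finset.univ.filter (fun b => s b = p) = ∅ := by
      apply Finset.filter_eq_empty_iff.2
      intro b _ hb
      exact h ⟨b, hb⟩
    rw [this]
    exact Nat.zero_le _

theorem monomial_mem_Tsub (row col : ℕ → ℕ) (L : Set OCell) (hL : Closed row col L) (k : ℕ)
    (N : ℕ) : ∀ m : OCell →₀ ℕ, (∀ p ∈ m.support, p ∈ L) →
      Finsupp.weight (fun p : OCell => row p.1.1) m * Finsupp.weight (fun p : OCell => col p.1.2) m <
        Finsupp.weight (fun p : OCell => row p.1.1 * col p.1.2) m + N →
      (monomial m (1 : ℂ) : RR) ∈ Tsub row col k := by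
  classical
  induction N with
  | zero =>
    intro m _ h
    have := weight_bound (fun p : OCell => row p.1.1) (fun p : OCell => col p.1.2) m
    omega
  | succ N ih =>
    intro m hmL hN
    by_cases hg : Good row col k m
    · apply Submodule.mem_sup_right
      rw [monomial_mem_restrictSupport]
      exact Or.inl hg
    · unfold Good at hg
      push Not at hg
      obtain ⟨s, hs, hs2⟩ := hg
      have hinj : Function.Injective s := by
        intro a b hab
        rcases lt_trichotomy a b with h | h | h
        · have := (hs2 a b h).1
          rw [hab] at this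
          exact absurd this (lt_irrefl _)
        · exact h
        · have := (hs2 b a h).1
          rw [hab] at this
          exact absurd this (lt_irrefl _)
      have hcell : ∀ a b, ∃ h : (s a).1.1 ≠ (s b).1.2,
          (⟨((s a).1.1, (s b).1.2), h⟩ : OCell) ∈ L := by
        intro a b
        rcases lt_trichotomy a b with h | h | h
        · exact (hL _ (hmL _ (hs a)) _ (hmL _ (hs b)) (hs2 a b h).1 (hs2 a b h).2).1
        · subst h
          exact ⟨(s a).2, hmL _ (hs a)⟩
        · exact (hL _ (hmL _ (hs b)) _ (hmL _ (hs a)) (hs2 b a h).1 (hs2 b a h).2).2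
      choose hne hin using hcell
      set cell : Equiv.Perm (Fin k) → Fin k → OCell := fun σ a =>
        ⟨((s (σ a)).1.1, (s a).1.2), hne (σ a) a⟩ with hcelldef
      set m0 : Equiv.Perm (Fin k) → (OCell →₀ ℕ) := fun σ =>
        ∑ a, Finsupp.single (cell σ a) 1 with hm0
      have hone : m0 1 = ∑ a, Finsupp.single (s a) 1 := rfl
      have hle : m0 1 ≤ m := by
        rw [hone]
        exact sum_single_le s hinj m hs
      set m' := m - m0 1 with hm'
      have hmm : m' + m0 1 = m := tsub_add_cancel_of_le hle
      -- the minor
      have hdet : minor k yR (Sum.elim (fun a => (s a).1.1) (fun a => (s a).1.2)) =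
          ∑ σ : Equiv.Perm (Fin k), ((Equiv.Perm.sign σ : ℤ) : RR) * monomial (m0 σ) (1 : ℂ) := by
        unfold minor
        rw [Matrix.det_apply']
        apply Finset.sum_congr rfl
        intro σ _
        congr 1
        rw [hm0]
        rw [monomial_sum_one]
        apply Finset.prod_congr rfl
        intro a _
        show yR (s (σ a)).1.1 (s a).1.2 = _
        unfold yR
        rw [dif_pos (hne (σ a) a)]
        rfl
      have hIR : minor k yR (Sum.elim (fun a => (s a).1.1) (fun a => (s a).1.2)) ∈ IR k :=
        Ideal.subset_span ⟨_, fun a b => hne a b, rfl⟩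
      have hkey : (monomial m (1 : ℂ) : RR) = monomial m' (1 : ℂ) *
          minor k yR (Sum.elim (fun a => (s a).1.1) (fun a => (s a).1.2)) -
          ∑ σ ∈ Finset.univ.erase (1 : Equiv.Perm (Fin k)),
            (((Equiv.Perm.sign σ : ℤ) : ℂ)) • monomial (m' + m0 σ) (1 : ℂ) := by
        rw [hdet, ← Finset.add_sum_erase Finset.univ _ (Finset.mem_univ (1 : Equiv.Perm (Fin k))),
          mul_add, Finset.mul_sum]
        have h1 : ∀ σ : Equiv.Perm (Fin k), (monomial m' (1 : ℂ) : RR) *
            (((Equiv.Perm.sign σ : ℤ) : RR) * monomial (m0 σ) (1 : ℂ)) =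
            (((Equiv.Perm.sign σ : ℤ) : ℂ)) • monomial (m' + m0 σ) (1 : ℂ) := by
          intro σ
          rw [mul_left_comm, monomial_mul, one_mul, MvPolynomial.smul_eq_C_mul]
          congr 1
        rw [Finset.sum_congr rfl (fun σ _ => h1 σ), h1 1, hmm]
        simp
      rw [hkey]
      apply Submodule.sub_mem
      · apply Submodule.mem_sup_left
        exact (IR k).mul_mem_left _ hIR
      · apply Submodule.sum_mem
        intro σ hσ
        apply Submodule.smul_mem
        have hσ1 : σ ≠ 1 := (Finset.mem_erase.1 hσ).1
        apply ih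
        · intro p hp
          rcases Finset.mem_union.1 (Finsupp.support_add hp) with h | h
          · apply hmL
            rw [Finsupp.mem_support_iff] at h ⊢
            intro h0
            apply h
            rw [hm', Finsupp.tsub_apply, h0, Nat.zero_sub]
          · rw [Finsupp.mem_support_iff, hm0, Finsupp.finsetSum_apply] at h
            obtain ⟨a, _, ha⟩ := Finset.exists_ne_zero_of_sum_ne_zero h
            rw [Finsupp.single_apply] at ha
            have : cell σ a = p := by
              by_contra hc
              rw [if_neg hc] at ha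
              exact ha rfl
            rw [← this]
            exact hin (σ a) a
        · have hw : ∀ (w : OCell → ℕ) (τ : Equiv.Perm (Fin k)),
              Finsupp.weight w (m' + m0 τ) = Finsupp.weight w m' + ∑ a, w (cell τ a) := by
            intro w τ
            rw [map_add, hm0, map_sum]
            congr 1
            apply Finset.sum_congr rfl
            intro a _
            rw [Finsupp.weight_single, one_smul]
          have hr : Finsupp.weight (fun p : OCell => row p.1.1) (m' + m0 σ) =
              Finsupp.weight (fun p : OCell => row p.1.1) m := by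
            conv_rhs => rw [← hmm]
            rw [hw, hw]
            congr 1
            exact Equiv.sum_comp σ (fun a => row (s a).1.1)
          have hc : Finsupp.weight (fun p : OCell => col p.1.2) (m' + m0 σ) =
              Finsupp.weight (fun p : OCell => col p.1.2) m := by
            conv_rhs => rw [← hmm]
            rw [hw, hw]
          have hlt : Finsupp.weight (fun p : OCell => row p.1.1 * col p.1.2) m <
              Finsupp.weight (fun p : OCell => row p.1.1 * col p.1.2) (m' + m0 σ) := by
            conv_lhs => rw [← hmm]
            rw [hw, hw]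
            apply Nat.add_lt_add_left
            show ∑ a, row (s a).1.1 * col (s a).1.2 < ∑ a, row (s (σ a)).1.1 * col (s a).1.2
            have hanti : Antivary (fun a => row (s a).1.1) (fun a => col (s a).1.2) := by
              intro a b hab
              rcases lt_trichotomy a b with h | h | h
              · exact absurd (hs2 a b h).2 (not_lt.2 hab.le)
              · subst h; exact le_rfl
              · exact (hs2 b a h).1.le
            refine (hanti.sum_mul_lt_sum_comp_perm_mul_iff (σ := σ)).2 ?_
            intro hcon
            apply hσ1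
            have hmono : Monotone σ := by
              intro a b hab
              rcases hab.eq_or_lt with h | h
              · rw [h]
              · have h1 := hcon (hs2 a b h).2
                simp only [Function.comp_apply] at h1
                by_contra h2
                exact absurd (hs2 _ _ (not_le.1 h2)).1 (not_lt.2 h1)
            have h3 : (id : Fin k → Fin k) ∘ σ = id ∘ (1 : Equiv.Perm (Fin k)) :=
              Tuple.unique_monotone (f := (id : Fin k → Fin k)) (σ := σ) (τ := 1) hmono
                monotone_id
            exact Equiv.ext (fun a => congrFun h3 a)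
          rw [hr, hc]
          omega

theorem straighten (row col : ℕ → ℕ) (L : Set {p : ℕ × ℕ // p.1 ≠ p.2}) (hL : Closed row col L)
    (k : ℕ) (κ : RR) (hκ : ∀ p ∈ κ.vars, p ∈ L) :
    ∃ κ' : RR, κ - κ' ∈ IR k ∧ ∀ m ∈ κ'.support, Good row col k m := by
  classical
  have h1 : κ ∈ Tsub row col k := by
    rw [← κ.support_sum_monomial_coeff]
    apply Submodule.sum_mem
    intro m hm
    have h2 : (monomial m (coeff m κ) : RR) = (coeff m κ) • monomial m (1 : ℂ) := by
      rw [smul_monomial, smul_eq_mul, mul_one]
    rw [h2]
    apply Submodule.smul_mem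
    refine monomial_mem_Tsub row col L hL k
      (Finsupp.weight (fun p : OCell => row p.1.1) m *
        Finsupp.weight (fun p : OCell => col p.1.2) m + 1) m ?_ (by omega)
    intro p hp
    exact hκ p ((mem_vars_iff_mem_support p).2 ⟨m, hm, hp⟩)
  obtain ⟨y, hy, z, hz, hyz⟩ := Submodule.mem_sup.1 h1
  refine ⟨z, ?_, ?_⟩
  · rw [← hyz, add_sub_cancel_right]
    exact hy
  · intro m hm
    exact ((mem_restrictSupport_iff ℂ).1 hz) hm

end MPf70651.Full
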