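import Pool.Agent.Lib_MP_f70651_al.Full.Pull

/-!
# MP_f70651_al, full version : Tnr
-/

namespace MPf70651.Full

open MPf70651 MvPolynomial

namespace TnrD

/-- the substitution `e ↦ 0`, `t_none ↦ e` -/
noncomputable def Th (ρ : ℕ) (β : Type) : QQ (KK ρ (Option β)) →ₐ[ℂ] QQ (KK ρ β) :=
  aeval (fun v : Option (ℕ × KK ρ (Option β)) => match v with
    | none => 0
    | some (i, Sum.inl q) => X (some (i, Sum.inl q))
    | some (_, Sum.inr none) => X none
    | some (i, Sum.inr (some b)) => X (some (i, Sum.inr b)))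

theorem Th_X (ρ : ℕ) (β : Type) : Th ρ β (X none) = 0 := by
  unfold Th
  rw [aeval_X]

theorem Th_MM (ρ : ℕ) (β : Type) (i j : ℕ) : Th ρ β (MM ρ (Option β) i j) = MM ρ β i j := by
  simp only [MM, Th, map_sum, map_mul, aeval_X]

theorem Th_TT (ρ : ℕ) (β : Type) (b : β) (i : ℕ) :
    Th ρ β (TT ρ (Option β) (some b) i) = TT ρ β b i := by
  simp only [TT, Th, aeval_X]

theorem Th_TT0 (ρ : ℕ) (β : Type) (i : ℕ) :
    Th ρ β (TT ρ (Option β) none i) = X none := by
  simp only [TT, Th, aeval_X]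

theorem Th_act (ρ : ℕ) (β : Type) (τ : ℕ ↪o ℕ) (x : QQ (KK ρ (Option β))) :
    (actQ (KK ρ β)).act τ (Th ρ β x) = Th ρ β ((actQ (KK ρ (Option β))).act τ x) := by
  have h : ((rename (actV (KK ρ β) τ) : QQ (KK ρ β) →ₐ[ℂ] QQ (KK ρ β)).comp (Th ρ β)) =
      (Th ρ β).comp (rename (actV (KK ρ (Option β)) τ) :
        QQ (KK ρ (Option β)) →ₐ[ℂ] QQ (KK ρ (Option β))) := by
    apply MvPolynomial.algHom_ext
    intro o
    rw [AlgHom.comp_apply, AlgHom.comp_apply, rename_X]
    unfold Th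
    rw [aeval_X, aeval_X]
    rcases o with _ | ⟨i, q | (_ | b)⟩
    · show rename (actV (KK ρ β) τ) (0 : QQ (KK ρ β)) = 0
      rw [map_zero]
    · show rename (actV (KK ρ β) τ) (X (some (i, Sum.inl q))) = X (some (τ i, Sum.inl q))
      rw [rename_X]
      rfl
    · show rename (actV (KK ρ β) τ) (X none) = X none
      rw [rename_X]
      rfl
    · show rename (actV (KK ρ β) τ) (X (some (i, Sum.inr b))) = X (some (τ i, Sum.inr b))
      rw [rename_X]
      rfl
  exact congrArg (fun g => g x) h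

/-- the lift of `PhiF` -/
noncomputable def Xi (ρ : ℕ) (β : Type) : FF β →ₐ[ℂ] QQ (KK ρ (Option β)) :=
  aeval (fun v : IF β => match v with
    | none => TT ρ (Option β) none 0
    | some (Sum.inl p) => MM ρ (Option β) p.1.1 p.1.2
    | some (Sum.inr q) => TT ρ (Option β) (some q.2) q.1)

theorem Th_Xi (ρ : ℕ) (β : Type) (x : FF β) : Th ρ β (Xi ρ β x) = PhiF ρ β x := by
  have h : (Th ρ β).comp (Xi ρ β) = PhiF ρ β := by
    apply MvPolynomial.algHom_ext
    intro o
    rw [AlgHom.comp_apply]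
    unfold Xi PhiF
    rw [aeval_X, aeval_X]
    rcases o with _ | (p | q)
    · exact Th_TT0 ρ β 0
    · exact Th_MM ρ β _ _
    · exact Th_TT ρ β _ _
  exact congrArg (fun g => g x) h

theorem Xi_mem (ρ : ℕ) (β : Type) (x : FF β) : Xi ρ β x ∈ Rr ρ (Option β) := by
  induction x using MvPolynomial.induction_on with
  | C a =>
    have : Xi ρ β (C a) = algebraMap ℂ _ a := by
      rw [← MvPolynomial.algebraMap_eq]
      exact AlgHom.commutes _ _
    rw [this]
    exact Subalgebra.algebraMap_mem _ a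
  | add p q hp hq =>
    rw [map_add]
    exact Subalgebra.add_mem _ hp hq
  | mul_X p v hp =>
    rw [map_mul]
    refine Subalgebra.mul_mem _ hp ?_
    unfold Xi
    rw [aeval_X]
    rcases v with _ | (p | q)
    · exact TT_mem_Rr ρ (Option β) none 0
    · exact MM_mem_Rr ρ (Option β) p.2
    · exact TT_mem_Rr ρ (Option β) (some q.2) q.1

theorem Th_mem (ρ : ℕ) (β : Type) (x : QQ (KK ρ (Option β))) (hx : x ∈ Rr ρ (Option β)) :
    Th ρ β x ∈ (PhiF ρ β).range := by
  have h : (Rr ρ (Option β)).map (Th ρ β) ≤ (PhiF ρ β).range := by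
    unfold Rr
    rw [AlgHom.map_adjoin, Algebra.adjoin_le_iff]
    rintro _ ⟨q, hq, rfl⟩
    rcases hq with ((hq | ⟨i, j, hij, rfl⟩) | ⟨i, rfl⟩) | ⟨b, i, rfl⟩
    · rw [Set.mem_singleton_iff] at hq
      rw [hq]
      show Th ρ β (X none) ∈ _
      rw [Th_X]
      exact Subalgebra.zero_mem _
    · refine ⟨yF β i j, ?_⟩
      exact (PhiF_yF ρ β hij).trans (Th_MM ρ β i j).symm
    · show Th ρ β (X none * MM ρ (Option β) i i) ∈ _
      rw [map_mul, Th_X, zero_mul]
      exact Subalgebra.zero_mem _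
    · rcases b with _ | b
      · refine ⟨X none, ?_⟩
        refine Eq.trans ?_ (Th_TT0 ρ β i).symm
        unfold PhiF
        exact aeval_X _ _
      · refine ⟨X (some (Sum.inr (i, b))), ?_⟩
        refine Eq.trans ?_ (Th_TT ρ β b i).symm
        unfold PhiF
        exact aeval_X _ _
  exact h ⟨x, hx, rfl⟩

end TnrD

open TnrD in
theorem noeth_range (ρ : ℕ) (hR : RN ρ) (β : Type) [Fintype β] (w : ℕ) :
    Noeth (actQ (KK ρ β)) (PhiF ρ β).range.toSubring (cst w ⊥)
      (cst w (PhiF ρ β).range.toSubring.toAddSubgroup) := by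
  refine pull (S1 := actQ (KK ρ (Option β))) (B1 := (Rr ρ (Option β)).toSubring)
    (b1 := cst w ⊥) (stab_Rr ρ (Option β)) (fun _ => (Th ρ β : _ →+* _)) ?_ ?_ ?_ ?_ ?_
    (hR (Option β) w)
  · intro φ τ x _
    exact Th_act ρ β τ x
  · intro φ x hx
    exact Th_mem ρ β x hx
  · intro φ
    exact bot_le
  · intro φ x hx
    have hx0 : x = 0 := hx
    rw [hx0, map_zero]
    exact AddSubgroup.zero_mem _
  · intro φ y hy
    obtain ⟨z, hz⟩ := hy
    refine ⟨Xi ρ β z, Xi_mem ρ β z, ?_⟩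
    have h1 : y - (Th ρ β) (Xi ρ β z) = 0 := by
      rw [Th_Xi, sub_eq_zero]
      exact hz.symm
    show y - (Th ρ β) (Xi ρ β z) ∈ cst w ⊥ φ
    rw [h1]
    exact AddSubgroup.zero_mem _

end MPf70651.Full
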